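import Pool.Agent.MP_20d318_ag.AG.Ell
import Pool.Agent.MP_20d318_ag.Lat.Lin

/-! Statements of the modules of the geometric side. -/

set_option autoImplicit false

namespace Pool.Agent.MP_20d318_ag.AG

open Pool.Agent.MP_79c67d_ag Pool.Agent.MP_20d318_ag.Lat E Polynomial
open scoped IntermediateField

section defs

variable {k K : Type} [Field k] [Field K] [Algebra k K] {ι : Type}

variable (k) in
/-- The generic point of a product of copies of the elliptic curve. -/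
structure Gen (x y : ι → K) : Prop where
  ind : AlgebraicIndependent k y
  eq : ∀ i, y i ^ 2 = x i ^ 3 + 1
  top : IntermediateField.adjoin k (Set.range x ∪ Set.range y) = ⊤

/-- In both charts the curve is `v ^ 3 = gg b u`. -/
def gg {C : Type} [CommRing C] (b : Bool) (u : C) : C := if b then u ^ 2 - 1 else u - u ^ 3

/-- The coordinate `y` or `1 / y`. -/
def cu (y : ι → K) (c : ι → Bool) (i : ι) : K := if c i then y i else (y i)⁻¹

/-- The coordinate `x` or `x / y`. -/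
def cv (x y : ι → K) (c : ι → Bool) (i : ι) : K := if c i then x i else x i / y i

theorem chart_eq (x y : ι → K) (c : ι → Bool) :
    chart x y c = Algebra.adjoin k (Set.range (cv x y c) ∪ Set.range (cu y c)) := rfl

variable (k) in
/-- The chart of the partial product. -/
def chartOn (x y : ι → K) (c : ι → Bool) (s : Set ι) : Subalgebra k K :=
  Algebra.adjoin k (cv x y c '' s ∪ cu y c '' s)

variable (k) in
/-- The function field of the partial product. -/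
def fld (x y : ι → K) (s : Set ι) : IntermediateField k K :=
  IntermediateField.adjoin k (x '' s ∪ y '' s)

/-- The coordinates `s = 1 / y`. -/
def sc (y : ι → K) (i : ι) : K := (y i)⁻¹

/-- The coordinates `t = x / y`. -/
def tc (x y : ι → K) (i : ι) : K := x i / y i

variable (k) in
/-- The charts of the blow-up. -/
def bch (x y : ι → K) (j : ι) : Subalgebra k K :=
  Algebra.adjoin k (Set.range (sc y) ∪ Set.range (tc x y) ∪ Set.range fun i => tc x y i / tc x y j)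

/-- The point `O` lies over the fixed point `p`. -/
def Over (s : Fin 3 → K) (p : Pt 3) (O : Subalgebra k K) : Prop := ∀ i, s i - sv (p i) ∈ mx O

open Classical in
/-- Local equations of the divisor `s = sv c`. -/
noncomputable def ec (s τ : K) (c : ZMod 3) (O : Subalgebra k K) : K :=
  if s - sv c ∈ mx O then τ else 1

open Classical in
/-- Local equations of the exceptional divisor over `p`. -/
noncomputable def ep (s τ : Fin 3 → K) (p : Pt 3) (O : Subalgebra k K) : K :=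
  if Over s p O then τ (Classical.epsilon fun j => ∀ i, τ i / τ j ∈ O) else 1

/-- The data of the main theorem. -/
structure Setup (w : k) (x y : Fin 3 → K) (σ : K ≃ₐ[k] K) : Prop extends Gen k x y where
  hw : w ^ 2 + w + 1 = 0
  σx : ∀ i, σ (x i) = algebraMap k K w * x i
  σy : ∀ i, σ (y i) = y i

/-- The projections to the factors, as points of the curve. -/
noncomputable def zz (x y : ι → K) (i : ι) : E K := mk (x i) (y i)

/-- The restriction of a point to a curve. -/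
noncomputable def Curve.pull {Y : Set (Subalgebra k K)} (ν : Curve Y) (Q : E K) : E ν.L :=
  res ν.gen ν.ρ Q

/-- `Z` is the class of the curve `ν` on the blow-up. -/
def IsZ [CharZero K] (w : k) (x y : Fin 3 → K) {Y : Set (Subalgebra k K)} (ν : Curve Y) (Z : W 3) : Prop :=
  (∀ l, ev Z.1 l = ht k (ν.pull (lin (algebraMap k K w) l (zz x y)))) ∧
    ∀ p, Z.2 p = ν.deg (ep (sc y) (tc x y) p)

/-- The field of invariants. -/
abbrev Fx (σ : K ≃ₐ[k] K) : IntermediateField k K :=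
  IntermediateField.fixedField (Subgroup.zpowers σ)

theorem quot_mem (σ : K ≃ₐ[k] K) (Y : Set (Subalgebra k K)) :
    ∀ O ∈ Y, O.comap (Fx σ).val ∈ quot σ Y := fun O h => ⟨O, h, rfl⟩

/-- The image of a curve in the quotient. -/
def Curve.down (σ : K ≃ₐ[k] K) {Y : Set (Subalgebra k K)} (ν : Curve Y) : Curve (quot σ Y) :=
  ν.push (Fx σ).val (quot_mem σ Y)

end defs

/-! ### KRULL -/

def NoethStmt : Prop := ∀ (k K : Type) [Field k] [Field K] [Algebra k K] (G : Set K), G.Finite →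
  ∀ O ∈ Pts (Algebra.adjoin k G), IsNoetherianRing O

def NrmLocStmt : Prop := ∀ (k K : Type) [Field k] [Field K] [Algebra k K] (R C : Subalgebra k K),
  Nrm R → R ≤ C → (∀ f ∈ C, ∃ a ∈ R, ∃ b ∈ R, IsU C b ∧ f = a / b) → Nrm C

def DvrStmt : Prop := ∀ (k K : Type) [Field k] [Field K] [Algebra k K] (O : Subalgebra k K),
  IsLocalRing O → IsNoetherianRing O → Frac O → ∀ π ∈ mx O, π ≠ 0 → (∀ a ∈ mx O, a / π ∈ O) →
    ∃ P : Place k K, plO P = O ∧ P.ord π = 1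

def KrullStmt : Prop := ∀ (k K : Type) [Field k] [Field K] [Algebra k K] (O : Subalgebra k K),
  IsNoetherianRing O → Nrm O → Frac O → ∀ f : K,
    (∀ P : Place k K, plO P ∈ Pts O → f ∈ plO P) → f ∈ O

def PoleStmt : Prop := ∀ (k K : Type) [Field k] [Field K] [Algebra k K] (G : Set K), G.Finite →
  Frac (Algebra.adjoin k G) → ∀ f : K,
    {P : Place k K | plO P ∈ Pts (Algebra.adjoin k G) ∧ P.ord f ≠ 0}.Finite

/-! ### STEP1 -/

def RepStmt : Prop := ∀ (k K : Type) [Field k] [Field K] [Algebra k K] (V : Subalgebra k K)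
  (b : Bool) (u v : K), v ^ 3 = gg b u → ∀ f ∈ Algebra.adjoin k ((V : Set K) ∪ {u, v}),
    ∃ A0 A1 A2 : V[X], f = aeval u A0 + aeval u A1 * v + aeval u A2 * v ^ 2

def IndepStmt : Prop := ∀ (R C : Type) [CommRing R] [IsDomain R] [CharZero R] [CommRing C]
  [Algebra R C] (b : Bool) (u v : C), Transcendental R u → v ^ 3 = gg b u → ∀ A0 A1 A2 : R[X],
    aeval u A0 + aeval u A1 * v + aeval u A2 * v ^ 2 = 0 → A0 = 0 ∧ A1 = 0 ∧ A2 = 0

def Hom1Stmt : Prop := ∀ (k K C : Type) [Field k] [CharZero k] [Field K] [Algebra k K] [CommRing C]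
  [Algebra k C] (V : Subalgebra k K) (b : Bool) (u v : K) (φ : V →ₐ[k] C) (u' v' : C),
  Transcendental V u → v ^ 3 = gg b u → v' ^ 3 = gg b u' →
    ∃ ψ : Algebra.adjoin k ((V : Set K) ∪ {u, v}) →ₐ[k] C,
      (∀ (a : V) h, ψ ⟨a, h⟩ = φ a) ∧ (∀ h, ψ ⟨u, h⟩ = u') ∧ ∀ h, ψ ⟨v, h⟩ = v'

def Frac1Stmt : Prop := ∀ (k K : Type) [Field k] [CharZero k] [Field K] [Algebra k K]
  (M : IntermediateField k K) (b : Bool) (u v : K), Transcendental M u → v ^ 3 = gg b u →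
    ∀ f ∈ IntermediateField.adjoin k ((M : Set K) ∪ {u, v}), ∃ A0 A1 A2 d : M[X], d ≠ 0 ∧
      f * aeval u d = aeval u A0 + aeval u A1 * v + aeval u A2 * v ^ 2

def Nrm1Stmt : Prop := ∀ (k K : Type) [Field k] [CharZero k] [Field K] [Algebra k K] (w : k)
  (M : IntermediateField k K) (V : Subalgebra k K) (b : Bool) (u v : K), w ^ 2 + w + 1 = 0 →
  V ≤ M.toSubalgebra → (∀ f ∈ M, ∃ a ∈ V, ∃ d ∈ V, d ≠ 0 ∧ f = a / d) →
  (∀ f ∈ M, IsIntegral V f → f ∈ V) → Transcendental M u → v ^ 3 = gg b u →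
    ∀ f ∈ IntermediateField.adjoin k ((M : Set K) ∪ {u, v}),
      IsIntegral (Algebra.adjoin k ((V : Set K) ∪ {u, v})) f →
        f ∈ Algebra.adjoin k ((V : Set K) ∪ {u, v})

/-! ### STEPN -/

def HomStmt : Prop := ∀ (k K C ι : Type) [Field k] [CharZero k] [Field K] [Algebra k K]
  [CommRing C] [Algebra k C] [Finite ι] (x y : ι → K) (c : ι → Bool) (u' v' : ι → C), Gen k x y →
  (∀ i, v' i ^ 3 = gg (c i) (u' i)) → ∃ φ : (chart x y c : Subalgebra k K) →ₐ[k] C,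
    (∀ i h, φ ⟨cu y c i, h⟩ = u' i) ∧ ∀ i h, φ ⟨cv x y c i, h⟩ = v' i

def FieldHomStmt : Prop := ∀ (k K L ι : Type) [Field k] [CharZero k] [Field K] [Algebra k K]
  [Field L] [Algebra k L] [Finite ι] (x y : ι → K) (x' y' : ι → L), Gen k x y →
  AlgebraicIndependent k y' → (∀ i, y' i ^ 2 = x' i ^ 3 + 1) →
    ∃ φ : K →ₐ[k] L, (∀ i, φ (x i) = x' i) ∧ ∀ i, φ (y i) = y' i

def FracStmt : Prop := ∀ (k K ι : Type) [Field k] [Field K] [Algebra k K] (x y : ι → K)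
  (c : ι → Bool), Gen k x y → Frac (chart x y c : Subalgebra k K)

def NrmStmt : Prop := ∀ (k K ι : Type) [Field k] [CharZero k] [Field K] [Algebra k K] [Finite ι]
  (w : k) (x y : ι → K) (c : ι → Bool), w ^ 2 + w + 1 = 0 → Gen k x y →
    Nrm (chart x y c : Subalgebra k K)

def RestrStmt : Prop := ∀ (k K ι : Type) [Field k] [CharZero k] [Field K] [Algebra k K] [Finite ι]
  (x y : ι → K) (c : ι → Bool) (s : Set ι), Gen k x y → ∀ O ∈ Pts (chart x y c : Subalgebra k K),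
    O ⊓ (fld k x y s).toSubalgebra ∈ Pts (chartOn k x y c s)

/-! ### UNIQ -/

def UniqStmt : Prop := ∀ (k K ι : Type) [Field k] [CharZero k] [Field K] [Algebra k K] [Finite ι]
  (x y : ι → K) (s : Set ι) (P P' : Place k K), Gen k x y → plO P ∈ prodE k x y →
  plO P' ∈ prodE k x y → (∀ f ∈ fld k x y s, f ∈ plO P ↔ f ∈ plO P') →
  (∃ f ∈ fld k x y s, f ∉ plO P) → P = P'

/-! ### BHOM -/

def TrdStmt : Prop := ∀ (k L ι : Type) [Field k] [Field L] [Algebra k L] [Finite ι] (a b : ι → L),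
  AlgebraicIndependent k a → (∀ i, IsAlgebraic (Algebra.adjoin k (Set.range b)) (a i)) →
    AlgebraicIndependent k b

def BHomStmt : Prop := ∀ (k K C : Type) [Field k] [CharZero k] [Field K] [Algebra k K] [CommRing C]
  [Algebra k C] (x y : Fin 3 → K) (p : Pt 3) (j : Fin 3) (r : Fin 3 → C), Gen k x y → r j = 1 →
    ∃ χ : bch k x y j →ₐ[k] C, (∀ i h, χ ⟨sc y i, h⟩ = ((p i).valMinAbs : C)) ∧
      (∀ i h, χ ⟨tc x y i, h⟩ = 0) ∧ ∀ i h, χ ⟨tc x y i / tc x y j, h⟩ = r i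

/-! ### RED -/

def LocStmt : Prop := ∀ (L Γ : Type) [Field L] [CharZero L] [LinearOrderedCommGroupWithZero Γ]
  (v : Valuation L Γ), v 2 = 1 → v 3 = 1 → ∀ P Q : E L, P ≠ 0 → Q ≠ 0 → P + Q ≠ 0 → P - Q ≠ 0 →
    v (P.X - Q.X) ^ 2 * (max 1 (v (P + Q).X) * max 1 (v (P - Q).X)) =
      (max 1 (v P.X) * max 1 (v Q.X)) ^ 2

def RedStmt : Prop := ∀ (k K L : Type) [Field k] [CharZero k] [Field K] [CharZero K] [Algebra k K]
  [Field L] [CharZero L] [Algebra k L] (V : Subalgebra k K) (ρ : V →ₐ[k] L), IsVal V → LocHom V ρ →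
    ∀ P Q : E K, res V ρ (P + Q) = res V ρ P + res V ρ Q

def RegStmt : Prop := ∀ (k K L : Type) [Field k] [CharZero k] [Field K] [CharZero K] [Algebra k K]
  [Field L] [CharZero L] [Algebra k L] (O : Subalgebra k K) (ρ : O →ₐ[k] L), Nrm O → LocHom O ρ →
    ∀ P Q : E K, Reg O P → Reg O Q → Reg O (P + Q) ∧ res O ρ (P + Q) = res O ρ P + res O ρ Q

/-! ### HT -/

open Classical in
structure HtFacts (k L : Type) [Field k] [CharZero k] [Field L] [CharZero L] [Algebra k L] :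
    Prop where
  fin : ∀ Q : E L, (Function.support fun P : Place k L => mloc P Q).Finite
  nonneg : ∀ Q : E L, 0 ≤ ht k Q
  par : ∀ P Q : E L, ht k (P + Q) + ht k (P - Q) = 2 * ht k P + 2 * ht k Q
  const : ∀ (Q : E L) (c : E k), ht k (Q + pmap (algebraMap k L) c) = ht k Q
  zero : ∀ Q : E L, ht k Q = 0 ↔ ∃ c : E k, Q = pmap (algebraMap k L) c
  sm : ∀ w : k, w ^ 2 + w + 1 = 0 → ∀ (a : O) (Q : E L),
    ht k (sm (algebraMap k L w) a Q) = (a.re ^ 2 - a.re * a.im + a.im ^ 2) * ht k Q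
  htc : ∀ (Q : E L) (c : ZMod 3), Q ≠ fx c → ht k Q =
    ∑ᶠ P : Place k L, if Q.Y ≠ 0 ∧ P.v (Q.ss - sv c) < 1 then P.ord Q.tt else 0
  deg : ∀ Q : E L, Transcendental k Q.X → 2 * ht k Q = Module.finrank k⟮Q.X⟯ L

def HtStmt : Prop := ∀ (k L : Type) [Field k] [CharZero k] [IsAlgClosed k] [Field L] [CharZero L]
  [Algebra k L] [IsFF k L], HtFacts k L

def FFStmt : Prop := ∀ (k L : Type) [Field k] [CharZero k] [IsAlgClosed k] [Field L] [CharZero L]
  [Algebra k L] (x y : L), Gen k (fun _ : Unit => x) (fun _ => y) → IsFF k L ∧ ht k (mk x y) = 1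

/-! ### MW1, MW3 -/

def MW1Stmt : Prop := ∀ (k L : Type) [Field k] [CharZero k] [IsAlgClosed k] [Field L] [CharZero L]
  [Algebra k L] (w : k) (x y : L), w ^ 2 + w + 1 = 0 → Gen k (fun _ : Unit => x) (fun _ => y) →
    ∀ Q : E L, ∃ (a : O) (c : E k), Q = sm (algebraMap k L w) a (mk x y) + pmap (algebraMap k L) c

def MW3Stmt : Prop := ∀ (k K : Type) [Field k] [CharZero k] [IsAlgClosed k] [Field K] [CharZero K]
  [Algebra k K] (n : ℕ) (w : k) (x y : Fin n → K), w ^ 2 + w + 1 = 0 → Gen k x y →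
    ∀ Q : E K, ∃ (l : Vec n) (c : E k),
      Q = lin (algebraMap k K w) l (zz x y) + pmap (algebraMap k K) c

/-! ### HOR -/

def HorStmt : Prop := ∀ (k K : Type) [Field k] [CharZero k] [Field K] [Algebra k K]
  (M : IntermediateField k K) (x y : K), Transcendental M y → y ^ 2 = x ^ 3 + 1 →
  ∀ O ∈ Pts (Algebra.adjoin k ((M : Set K) ∪ {y, x})), (∃ g ∈ mx O, g ≠ 0) →
    ∃ f ∈ Algebra.adjoin k ((M : Set K) ∪ {y, x}), f ≠ 0 ∧ f ∈ mx O ∧
      ∀ O' ∈ Pts (Algebra.adjoin k ((M : Set K) ∪ {y, x})), f ∈ mx O' → O' = O ∨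
        ∃ a ∈ M, ∃ b ∈ M, b ^ 2 = a ^ 3 + 1 ∧ x - a ∈ mx O' ∧ y - b ∈ mx O'

/-! ### SEE -/

open Classical in
def SeeStmt : Prop := ∀ (k K ι : Type) [Field k] [CharZero k] [Field K] [CharZero K] [Algebra k K]
  [Finite ι] (x y : ι → K), Gen k x y →
  ∀ T : Submodule ℚ ({P : Place k K // plO P ∈ prodE k x y} → ℚ),
    (∀ h : K, h ≠ 0 → (fun P => (P.1.ord h : ℚ)) ∈ T) →
    (∀ Q : E K, Q.Y ≠ 0 → (fun P => (P.1.ord (ec Q.ss Q.tt 0 (plO P.1)) : ℚ)) ∈ T) →
      ∀ P, Pi.single P 1 ∈ T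

/-! ### TR -/

def TrStmt : Prop := ∀ (k L L' : Type) [Field k] [CharZero k] [IsAlgClosed k] [Field L] [Field L']
  [Algebra k L] [Algebra k L'] [Algebra L L'] [IsScalarTower k L L'] [IsFF k L]
  [FiniteDimensional L L'], ∃ r : Place k L' → Place k L,
    (∀ P g, P.v (algebraMap L L' g) ≤ 1 ↔ (r P).v g ≤ 1) ∧ ∀ g : Place k L → L,
      (Function.support fun P : Place k L' => P.ord (algebraMap L L' (g (r P)))).Finite →
        ∑ᶠ P : Place k L', P.ord (algebraMap L L' (g (r P))) =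
          Module.finrank L L' * ∑ᶠ P : Place k L, P.ord (g P)

/-! ### YMOD, EXC -/

structure YFacts {k K : Type} [Field k] [Field K] [Algebra k K] (x y : Fin 3 → K)
    (σ : K ≃ₐ[k] K) : Prop where
  good : Good (blE x y σ)
  fix : ∀ O, O ∈ fixPts σ (prodE k x y) ↔ O ∈ prodE k x y ∧ ∃ p, Over (sc y) p O
  mem : ∀ O, O ∈ blE x y σ ↔
    (O ∈ prodE k x y ∧ ∀ p, ¬ Over (sc y) p O) ∨ ∃ j, O ∈ Pts (bch k x y j)
  memA : ∀ O ∈ blE x y σ, (∀ p, ¬ Over (sc y) p O) → O ∈ prodE k x y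
  memB : ∀ O ∈ blE x y σ, ∀ p, Over (sc y) p O → ∃ j, O ∈ Pts (bch k x y j)
  chart_le : ∀ O ∈ blE x y σ, ∃ c, chart x y c ≤ O
  stab : ∀ O ∈ blE x y σ, ∃ G : Set K, G.Finite ∧ (∀ a ∈ Algebra.adjoin k G,
    σ a ∈ Algebra.adjoin k G) ∧ O ∈ Pts (Algebra.adjoin k G) ∧ Pts (Algebra.adjoin k G) ⊆ blE x y σ
  top : ⊤ ∈ blE x y σ

def YStmt : Prop := ∀ (k K : Type) [Field k] [CharZero k] [Field K] [Algebra k K] (w : k)
  (x y : Fin 3 → K) (σ : K ≃ₐ[k] K), Setup w x y σ → YFacts x y σ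

structure ExcFacts {k K : Type} [Field k] [Field K] [Algebra k K] (x y : Fin 3 → K)
    (σ : K ≃ₐ[k] K) : Prop where
  exc : ∀ p, ∃ P : Place k K, plO P ∈ blE x y σ ∧ Over (sc y) p (plO P) ∧
    (∀ i, P.ord (tc x y i) = 1) ∧ ∀ O ∈ blE x y σ, Over (sc y) p O → O ≤ plO P ∧
      ∀ f ∈ O, f ∈ mx (plO P) → f / ep (sc y) (tc x y) p O ∈ O
  nrm : ∀ O ∈ blE x y σ, Nrm O
  nrmA : ∀ O ∈ prodE k x y, Nrm O
  dv : ∀ P : Place k K, plO P ∈ prodE k x y → ∀ p, ¬ Over (sc y) p (plO P)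
  krull : ∀ O ∈ blE x y σ, ∀ f : K,
    (∀ P : Place k K, plO P ∈ blE x y σ → O ≤ plO P → f ∈ plO P) → f ∈ O

def ExcStmt : Prop := ∀ (k K : Type) [Field k] [CharZero k] [Field K] [Algebra k K] (w : k)
  (x y : Fin 3 → K) (σ : K ≃ₐ[k] K), Setup w x y σ → ExcFacts x y σ

/-! ### DEG, CUR, CLS, TEST, GL, LIFT, EFF -/

def DegStmt : Prop := ∀ (k K : Type) [Field k] [CharZero k] [IsAlgClosed k] [Field K] [CharZero K]
  [Algebra k K] (Y : Set (Subalgebra k K)) (ν : Curve Y) (Q : E K) (c : ZMod 3), Q.Y ≠ 0 →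
    (∀ O ∈ Y, IsLocalRing O ∧ Reg O Q) → ν.deg (ec Q.ss Q.tt c) = ht k (ν.pull Q)

def CurStmt : Prop := ∀ (k K : Type) [Field k] [CharZero k] [IsAlgClosed k] [Field K] [CharZero K]
  [Algebra k K] (w : k) (x y : Fin 3 → K) (σ : K ≃ₐ[k] K), Setup w x y σ →
    ∀ ν : Curve (blE x y σ), ∃ Z : W 3, IsZ w x y ν Z ∧ (Cur Z ∨ (Z.1 = 0 ∧ ∀ p, Z.2 p ≤ 0))

def ClsStmt : Prop := ∀ (k K : Type) [Field k] [CharZero k] [IsAlgClosed k] [Field K] [CharZero K]
  [Algebra k K] (w : k) (x y : Fin 3 → K) (σ : K ≃ₐ[k] K), Setup w x y σ →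
    ∀ f, IsCart (blE x y σ) f → ∃ D : W 3, D.1.IsHermitian ∧
      ∀ (ν : Curve (blE x y σ)) (Z : W 3), IsZ w x y ν Z → (ν.deg f : ℝ) = inter D Z

def TestEStmt : Prop := ∀ (k K : Type) [Field k] [CharZero k] [IsAlgClosed k] [Field K]
  [CharZero K] [Algebra k K] (w : k) (x y : Fin 3 → K) (σ : K ≃ₐ[k] K), Setup w x y σ →
    ∀ p : Pt 3, ∃ (ν : Curve (blE x y σ)) (κ : ℝ), 0 < κ ∧
      IsZ w x y ν (0, fun q => if q = p then -κ else 0)

def TestLStmt : Prop := ∀ (k K : Type) [Field k] [CharZero k] [IsAlgClosed k] [Field K]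
  [CharZero K] [Algebra k K] (w : k) (x y : Fin 3 → K) (σ : K ≃ₐ[k] K), Setup w x y σ →
    ∀ p : Pt 3, ∃ ν : Curve (blE x y σ),
      IsZ w x y ν (rk (Pi.single 0 1), fun q => if q 1 = p 1 ∧ q 2 = p 2 then 1 else 0)

def TestGStmt : Prop := ∀ (k K : Type) [Field k] [CharZero k] [IsAlgClosed k] [Field K]
  [CharZero K] [Algebra k K] (w : k) (x y : Fin 3 → K) (σ : K ≃ₐ[k] K), Setup w x y σ →
    ∀ T : Finset K, ∃ ν : Curve (blE x y σ),
      IsZ w x y ν (rk (Pi.single 0 1), 0) ∧ ∀ a ∈ T, a ∈ ν.gen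

def GlStmt : Prop := ∀ (k K : Type) [Field k] [CharZero k] [IsAlgClosed k] [Field K] [CharZero K]
  [Algebra k K] (w : k) (x y : Fin 3 → K) (σ : K ≃ₐ[k] K), Setup w x y σ →
    ∀ g : Matrix (Fin 3) (Fin 3) O, IsUnit g → ∃ φ : Aut (blE x y σ),
      (∀ f, φ.1 (σ f) = σ (φ.1 f)) ∧ ∀ (ν : Curve (blE x y σ)) (Z Z' : W 3), IsZ w x y ν Z →
        IsZ w x y (ν.push (φ.1 : K →ₐ[k] K) fun O => (φ.2 O).1) Z' →
          (∀ l, ev Z'.1 l = ev Z.1 (Matrix.vecMul l g)) ∧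
            ∀ p, Z'.2 ((g.map red).mulVec p) = Z.2 p

def LiftStmt : Prop := ∀ (k K : Type) [Field k] [CharZero k] [IsAlgClosed k] [Field K] [CharZero K]
  [Algebra k K] (w : k) (x y : Fin 3 → K) (σ : K ≃ₐ[k] K), Setup w x y σ →
    ∀ ν : Curve (quot σ (blE x y σ)), ∃ (ν' : Curve (blE x y σ)) (d : ℕ), 0 < d ∧
      ∀ f, IsCart (quot σ (blE x y σ)) f → (ν'.down σ).deg f = d * ν.deg f

def EffStmt : Prop := ∀ (k K : Type) [Field k] [CharZero k] [IsAlgClosed k] [Field K] [CharZero K]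
  [Algebra k K] (w : k) (x y : Fin 3 → K) (σ : K ≃ₐ[k] K), Setup w x y σ →
    (∀ c, ∃ D : Cartier (quot σ (blE x y σ)), D.Effective ∧ ∀ (ν : Curve (blE x y σ)) (Z : W 3),
      IsZ w x y ν Z → ((ν.down σ).deg D.f : ℝ) = inter ((3 : ℝ) • clS (Pi.single 0 1) c) Z) ∧
    ∀ p, ∃ D : Cartier (quot σ (blE x y σ)), D.Effective ∧ ∀ (ν : Curve (blE x y σ)) (Z : W 3),
      IsZ w x y ν Z → ((ν.down σ).deg D.f : ℝ) = inter ((3 : ℝ) • clE p) Z

/-! ### FINAL -/

def MainStmt : Prop := ∀ (k K : Type) [Field k] [CharZero k] [IsAlgClosed k] [Field K]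
  [Algebra k K] (w : k) (x y : Fin 3 → K) (σ : K ≃ₐ[k] K), Setup w x y σ →
    ConeStatement (quot σ (blE x y σ))

end Pool.Agent.MP_20d318_ag.AG
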