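import Pool.Agent.MP_20d318_ag.AG.Base
import Pool.Agent.MP_20d318_ag.Lat.StarH

/-! From the lattice side to the cone statement. -/

set_option autoImplicit false

namespace Pool.Agent.MP_20d318_ag.AG

open Pool.Agent.MP_79c67d_ag Pool.Agent.MP_20d318_ag.Lat

variable {k K : Type} [Field k] [Field K] [Algebra k K] {X : Set (Subalgebra k K)}

/-- The class of a Cartier divisor in `N1`. -/
noncomputable def Cartier.n1 (D : Cartier X) : N1 X := ⟨D.cls, Submodule.subset_span ⟨D, rfl⟩⟩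

/-- Pull-back of a Cartier divisor by an automorphism. -/
noncomputable def Cartier.pull (g : Aut X) (D : Cartier X) : Cartier X where
  f O := g.1 (D.f (O.comap (g.1 : K →ₐ[k] K)))
  loc O hO := by
    classical
    obtain ⟨T, h1, h2⟩ := D.loc _ ((g.2 O).1 hO)
    refine ⟨T.image g.1, fun a ha => ?_, fun O' hO' h => ?_⟩
    · obtain ⟨b, hb, rfl⟩ := Finset.mem_image.1 ha
      exact h1 b hb
    · have := (isU_comap _).1 (h2 _ ((g.2 O').1 hO') fun a ha => h _ (Finset.mem_image_of_mem _ ha))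
      rwa [map_div₀] at this

theorem Cartier.cls_pull (g : Aut X) (D : Cartier X) : (D.pull g).cls = g.act D.cls := by
  funext ν
  simp only [Cartier.cls, Aut.act, Curve.deg_push]
  rfl

theorem Cartier.Effective.pull (g : Aut X) {D : Cartier X} (h : D.Effective) :
    (D.pull g).Effective := fun O hO => h _ ((g.2 O).1 hO)

/-- The action of an automorphism on `N1`. -/
noncomputable def Aut.n1 (g : Aut X) : N1 X →ₗ[ℝ] N1 X :=
  (LinearMap.funLeft ℝ ℝ fun ν : Curve X =>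
    ν.push (g.1 : K →ₐ[k] K) fun O => (g.2 O).1).restrict fun ξ hξ => by
    induction hξ using Submodule.span_induction with
    | mem x hx =>
      obtain ⟨D, rfl⟩ := hx
      exact Submodule.subset_span ⟨D.pull g, D.cls_pull g⟩
    | zero => simp
    | add x y _ _ hx hy => rw [map_add]; exact add_mem hx hy
    | smul a x _ hx => rw [map_smul]; exact Submodule.smul_mem _ a hx

theorem Aut.n1_val (g : Aut X) (ξ : N1 X) : (g.n1 ξ).1 = g.act ξ.1 := rfl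

theorem Aut.n1_n1 (g : Aut X) (D : Cartier X) : g.n1 D.n1 = (D.pull g).n1 :=
  Subtype.ext (D.cls_pull g).symm

/-- The identity. -/
def Aut.one : Aut X := ⟨1, fun _ => Iff.rfl⟩

/-- Composition. -/
def Aut.mul (g h : Aut X) : Aut X := ⟨g.1 * h.1, fun O => (g.2 O).trans (h.2 _)⟩

/-- Inverse. -/
def Aut.inv (g : Aut X) : Aut X := ⟨g.1⁻¹, fun O => by
  rw [g.2 (O.comap _)]
  have : (O.comap ((g.1⁻¹ : K ≃ₐ[k] K) : K →ₐ[k] K)).comap (g.1 : K →ₐ[k] K) = O := by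
    ext x; simp
  rw [this]⟩

theorem Aut.act_one (ξ : Curve X → ℝ) : (Aut.one : Aut X).act ξ = ξ := rfl

theorem Aut.act_mul (g h : Aut X) (ξ : Curve X → ℝ) : (g.mul h).act ξ = g.act (h.act ξ) := rfl

theorem Aut.inv_mul (g : Aut X) : g.inv.mul g = Aut.one := Subtype.ext (inv_mul_cancel g.1)

theorem Aut.mul_inv (g : Aut X) : g.mul g.inv = Aut.one := Subtype.ext (mul_inv_cancel g.1)

/-- The action on `N1` as an equivalence. -/
noncomputable def Aut.eqv (g : Aut X) : N1 X ≃ₗ[ℝ] N1 X :=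
  LinearEquiv.ofLinearMap g.n1 g.inv.n1
    (LinearMap.ext fun ξ => Subtype.ext (by
      change g.act (g.inv.act ξ.1) = ξ.1
      rw [← Aut.act_mul, Aut.mul_inv, Aut.act_one]))
    (LinearMap.ext fun ξ => Subtype.ext (by
      change g.inv.act (g.act ξ.1) = ξ.1
      rw [← Aut.act_mul, Aut.inv_mul, Aut.act_one]))

variable (X) in
/-- The image of the automorphism group. -/
def autG : Subgroup (N1 X ≃ₗ[ℝ] N1 X) where
  carrier := Set.range Aut.eqv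
  one_mem' := ⟨Aut.one, rfl⟩
  mul_mem' := by
    rintro _ _ ⟨g, rfl⟩ ⟨h, rfl⟩
    exact ⟨g.mul h, rfl⟩
  inv_mem' := by
    rintro _ ⟨g, rfl⟩
    exact ⟨g.inv, LinearEquiv.ext fun _ => rfl⟩

/-- The degree on a curve. -/
def Curve.lin (ν : Curve X) : N1 X →ₗ[ℝ] ℝ := (LinearMap.proj ν).comp (N1 X).subtype

theorem cone_image {M N : Type*} [AddCommGroup M] [Module ℝ M] [AddCommGroup N] [Module ℝ N]
    (f : M →ₗ[ℝ] N) (R : Set M) : cone (f '' R) = f '' cone R :=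
  Set.Subset.antisymm (((isCone_cone R).image f).cone_subset (Set.image_mono (subset_cone R)))
    (Set.image_subset_iff.2 (((isCone_cone _).preimage f).cone_subset
      fun x hx => subset_cone _ ⟨x, hx, rfl⟩))

theorem interior_subset_core {N : Type*} [AddCommGroup N] [Module ℝ N] [TopologicalSpace N]
    [ContinuousAdd N] [ContinuousSMul ℝ N] (S : Set N) : interior S ⊆ core S := by
  intro x hx v
  have hc : Continuous fun ε : ℝ => x + ε • v := by fun_prop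
  have h1 : ∀ᶠ ε in nhds (0 : ℝ), x + ε • v ∈ S :=
    (hc.tendsto 0).eventually (by simpa using mem_interior_iff_mem_nhds.1 hx)
  obtain ⟨ε, h2, h3⟩ := ((h1.filter_mono nhdsWithin_le_nhds).and
    (self_mem_nhdsWithin (s := Set.Ioi 0))).exists
  exact ⟨ε, h3, h2⟩

/-- What the geometry has to supply, on the model. -/
structure Geo (X : Set (Subalgebra k K)) (Φ : N1 X →ₗ[ℝ] W 3) : Prop where
  inj : Function.Injective Φ
  herm : ∀ ξ, (Φ ξ).1.IsHermitian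
  efS : ∀ c, ∃ D : Cartier X, D.Effective ∧ Φ D.n1 = (3 : ℝ) • clS (Pi.single 0 1) c
  efE : ∀ x, ∃ D : Cartier X, D.Effective ∧ Φ D.n1 = (3 : ℝ) • clE x
  efpsd : ∀ D : Cartier X, D.Effective → 0 ≤ ev (Φ D.n1).1 (Pi.single 0 1)
  cvcl : ∀ ν : Curve X, ∃ (r : ℝ) (Z : W 3), 0 < r ∧ (∀ ξ : N1 X, ξ.1 ν = r * inter (Φ ξ) Z) ∧
    (Cur Z ∨ (Z.1 = 0 ∧ ∀ x, Z.2 x ≤ 0))
  cvE : ∀ x, ∃ (ν : Curve X) (r : ℝ), 0 < r ∧ ∀ ξ : N1 X, ξ.1 ν = r * (Φ ξ).2 x
  cvL : ∀ x, ∃ (ν : Curve X) (r : ℝ), 0 < r ∧ ∀ ξ : N1 X,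
    ξ.1 ν = r * (ev (Φ ξ).1 (Pi.single 0 1) - lineSum (Φ ξ).2 x (Pi.single 0 1))
  gl : ∀ g : Matrix (Fin 3) (Fin 3) O, IsUnit g → ∃ a : Aut X, ∀ ξ, Φ (a.n1 ξ) = actW g (Φ ξ)

theorem Geo.iface {Φ : N1 X →ₗ[ℝ] W 3} (h : Geo X Φ) :
    Iface (AddSubgroup.closure (Set.range Cartier.n1)) (Set.range Curve.lin)
      (Cartier.n1 '' {D | D.Effective}) (autG X) Φ where
  inj := h.inj
  herm := h.herm
  efL := by rintro _ ⟨D, -, rfl⟩; exact AddSubgroup.subset_closure ⟨D, rfl⟩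
  efS c := by obtain ⟨D, h1, h2⟩ := h.efS c; exact ⟨_, ⟨D, h1, rfl⟩, h2⟩
  efE c := by obtain ⟨D, h1, h2⟩ := h.efE c; exact ⟨_, ⟨D, h1, rfl⟩, h2⟩
  efpsd := by rintro _ ⟨D, h1, rfl⟩; exact h.efpsd D h1
  cvint := by
    rintro _ ⟨ν, rfl⟩ ξ hξ
    induction hξ using AddSubgroup.closure_induction with
    | mem x hx => obtain ⟨D, rfl⟩ := hx; exact ⟨ν.deg D.f, rfl⟩
    | zero => exact ⟨0, by simp⟩
    | add x y _ _ hx hy =>
      obtain ⟨a, ha⟩ := hx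
      obtain ⟨b, hb⟩ := hy
      exact ⟨a + b, by simp [ha, hb]⟩
    | neg x _ hx => obtain ⟨a, ha⟩ := hx; exact ⟨-a, by simp [ha]⟩
  cvcl := by rintro _ ⟨ν, rfl⟩; exact h.cvcl ν
  cvE x := by obtain ⟨ν, h1⟩ := h.cvE x; exact ⟨_, ⟨ν, rfl⟩, h1⟩
  cvL x := by obtain ⟨ν, h1⟩ := h.cvL x; exact ⟨_, ⟨ν, rfl⟩, h1⟩
  gL := by
    rintro _ ⟨g, rfl⟩ ξ hξ
    induction hξ using AddSubgroup.closure_induction with
    | mem x hx =>
      obtain ⟨D, rfl⟩ := hx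
      exact AddSubgroup.subset_closure ⟨D.pull g, (g.n1_n1 D).symm⟩
    | zero => simp
    | add x y _ _ hx hy => rw [map_add]; exact add_mem hx hy
    | neg x _ hx => rw [map_neg]; exact neg_mem hx
  gCv := by
    rintro _ ⟨g, rfl⟩ _ ⟨ν, rfl⟩
    exact ⟨ν.push (g.1 : K →ₐ[k] K) fun O => (g.2 O).1, rfl⟩
  gEf := by
    rintro _ ⟨g, rfl⟩ _ ⟨D, hD, rfl⟩
    exact ⟨D.pull g, hD.pull g, (g.n1_n1 D).symm⟩
  gl g hg := by obtain ⟨a, ha⟩ := h.gl g hg; exact ⟨_, ⟨a, rfl⟩, ha⟩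

theorem coneStatement_of {Φ : N1 X →ₗ[ℝ] W 3} (h : Geo X Φ) (h9 : StarH V9) (h12 : StarH V12)
    (h4 : StarH V4) : ConeStatement X := by
  obtain ⟨R, hRL, hRC, hcov, hdis⟩ := cone_of_starH h.iface h9 h12 h4
  have hne : NefEff X = (N1 X).subtype '' ({D | ∀ c ∈ Set.range Curve.lin, 0 ≤ c D} ∩
      cone (Cartier.n1 '' {D | D.Effective})) := by
    have e : {η | ∃ D : Cartier X, D.Effective ∧ D.cls = η} =
        (N1 X).subtype '' (Cartier.n1 '' {D | D.Effective}) := by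
      rw [Set.image_image]; rfl
    ext ξ
    constructor
    · rintro ⟨h1, h2⟩
      rw [e] at h2
      obtain ⟨η, h3, rfl⟩ := (cone_image _ _).subset h2
      exact ⟨η, ⟨by rintro _ ⟨ν, rfl⟩; exact h1 ν, h3⟩, rfl⟩
    · rintro ⟨η, ⟨h1, h2⟩, rfl⟩
      refine ⟨fun ν => h1 _ ⟨ν, rfl⟩, ?_⟩
      rw [e]
      exact (cone_image _ _).superset ⟨η, h2, rfl⟩
  refine ⟨FiniteDimensional.of_injective Φ h.inj, R, _, fun r hr => ?_, rfl,
    fun ξ hξ => hne ▸ ⟨ξ, hRC hξ, rfl⟩, fun ξ => ⟨fun hξ => ?_, ?_⟩, ?_⟩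
  · have := hRL hr
    clear hr
    induction this using AddSubgroup.closure_induction with
    | mem x hx => obtain ⟨D, rfl⟩ := hx; exact Submodule.subset_span ⟨D, rfl⟩
    | zero => exact zero_mem _
    | add x y _ _ hx hy => exact add_mem hx hy
    | neg x _ hx => exact neg_mem hx
  · rw [hne] at hξ
    obtain ⟨η, hη, rfl⟩ := hξ
    obtain ⟨_, ⟨g, rfl⟩, y, hy, rfl⟩ := hcov η hη
    exact ⟨g, y, hy, rfl⟩
  · rintro ⟨g, η, hη, rfl⟩
    rw [hne]
    have h1 := hRC hη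
    refine ⟨g.eqv η, ⟨fun c hc => h1.1 _ (h.iface.gCv _ ⟨g, rfl⟩ c hc), ?_⟩, rfl⟩
    exact ((isCone_cone _).preimage g.eqv.toLinearMap).cone_subset
      (fun x hx => subset_cone _ (h.iface.gEf _ ⟨g, rfl⟩ x hx)) h1.2
  · rintro g ⟨ζ, hζ, hg⟩ ξ hξ η hη e
    refine hdis g.eqv ⟨g, rfl⟩ (fun h1 => hg ?_) η (interior_subset_core _ hη) ?_
    · exact congrArg Subtype.val (LinearEquiv.congr_fun h1 ⟨ζ, hζ⟩)
    · rw [show g.eqv η = ξ from Subtype.ext e.symm]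
      exact interior_subset_core _ hξ

end Pool.Agent.MP_20d318_ag.AG
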