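import Pool.Agent.MP_20d318_ag.AG.Spec

/-! Common tools: charts, restriction of points, Cartier divisors and degrees. -/

set_option autoImplicit false
set_option linter.unusedSectionVars false

namespace Pool.Agent.MP_20d318_ag.AG

open Pool.Agent.MP_79c67d_ag Pool.Agent.MP_20d318_ag.Lat E Polynomial

variable {k K F L : Type} [Field k] [Field K] [Field F] [Field L] [Algebra k K] [Algebra k F]
  [Algebra k L]

section charts

variable {ι : Type} {x y : ι → K} {O O₁ O₂ W V : Subalgebra k K}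

theorem Gen.y_trans (h : Gen k x y) (i : ι) : Transcendental k (y i) := h.ind.transcendental i
theorem Gen.y_ne_const (h : Gen k x y) (i : ι) (c : k) : y i ≠ algebraMap k K c := fun e =>
  h.y_trans i (e ▸ isAlgebraic_algebraMap c)
theorem Gen.y_ne (h : Gen k x y) (i : ι) : y i ≠ 0 := by simpa using h.y_ne_const i 0
theorem Gen.x_ne (h : Gen k x y) (i : ι) : x i ≠ 0 := fun e => by
  have h1 : y i ^ 2 = 1 ^ 2 := by simpa [e] using h.eq i
  rcases sq_eq_sq_iff_eq_or_eq_neg.1 h1 with h2 | h2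
  · exact h.y_ne_const i 1 (by simpa using h2)
  · exact h.y_ne_const i (-1) (by simpa using h2)
theorem Gen.tc_ne (h : Gen k x y) (i : ι) : tc x y i ≠ 0 := div_ne_zero (h.x_ne i) (h.y_ne i)
theorem Gen.sc_ne_const (h : Gen k x y) (i : ι) (c : k) : sc y i ≠ algebraMap k K c := fun e =>
  h.y_ne_const i c⁻¹ (by rw [map_inv₀, ← e, sc, inv_inv])
theorem Gen.tc_cube (h : Gen k x y) (i : ι) : tc x y i ^ 3 = sc y i - sc y i ^ 3 := by
  have := h.y_ne i
  unfold tc sc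
  field_simp
  linear_combination - h.eq i
theorem Gen.cv_cube (h : Gen k x y) (c : ι → Bool) (i : ι) :
    cv x y c i ^ 3 = gg (c i) (cu y c i) := by
  unfold cv cu gg
  split_ifs
  · linear_combination - h.eq i
  · exact h.tc_cube i

theorem cu_mem (x y : ι → K) (c : ι → Bool) (i : ι) : cu y c i ∈ (chart x y c : Subalgebra k K) :=
  Algebra.subset_adjoin (Or.inr ⟨i, rfl⟩)
theorem cv_mem (x y : ι → K) (c : ι → Bool) (i : ι) : cv x y c i ∈ (chart x y c : Subalgebra k K) :=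
  Algebra.subset_adjoin (Or.inl ⟨i, rfl⟩)
theorem chart_le_iff {c : ι → Bool} : chart x y c ≤ O ↔ ∀ i, cu y c i ∈ O ∧ cv x y c i ∈ O :=
  ⟨fun h i => ⟨h (cu_mem x y c i), h (cv_mem x y c i)⟩, fun h => Algebra.adjoin_le (by
    rintro _ (⟨i, rfl⟩ | ⟨i, rfl⟩)
    exacts [(h i).2, (h i).1])⟩
theorem chart_false_le_iff : chart x y (fun _ => false) ≤ O ↔ ∀ i, sc y i ∈ O ∧ tc x y i ∈ O :=
  chart_le_iff
theorem chart_gen_finite [Finite ι] (x y : ι → K) (c : ι → Bool) :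
    (Set.range (cv x y c) ∪ Set.range (cu y c)).Finite :=
  (Set.finite_range _).union (Set.finite_range _)
theorem sc_mem_bch (x y : ι → K) (j i : ι) : sc y i ∈ bch k x y j :=
  Algebra.subset_adjoin (Or.inl (Or.inl ⟨i, rfl⟩))
theorem tc_mem_bch (x y : ι → K) (j i : ι) : tc x y i ∈ bch k x y j :=
  Algebra.subset_adjoin (Or.inl (Or.inr ⟨i, rfl⟩))
theorem rc_mem_bch (x y : ι → K) (j i : ι) : tc x y i / tc x y j ∈ bch k x y j :=
  Algebra.subset_adjoin (Or.inr ⟨i, rfl⟩)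
theorem bch_le_iff {j : ι} :
    bch k x y j ≤ O ↔ ∀ i, sc y i ∈ O ∧ tc x y i ∈ O ∧ tc x y i / tc x y j ∈ O :=
  ⟨fun h i => ⟨h (sc_mem_bch x y j i), h (tc_mem_bch x y j i), h (rc_mem_bch x y j i)⟩,
    fun h => Algebra.adjoin_le (by
      rintro _ ((⟨i, rfl⟩ | ⟨i, rfl⟩) | ⟨i, rfl⟩)
      exacts [(h i).1, (h i).2.1, (h i).2.2])⟩
theorem chart_le_bch (x y : ι → K) (j : ι) : chart x y (fun _ => false) ≤ bch k x y j :=
  chart_false_le_iff.2 fun i => ⟨sc_mem_bch x y j i, tc_mem_bch x y j i⟩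

theorem x_mem_fld {s : Set ι} {i : ι} (hi : i ∈ s) : x i ∈ fld k x y s :=
  IntermediateField.subset_adjoin _ _ (Or.inl ⟨i, hi, rfl⟩)
theorem y_mem_fld {s : Set ι} {i : ι} (hi : i ∈ s) : y i ∈ fld k x y s :=
  IntermediateField.subset_adjoin _ _ (Or.inr ⟨i, hi, rfl⟩)
theorem cu_mem_fld (c : ι → Bool) {s : Set ι} {i : ι} (hi : i ∈ s) : cu y c i ∈ fld k x y s := by
  unfold cu; split_ifs
  exacts [y_mem_fld hi, inv_mem (y_mem_fld hi)]
theorem cv_mem_fld (c : ι → Bool) {s : Set ι} {i : ι} (hi : i ∈ s) : cv x y c i ∈ fld k x y s := by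
  unfold cv; split_ifs
  exacts [x_mem_fld hi, div_mem (x_mem_fld hi) (y_mem_fld hi)]
theorem fld_mono {s t : Set ι} (h : s ⊆ t) : fld k x y s ≤ fld k x y t :=
  IntermediateField.adjoin.mono _ _ _ (Set.union_subset_union (Set.image_mono h) (Set.image_mono h))
theorem fld_empty : fld k x y ∅ = ⊥ := by simp [fld]
theorem fld_univ (h : Gen k x y) : fld k x y Set.univ = ⊤ := by simpa [fld] using h.top
theorem chartOn_empty (c : ι → Bool) : chartOn k x y c ∅ = ⊥ := by simp [chartOn]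
theorem chartOn_univ (c : ι → Bool) : chartOn k x y c Set.univ = chart x y c := by
  simp [chartOn, chart_eq]
theorem chartOn_le_fld (c : ι → Bool) (s : Set ι) :
    chartOn k x y c s ≤ (fld k x y s).toSubalgebra := Algebra.adjoin_le (by
  rintro _ (⟨i, hi, rfl⟩ | ⟨i, hi, rfl⟩)
  exacts [cv_mem_fld c hi, cu_mem_fld c hi])
theorem chartOn_mono (c : ι → Bool) {s t : Set ι} (h : s ⊆ t) :
    chartOn k x y c s ≤ chartOn k x y c t :=
  Algebra.adjoin_mono (Set.union_subset_union (Set.image_mono h) (Set.image_mono h))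
theorem chartOn_insert (c : ι → Bool) (s : Set ι) (j : ι) : chartOn k x y c (insert j s) =
    Algebra.adjoin k ((chartOn k x y c s : Set K) ∪ {cu y c j, cv x y c j}) := by
  refine le_antisymm (Algebra.adjoin_le ?_) (Algebra.adjoin_le ?_)
  · rintro _ (⟨i, rfl | hi, rfl⟩ | ⟨i, rfl | hi, rfl⟩)
    · exact Algebra.subset_adjoin (Or.inr (Or.inr rfl))
    · exact Algebra.subset_adjoin (Or.inl (Algebra.subset_adjoin (Or.inl ⟨i, hi, rfl⟩)))
    · exact Algebra.subset_adjoin (Or.inr (Or.inl rfl))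
    · exact Algebra.subset_adjoin (Or.inl (Algebra.subset_adjoin (Or.inr ⟨i, hi, rfl⟩)))
  · rintro a (ha | rfl | rfl)
    · exact chartOn_mono c (Set.subset_insert j s) ha
    · exact Algebra.subset_adjoin (Or.inr ⟨j, Set.mem_insert j s, rfl⟩)
    · exact Algebra.subset_adjoin (Or.inl ⟨j, Set.mem_insert j s, rfl⟩)
theorem xy_mem_of (h : Gen k x y) (c : ι → Bool) (M : IntermediateField k K) {i : ι}
    (h1 : cu y c i ∈ M) (h2 : cv x y c i ∈ M) : x i ∈ M ∧ y i ∈ M := by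
  unfold cu at h1
  unfold cv at h2
  split_ifs at h1 h2
  · exact ⟨h2, h1⟩
  · have h3 : y i ∈ M := by simpa using inv_mem h1
    exact ⟨by simpa [h.y_ne i] using mul_mem h2 h3, h3⟩
theorem fld_insert (h : Gen k x y) (c : ι → Bool) (s : Set ι) (j : ι) : fld k x y (insert j s) =
    IntermediateField.adjoin k ((fld k x y s : Set K) ∪ {cu y c j, cv x y c j}) := by
  refine le_antisymm (IntermediateField.adjoin_le_iff.2 ?_) (IntermediateField.adjoin_le_iff.2 ?_)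
  · have h1 := xy_mem_of h c
      (IntermediateField.adjoin k ((fld k x y s : Set K) ∪ {cu y c j, cv x y c j})) (i := j)
      (IntermediateField.subset_adjoin _ _ (Or.inr (Or.inl rfl)))
      (IntermediateField.subset_adjoin _ _ (Or.inr (Or.inr rfl)))
    rintro _ (⟨i, rfl | hi, rfl⟩ | ⟨i, rfl | hi, rfl⟩)
    · exact h1.1
    · exact IntermediateField.subset_adjoin _ _ (Or.inl (x_mem_fld hi))
    · exact h1.2
    · exact IntermediateField.subset_adjoin _ _ (Or.inl (y_mem_fld hi))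
  · rintro a (ha | rfl | rfl)
    · exact fld_mono (Set.subset_insert j s) ha
    · exact cu_mem_fld c (Set.mem_insert j s)
    · exact cv_mem_fld c (Set.mem_insert j s)

theorem frac_on (h : Gen k x y) (c : ι → Bool) (s : Set ι) : ∀ f ∈ fld k x y s,
    ∃ a ∈ chartOn k x y c s, ∃ d ∈ chartOn k x y c s, d ≠ 0 ∧ f = a / d := by
  have h1 : fld k x y s ≤ IntermediateField.adjoin k (cv x y c '' s ∪ cu y c '' s) := by
    refine IntermediateField.adjoin_le_iff.2 ?_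
    have := fun i (hi : i ∈ s) => xy_mem_of h c
      (IntermediateField.adjoin k (cv x y c '' s ∪ cu y c '' s)) (i := i)
      (IntermediateField.subset_adjoin _ _ (Or.inr ⟨i, hi, rfl⟩))
      (IntermediateField.subset_adjoin _ _ (Or.inl ⟨i, hi, rfl⟩))
    rintro _ (⟨i, hi, rfl⟩ | ⟨i, hi, rfl⟩)
    exacts [(this i hi).1, (this i hi).2]
  intro f hf
  obtain ⟨a, ha, d, hd, rfl⟩ := IntermediateField.mem_adjoin_iff_div.1 (h1 hf)
  by_cases h0 : d = 0
  · exact ⟨0, zero_mem _, 1, one_mem _, one_ne_zero, by simp [h0]⟩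
  · exact ⟨a, ha, d, hd, h0, rfl⟩

theorem frac_stmt : FracStmt := fun _ _ _ _ _ _ _ _ c h f => by
  rw [← chartOn_univ]
  exact frac_on h c _ f (by rw [fld_univ h]; trivial)

theorem Gen.trans_y (h : Gen k x y) {s : Set ι} {j : ι} (hj : j ∉ s) :
    Transcendental (fld k x y s) (y j) := fun h1 => by
  refine h.ind.transcendental_adjoin hj (IsAlgebraic.adjoin_of_forall_isAlgebraic ?_
    (IntermediateField.isAlgebraic_adjoin_iff.1 h1))
  rintro _ ⟨⟨i, hi, rfl⟩ | ha, hn⟩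
  · refine IsAlgebraic.of_pow (n := 3) (by norm_num) ?_
    have h2 : y i ∈ Algebra.adjoin k (y '' s) := Algebra.subset_adjoin ⟨i, hi, rfl⟩
    have h3 : x i ^ 3 = y i ^ 2 - 1 := by linear_combination - h.eq i
    exact h3 ▸ isAlgebraic_algebraMap
      (⟨_, sub_mem (pow_mem h2 2) (one_mem _)⟩ : Algebra.adjoin k (y '' s))
  · exact absurd ha hn

theorem Gen.trans (h : Gen k x y) (c : ι → Bool) {s : Set ι} {j : ι} (hj : j ∉ s) :
    Transcendental (fld k x y s) (cu y c j) := by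
  unfold cu; split_ifs
  exacts [h.trans_y hj, fun h1 => h.trans_y hj (IsAlgebraic.inv_iff.1 h1)]

theorem chart_le_of_dom (h : Gen k x y) {c c' : ι → Bool} (h1 : chart x y c ≤ O₁)
    (h2 : chart x y c' ≤ W) (hd : Dom O₁ W) : chart x y c' ≤ O₁ := by
  refine chart_le_iff.2 fun i => ?_
  obtain ⟨a1, a2⟩ := chart_le_iff.1 h1 i
  have a3 := (chart_le_iff.1 h2 i).1
  have h0 := h.y_ne i
  unfold cu at *
  unfold cv at *
  by_cases e : c i <;> by_cases e' : c' i <;> simp only [e, e', if_true, if_false,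
    Bool.false_eq_true] at * <;> try exact ⟨a1, a2⟩
  · have hu := hd.2 _ a1 ⟨h0, hd.1 a1, a3⟩
    exact ⟨hu.2.2, hu.div_mem a2⟩
  · have hu := hd.2 _ a1 ⟨inv_ne_zero h0, hd.1 a1, by simpa using a3⟩
    have h3 : y i ∈ O₁ := by simpa using hu.2.2
    exact ⟨h3, by simpa [h0] using mul_mem a2 h3⟩

theorem mem_prodE : O ∈ prodE k x y ↔ ∃ c, O ∈ Pts (chart x y c) := Set.mem_iUnion

theorem prodE_sep (h : Gen k x y) (h1 : O₁ ∈ prodE k x y) (h2 : O₂ ∈ prodE k x y) (d1 : Dom O₁ W)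
    (d2 : Dom O₂ W) : O₁ = O₂ := by
  obtain ⟨c, h1⟩ := mem_prodE.1 h1
  obtain ⟨c', h2⟩ := mem_prodE.1 h2
  exact Pts_eq h1 h2 (chart_le_of_dom h h2.2.1 (h1.2.1.trans d1.1) d2)
    (chart_le_of_dom h h1.2.1 (h2.2.1.trans d2.1) d1) d1 d2

theorem Pts_chart (h : Gen k x y) (h1 : O ∈ prodE k x y) {c : ι → Bool} (h2 : chart x y c ≤ O) :
    O ∈ Pts (chart x y c) := by
  obtain ⟨c', h3⟩ := mem_prodE.1 h1
  obtain ⟨O', h4, h5⟩ := exists_ctr h3.1 h2
  rwa [← prodE_sep h (mem_prodE.2 ⟨c, h4⟩) h1 h5 (Dom.refl O)]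

theorem Nrm.of_pow (h : Nrm O) {a : K} {n : ℕ} (hn : 0 < n) (ha : a ^ n ∈ O) : a ∈ O :=
  h a (IsIntegral.of_pow hn (isIntegral_algebraMap (x := (⟨_, ha⟩ : O))))

theorem exists_chart_le (h : Gen k x y) (hV : IsVal V) : ∃ c, chart x y c ≤ V := by
  classical
  refine ⟨fun i => decide (y i ∈ V), ?_⟩
  have h1 : ∀ i, cu y (fun i => decide (y i ∈ V)) i ∈ V := fun i => by
    unfold cu; split_ifs with e
    exacts [by simpa using e, (hV _).resolve_left (by simpa using e)]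
  refine chart_le_iff.2 fun i => ⟨h1 i, hV.nrm.of_pow (n := 3) (by norm_num) ?_⟩
  rw [h.cv_cube, gg]
  split_ifs
  exacts [sub_mem (pow_mem (h1 i) 2) (one_mem _), sub_mem (h1 i) (pow_mem (h1 i) 3)]

theorem sv_mem (O : Subalgebra k K) (c : ZMod 3) : (sv c : K) ∈ O := intCast_mem O _
theorem mem_of_sub_sv {s : K} {c : ZMod 3} (h : s - sv c ∈ mx O) : s ∈ O := by
  simpa using add_mem h.1 (sv_mem O c)
theorem isU_sv_sub [CharZero k] {c d : ZMod 3} (h : c ≠ d) : IsU O (sv c - sv d : K) := by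
  have := isU_intCast (O := O) (n := c.valMinAbs - d.valMinAbs)
    (sub_ne_zero.2 fun e => h (ZMod.valMinAbs_inj.1 e))
  simpa [sv] using this
theorem sv_unique [CharZero k] (hO : IsLocalRing O) {s : K} {c d : ZMod 3} (h1 : s - sv c ∈ mx O)
    (h2 : s - sv d ∈ mx O) : c = d := by_contra fun h =>
  (isU_sv_sub h).not_mx (by simpa using mx_sub' hO h2 h1)
theorem Over.unique [CharZero k] (hO : IsLocalRing O) {s : Fin 3 → K} {p q : Pt 3} (h1 : Over s p O)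
    (h2 : Over s q O) : p = q := funext fun i => sv_unique hO (h1 i) (h2 i)
theorem cube_factor (s : K) (c : ZMod 3) :
    s - s ^ 3 = -((s - sv c) * ((s - sv (c + 1)) * (s - sv (c - 1)))) := by
  have e1 : (1 : ZMod 3) + 1 = -1 := by decide
  have e2 : (-1 : ZMod 3) - 1 = 1 := by decide
  rcases zmod3 c with rfl | rfl | rfl <;> simp [e1, e2] <;> ring
theorem mx_of_sub_sv {s : K} {c : ZMod 3} (h : s - sv c ∈ mx O) : s - s ^ 3 ∈ mx O := by
  have h1 := mem_of_sub_sv h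
  rw [cube_factor s c]
  exact mx_neg (mx_mul_right h (mul_mem (sub_mem h1 (sv_mem O _)) (sub_mem h1 (sv_mem O _))))
theorem exists_sv_of_mx {s : K} (h1 : s ∈ O) (h : s - s ^ 3 ∈ mx O) : ∃ c, s - sv c ∈ mx O := by
  have h2 := fun c => sub_mem h1 (sv_mem O c)
  rw [cube_factor s 0] at h
  have h3 := mx_neg h
  rw [neg_neg] at h3
  rcases mx_or_of_mul (h2 _) (mul_mem (h2 _) (h2 _)) h3 with h4 | h4
  exacts [⟨_, h4⟩, (mx_or_of_mul (h2 _) (h2 _) h4).elim (fun h => ⟨_, h⟩) fun h => ⟨_, h⟩]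
theorem isU_cofactor [CharZero k] (hO : IsLocalRing O) {s : K} {c d : ZMod 3}
    (h : s - sv c ∈ mx O) (hd : d ≠ c) : IsU O (s - sv d) :=
  isU_of_not_mx (sub_mem (mem_of_sub_sv h) (sv_mem O d)) fun h' => hd (sv_unique hO h' h)

theorem mem_Fx {σ : K ≃ₐ[k] K} {f : K} : f ∈ Fx σ ↔ σ f = f := by
  rw [IntermediateField.mem_fixedField_iff]
  refine ⟨fun h => h σ (Subgroup.mem_zpowers σ), fun h g hg => ?_⟩
  exact (Subgroup.zpowers_le (H := MulAction.stabilizer _ f)).2 h hg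

theorem algHom_ext_gen (h : Gen k x y) {φ ψ : K →ₐ[k] L} (hx : ∀ i, φ (x i) = ψ (x i))
    (hy : ∀ i, φ (y i) = ψ (y i)) : φ = ψ := by
  ext f
  have hf : f ∈ IntermediateField.adjoin k (Set.range x ∪ Set.range y) := by rw [h.top]; trivial
  induction hf using IntermediateField.adjoin_induction with
  | mem a ha => rcases ha with ⟨i, rfl⟩ | ⟨i, rfl⟩; exacts [hx i, hy i]
  | algebraMap c => simp
  | add a b _ _ ha hb => simp [ha, hb]
  | inv a _ ha => simp [ha]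
  | mul a b _ _ ha hb => simp [ha, hb]

variable {w : k} {x y : Fin 3 → K} {σ : K ≃ₐ[k] K}

theorem Setup.hwK (h : Setup w x y σ) (L : Type) [Field L] [Algebra k L] :
    algebraMap k L w ^ 2 + algebraMap k L w + 1 = 0 := by simpa using congrArg (algebraMap k L) h.hw
theorem Setup.σs (h : Setup w x y σ) (i : Fin 3) : σ (sc y i) = sc y i := by simp [sc, h.σy]
theorem Setup.σt (h : Setup w x y σ) (i : Fin 3) : σ (tc x y i) = algebraMap k K w * tc x y i := by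
  simp [tc, h.σx, h.σy, mul_div_assoc]
theorem Setup.σ3 (h : Setup w x y σ) (f : K) : σ (σ (σ f)) = f := by
  have := algHom_ext_gen h.toGen (φ := ((σ * σ * σ : K ≃ₐ[k] K) : K →ₐ[k] K)) (ψ := AlgHom.id k K)
    (fun i => by
      change σ (σ (σ (x i))) = x i
      simp only [h.σx, map_mul, AlgEquiv.commutes]
      linear_combination x i * cube (h.hwK K))
    (fun i => by simp [h.σy])
  exact DFunLike.congr_fun this f

end charts

section res

variable [CharZero K] [CharZero L] {O W : Subalgebra k K} {ρ : O →ₐ[k] L} {P Q : E K}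

theorem res_eqn (ρ : O →ₐ[k] L) (h : Q ≠ 0 ∧ Q.X ∈ O ∧ Q.Y ∈ O) :
    evO O ρ Q.Y ^ 2 = evO O ρ Q.X ^ 3 + 1 := by
  rw [← evO_pow ρ h.2.2, eqn h.1, evO_add ρ (pow_mem h.2.1 3) (one_mem _), evO_pow ρ h.2.1, evO_one]
theorem res_of (ρ : O →ₐ[k] L) (h : Q ≠ 0 ∧ Q.X ∈ O ∧ Q.Y ∈ O) :
    res O ρ Q ≠ 0 ∧ (res O ρ Q).X = evO O ρ Q.X ∧ (res O ρ Q).Y = evO O ρ Q.Y := by
  rw [res, if_pos h]
  exact ⟨mk_ne (res_eqn ρ h), X_mk (res_eqn ρ h), Y_mk (res_eqn ρ h)⟩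
theorem res_eq_zero (ρ : O →ₐ[k] L) : res O ρ Q = 0 ↔ ¬ (Q ≠ 0 ∧ Q.X ∈ O ∧ Q.Y ∈ O) :=
  ⟨fun h h' => (res_of ρ h').1 h, fun h => if_neg h⟩
theorem res_zero (ρ : O →ₐ[k] L) : res O ρ 0 = 0 := (res_eq_zero ρ).2 (by simp)
theorem reg_zero : Reg O (0 : E K) := Or.inr ⟨by simpa using zero_mem_mx, by simpa using zero_mem_mx,
  Or.inl rfl⟩
theorem Reg.not_both (h : Q ≠ 0 ∧ Q.X ∈ O ∧ Q.Y ∈ O) (h1 : Q.ss ∈ mx O) (h2 : Q = 0 ∨ Q.Y ≠ 0) :
    False := h1.2 ⟨inv_ne_zero (h2.resolve_left h.1), h1.1, by simpa [ss] using h.2.2⟩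
theorem res_ext {L' : Type} [Field L'] [CharZero L'] [CharZero F] [Algebra k L']
    {O' : Subalgebra k F} {ρ' : O' →ₐ[k] L'} {Q' : E F} {g : E L →+ E L'} {u : L'} {φ : L → L'}
    (h0 : ∀ R, g R = 0 ↔ R = 0) (hx : ∀ R, (g R).X = u * φ R.X) (hy : ∀ R, (g R).Y = φ R.Y)
    (h : (Q' ≠ 0 ∧ Q'.X ∈ O' ∧ Q'.Y ∈ O') ↔ (Q ≠ 0 ∧ Q.X ∈ O ∧ Q.Y ∈ O))
    (e : (Q ≠ 0 ∧ Q.X ∈ O ∧ Q.Y ∈ O) → evO O' ρ' Q'.X = u * φ (evO O ρ Q.X) ∧
      evO O' ρ' Q'.Y = φ (evO O ρ Q.Y)) : res O' ρ' Q' = g (res O ρ Q) := by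
  by_cases h1 : Q ≠ 0 ∧ Q.X ∈ O ∧ Q.Y ∈ O
  · obtain ⟨a1, a2, a3⟩ := res_of ρ h1
    obtain ⟨b1, b2, b3⟩ := res_of ρ' (h.2 h1)
    exact ext' b1 (mt (h0 _).1 a1) (by rw [b2, hx, a2, (e h1).1]) (by rw [b3, hy, a3, (e h1).2])
  · rw [(res_eq_zero ρ).2 h1, (res_eq_zero ρ').2 (mt h.1 h1), map_zero]

theorem res_neg (ρ : O →ₐ[k] L) (Q : E K) : res O ρ (-Q) = - res O ρ Q := by
  by_cases h1 : Q ≠ 0 ∧ Q.X ∈ O ∧ Q.Y ∈ O
  · obtain ⟨a1, a2, a3⟩ := res_of ρ h1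
    obtain ⟨b1, b2, b3⟩ := res_of ρ (Q := -Q) (by simpa using h1)
    exact ext' b1 (neg_ne_zero.2 a1) (by simp [b2, a2]) (by simp [b3, a3, evO_neg ρ h1.2.2])
  · rw [(res_eq_zero ρ).2 h1, (res_eq_zero ρ).2 (by simpa using h1), neg_zero]
theorem Reg.neg (h : Reg O Q) : Reg O (-Q) := h.imp (by simp) fun h =>
  ⟨by simpa [tt, div_neg] using mx_neg h.1, by simpa [ss, inv_neg] using mx_neg h.2.1, by simpa using h.2.2⟩

theorem w_mul_mem {w : k} (hw : w ^ 2 + w + 1 = 0) {a : K} : algebraMap k K w * a ∈ O ↔ a ∈ O := by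
  have hu : IsU O (algebraMap k K w) := isU_const (by rintro rfl; simp at hw)
  exact ⟨fun h => by simpa [hu.1] using hu.div_mem h, mul_mem hu.2.1⟩
theorem map_hw {w : k} (hw : w ^ 2 + w + 1 = 0) (L : Type) [Field L] [Algebra k L] :
    algebraMap k L w ^ 2 + algebraMap k L w + 1 = 0 := by simpa using congrArg (algebraMap k L) hw
theorem res_zeta (ρ : O →ₐ[k] L) {w : k} (hw : w ^ 2 + w + 1 = 0) (Q : E K) :
    res O ρ (zeta (algebraMap k K w) Q) = zeta (algebraMap k L w) (res O ρ Q) :=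
  res_ext (φ := id) (zeta_eq_zero (map_hw hw L)) (X_zeta (map_hw hw L)) (Y_zeta (map_hw hw L))
    (by simp [zeta_eq_zero (map_hw hw K), X_zeta (map_hw hw K), Y_zeta (map_hw hw K), w_mul_mem hw])
    fun h => by
      rw [X_zeta (map_hw hw K), Y_zeta (map_hw hw K), evO_mul ρ (O.algebraMap_mem w) h.2.1, evO_const]
      exact ⟨rfl, rfl⟩
theorem Reg.zeta {w : k} (hw : w ^ 2 + w + 1 = 0) (h : Reg O Q) :
    Reg O (zeta (algebraMap k K w) Q) := by
  have hK := map_hw hw K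
  refine h.imp (by simp [zeta_eq_zero hK, X_zeta hK, Y_zeta hK, w_mul_mem hw]) fun h => ⟨?_, ?_, ?_⟩
  · rw [tt, X_zeta hK, Y_zeta hK, mul_div_assoc]; exact mx_mul_left (O.algebraMap_mem w) h.1
  · rw [ss, Y_zeta hK]; exact h.2.1
  · simpa [zeta_eq_zero hK, Y_zeta hK] using h.2.2

theorem res_const [CharZero k] (ρ : O →ₐ[k] L) (c : E k) :
    res O ρ (pmap (algebraMap k K) c) = pmap (algebraMap k L) c := by
  by_cases hc : c = 0
  · simp [hc, res_zero]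
  obtain ⟨b1, b2, b3⟩ := res_of ρ (Q := pmap (algebraMap k K) c) (by simpa using hc)
  exact ext' b1 (by simpa using hc) (by simp [b2, evO_const]) (by simp [b3, evO_const])
theorem reg_const [CharZero k] (c : E k) : Reg O (pmap (algebraMap k K) c) := by
  by_cases hc : c = 0
  · simpa [hc] using reg_zero
  · exact Or.inl (by simpa using hc)
theorem res_fx [CharZero k] (ρ : O →ₐ[k] L) (c : ZMod 3) : res O ρ (fx c) = fx c := by
  simpa [pmap_fx] using res_const ρ (fx c)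

theorem res_comp {L' : Type} [Field L'] [CharZero L'] [Algebra k L'] (ρ : O →ₐ[k] L)
    (ι : L →ₐ[k] L') (Q : E K) : res O (ι.comp ρ) Q = pmap (ι : L →+* L') (res O ρ Q) :=
  res_ext (u := 1) (φ := ι) (pmap_eq_zero _) (by simp) (by simp) Iff.rfl
    fun _ => by simp [evO_comp]
theorem Reg.mono (h : Reg O Q) (hd : Dom O W) : Reg W Q :=
  h.imp (fun h => ⟨h.1, hd.1 h.2.1, hd.1 h.2.2⟩) fun h => ⟨hd.mx h.1, hd.mx h.2.1, h.2.2⟩
theorem res_restrict (ρ : W →ₐ[k] L) (hd : Dom O W) (h : Reg O Q) :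
    res O (ρ.comp (Subalgebra.inclusion hd.1)) Q = res W ρ Q :=
  res_ext (u := 1) (φ := id) (g := AddMonoidHom.id _) (by simp) (by simp) (by simp)
    ⟨fun h => ⟨h.1, hd.1 h.2.1, hd.1 h.2.2⟩, fun h' => h.resolve_right fun h2 =>
      Reg.not_both h' (hd.mx h2.2.1) h2.2.2⟩ fun h' => by
    have h3 := h.resolve_right fun h2 => Reg.not_both h' (hd.mx h2.2.1) h2.2.2
    simp [evO_restrict ρ hd.1 h3.2.1, evO_restrict ρ hd.1 h3.2.2]
theorem pull_push [CharZero k] [CharZero F] {X : Set (Subalgebra k F)} {Y : Set (Subalgebra k K)}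
    (ι : F →ₐ[k] K) (h : ∀ O ∈ Y, O.comap ι ∈ X) (ν : Curve Y) (Q : E F) :
    (ν.push ι h).pull Q = ν.pull (pmap (ι : F →+* K) Q) :=
  res_ext (u := 1) (φ := id) (g := AddMonoidHom.id _) (by simp) (by simp) (by simp)
    (by simp [Curve.push]) fun _ => by
      simp only [X_pmap, Y_pmap, one_mul, id]
      exact ⟨rfl, rfl⟩

theorem Reg.tt_mem (h : Reg O Q) (hs : Q.ss ∈ O) : Q.tt ∈ O :=
  h.elim (fun h => by rw [tt, div_eq_mul_inv]; exact mul_mem h.2.1 hs) fun h => h.1.1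
theorem Reg.ss_or (h : Reg O Q) : Q.ss ∈ O ∨ Q.ss⁻¹ ∈ O :=
  h.elim (fun h => Or.inr (by simpa [ss] using h.2.2)) fun h => Or.inl h.2.1.1
theorem res_ss_tt (hρ : LocHom O ρ) (h : Reg O Q) (hs : Q.ss ∈ O) (h0 : Q = 0 ∨ Q.Y ≠ 0) :
    (res O ρ Q).ss = evO O ρ Q.ss ∧ (res O ρ Q).tt = evO O ρ Q.tt ∧
      (res O ρ Q = 0 ∨ (res O ρ Q).Y ≠ 0) := by
  rcases h with h | h
  · obtain ⟨-, a2, a3⟩ := res_of ρ h
    have hu : IsU O Q.Y := ⟨h0.resolve_left h.1, h.2.2, hs⟩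
    exact ⟨by rw [ss, ss, a3, evO_inv ρ hu], by rw [tt, tt, a2, a3, evO_div ρ h.2.1 hu],
      Or.inr (a3 ▸ evO_ne ρ hu)⟩
  · rw [(res_eq_zero ρ).2 fun h' => Reg.not_both h' h.2.1 h.2.2,
      (hρ.eq_zero_iff h.1.1).2 h.1, (hρ.eq_zero_iff h.2.1.1).2 h.2.1]
    simp
theorem eq_fx {R : E L} {c : ZMod 3} (h : R.ss = sv c) (h0 : R = 0 ∨ R.Y ≠ 0) : R = fx c := by
  by_cases hR : R = 0
  · rw [hR, ss_zero, ← sv_zero] at h
    rw [← sv_inj h, hR, fx_zero]
  have hY := h0.resolve_left hR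
  have h1 : R.X = 0 := by
    have := R.tt_cube
    rw [h, sv_cube] at this
    simpa [tt, hY] using this
  have h2 : R.Y = sv c := by rw [← inv_inv R.Y, ← ss, h, ← Y_fx, ← ss, ss_fx, Y_fx]
  refine ext' hR (fun h3 => hY ?_) (by rw [h1, X_fx]) (by rw [h2, Y_fx])
  rw [h2, ← Y_fx, h3, Y_zero]
theorem res_eq_fx (hρ : LocHom O ρ) (h : Reg O Q) (c : ZMod 3) :
    res O ρ Q = fx c ↔ Q.ss - sv c ∈ mx O ∧ (Q = 0 ∨ Q.Y ≠ 0) := by
  have key : Q.ss ∈ O → (evO O ρ Q.ss = sv c ↔ Q.ss - sv c ∈ mx O) := fun hs => by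
    rw [← hρ.eq_zero_iff (sub_mem hs (sv_mem O c)), evO_sub ρ hs (sv_mem O c), sub_eq_zero]
    simp [sv, evO_intCast]
  refine ⟨fun e => ?_, fun ⟨h1, h0⟩ => ?_⟩
  · have : Q.ss ∈ O ∧ (Q = 0 ∨ Q.Y ≠ 0) := by
      refine h.elim (fun h => ?_) fun h => ⟨h.2.1.1, h.2.2⟩
      obtain ⟨a1, a2, -⟩ := res_of ρ h
      have h2 := res_eqn ρ h
      rw [← a2, e, X_fx] at h2
      have hu : IsU O Q.Y := isU_of_not_mx h.2.2 fun hm => by
        simp [(hρ.eq_zero_iff h.2.2).2 hm] at h2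
      exact ⟨hu.2.2, Or.inr hu.1⟩
    exact ⟨(key this.1).1 (by rw [← (res_ss_tt hρ h this.1 this.2).1, e, ss_fx]), this.2⟩
  · obtain ⟨a1, -, a3⟩ := res_ss_tt hρ h (mem_of_sub_sv h1) h0
    exact eq_fx (a1.trans ((key (mem_of_sub_sv h1)).2 h1)) a3

theorem reg_of_st (hO : IsLocalRing O) (hY : Q.Y ≠ 0) (hs : Q.ss ∈ O) (ht : Q.tt ∈ O) : Reg O Q := by
  rcases isU_or_mx hs with h | h
  · have h1 : Q.Y ∈ O := by simpa [ss] using h.2.2
    exact Or.inl ⟨by rintro rfl; exact hY rfl, by simpa [tt, hY] using mul_mem ht h1, h1⟩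
  · exact Or.inr ⟨mx_of_pow ht (n := 3) (Q.tt_cube ▸ mx_sub' hO h (mx_pow h three_ne_zero)), h,
      Or.inr hY⟩
theorem IsVal.reg (hV : IsVal O) (Q : E K) : Reg O Q := by
  by_cases h0 : Q = 0
  · exact h0 ▸ reg_zero
  by_cases h : Q.Y ∈ O
  · refine Or.inl ⟨h0, hV.nrm.of_pow (n := 3) (by norm_num) ?_, h⟩
    have : Q.X ^ 3 = Q.Y ^ 2 - 1 := by linear_combination - eqn h0
    exact this ▸ sub_mem (pow_mem h 2) (one_mem _)
  · have hs : Q.ss ∈ O := (hV _).resolve_left h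
    exact reg_of_st hV.isLocalRing (fun e => h (e ▸ zero_mem _)) hs
      (hV.nrm.of_pow (n := 3) (by norm_num) (Q.tt_cube ▸ sub_mem hs (pow_mem hs 3)))

variable {ι : Type} {x y : ι → K}

theorem Gen.zz_ne (h : Gen k x y) (i : ι) : zz x y i ≠ 0 := mk_ne (h.eq i)
theorem Gen.zz_X (h : Gen k x y) (i : ι) : (zz x y i).X = x i := X_mk (h.eq i)
theorem Gen.zz_Y (h : Gen k x y) (i : ι) : (zz x y i).Y = y i := Y_mk (h.eq i)
theorem Gen.zz_ss (h : Gen k x y) (i : ι) : (zz x y i).ss = sc y i := by rw [ss, h.zz_Y, sc]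
theorem Gen.zz_tt (h : Gen k x y) (i : ι) : (zz x y i).tt = tc x y i := by rw [tt, h.zz_X, h.zz_Y, tc]
theorem Gen.reg_zz (h : Gen k x y) (hO : IsLocalRing O) {c : ι → Bool} (hc : chart x y c ≤ O)
    (i : ι) : Reg O (zz x y i) := by
  obtain ⟨h1, h2⟩ := chart_le_iff.1 hc i
  unfold cu at h1
  unfold cv at h2
  split_ifs at h1 h2
  · exact Or.inl ⟨h.zz_ne i, by rwa [h.zz_X], by rwa [h.zz_Y]⟩
  · exact reg_of_st hO (by rw [h.zz_Y]; exact h.y_ne i) (by rwa [h.zz_ss]) (by rwa [h.zz_tt])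

variable [CharZero k]

theorem reg_zsmul (hR : RegStmt) (hN : Nrm O) (hρ : LocHom O ρ) (h : Reg O Q) (n : ℤ) :
    Reg O (n • Q) ∧ res O ρ (n • Q) = n • res O ρ Q := by
  induction n using Int.induction_on with
  | zero => simpa using ⟨reg_zero, res_zero ρ⟩
  | succ n ih =>
    have := hR k K L O ρ hN hρ _ _ ih.1 h
    rwa [add_smul, add_smul, one_smul, one_smul, ← ih.2]
  | pred n ih =>
    have := hR k K L O ρ hN hρ _ _ ih.1 h.neg
    rwa [sub_smul, sub_smul, one_smul, one_smul, ← ih.2, sub_eq_add_neg, sub_eq_add_neg, ← res_neg]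
theorem reg_sm (hR : RegStmt) (hN : Nrm O) (hρ : LocHom O ρ) {w : k} (hw : w ^ 2 + w + 1 = 0)
    (h : Reg O Q) (a : Lat.O) : Reg O (sm (algebraMap k K w) a Q) ∧
      res O ρ (sm (algebraMap k K w) a Q) = sm (algebraMap k L w) a (res O ρ Q) := by
  have h1 := reg_zsmul hR hN hρ h a.re
  have h2 := reg_zsmul hR hN hρ (h.zeta hw) a.im
  have := hR k K L O ρ hN hρ _ _ h1.1 h2.1
  rwa [h1.2, h2.2, res_zeta ρ hw] at this
theorem res_lin (hR : RegStmt) (hN : Nrm O) (hρ : LocHom O ρ) {w : k} (hw : w ^ 2 + w + 1 = 0)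
    {n : ℕ} {z : Fin n → E K} (h : ∀ i, Reg O (z i)) (l : Vec n) :
    Reg O (lin (algebraMap k K w) l z) ∧
      res O ρ (lin (algebraMap k K w) l z) = lin (algebraMap k L w) l fun i => res O ρ (z i) := by
  unfold lin
  induction (Finset.univ : Finset (Fin n)) using Finset.induction_on with
  | empty => simpa using ⟨reg_zero, res_zero ρ⟩
  | insert i s hi ih =>
    have h1 := reg_sm hR hN hρ hw (h i) (l i)
    have := hR k K L O ρ hN hρ _ _ h1.1 ih.1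
    rwa [Finset.sum_insert hi, Finset.sum_insert hi, ← h1.2, ← ih.2]

end res

end Pool.Agent.MP_20d318_ag.AG
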