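import Mathlib.Topology.Sheaves.Presheaf
import Mathlib.RingTheory.PiTensorProduct
import Mathlib.RingTheory.Ideal.Quotient.HasFiniteQuotients
import Pool.Agent.MP_20d318_ag.AG.Spec
import Pool.Agent.MP_20d318_ag.AG.Tools

-- ======== part 0: formerly Pool.Agent.MP_20d318_ag.AG.YMod
section MrgPart0

/-! Module YMOD: the points of the blow-up; it is separated, complete and of finite type. -/

set_option autoImplicit false

namespace Pool.Agent.MP_20d318_ag.AG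

open Pool.Agent.MP_79c67d_ag Pool.Agent.MP_20d318_ag.Lat E

namespace YMod

variable {k K : Type} [Field k] [Field K] [Algebra k K]

section general

variable {O O' R R' V W : Subalgebra k K}

theorem Pts_of_ctr (h : O ∈ Pts R) (h1 : R' ≤ O) (h2 : ∀ O' ∈ Pts R', Dom O' O → R ≤ O') :
    O ∈ Pts R' := by
  obtain ⟨O', hO', hd⟩ := exists_ctr h.1 h1
  rwa [le_antisymm (Pts_le h (h2 O' hO' hd) le_rfl hd) hd.1]

theorem mem_of_cube (h : IsVal V) {a : K} (ha : a ^ 3 ∈ V) : a ∈ V := by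
  by_contra hn
  have h0 : a ≠ 0 := fun h0 => hn (h0 ▸ V.zero_mem)
  have := mx_mul_left ha (mx_pow (h.inv_mx hn) (n := 3) (by norm_num))
  rw [← mul_pow, mul_inv_cancel₀ h0, one_pow] at this
  exact one_not_mem_mx this

theorem exists_min (h : IsVal V) (t : Fin 3 → K) (ht : ∀ i, t i ≠ 0) :
    ∃ j, ∀ i, t i / t j ∈ V := by
  obtain ⟨j, hj⟩ := Finite.exists_max fun i => h.vs.valuation (t i)
  refine ⟨j, fun i => (h.vs.valuation_le_one_iff _).1 ?_⟩
  rw [map_div₀]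
  exact div_le_one_of_le₀ (hj i) zero_le

theorem stab_of (σ : K ≃ₐ[k] K) {G : Set K} (h : ∀ g ∈ G, ∃ c : k, σ g = algebraMap k K c * g) :
    ∀ a ∈ Algebra.adjoin k G, σ a ∈ Algebra.adjoin k G := by
  intro a ha
  induction ha using Algebra.adjoin_induction with
  | mem g hg =>
    obtain ⟨c, hc⟩ := h g hg
    rw [hc]
    exact mul_mem (Subalgebra.algebraMap_mem _ c) (Algebra.subset_adjoin hg)
  | algebraMap c => rw [AlgEquiv.commutes]; exact Subalgebra.algebraMap_mem _ c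
  | add a b _ _ ha hb => rw [map_add]; exact add_mem ha hb
  | mul a b _ _ ha hb => rw [map_mul]; exact mul_mem ha hb

theorem sv_mem (O : Subalgebra k K) (c : ZMod 3) : (sv c : K) ∈ O := intCast_mem O _

end general

section charts

variable {x y : Fin 3 → K} {O O' O₁ O₂ V W : Subalgebra k K} {c c' : Fin 3 → Bool}

theorem y_ne (h : Gen k x y) (i : Fin 3) : y i ≠ 0 := h.ind.ne_zero i

theorem x_ne (h : Gen k x y) (i : Fin 3) : x i ≠ 0 := fun h0 => by
  refine h.ind.transcendental i ⟨Polynomial.X ^ 2 - Polynomial.C 1,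
    Polynomial.X_pow_sub_C_ne_zero (by norm_num) _, ?_⟩
  simp [h.eq i, h0]

theorem t_ne (h : Gen k x y) (i : Fin 3) : tc x y i ≠ 0 := div_ne_zero (x_ne h i) (y_ne h i)

theorem t_cube (h : Gen k x y) (i : Fin 3) : tc x y i ^ 3 = sc y i - sc y i ^ 3 := by
  have := y_ne h i
  unfold tc sc
  field_simp
  linear_combination (-1 : K) * h.eq i

theorem cv_mem (c : Fin 3 → Bool) (i : Fin 3) : cv x y c i ∈ (chart x y c : Subalgebra k K) :=
  Algebra.subset_adjoin (Or.inl ⟨i, rfl⟩)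

theorem cu_mem (c : Fin 3 → Bool) (i : Fin 3) : cu y c i ∈ (chart x y c : Subalgebra k K) :=
  Algebra.subset_adjoin (Or.inr ⟨i, rfl⟩)

theorem chart_le_iff : chart x y c ≤ O ↔ ∀ i, cv x y c i ∈ O ∧ cu y c i ∈ O := by
  refine ⟨fun h i => ⟨h (cv_mem c i), h (cu_mem c i)⟩, fun h => Algebra.adjoin_le ?_⟩
  rintro _ (⟨i, rfl⟩ | ⟨i, rfl⟩)
  exacts [(h i).1, (h i).2]

theorem chart_le_of (h : chart x y c ≤ O) (hu : ∀ i, c i ≠ c' i → IsU O (y i)) :
    chart x y c' ≤ O := by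
  rw [chart_le_iff] at h ⊢
  intro i
  have h1 := h i
  have h2 := hu i
  unfold cv cu at h1 ⊢
  cases e : c i <;> cases e' : c' i <;> simp only [e, e', if_true, if_false, Bool.false_eq_true,
    ne_eq, not_false_eq_true, forall_const, Bool.true_eq_false] at h1 h2 ⊢
  · exact h1
  · refine ⟨?_, h2.mem⟩
    have := O.mul_mem h1.1 h2.mem
    rwa [div_mul_cancel₀ _ h2.ne] at this
  · exact ⟨h2.div_mem h1.1, h2.inv_mem⟩
  · exact h1

theorem chart_le_dom (hg : Gen k x y) (h : chart x y c ≤ O) (hd : Dom O W)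
    (h' : chart x y c' ≤ W) : chart x y c' ≤ O := by
  refine chart_le_of h fun i hi => ?_
  have h1 := h (cu_mem c i)
  have h2 := h' (cu_mem c' i)
  unfold cu at h1 h2
  cases e : c i <;> cases e' : c' i <;> simp only [e, e', if_true, if_false, Bool.false_eq_true,
    ne_eq, not_true_eq_false] at h1 h2 hi
  · simpa using (hd.2 _ h1 ⟨inv_ne_zero (y_ne hg i), hd.1 h1, by simpa using h2⟩).inv
  · exact hd.2 _ h1 ⟨y_ne hg i, hd.1 h1, h2⟩

theorem Pts_chart (hg : Gen k x y) (h : O ∈ Pts (chart x y c)) (h' : chart x y c' ≤ O) :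
    O ∈ Pts (chart x y c') :=
  Pts_of_ctr h h' fun _ hO' hd => chart_le_dom hg hO'.2.1 hd h.2.1

theorem mem_prodE : O ∈ prodE k x y ↔ ∃ c, O ∈ Pts (chart x y c) := Set.mem_iUnion

theorem prodE_sep (hg : Gen k x y) (h1 : O₁ ∈ prodE k x y) (h2 : O₂ ∈ prodE k x y)
    (d1 : Dom O₁ W) (d2 : Dom O₂ W) : O₁ = O₂ := by
  obtain ⟨c, h1⟩ := mem_prodE.1 h1
  obtain ⟨c', h2⟩ := mem_prodE.1 h2
  exact Pts_eq h1 h2 (chart_le_dom hg h2.2.1 d2 (h1.2.1.trans d1.1))
    (chart_le_dom hg h1.2.1 d1 (h2.2.1.trans d2.1)) d1 d2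

theorem exists_chart_le (hg : Gen k x y) (h : IsVal V) : ∃ c, chart x y c ≤ V := by
  classical
  refine ⟨fun i => decide (y i ∈ V), chart_le_iff.2 fun i => ?_⟩
  unfold cv cu
  by_cases hy : y i ∈ V
  · simp only [hy, decide_true, if_true, and_true]
    refine mem_of_cube h ?_
    rw [eq_sub_of_add_eq (hg.eq i).symm]
    exact V.sub_mem (V.pow_mem hy 2) V.one_mem
  · simp only [hy, decide_false, Bool.false_eq_true, if_false]
    have h1 : sc y i ∈ V := (h _).resolve_left hy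
    refine ⟨mem_of_cube h ?_, h1⟩
    have := t_cube hg i
    unfold tc at this
    rw [this]
    exact V.sub_mem h1 (V.pow_mem h1 3)

variable (k x y) in
/-- The chart that contains all fixed points. -/
abbrev B0 : Subalgebra k K := chart x y fun _ => false

theorem B0_le_iff : B0 k x y ≤ O ↔ ∀ i, tc x y i ∈ O ∧ sc y i ∈ O := chart_le_iff

theorem t_mem (i : Fin 3) : tc x y i ∈ B0 k x y := cv_mem (fun _ => false) i

theorem s_mem (i : Fin 3) : sc y i ∈ B0 k x y := cu_mem (fun _ => false) i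

theorem r_mem (i j : Fin 3) : tc x y i / tc x y j ∈ bch k x y j :=
  Algebra.subset_adjoin (Or.inr ⟨i, rfl⟩)

theorem B0_le_bch (j : Fin 3) : B0 k x y ≤ bch k x y j :=
  B0_le_iff.2 fun i => ⟨Algebra.subset_adjoin (Or.inl (Or.inr ⟨i, rfl⟩)),
    Algebra.subset_adjoin (Or.inl (Or.inl ⟨i, rfl⟩))⟩

theorem bch_le {j : Fin 3} (h : B0 k x y ≤ O) (h' : ∀ i, tc x y i / tc x y j ∈ O) :
    bch k x y j ≤ O := by
  refine Algebra.adjoin_le ?_
  rintro _ ((⟨i, rfl⟩ | ⟨i, rfl⟩) | ⟨i, rfl⟩)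
  exacts [h (s_mem i), h (t_mem i), h' i]

theorem y_unit (hg : Gen k x y) (hO : IsLocalRing O) {i : Fin 3} (hx : x i ∈ mx O)
    (hy : y i ∈ O) : IsU O (y i) := by
  refine isU_of_not_mx hy fun h => one_not_mem_mx (O := O) ?_
  rw [eq_sub_of_add_eq' (hg.eq i).symm]
  exact mx_sub' hO (mx_pow h (by norm_num)) (mx_pow hx (by norm_num))

variable {p : Pt 3}

theorem over_of_le (h : O ≤ W) (hs : ∀ i, sc y i ∈ O) (hW : Over (sc y) p W) : Over (sc y) p O :=
  fun i => mx_of_le h (O.sub_mem (hs i) (sv_mem O _)) (hW i)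

theorem s_mem_of_over (h : Over (sc y) p O) (i : Fin 3) : sc y i ∈ O := by
  simpa using O.add_mem (h i).1 (sv_mem O (p i))

theorem t_fac (hg : Gen k x y) (i : Fin 3) (d : ZMod 3) : tc x y i ^ 3 =
    (sc y i - sv d) * (1 - 3 * sv d ^ 2 - (sc y i - sv d) * (sc y i + 2 * sv d)) := by
  rw [t_cube hg]
  linear_combination (sv_cube (L := K) d)

theorem t_mx (hg : Gen k x y) (h : Over (sc y) p O) {i : Fin 3} (ht : tc x y i ∈ O) :
    tc x y i ∈ mx O := by
  refine mx_of_pow ht (n := 3) ?_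
  rw [t_fac hg i (p i)]
  have h1 := sv_mem O (p i)
  have h2 := s_mem_of_over h i
  refine mx_mul_right (h i) (O.sub_mem (O.sub_mem O.one_mem (O.mul_mem ?_ (O.pow_mem h1 2)))
    (O.mul_mem (h i).1 (O.add_mem h2 (O.mul_mem ?_ h1))))
  exacts [natCast_mem O 3, natCast_mem O 2]

theorem exists_over (hg : Gen k x y) (hB : B0 k x y ≤ O) (ht : ∀ i, tc x y i ∈ mx O) :
    ∃ p, Over (sc y) p O := by
  have key : ∀ i, ∃ d : ZMod 3, sc y i - sv d ∈ mx O := by
    intro i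
    have hs := hB (s_mem i)
    have h1 : sc y i * ((sc y i - 1) * (sc y i + 1)) ∈ mx O := by
      have := mx_neg (mx_pow (ht i) (n := 3) (by norm_num))
      rw [t_cube hg] at this
      convert this using 1
      ring
    have h2 := O.sub_mem hs O.one_mem
    have h3 := O.add_mem hs O.one_mem
    rcases mx_or_of_mul hs (O.mul_mem h2 h3) h1 with h | h
    · exact ⟨0, by simpa using h⟩
    · rcases mx_or_of_mul h2 h3 h with h | h
      · exact ⟨1, by simpa using h⟩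
      · exact ⟨-1, by simpa using h⟩
  choose p hp using key
  exact ⟨p, hp⟩

theorem Pts_B0 (hg : Gen k x y) (h : O ∈ prodE k x y) (ho : Over (sc y) p O) :
    O ∈ Pts (B0 k x y) := by
  obtain ⟨c, h⟩ := mem_prodE.1 h
  refine Pts_chart hg h (chart_le_of h.2.1 fun i hi => ⟨y_ne hg i, ?_, s_mem_of_over ho i⟩)
  have := h.2.1 (cu_mem c i)
  unfold cu at this
  rwa [if_pos (by simpa using hi)] at this

/-- Either some `1 / t i` is regular or the point lies over a fixed point. -/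
theorem inv_or_over (hg : Gen k x y) (hO : IsLocalRing O) (h : chart x y c ≤ O) :
    (∃ i, IsU O (cv x y c i)) ∨ ∃ p, Over (sc y) p O := by
  by_cases hu : ∃ i, IsU O (cv x y c i)
  · exact Or.inl hu
  right
  have h1 : ∀ i, cv x y c i ∈ mx O := fun i => ⟨h (cv_mem c i), fun h' => hu ⟨i, h'⟩⟩
  have h2 : ∀ i, c i = true → x i ∈ mx O ∧ IsU O (y i) := fun i hi => by
    have h3 := h1 i
    have h4 := h (cu_mem c i)
    unfold cv at h3
    unfold cu at h4
    rw [if_pos hi] at h3 h4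
    exact ⟨h3, y_unit hg hO h3 h4⟩
  refine exists_over hg (chart_le_of h fun i hi => (h2 i (by simpa using hi)).2) fun i => ?_
  by_cases hi : c i = true
  · exact mx_div (h2 i hi).1 (h2 i hi).2
  · have h3 := h1 i
    unfold cv at h3
    rwa [if_neg hi] at h3

variable [CharZero k]

/-- Every function of the chart is a constant up to a multiple of `g`. -/
theorem const_lemma (hg : Gen k x y) (hO : IsLocalRing O) (hB : B0 k x y ≤ O)
    (ho : Over (sc y) p O) {g : K} {J : Set K} (h0 : 0 ∈ J) (hadd : ∀ a ∈ J, ∀ b ∈ J, a + b ∈ J)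
    (hmul : ∀ a ∈ O, ∀ b ∈ J, a * b ∈ J) (ht : ∀ i, tc x y i / g ∈ J) :
    ∀ a ∈ B0 k x y, ∃ c : k, (a - algebraMap k K c) / g ∈ J := by
  intro a ha
  induction ha using Algebra.adjoin_induction with
  | mem a ha =>
    rcases ha with ⟨i, rfl⟩ | ⟨i, rfl⟩
    · exact ⟨0, by simpa [tc] using ht i⟩
    · refine ⟨sv (p i), ?_⟩
      have hu : IsU O (1 - 3 * sv (p i) ^ 2 - (sc y i - sv (p i)) * (sc y i + 2 * sv (p i))) := by
        rw [sub_eq_add_neg _ (_ * _)]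
        refine IsU.add_mx hO ?_ (mx_neg (mx_mul_right (ho i)
          (O.add_mem (s_mem_of_over ho i) (O.mul_mem (natCast_mem O 2) (sv_mem O _)))))
        rcases zmod3 (p i) with e | e | e <;> rw [e]
        · simpa using isU_one
        · convert isU_intCast (O := O) (n := -2) (by norm_num) using 1
          norm_num
        · convert isU_intCast (O := O) (n := -2) (by norm_num) using 1
          norm_num
      have := hmul _ (hu.div_mem (O.pow_mem (hB (t_mem i)) 2)) _ (ht i)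
      rw [map_sv]
      convert this using 1
      rw [div_mul_div_comm, ← pow_succ, t_fac hg i (p i), mul_comm (sc y i - sv (p i)) (_ - _),
        mul_div_mul_left _ _ hu.ne]
      rfl
  | algebraMap c => exact ⟨c, by simpa using h0⟩
  | add a b _ _ ha hb =>
    obtain ⟨c, hc⟩ := ha
    obtain ⟨d, hd⟩ := hb
    refine ⟨c + d, ?_⟩
    convert hadd _ hc _ hd using 1
    rw [map_add]; ring
  | mul a b ha' _ ha hb =>
    obtain ⟨c, hc⟩ := ha
    obtain ⟨d, hd⟩ := hb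
    refine ⟨c * d, ?_⟩
    convert hadd _ (hmul _ (hB ha') _ hd) _ (hmul _ (O.algebraMap_mem d) _ hc) using 1
    rw [map_mul]; ring

theorem div_lemma (hg : Gen k x y) (hO : IsLocalRing O) (h' : O' ∈ Pts (B0 k x y)) (hle : O' ≤ O)
    (ho : Over (sc y) p O) {g : K} (hg0 : g ≠ 0) {J : Set K} (h0 : 0 ∈ J)
    (hadd : ∀ a ∈ J, ∀ b ∈ J, a + b ∈ J) (hmul : ∀ a ∈ O, ∀ b ∈ J, a * b ∈ J)
    (hJ : ∀ z ∈ J, z * g ∈ mx O) (ht : ∀ i, tc x y i / g ∈ J) {a : K} (ha : a ∈ O')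
    (ha' : a ∈ mx O) : a / g ∈ J := by
  obtain ⟨n, hn, d, hd, hu, rfl⟩ := h'.2.2 a ha
  obtain ⟨c, hc⟩ := const_lemma hg hO (h'.2.1.trans hle) ho h0 hadd hmul ht n hn
  have h1 := hJ _ hc
  rw [div_mul_cancel₀ _ hg0] at h1
  have h2 := mx_mul_right ha' (hle hu.mem)
  rw [div_mul_cancel₀ _ hu.ne] at h2
  have h3 : c = 0 := const_mem_mx.1 (by simpa using mx_sub' hO h2 h1)
  rw [h3, map_zero, sub_zero] at hc
  convert hmul _ (hle hu.inv_mem) _ hc using 1
  ring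

theorem dom_of_over (hg : Gen k x y) (hO : IsLocalRing O) (h' : O' ∈ Pts (B0 k x y))
    (hle : O' ≤ O) (ho : Over (sc y) p O) : Dom O' O := by
  refine ⟨hle, fun u hu0 hU => ?_⟩
  obtain ⟨n, hn, d, hd, hu, rfl⟩ := h'.2.2 u hu0
  have hB := h'.2.1.trans hle
  obtain ⟨c, hc⟩ := const_lemma hg hO hB ho (g := 1) (J := mx O) zero_mem_mx
    (fun _ ha _ hb => mx_add hO ha hb) (fun _ ha _ hb => mx_mul_left ha hb)
    (fun i => by rw [div_one]; exact t_mx hg ho (hB (t_mem i))) n hn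
  rw [div_one] at hc
  have h2 := hU.mul (hu.mono hle)
  rw [div_mul_cancel₀ _ hu.ne] at h2
  have h3 : c ≠ 0 := fun h => h2.not_mx (by simpa [h] using hc)
  have h4 := (isU_const (O := O') h3).add_mx h'.1
    (mx_of_le hle (O'.sub_mem (h'.2.1 hn) (O'.algebraMap_mem c)) hc)
  rw [add_sub_cancel] at h4
  exact h4.div hu

omit [CharZero k] in
theorem bch_cases (hg : Gen k x y) {j : Fin 3} (h : O ∈ Pts (bch k x y j)) :
    (O ∈ prodE k x y ∧ ∀ p, ¬ Over (sc y) p O) ∨ (tc x y j ∈ mx O ∧ ∃ p, Over (sc y) p O) := by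
  have hB := (B0_le_bch j).trans h.2.1
  rcases isU_or_mx (hB (t_mem j)) with hu | hu
  · refine Or.inl ⟨mem_prodE.2 ⟨_, Pts_of_ctr h hB fun O' hO' hd => bch_le hO'.2.1 fun i => ?_⟩,
      fun p hp => hu.not_mx (t_mx hg hp hu.mem)⟩
    exact (hd.2 _ (hO'.2.1 (t_mem j)) hu).div_mem (hO'.2.1 (t_mem i))
  · refine Or.inr ⟨hu, exists_over hg hB fun i => ?_⟩
    have := mx_mul_left (h.2.1 (r_mem i j)) hu
    rwa [div_mul_cancel₀ _ (t_ne hg j)] at this

end charts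

section main

variable [CharZero k] {w : k} {x y : Fin 3 → K} {σ : K ≃ₐ[k] K} {O : Subalgebra k K}

omit [CharZero k] in
theorem sigma_cv (h : Setup w x y σ) (c : Fin 3 → Bool) (i : Fin 3) :
    σ (cv x y c i) = algebraMap k K w * cv x y c i := by
  unfold cv
  split_ifs
  · exact h.σx i
  · rw [map_div₀, h.σx, h.σy, mul_div_assoc]

omit [CharZero k] in
theorem sigma_cu (h : Setup w x y σ) (c : Fin 3 → Bool) (i : Fin 3) :
    σ (cu y c i) = algebraMap k K 1 * cu y c i := by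
  rw [map_one, one_mul]
  unfold cu
  split_ifs
  · exact h.σy i
  · rw [map_inv₀, h.σy]

theorem fix_iff (h : Setup w x y σ) :
    O ∈ fixPts σ (prodE k x y) ↔ O ∈ prodE k x y ∧ ∃ p, Over (sc y) p O := by
  have hg := h.toGen
  refine and_congr_right fun hO => ⟨fun hf => ?_, ?_⟩
  · obtain ⟨c, hc⟩ := mem_prodE.1 hO
    refine (inv_or_over hg hc.1 hc.2.1).resolve_left ?_
    rintro ⟨i, hi⟩
    have h1 := hf _ hi.mem
    have hw : w - 1 ≠ 0 := fun e => by
      have := h.hw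
      rw [sub_eq_zero.1 e] at this
      norm_num at this
    refine ((isU_const (O := O) hw).mul hi).not_mx ?_
    rwa [map_sub, map_one, sub_mul, one_mul, ← sigma_cv h]
  · rintro ⟨p, hp⟩ f hf
    have hB := Pts_B0 hg hO hp
    have hst : ∀ a ∈ B0 k x y, σ a ∈ B0 k x y := stab_of σ (by
      rintro _ (⟨i, rfl⟩ | ⟨i, rfl⟩)
      exacts [⟨_, sigma_cv h (fun _ => false) i⟩, ⟨_, sigma_cu h (fun _ => false) i⟩])
    have key : ∀ a ∈ B0 k x y, σ a - a ∈ mx O := by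
      intro a ha
      induction ha using Algebra.adjoin_induction with
      | mem a ha =>
        rcases ha with ⟨i, rfl⟩ | ⟨i, rfl⟩
        · have h1 := t_mx hg hp (hB.2.1 (t_mem i))
          refine mx_sub' hB.1 ?_ h1
          exact (sigma_cv h (fun _ => false) i).symm ▸ mx_mul_left (O.algebraMap_mem w) h1
        · change σ (cu y (fun _ => false) i) - cu y (fun _ => false) i ∈ mx O
          rw [sigma_cu h, map_one, one_mul, sub_self]
          exact zero_mem_mx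
      | algebraMap c => simpa using zero_mem_mx
      | add a b _ _ ha hb =>
        convert mx_add hB.1 ha hb using 1
        rw [map_add]; ring
      | mul a b ha' hb' ha hb =>
        convert mx_add hB.1 (mx_mul_left (hB.2.1 (hst a ha')) hb) (mx_mul_right ha (hB.2.1 hb'))
          using 1
        rw [map_mul]; ring
    obtain ⟨a, ha, b, hb, hu, rfl⟩ := hB.2.2 f hf
    have h1 := hu.add_mx hB.1 (key b hb)
    rw [add_sub_cancel] at h1
    have h2 := mx_div (mx_sub' hB.1 (mx_mul_right (key a ha) hu.mem)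
      (mx_mul_left (hB.2.1 ha) (key b hb))) (h1.mul hu)
    convert h2 using 1
    rw [map_div₀, div_sub_div _ _ h1.ne hu.ne]
    congr 1
    ring

theorem mem_of_A (h : Setup w x y σ) (h1 : O ∈ prodE k x y) (h2 : ∀ p, ¬ Over (sc y) p O) :
    O ∈ blE x y σ :=
  Or.inl ⟨h1, fun h' => let ⟨_, p, hp⟩ := (fix_iff h).1 h'; h2 p hp⟩

theorem mem_of_B (h : Setup w x y σ) {j : Fin 3} (hO : O ∈ Pts (bch k x y j)) :
    O ∈ blE x y σ := by
  have hg := h.toGen
  rcases bch_cases hg hO with ⟨h1, h2⟩ | ⟨ht, p, hp⟩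
  · exact mem_of_A h h1 h2
  obtain ⟨Op, hOp, hd⟩ := exists_ctr hO.1 ((B0_le_bch j).trans hO.2.1)
  have hp' := over_of_le hd.1 (fun i => hOp.2.1 (s_mem i)) hp
  have ht' := fun i => t_mx hg hp' (hOp.2.1 (t_mem i))
  refine Or.inr (Set.mem_iUnion₂.2 ⟨Op, (fix_iff h).2 ⟨mem_prodE.2 ⟨_, hOp⟩, p, hp'⟩,
    Set.mem_iUnion₂.2 ⟨tc x y j, ⟨ht' j, t_ne hg j⟩, Pts_of_le hO ?_ (Algebra.adjoin_le ?_)⟩⟩)
  · exact bch_le (fun a ha => Algebra.subset_adjoin (Or.inl (hOp.2.1 ha)))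
      fun i => Algebra.subset_adjoin (Or.inr ⟨_, ht' i, rfl⟩)
  · rintro _ (ha | ⟨a, ha, rfl⟩)
    · exact hd.1 ha
    · exact div_lemma hg hO.1 hOp hd.1 hp (t_ne hg j) (J := O) O.zero_mem
        (fun _ ha _ hb => O.add_mem ha hb) (fun _ ha _ hb => O.mul_mem ha hb)
        (fun _ hz => mx_mul_left hz ht) (fun i => hO.2.1 (r_mem i j)) ha.1 (hd.mx ha)

theorem mem_iff (h : Setup w x y σ) : O ∈ blE x y σ ↔
    (O ∈ prodE k x y ∧ ∀ p, ¬ Over (sc y) p O) ∨ ∃ j, O ∈ Pts (bch k x y j) := by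
  have hg := h.toGen
  refine ⟨?_, fun h' => h'.elim (fun h1 => mem_of_A h h1.1 h1.2) fun ⟨_, h1⟩ => mem_of_B h h1⟩
  rintro (⟨h1, h2⟩ | hO)
  · exact Or.inl ⟨h1, fun p hp => h2 ((fix_iff h).2 ⟨h1, p, hp⟩)⟩
  obtain ⟨Op, hfix, hO⟩ := Set.mem_iUnion₂.1 hO
  obtain ⟨g, ⟨hgm, hg0⟩, hO⟩ := Set.mem_iUnion₂.1 hO
  replace hg0 : g ≠ 0 := hg0
  obtain ⟨hOp, p, hp⟩ := (fix_iff h).1 hfix
  replace hOp := Pts_B0 hg hOp hp
  have hle : Op ≤ O := fun a ha => hO.2.1 (Algebra.subset_adjoin (Or.inl ha))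
  have hdiv : ∀ a ∈ mx Op, a / g ∈ O := fun a ha =>
    hO.2.1 (Algebra.subset_adjoin (Or.inr ⟨a, ha, rfl⟩))
  have hB := hOp.2.1.trans hle
  rcases isU_or_mx (hle hgm.1) with hu | hu
  · refine Or.inl ⟨mem_prodE.2 ⟨_, Pts_trans hOp (Pts_of_ctr hO hle fun O' hO' hd => ?_)⟩,
      fun q hq => hu.not_mx ((dom_of_over hg hO.1 hOp hle hq).mx hgm)⟩
    refine Algebra.adjoin_le ?_
    rintro _ (ha | ⟨a, ha, rfl⟩)
    · exact hO'.2.1 ha
    · exact (hd.2 _ (hO'.2.1 hgm.1) hu).div_mem (hO'.2.1 ha.1)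
  right
  have ht := fun i => hdiv _ (t_mx hg hp (hOp.2.1 (t_mem i)))
  obtain ⟨q, hq⟩ := exists_over hg hB fun i => by
    have := mx_mul_left (ht i) hu
    rwa [div_mul_cancel₀ _ hg0] at this
  obtain ⟨j, hj⟩ : ∃ j, IsU O (tc x y j / g) := by
    by_contra hn
    have := div_lemma hg hO.1 hOp hle hq hg0 (J := mx O) zero_mem_mx
      (fun _ ha _ hb => mx_add hO.1 ha hb) (fun _ ha _ hb => mx_mul_left ha hb)
      (fun _ hz => mx_mul_right hz hu.1) (fun i => ⟨ht i, fun h' => hn ⟨i, h'⟩⟩) hgm.1 hu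
    rw [div_self hg0] at this
    exact one_not_mem_mx this
  refine ⟨j, Pts_of_ctr hO (bch_le hB fun i => ?_) fun O' hO' hd => ?_⟩
  · have := hj.div_mem (ht i)
    rwa [div_div_div_cancel_right₀ hg0] at this
  have hB' := (B0_le_bch j).trans hO'.2.1
  have hle' : Op ≤ O' := Pts_le hOp hB' hle hd
  have hq' := over_of_le hd.1 (fun i => hB' (s_mem i)) hq
  have key : ∀ a ∈ mx Op, a / tc x y j ∈ O' := fun a ha =>
    div_lemma hg hO'.1 hOp hle' hq' (t_ne hg j) (J := O') O'.zero_mem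
      (fun _ ha _ hb => O'.add_mem ha hb) (fun _ ha _ hb => O'.mul_mem ha hb)
      (fun _ hz => mx_mul_left hz (t_mx hg hq' (hB' (t_mem j)))) (fun i => hO'.2.1 (r_mem i j))
      ha.1 ((dom_of_over hg hO'.1 hOp hle' hq').mx ha)
  refine Algebra.adjoin_le ?_
  rintro _ (ha | ⟨a, ha, rfl⟩)
  · exact hle' ha
  · have := (hd.2 _ (key g hgm) (by simpa using hj.inv)).div_mem (key a ha)
    rwa [div_div_div_cancel_right₀ (t_ne hg j)] at this

theorem cases_of_mem (h : Setup w x y σ) (hO : O ∈ blE x y σ) :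
    (O ∈ prodE k x y ∧ ∀ p, ¬ Over (sc y) p O) ∨
      ((∃ j, O ∈ Pts (bch k x y j)) ∧ ∃ p, Over (sc y) p O) := by
  rcases (mem_iff h).1 hO with h1 | ⟨j, hj⟩
  · exact Or.inl h1
  · exact (bch_cases h.toGen hj).imp_right fun h2 => ⟨⟨j, hj⟩, h2.2⟩

omit [CharZero k] in
theorem sep_AB (hg : Gen k x y) {O₁ O₂ W : Subalgebra k K} (h1 : O₁ ∈ prodE k x y)
    (h1' : ∀ p, ¬ Over (sc y) p O₁) {j : Fin 3} (h2 : O₂ ∈ Pts (bch k x y j)) {p : Pt 3}
    (hp : Over (sc y) p O₂) (hW : IsLocalRing W) (d1 : Dom O₁ W) (d2 : Dom O₂ W) : False := by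
  obtain ⟨Op, hOp, hd⟩ := exists_ctr hW (((B0_le_bch j).trans h2.2.1).trans d2.1)
  refine h1' p ?_
  rw [prodE_sep hg h1 (mem_prodE.2 ⟨_, hOp⟩) d1 hd]
  exact over_of_le hd.1 (fun i => hOp.2.1 (s_mem i)) fun i => d2.mx (hp i)

omit [CharZero k] in
theorem bch_le_dom (hg : Gen k x y) {W : Subalgebra k K} {j j' : Fin 3} (h : bch k x y j ≤ O)
    (hd : Dom O W) (h' : bch k x y j' ≤ W) : bch k x y j' ≤ O := by
  refine bch_le ((B0_le_bch j).trans h) fun i => ?_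
  have hu : IsU O (tc x y j' / tc x y j) := hd.2 _ (h (r_mem j' j))
    ⟨div_ne_zero (t_ne hg _) (t_ne hg _), hd.1 (h (r_mem j' j)), by simpa using h' (r_mem j j')⟩
  have := hu.div_mem (h (r_mem i j))
  rwa [div_div_div_cancel_right₀ (t_ne hg j)] at this

theorem stab (h : Setup w x y σ) (hO : O ∈ blE x y σ) : ∃ G : Set K, G.Finite ∧
    (∀ a ∈ Algebra.adjoin k G, σ a ∈ Algebra.adjoin k G) ∧ O ∈ Pts (Algebra.adjoin k G) ∧
      Pts (Algebra.adjoin k G) ⊆ blE x y σ := by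
  have hg := h.toGen
  have hw : w ≠ 0 := fun e => by simpa [e] using h.hw
  rcases (mem_iff h).1 hO with ⟨h1, h2⟩ | ⟨j, hj⟩
  · obtain ⟨c, hc⟩ := mem_prodE.1 h1
    obtain ⟨i, hi⟩ := (inv_or_over hg hc.1 hc.2.1).resolve_right fun ⟨p, hp⟩ => h2 p hp
    have hle : chart x y c ≤ Algebra.adjoin k
        (Set.range (cv x y c) ∪ Set.range (cu y c) ∪ {(cv x y c i)⁻¹}) :=
      Algebra.adjoin_mono Set.subset_union_left
    refine ⟨Set.range (cv x y c) ∪ Set.range (cu y c) ∪ {(cv x y c i)⁻¹},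
      ((Set.finite_range _).union (Set.finite_range _)).union (Set.finite_singleton _),
      stab_of σ ?_, Pts_of_le hc hle (Algebra.adjoin_le ?_), fun O' hO' => ?_⟩
    · rintro _ ((⟨l, rfl⟩ | ⟨l, rfl⟩) | rfl)
      · exact ⟨_, sigma_cv h c l⟩
      · exact ⟨_, sigma_cu h c l⟩
      · exact ⟨w⁻¹, by rw [map_inv₀, sigma_cv h, mul_inv, map_inv₀]⟩
    · rintro _ (ha | rfl)
      · exact hc.2.1 (Algebra.subset_adjoin ha)
      · exact hi.inv_mem
    · have hu : IsU O' (cv x y c i) := ⟨hi.ne, hO'.2.1 (hle (cv_mem c i)),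
        hO'.2.1 (Algebra.subset_adjoin (Or.inr rfl))⟩
      have hA : O' ∈ prodE k x y := mem_prodE.2 ⟨c, Pts_of_ctr hO' (hle.trans hO'.2.1)
        fun O'' hO'' hd => Algebra.adjoin_le (by
          rintro _ (ha | rfl)
          · exact hO''.2.1 (Algebra.subset_adjoin ha)
          · exact (hd.2 _ (hO''.2.1 (cv_mem c i)) hu).inv_mem)⟩
      refine mem_of_A h hA fun p hp => hu.not_mx ?_
      have h3 := t_mx hg hp ((Pts_B0 hg hA hp).2.1 (t_mem i))
      have h4 := hO'.2.1 (hle (cu_mem c i))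
      unfold cu at h4
      unfold cv
      split_ifs at h4 ⊢
      · have := mx_mul_right h3 h4
        rwa [tc, div_mul_cancel₀ _ (y_ne hg i)] at this
      · exact h3
  · refine ⟨_, ((Set.finite_range _).union (Set.finite_range _)).union (Set.finite_range _),
      stab_of σ ?_, hj, fun _ hO' => mem_of_B h hO'⟩
    have ht : ∀ l, σ (tc x y l) = algebraMap k K w * tc x y l := sigma_cv h fun _ => false
    rintro _ ((⟨l, rfl⟩ | ⟨l, rfl⟩) | ⟨l, rfl⟩)
    · exact ⟨_, sigma_cu h (fun _ => false) l⟩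
    · exact ⟨_, ht l⟩
    · refine ⟨1, ?_⟩
      rw [map_div₀, ht, ht, map_one, one_mul, mul_div_mul_left _ _ (by simpa using hw)]

end main

end YMod

open YMod in
theorem y_stmt (hfrac : FracStmt) : YStmt := by
  intro k K _ _ _ _ w x y σ h
  have hg := h.toGen
  refine ⟨⟨fun O hO => ?_, fun O₁ h1 O₂ h2 W hW d1 d2 => ?_, fun V hV => ?_, fun O hO => ?_⟩,
    fun _ => fix_iff h, fun _ => mem_iff h, fun O hO hn => ?_, fun O hO p hp => ?_,
    fun O hO => ?_, fun _ => stab h, ?_⟩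
  · obtain ⟨G, -, -, hG, -⟩ := stab h hO
    exact hG.1
  · rcases cases_of_mem h h1 with ⟨a1, n1⟩ | ⟨⟨j1, b1⟩, p1, o1⟩ <;>
      rcases cases_of_mem h h2 with ⟨a2, n2⟩ | ⟨⟨j2, b2⟩, p2, o2⟩
    · exact prodE_sep hg a1 a2 d1 d2
    · exact (sep_AB hg a1 n1 b2 o2 hW d1 d2).elim
    · exact (sep_AB hg a2 n2 b1 o1 hW d2 d1).elim
    · exact Pts_eq b1 b2 (bch_le_dom hg b2.2.1 d2 (b1.2.1.trans d1.1))
        (bch_le_dom hg b1.2.1 d1 (b2.2.1.trans d2.1)) d1 d2
  · obtain ⟨c, hc⟩ := exists_chart_le hg hV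
    obtain ⟨O, hO, hd⟩ := exists_ctr hV.isLocalRing hc
    by_cases ho : ∃ p, Over (sc y) p O
    · obtain ⟨p, hp⟩ := ho
      obtain ⟨j, hj⟩ := exists_min hV _ (t_ne hg)
      obtain ⟨O', hO', hd'⟩ := exists_ctr hV.isLocalRing
        (bch_le ((Pts_B0 hg (mem_prodE.2 ⟨c, hO⟩) hp).2.1.trans hd.1) hj)
      exact ⟨O', mem_of_B h hO', hd'⟩
    · exact ⟨O, mem_of_A h (mem_prodE.2 ⟨c, hO⟩) fun p hp => ho ⟨p, hp⟩, hd⟩
  · obtain ⟨G, h1, -, h2⟩ := stab h hO
    exact ⟨G, h1, h2⟩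
  · rcases cases_of_mem h hO with h1 | ⟨-, p, hp⟩
    exacts [h1.1, (hn p hp).elim]
  · rcases cases_of_mem h hO with h1 | h1
    exacts [(h1.2 p hp).elim, h1.1]
  · rcases (mem_iff h).1 hO with ⟨h1, -⟩ | ⟨j, hj⟩
    · obtain ⟨c, hc⟩ := mem_prodE.1 h1
      exact ⟨c, hc.2.1⟩
    · exact ⟨_, (B0_le_bch j).trans hj.2.1⟩
  · exact mem_of_A h (mem_prodE.2 ⟨_, top_mem_Pts (hfrac k K _ x y (fun _ => true) hg)⟩)
      fun p hp => t_ne hg 0 (mem_mx_top.1 (t_mx hg hp trivial))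

end Pool.Agent.MP_20d318_ag.AG

end MrgPart0

-- ======== part 1: formerly Pool.Agent.MP_20d318_ag.AG.Cart
section MrgPart1

/-! Cartier divisors, existence of curves, degrees. -/

set_option autoImplicit false
set_option linter.unusedSectionVars false

namespace Pool.Agent.MP_20d318_ag.AG

open Pool.Agent.MP_79c67d_ag Pool.Agent.MP_20d318_ag.Lat E

variable {k K F L : Type} [Field k] [Field K] [Field F] [Field L] [Algebra k K] [Algebra k F]
  [Algebra k L]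

section cart

variable {X : Set (Subalgebra k K)} {f g : Subalgebra k K → K} {O O' : Subalgebra k K}

theorem Cartier.isCart (D : Cartier X) : IsCart X D.f := D.loc

theorem IsCart.unit (h : IsCart X f) (hO : O ∈ X) (hO' : O' ∈ X) (hle : O ≤ O') :
    IsU O' (f O / f O') := by
  obtain ⟨T, h1, h2⟩ := h O hO
  simpa using (h2 O' hO' fun a ha => hle (h1 a ha)).inv

theorem IsCart.ne (h : IsCart X f) (hO : O ∈ X) : f O ≠ 0 := fun e =>
  (h.unit hO hO le_rfl).1 (by simp [e])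

theorem IsCart.mul (hf : IsCart X f) (hg : IsCart X g) : IsCart X (f * g) := fun O hO => by
  classical
  obtain ⟨T, h1, h2⟩ := hf O hO
  obtain ⟨T', h3, h4⟩ := hg O hO
  refine ⟨T ∪ T', fun a ha => (Finset.mem_union.1 ha).elim (h1 a) (h3 a), fun O' hO' h => ?_⟩
  rw [Pi.mul_apply, Pi.mul_apply, mul_div_mul_comm]
  exact (h2 O' hO' fun a ha => h a (Finset.mem_union_left _ ha)).mul
    (h4 O' hO' fun a ha => h a (Finset.mem_union_right _ ha))

theorem IsCart.zpow (hf : IsCart X f) (n : ℤ) : IsCart X (f ^ n) := fun O hO => by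
  obtain ⟨T, h1, h2⟩ := hf O hO
  refine ⟨T, h1, fun O' hO' h => ?_⟩
  rw [Pi.pow_apply, Pi.pow_apply, ← div_zpow]
  exact (h2 O' hO' h).zpow n

theorem IsCart.pow (hf : IsCart X f) (n : ℕ) : IsCart X (f ^ n) := by
  simpa using hf.zpow n
theorem IsCart.inv (hf : IsCart X f) : IsCart X f⁻¹ := by simpa using hf.zpow (-1)
theorem IsCart.div (hf : IsCart X f) (hg : IsCart X g) : IsCart X (f / g) := by
  rw [div_eq_mul_inv]; exact hf.mul hg.inv
theorem isCart_const {h : K} (hh : h ≠ 0) : IsCart X fun _ => h := fun _ _ =>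
  ⟨∅, by simp, fun _ _ _ => by simpa [hh] using isU_one⟩
theorem isCart_one : IsCart X 1 := isCart_const one_ne_zero
theorem isCart_prod {ι : Type*} {s : Finset ι} {f : ι → Subalgebra k K → K}
    (h : ∀ i ∈ s, IsCart X (f i)) : IsCart X (∏ i ∈ s, f i) :=
  Finset.prod_induction f (IsCart X) (fun _ _ => IsCart.mul) isCart_one h

theorem IsCart.pull {X : Set (Subalgebra k F)} {Y : Set (Subalgebra k K)} {f : Subalgebra k F → F}
    (hf : IsCart X f) (ι : F →ₐ[k] K) (h : ∀ O ∈ Y, O.comap ι ∈ X) :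
    IsCart Y fun O => ι (f (O.comap ι)) := fun O hO => by
  classical
  obtain ⟨T, h1, h2⟩ := hf _ (h O hO)
  refine ⟨T.image ι, fun a ha => ?_, fun O' hO' h3 => ?_⟩
  · obtain ⟨b, hb, rfl⟩ := Finset.mem_image.1 ha
    exact h1 b hb
  · have := (isU_comap _).1 (h2 _ (h O' hO') fun a ha => h3 _ (Finset.mem_image_of_mem _ ha))
    rwa [map_div₀] at this

theorem ec_pos {s τ : K} {c : ZMod 3} (h : s - sv c ∈ mx O) : ec s τ c O = τ := if_pos h
theorem ec_neg {s τ : K} {c : ZMod 3} (h : s - sv c ∉ mx O) : ec s τ c O = 1 := if_neg h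
theorem ep_neg {s τ : Fin 3 → K} {p : Pt 3} (h : ¬ Over s p O) : ep s τ p O = 1 := if_neg h
theorem ep_pos {s τ : Fin 3 → K} {p : Pt 3} (h : Over s p O) (hj : ∃ j, ∀ i, τ i / τ j ∈ O) :
    ∃ j, ep s τ p O = τ j ∧ ∀ i, τ i / τ j ∈ O := ⟨_, if_pos h, Classical.epsilon_spec hj⟩

theorem inv_sub_sv_mem (hO : IsLocalRing O) {s : K} {c : ZMod 3} (hs : s ∈ O ∨ s⁻¹ ∈ O)
    (h : s - sv c ∉ mx O) : s - sv c ≠ 0 ∧ (s - sv c)⁻¹ ∈ O := by
  have h0 : s - sv c ≠ 0 := fun e => h (e ▸ zero_mem_mx)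
  refine ⟨h0, ?_⟩
  by_cases h1 : s ∈ O
  · exact (isU_of_not_mx (sub_mem h1 (sv_mem O c)) h).2.2
  have hs0 : s ≠ 0 := fun e => h1 (e ▸ zero_mem _)
  have h2 : s⁻¹ ∈ mx O := ⟨hs.resolve_left h1, fun hu => h1 (by simpa using hu.2.2)⟩
  have h3 := (isU_one.add_mx hO (mx_neg (mx_mul_left (sv_mem O c) h2))).div_mem h2.1
  have : (s - sv c)⁻¹ = s⁻¹ / (1 + -(sv c * s⁻¹)) := by
    rw [show 1 + -(sv c * s⁻¹) = (s - sv c) * s⁻¹ by field_simp; ring]; field_simp
  rwa [this]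

theorem isU_of_cof {s τ : K} {c : ZMod 3} {m : ℕ} (hm : m ≠ 0) (hτ : τ ^ m = s - s ^ 3) (ht : τ ∈ O)
    (h0 : τ ≠ 0) (hs : s ∈ O) (h1 : (s - sv (c + 1))⁻¹ ∈ O) (h2 : (s - sv (c - 1))⁻¹ ∈ O)
    (h : s - sv c ∉ mx O) : IsU O τ := by
  have h3 := pow_ne_zero m h0
  rw [hτ, cube_factor s c, neg_ne_zero] at h3
  refine IsU.of_pow ht hm ?_
  rw [hτ, cube_factor s c]
  exact ((isU_of_not_mx (sub_mem hs (sv_mem O c)) h).mul (IsU.mul
    ⟨left_ne_zero_of_mul (right_ne_zero_of_mul h3), sub_mem hs (sv_mem O _), h1⟩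
    ⟨right_ne_zero_of_mul (right_ne_zero_of_mul h3), sub_mem hs (sv_mem O _), h2⟩)).neg

theorem zmod_ne (c : ZMod 3) : c + 1 ≠ c ∧ c - 1 ≠ c := by revert c; decide

variable [CharZero k]

theorem isCart_ec {s τ : K} (c : ZMod 3) {m : ℕ} (hm : m ≠ 0) (hτ : τ ^ m = s - s ^ 3) (h0 : τ ≠ 0)
    (hX : ∀ O ∈ X, IsLocalRing O ∧ (s ∈ O ∨ s⁻¹ ∈ O) ∧ (s ∈ O → τ ∈ O)) :
    IsCart X (ec s τ c) := fun O hO => by
  classical
  obtain ⟨hl, h1, h2⟩ := hX O hO
  by_cases h : s - sv c ∈ mx O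
  · have hs := mem_of_sub_sv h
    refine ⟨{s, τ, (s - sv (c + 1))⁻¹, (s - sv (c - 1))⁻¹}, ?_, fun O' _ h3 => ?_⟩
    · simp [hs, h2 hs, (isU_cofactor hl h (zmod_ne c).1).2.2, (isU_cofactor hl h (zmod_ne c).2).2.2]
    · rw [ec_pos h]
      by_cases h' : s - sv c ∈ mx O'
      · simpa [ec_pos h', h0] using isU_one
      · rw [ec_neg h', one_div]
        exact (isU_of_cof hm hτ (h3 _ (by simp)) h0 (h3 _ (by simp)) (h3 _ (by simp))
          (h3 _ (by simp)) h').inv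
  · obtain ⟨h3, h4⟩ := inv_sub_sv_mem hl h1 h
    refine ⟨{(s - sv c)⁻¹}, by simpa using h4, fun O' _ h5 => ?_⟩
    rw [ec_neg h, ec_neg fun h' => h'.2 ⟨h3, h'.1, h5 _ (by simp)⟩]
    simpa using isU_one

theorem isCart_ep {s τ : Fin 3 → K} (p : Pt 3) {m : ℕ} (hm : m ≠ 0)
    (hτ : ∀ i, τ i ^ m = s i - s i ^ 3) (h0 : ∀ i, τ i ≠ 0)
    (hX : ∀ O ∈ X, IsLocalRing O ∧ (∀ i, s i ∈ O ∨ (s i)⁻¹ ∈ O) ∧ (∀ i, s i ∈ O → τ i ∈ O) ∧
      (Over s p O → ∃ j, ∀ i, τ i / τ j ∈ O)) : IsCart X (ep s τ p) := fun O hO => by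
  classical
  obtain ⟨hl, h1, h2, h3⟩ := hX O hO
  by_cases h : Over s p O
  · obtain ⟨j, e, hj⟩ := ep_pos h (h3 h)
    have hs := fun i => mem_of_sub_sv (h i)
    refine ⟨Finset.univ.biUnion fun i =>
      {s i, τ i, τ i / τ j, (s i - sv (p i + 1))⁻¹, (s i - sv (p i - 1))⁻¹}, ?_, fun O' hO' h4 => ?_⟩
    · simp only [Finset.mem_biUnion, Finset.mem_univ, true_and, Finset.mem_insert,
        Finset.mem_singleton]
      rintro a ⟨i, rfl | rfl | rfl | rfl | rfl⟩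
      exacts [hs i, h2 i (hs i), hj i, (isU_cofactor hl (h i) (zmod_ne _).1).2.2,
        (isU_cofactor hl (h i) (zmod_ne _).2).2.2]
    · have h5 : ∀ i, ∀ a ∈ ({s i, τ i, τ i / τ j, (s i - sv (p i + 1))⁻¹,
          (s i - sv (p i - 1))⁻¹} : Finset K), a ∈ O' := fun i a ha =>
        h4 a (Finset.mem_biUnion.2 ⟨i, Finset.mem_univ i, ha⟩)
      rw [e]
      by_cases h' : Over s p O'
      · obtain ⟨j', e', hj'⟩ := ep_pos h' ((hX O' hO').2.2.2 h')
        rw [e']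
        exact ⟨div_ne_zero (h0 _) (h0 _), h5 j' _ (by simp), by simpa using hj' j⟩
      · obtain ⟨i, hi⟩ := not_forall.1 h'
        have h6 := isU_of_cof hm (hτ i) (h5 i _ (by simp)) (h0 i) (h5 i _ (by simp))
          (h5 i _ (by simp)) (h5 i _ (by simp)) hi
        rw [ep_neg h', one_div]
        refine (IsU.of_mul (b := τ i / τ j) (h5 j _ (by simp)) (h5 i _ (by simp)) ?_).inv
        rwa [mul_div_cancel₀ _ (h0 j)]
  · obtain ⟨i, hi⟩ := not_forall.1 h
    obtain ⟨h4, h5⟩ := inv_sub_sv_mem hl (h1 i) hi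
    refine ⟨{(s i - sv (p i))⁻¹}, by simpa using h5, fun O' _ h6 => ?_⟩
    rw [ep_neg h, ep_neg fun h' => (h' i).2 ⟨h4, (h' i).1, h6 _ (by simp)⟩]
    simpa using isU_one

end cart

section curves

variable {X : Set (Subalgebra k K)} {O : Subalgebra k K}

/-- The functions whose restriction is regular at the place `P`. -/
def preO (O : Subalgebra k K) (ρ : O →ₐ[k] L) (P : Place k L) : Subalgebra k K :=
  ((plO P).comap ρ).map O.val

theorem mem_preO {ρ : O →ₐ[k] L} {P : Place k L} {u : K} :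
    u ∈ preO O ρ P ↔ u ∈ O ∧ P.v (evO O ρ u) ≤ 1 :=
  ⟨by rintro ⟨a, ha, rfl⟩; exact ⟨a.2, (congrArg P.v (evO_coe ρ a)).trans_le ha⟩,
    fun h => ⟨⟨u, h.1⟩, by rw [evO_of_mem ρ h.1] at h; exact h.2, rfl⟩⟩

theorem isU_preO {ρ : O →ₐ[k] L} (hρ : LocHom O ρ) {P : Place k L} {u : K} :
    IsU (preO O ρ P) u ↔ u ∈ O ∧ P.v (evO O ρ u) = 1 := by
  refine ⟨fun h => ?_, fun h => ?_⟩
  · have h1 := mem_preO.1 h.2.1
    have h2 := mem_preO.1 h.2.2
    have hu : IsU O u := ⟨h.1, h1.1, h2.1⟩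
    rw [evO_inv ρ hu] at h2
    exact ⟨h1.1, (isU_plO P).1 ⟨evO_ne ρ hu, h1.2, h2.2⟩⟩
  · have hu : IsU O u := isU_of_not_mx h.1 fun hm => by
      simpa [(hρ.eq_zero_iff h.1).2 hm] using h.2
    exact ⟨hu.1, mem_preO.2 ⟨h.1, h.2.le⟩, mem_preO.2 ⟨hu.2.2, by
      rw [evO_inv ρ hu, map_inv₀, h.2, inv_one]⟩⟩

theorem mem_mx_preO {ρ : O →ₐ[k] L} (hρ : LocHom O ρ) {P : Place k L} {u : K} :
    u ∈ mx (preO O ρ P) ↔ u ∈ O ∧ P.v (evO O ρ u) < 1 := by
  rw [mx, Set.mem_ofPred_eq, isU_preO hρ, mem_preO, lt_iff_le_and_ne]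
  tauto

theorem preO_local {ρ : O →ₐ[k] L} (hρ : LocHom O ρ) (P : Place k L) : IsLocalRing (preO O ρ P) :=
  isLocalRing_of fun a ha b hb => by
    rw [mem_mx_preO hρ] at *
    exact ⟨add_mem ha.1 hb.1, by rw [evO_add ρ ha.1 hb.1]; exact P.v.map_add_lt ha.2 hb.2⟩

theorem Curve.dom_preO (ν : Curve X) (P : Place k ν.L) : Dom (ν.pt P) (preO ν.gen ν.ρ P) :=
  ⟨fun _ hu => mem_preO.2 ⟨ν.pt_le P hu, ν.v_le P hu⟩,
    fun _ hu h => (ν.v_eq_one_iff P hu).1 ((isU_preO ν.locHom).1 h).2⟩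

theorem Good.pts (hX : Good X) (hO : O ∈ X) : Pts O ⊆ X := fun _ h => by
  obtain ⟨G, -, h1, h2⟩ := hX.fg O hO
  exact h2 (Pts_trans h1 h)

theorem Good.exists_center (hX : Good X) (hO : O ∈ X) {ρ : O →ₐ[k] L} (hρ : LocHom O ρ)
    (P : Place k L) : ∃ c ∈ X, Dom c (preO O ρ P) := by
  obtain ⟨V, hV, hd⟩ := exists_val (preO_local hρ P)
  obtain ⟨c, hc, hcV⟩ := hX.cpl V hV
  have hm : ∀ m ∈ mx O, m ∈ mx V := fun m hm =>
    hd.mx ((mem_mx_preO hρ).2 ⟨hm.1, by simp [(hρ.eq_zero_iff hm.1).2 hm]⟩)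
  have hinv : ∀ u ∈ O, u ∉ preO O ρ P → IsU O u ∧ u⁻¹ ∈ mx (preO O ρ P) := fun u hu hn => by
    have h1 : 1 < P.v (evO O ρ u) := not_le.1 fun h => hn (mem_preO.2 ⟨hu, h⟩)
    have h2 : IsU O u := isU_of_not_mx hu fun h => by simp [(hρ.eq_zero_iff hu).2 h] at h1
    exact ⟨h2, (mem_mx_preO hρ).2 ⟨h2.2.2, by
      rw [evO_inv ρ h2, map_inv₀]; exact inv_lt_one_of_one_lt₀ h1⟩⟩
  let V' : Subalgebra k K :=
    { carrier := {f | ∃ d ∈ preO O ρ P, IsU O d ∧ f * d ∈ V}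
      mul_mem' := by
        rintro a b ⟨d, h1, h2, h3⟩ ⟨e, h4, h5, h6⟩
        exact ⟨d * e, mul_mem h1 h4, h2.mul h5, by rw [mul_mul_mul_comm]; exact mul_mem h3 h6⟩
      add_mem' := by
        rintro a b ⟨d, h1, h2, h3⟩ ⟨e, h4, h5, h6⟩
        refine ⟨d * e, mul_mem h1 h4, h2.mul h5, ?_⟩
        rw [show (a + b) * (d * e) = a * d * e + b * e * d by ring]
        exact add_mem (mul_mem h3 (hd.1 h4)) (mul_mem h6 (hd.1 h1))
      algebraMap_mem' := fun r => ⟨1, one_mem _, isU_one, by simp⟩ }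
  have hVV : V ≤ V' := fun f hf => ⟨1, one_mem _, isU_one, by simpa using hf⟩
  have hOV : Dom O V' := by
    refine ⟨fun u hu => ?_, fun u hu h => isU_of_not_mx hu fun h1 => ?_⟩
    · by_cases h : u ∈ preO O ρ P
      · exact hVV (hd.1 h)
      · obtain ⟨h1, h2⟩ := hinv u hu h
        exact ⟨u⁻¹, h2.1, h1.inv, by simp [h1.1]⟩
    · obtain ⟨d, -, h2, h3⟩ := h.2.2
      have := mx_mul_left h3 (hm _ (mx_div h1 h2))
      rw [show u⁻¹ * d * (u / d) = 1 by have := h.1; have := h2.1; field_simp] at this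
      exact one_not_mem_mx this
  obtain ⟨c', h1, h2⟩ := exists_ctr (hV.mono hVV).isLocalRing (hcV.1.trans hVV)
  have h3 : c ≤ O :=
    hX.sep c' (hX.pts hc h1) O hO V' (hV.mono hVV).isLocalRing h2 hOV ▸ h1.2.1
  refine ⟨c, hc, hcV.of_le (fun u hu => by_contra fun hn => ?_) hd.1⟩
  obtain ⟨h4, h5⟩ := hinv u (h3 hu) hn
  exact (hd.mx h5).2 ⟨inv_ne_zero h4.1, hd.1 h5.1, by simpa using hcV.1 hu⟩

/-- The curve attached to a local homomorphism to a function field. -/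
noncomputable def Good.curve [IsFF k L] (hX : Good X) (hO : O ∈ X) (ρ : O →ₐ[k] L)
    (hρ : LocHom O ρ) : Curve X where
  L := L
  gen := O
  gen_mem := hO
  ρ := ρ
  ρ_loc := hρ
  pt P := (hX.exists_center hO hρ P).choose
  pt_mem P := (hX.exists_center hO hρ P).choose_spec.1
  pt_le P _ hu := (mem_preO.1 ((hX.exists_center hO hρ P).choose_spec.2.1 hu)).1
  pt_reg P u hu := by
    simpa [evO_coe] using (mem_preO.1 ((hX.exists_center hO hρ P).choose_spec.2.1 hu)).2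
  pt_loc P u hu h := (hX.exists_center hO hρ P).choose_spec.2.2 u hu
    ((isU_preO hρ).2 ⟨u.2, by rwa [evO_coe]⟩)

theorem Good.pt_eq (hX : Good X) (ν : Curve X) (P : Place k ν.L) {c : Subalgebra k K} (hc : c ∈ X)
    (h : Dom c (preO ν.gen ν.ρ P)) : ν.pt P = c :=
  hX.sep _ (ν.pt_mem P) c hc _ (preO_local ν.locHom P) (ν.dom_preO P) h

variable [CharZero k] [IsAlgClosed k] {f g : Subalgebra k K → K}

theorem Good.eventually_mem (hX : Good X) (ν : Curve X) {a : K} (ha : a ∈ ν.gen) :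
    {P : Place k ν.L | a ∉ ν.pt P}.Finite := by
  obtain ⟨G, hG, h1, h2⟩ := hX.fg _ ν.gen_mem
  obtain ⟨b, hb, d, hd, hu, rfl⟩ := h1.2.2 a ha
  refine ((hG.biUnion fun g _ => FF.finite_ord (K := k) (ν.ev g)).union
    (FF.finite_ord (K := k) (ν.ev d))).subset fun P hP => by_contra fun hn => hP ?_
  simp only [Set.mem_union, Set.mem_iUnion, Function.mem_support, not_or, not_exists, not_not] at hn
  have h3 : Algebra.adjoin k G ≤ preO ν.gen ν.ρ P := Algebra.adjoin_le fun g hg =>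
    mem_preO.2 ⟨h1.2.1 (Algebra.subset_adjoin hg), FF.v_le_one_of_ord (hn.1 g hg).ge⟩
  obtain ⟨c, h4, h5⟩ := exists_ctr (preO_local ν.locHom P) h3
  rw [hX.pt_eq ν P (h2 h4) h5]
  exact (h5.2 d (h4.2.1 hd) ((isU_preO ν.locHom).2
    ⟨hu.2.1, (FF.v_eq_one_iff P (evO_ne _ hu)).2 hn.2⟩)).div_mem (h4.2.1 hb)

omit [CharZero k] [IsAlgClosed k] in
theorem Curve.ord_unit (ν : Curve X) (P : Place k ν.L) {u : K} (h : IsU (ν.pt P) u) :
    P.ord (ν.ev u) = 0 := FF.ord_of_one ((ν.v_eq_one_iff P h.2.1).2 h)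

theorem IsCart.finite (hX : Good X) (hf : IsCart X f) (ν : Curve X) :
    (Function.support fun P : Place k ν.L => P.ord (ν.ev (f (ν.pt P) / f ν.gen))).Finite := by
  obtain ⟨T, h1, h2⟩ := hf _ ν.gen_mem
  refine (T.finite_toSet.biUnion fun a ha => hX.eventually_mem ν (h1 a ha)).subset
    fun P hP => by_contra fun hn => hP (ν.ord_unit P (h2 _ (ν.pt_mem P) fun a ha => ?_))
  exact by_contra fun h => hn (Set.mem_biUnion ha h)

theorem deg_mul (hX : Good X) (hf : IsCart X f) (hg : IsCart X g) (ν : Curve X) :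
    ν.deg (f * g) = ν.deg f + ν.deg g := by
  unfold Curve.deg
  rw [← finsum_add_distrib (hf.finite hX ν) (hg.finite hX ν)]
  refine finsum_congr fun P => ?_
  have h1 := hf.unit (ν.pt_mem P) ν.gen_mem (ν.pt_le P)
  have h2 := hg.unit (ν.pt_mem P) ν.gen_mem (ν.pt_le P)
  rw [Pi.mul_apply, Pi.mul_apply, mul_div_mul_comm, ν.ev_eq, evO_mul _ h1.2.1 h2.2.1,
    P.ord_mul (evO_ne _ h1) (evO_ne _ h2)]
  rfl

omit [CharZero k] [IsAlgClosed k] in
theorem deg_const (ν : Curve X) (h : K) : ν.deg (fun _ => h) = 0 :=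
  finsum_eq_zero_of_forall_eq_zero fun P => by
    by_cases e : h = 0 <;> simp [e, ν.ev_eq, evO_zero, evO_one]
omit [CharZero k] [IsAlgClosed k] in
theorem deg_one (ν : Curve X) : ν.deg 1 = 0 := deg_const ν 1

theorem deg_prod (hX : Good X) {ι : Type*} {s : Finset ι} {f : ι → Subalgebra k K → K}
    (h : ∀ i ∈ s, IsCart X (f i)) (ν : Curve X) : ν.deg (∏ i ∈ s, f i) = ∑ i ∈ s, ν.deg (f i) := by
  classical
  induction s using Finset.induction_on with
  | empty => simpa using deg_one ν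
  | insert i s hi ih =>
    have h1 := fun j hj => h j (Finset.mem_insert_of_mem hj)
    rw [Finset.prod_insert hi, Finset.sum_insert hi,
      deg_mul hX (h i (Finset.mem_insert_self i s)) (isCart_prod h1), ih h1]

theorem deg_pow (hX : Good X) (hf : IsCart X f) (n : ℕ) (ν : Curve X) :
    ν.deg (f ^ n) = n * ν.deg f := by
  simpa using deg_prod hX (s := Finset.range n) (f := fun _ => f) (fun _ _ => hf) ν

theorem deg_of_unit (hX : Good X) (hf : IsCart X f) (ν : Curve X) (h : IsU ν.gen (f ν.gen)) :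
    ν.deg f = ∑ᶠ P : Place k ν.L, P.ord (ν.ev (f (ν.pt P))) := by
  have h1 : ∀ P : Place k ν.L, P.ord (ν.ev (f (ν.pt P))) =
      P.ord (ν.ev (f (ν.pt P) / f ν.gen)) + P.ord (ν.ev (f ν.gen)) := fun P => by
    have h2 := hf.unit (ν.pt_mem P) ν.gen_mem (ν.pt_le P)
    rw [ν.ev_eq, ν.ev_eq, ν.ev_eq, ← P.ord_mul (evO_ne _ h2) (evO_ne _ h), ← evO_mul _ h2.2.1 h.2.1,
      div_mul_cancel₀ _ h.1]
  rw [finsum_congr h1, finsum_add_distrib (hf.finite hX ν) (FF.finite_ord _),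
    FF.finsum_ord (f := ν.ev (f ν.gen)) (evO_ne _ h), add_zero]
  rfl

theorem deg_nonneg (hX : Good X) (hf : IsCart X f) (he : ∀ O ∈ X, f O ∈ O) (ν : Curve X)
    (h : IsU ν.gen (f ν.gen)) : 0 ≤ ν.deg f := by
  rw [deg_of_unit hX hf ν h]
  exact finsum_nonneg fun P => FF.ord_nonneg (ν.v_le P (he _ (ν.pt_mem P)))

theorem deg_eq_zero (hX : Good X) (hf : IsCart X f) (h : ∀ O ∈ X, IsU O (f O)) (ν : Curve X) :
    ν.deg f = 0 := by
  rw [deg_of_unit hX hf ν (h _ ν.gen_mem)]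
  exact finsum_eq_zero_of_forall_eq_zero fun P => ν.ord_unit P (h _ (ν.pt_mem P))

theorem deg_congr (hX : Good X) (hf : IsCart X f) (hg : IsCart X g) (h : ∀ O ∈ X, IsU O (f O / g O))
    (ν : Curve X) : ν.deg f = ν.deg g := by
  have h1 := deg_mul hX (hf.div hg) hg ν
  rw [deg_eq_zero hX (hf.div hg) h, zero_add] at h1
  rw [← h1]
  refine finsum_congr fun P => ?_
  simp [hg.ne (ν.pt_mem P), hg.ne ν.gen_mem]

theorem deg_inv (hX : Good X) (hf : IsCart X f) (ν : Curve X) : ν.deg f⁻¹ = - ν.deg f := by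
  have h1 := deg_mul hX hf hf.inv ν
  rw [deg_eq_zero hX (hf.mul hf.inv) fun O hO => by simpa [hf.ne hO] using isU_one] at h1
  omega

theorem deg_div (hX : Good X) (hf : IsCart X f) (hg : IsCart X g) (ν : Curve X) :
    ν.deg (f / g) = ν.deg f - ν.deg g := by
  rw [div_eq_mul_inv, deg_mul hX hf hg.inv, deg_inv hX hg, sub_eq_add_neg]

theorem deg_zpow (hX : Good X) (hf : IsCart X f) (n : ℤ) (ν : Curve X) :
    ν.deg (f ^ n) = n * ν.deg f := by
  cases n with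
  | ofNat n => simpa using deg_pow hX hf n ν
  | negSucc n => rw [zpow_negSucc, deg_inv hX (hf.pow _), deg_pow hX hf, Int.negSucc_eq]; push_cast; ring

end curves

section blow

variable [CharZero k] {w : k} {x y : Fin 3 → K} {σ : K ≃ₐ[k] K} {O : Subalgebra k K}

theorem YFacts.st (hY : YFacts x y σ) (hO : O ∈ blE x y σ) (i : Fin 3) :
    (sc y i ∈ O ∨ (sc y i)⁻¹ ∈ O) ∧ (sc y i ∈ O → tc x y i ∈ O) := by
  obtain ⟨c, hc⟩ := hY.chart_le O hO
  obtain ⟨h1, h2⟩ := chart_le_iff.1 hc i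
  unfold cu at h1
  unfold cv at h2
  split_ifs at h1 h2
  · exact ⟨Or.inr (by simpa [sc] using h1), fun h => by
      rw [tc, div_eq_mul_inv]; exact mul_mem h2 h⟩
  · exact ⟨Or.inl h1, fun _ => h2⟩

theorem YFacts.exists_j (hY : YFacts x y σ) (hO : O ∈ blE x y σ) {p : Pt 3} (h : Over (sc y) p O) :
    ∃ j, ∀ i, tc x y i / tc x y j ∈ O := by
  obtain ⟨j, hj⟩ := hY.memB O hO p h
  exact ⟨j, fun i => hj.2.1 (rc_mem_bch x y j i)⟩

theorem YFacts.isCart_ep (hY : YFacts x y σ) (h : Gen k x y) (p : Pt 3) :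
    IsCart (blE x y σ) (ep (sc y) (tc x y) p) :=
  AG.isCart_ep p three_ne_zero h.tc_cube h.tc_ne fun O hO =>
    ⟨hY.good.loc O hO, fun i => (hY.st hO i).1, fun i => (hY.st hO i).2, hY.exists_j hO⟩

theorem YFacts.reg_zz [CharZero K] (hY : YFacts x y σ) (h : Gen k x y) (hO : O ∈ blE x y σ)
    (i : Fin 3) : Reg O (zz x y i) := by
  obtain ⟨c, hc⟩ := hY.chart_le O hO
  exact h.reg_zz (hY.good.loc O hO) hc i

theorem isCart_ec_pt [CharZero K] {Y : Set (Subalgebra k K)} {Q : E K} (c : ZMod 3) (h0 : Q.X ≠ 0)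
    (h1 : Q.Y ≠ 0) (h : ∀ O ∈ Y, IsLocalRing O ∧ Reg O Q) : IsCart Y (ec Q.ss Q.tt c) :=
  isCart_ec c three_ne_zero Q.tt_cube (div_ne_zero h0 h1) fun O hO =>
    ⟨(h O hO).1, (h O hO).2.ss_or, (h O hO).2.tt_mem⟩

end blow

end Pool.Agent.MP_20d318_ag.AG

end MrgPart1

-- ======== part 2: formerly Pool.Agent.MP_20d318_ag.AG.Lift
section MrgPart2

/-! Places in finite extensions; lifting curves from the quotient. -/

set_option autoImplicit false

namespace Pool.Agent.MP_20d318_ag.AG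

open Pool.Agent.MP_79c67d_ag Polynomial
open scoped IntermediateField

namespace Lift

section tr

variable {k L L' : Type} [Field k] [CharZero k] [IsAlgClosed k] [Field L] [Field L']
  [Algebra k L] [Algebra k L'] [Algebra L L'] [IsScalarTower k L L'] [IsFF k L]
  [FiniteDimensional L L']

theorem exists_res (P : Place k L') :
    ∃ a : Place k L, ∀ g, P.Ge 0 (algebraMap L L' g) ↔ a.Ge 0 g := by
  obtain ⟨a, ha⟩ := exists_place (K := k) (P.v.valuationSubring.comap (algebraMap L L'))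
    (fun h => P.ne_top (eq_top_iff.2 fun x _ => P.mem_iff.2 (P.ge_of_isIntegral (A := L)
      (fun g => P.mem_iff.1 (show g ∈ P.v.valuationSubring.comap (algebraMap L L') from
        h ▸ ValuationSubring.mem_top _)) (Algebra.IsIntegral.isIntegral x))))
    fun c => P.mem_iff.2 (by rw [← IsScalarTower.algebraMap_apply]; exact P.ge_const c)
  exact ⟨a, fun g => ((ha g).trans P.mem_iff).symm⟩

/-- A function whose only pole is at `a`. -/
theorem exists_pole (a : Place k L) :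
    ∃ x : L, Transcendental k x ∧ a.ord x < 0 ∧ ∀ b : Place k L, b ≠ a → 0 ≤ b.ord x := by
  classical
  have h1 := riemann_ineq (Finsupp.single a ((genus k L : ℤ) + 1))
  rw [FF.deg_single] at h1
  obtain ⟨x, hx, hx'⟩ : ∃ x ∈ sec (Finsupp.single a ((genus k L : ℤ) + 1)),
      x ∉ sec (0 : Divisor k L) := by
    by_contra hn
    push Not at hn
    have h2 : h0 (Finsupp.single a ((genus k L : ℤ) + 1)) ≤ h0 (0 : Divisor k L) :=
      Submodule.finrank_mono hn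
    rw [FF.h0_zero] at h2
    omega
  have hx0 : x ≠ 0 := by rintro rfl; exact hx' (zero_mem _)
  have h3 : ∀ b : Place k L, b ≠ a → 0 ≤ b.ord x := fun b hb => by
    have := (hx b).le hx0
    rwa [Finsupp.single_eq_of_ne hb, neg_zero] at this
  have h4 : a.ord x < 0 := by
    by_contra hn
    refine hx' fun b => b.ge_of_le ?_
    by_cases hb : b = a
    · subst hb; simpa using hn
    · simpa using h3 b hb
  exact ⟨x, a.transcendental h4.ne, h4, h3⟩

omit [CharZero k] [IsAlgClosed k] [IsFF k L] [FiniteDimensional L L'] in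
theorem finrank_adjoin (x : L) : Module.finrank k⟮algebraMap L L' x⟯ L' =
    Module.finrank k⟮x⟯ L * Module.finrank L L' := by
  rw [Module.finrank_mul_finrank]
  have e : k⟮x⟯.map (IsScalarTower.toAlgHom k L L') = k⟮algebraMap L L' x⟯ := by
    rw [IntermediateField.adjoin_map, Set.image_singleton]; rfl
  symm
  refine Algebra.finrank_eq_of_equiv_equiv (((k⟮x⟯.equivMap (IsScalarTower.toAlgHom k L L')).trans
    (IntermediateField.equivOfEq e)).toRingEquiv) (RingEquiv.refl L') ?_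
  ext z; rfl

open Classical in
theorem fibre {r : Place k L' → Place k L} {e : Place k L' → ℤ} (he : ∀ P, 0 < e P)
    (h : ∀ P g, P.ord (algebraMap L L' g) = e P * (r P).ord g) (a : Place k L) :
    (Function.support fun P => if r P = a then e P else 0).Finite ∧
      ∑ᶠ P, (if r P = a then e P else 0) = Module.finrank L L' := by
  have : IsFF k L' := IsFF.of_finite L
  obtain ⟨x, hx, h1, h2⟩ := exists_pole a
  have hx' : Transcendental k (algebraMap L L' x) :=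
    (transcendental_algebraMap_iff (algebraMap L L').injective).2 hx
  have h3 := deg_pole hx
  have h4 := deg_pole hx'
  have e3 : (- FF.div k x) ⊔ 0 = Finsupp.single a (- a.ord x) := by
    ext b
    rw [Finsupp.sup_apply, Finsupp.neg_apply, FF.div_apply, Finsupp.zero_apply]
    by_cases hb : b = a
    · subst hb; rw [Finsupp.single_eq_same]; omega
    · have := h2 b hb
      rw [Finsupp.single_eq_of_ne hb]; omega
  have e4 : ∀ P, ((- FF.div k (algebraMap L L' x)) ⊔ 0 : Divisor k L') P =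
      - a.ord x * if r P = a then e P else 0 := fun P => by
    rw [Finsupp.sup_apply, Finsupp.neg_apply, FF.div_apply, Finsupp.zero_apply, h]
    have := he P
    split_ifs with hP
    · rw [hP, max_eq_left (by nlinarith)]; ring
    · have := h2 _ hP
      rw [max_eq_right (by nlinarith), mul_zero]
  have hf : (Function.support fun P => if r P = a then e P else 0).Finite := by
    refine ((- FF.div k (algebraMap L L' x)) ⊔ 0 : Divisor k L').hasFiniteSupport.subset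
      fun P hP => ?_
    rw [Function.mem_support, e4]
    exact mul_ne_zero (by omega) hP
  refine ⟨hf, ?_⟩
  rw [e3, FF.deg_single] at h3
  rw [FF.deg_eq_finsum, finsum_congr e4, ← mul_finsum' _ _ hf, finrank_adjoin, Nat.cast_mul,
    ← h3] at h4
  exact mul_left_cancel₀ (by omega) h4

end tr

section quot

variable {k K : Type} [Field k] [Field K] [Algebra k K] {σ : K ≃ₐ[k] K}
  {Y : Set (Subalgebra k K)} {B O : Subalgebra k K}

/-- The cubic equation of `b` over the invariants; the coefficients lie in every stable ideal. -/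
theorem exists_cubic (h3 : ∀ f, σ (σ (σ f)) = f) (hB : ∀ a ∈ B, σ a ∈ B) {J : Set K}
    (hJ : ∀ a ∈ J, σ a ∈ J) (hadd : ∀ a ∈ J, ∀ b ∈ J, a + b ∈ J)
    (hmul : ∀ a ∈ J, ∀ b ∈ B, a * b ∈ J) {b : K} (hb : b ∈ B) (hb' : b ∈ J) :
    ∃ e1 e2 e3 : Fx σ, e1.1 ∈ J ∧ e2.1 ∈ J ∧ e3.1 ∈ J ∧
      b ^ 3 = e1.1 * b ^ 2 - e2.1 * b + e3.1 := by
  have h1 := hB b hb
  have h2 := hB _ h1
  have j1 := hJ b hb'
  have j2 := hJ _ j1
  refine ⟨⟨b + σ b + σ (σ b), mem_Fx.2 ?_⟩, ⟨b * σ b + σ b * σ (σ b) + σ (σ b) * b, mem_Fx.2 ?_⟩,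
    ⟨b * (σ b * σ (σ b)), mem_Fx.2 ?_⟩, hadd _ (hadd _ hb' _ j1) _ j2,
    hadd _ (hadd _ (hmul _ hb' _ h1) _ (hmul _ j1 _ h2)) _ (hmul _ j2 _ hb),
    hmul _ hb' _ (mul_mem h1 h2), by ring⟩
  all_goals simp only [map_add, map_mul, h3]; ring

theorem exists_cubic' (h3 : ∀ f, σ (σ (σ f)) = f) (hB : ∀ a ∈ B, σ a ∈ B) {b : K} (hb : b ∈ B) :
    ∃ e1 e2 e3 : Fx σ, e1.1 ∈ B ∧ e2.1 ∈ B ∧ e3.1 ∈ B ∧
      b ^ 3 = e1.1 * b ^ 2 - e2.1 * b + e3.1 :=
  exists_cubic (J := B) h3 hB hB (fun _ ha _ hb => add_mem ha hb) (fun _ ha _ hb => mul_mem ha hb)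
    hb hb

theorem isIntegral_cubic {R S : Type} [CommRing R] [CommRing S] [Algebra R S] {b : S}
    (e1 e2 e3 : R) (h : b ^ 3 = algebraMap R S e1 * b ^ 2 - algebraMap R S e2 * b +
      algebraMap R S e3) : IsIntegral R b := by
  nontriviality R
  refine ⟨X ^ 3 - (C e1 * X ^ 2 - C e2 * X + C e3), monic_X_pow_sub (lt_of_le_of_lt (b := 2) ?_
    (by norm_num)), ?_⟩
  · compute_degree
  · simp [eval₂_sub, eval₂_add, eval₂_mul, eval₂_pow, h]

/-- The points of the quotient of an affine chart. -/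
theorem qpt (h3 : ∀ f, σ (σ (σ f)) = f) (hB : ∀ a ∈ B, σ a ∈ B) (hO : O ∈ Pts B) :
    O.comap (Fx σ).val ∈ Pts (B.comap (Fx σ).val) := by
  refine ⟨isLocalRing_comap _ hO.1, fun _ ha => hO.2.1 ha, fun f hf => ?_⟩
  obtain ⟨a, ha, b, hb, hu, e⟩ := hO.2.2 f.1 hf
  obtain ⟨e1, e2, e3, h1, h2, h3, h⟩ := exists_cubic (J := {b | b ∈ B ∧ b * f.1 ∈ B}) h3 hB
    (fun a ha => ⟨hB a ha.1, by rw [← mem_Fx.1 f.2, ← map_mul]; exact hB _ ha.2⟩)
    (fun a ha b hb => ⟨add_mem ha.1 hb.1, by rw [add_mul]; exact add_mem ha.2 hb.2⟩)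
    (fun a ha b hb => ⟨mul_mem ha.1 hb, by rw [mul_right_comm]; exact mul_mem ha.2 hb⟩) hb
    ⟨hb, by rwa [e, mul_div_cancel₀ _ hu.1]⟩
  have key : ∀ c : Fx σ, c.1 ∈ B ∧ c.1 * f.1 ∈ B → c.1 ∉ mx O →
      ∃ a ∈ B.comap (Fx σ).val, ∃ b ∈ B.comap (Fx σ).val,
        IsU (O.comap (Fx σ).val) b ∧ f = a / b := fun c hc hm => by
    have hu := (isU_comap (Fx σ).val).2 (isU_of_not_mx (hO.2.1 hc.1) hm)
    exact ⟨c * f, hc.2, c, hc.1, hu, by rw [mul_div_cancel_left₀ _ hu.1]⟩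
  by_contra hn
  have m1 : e1.1 ∈ mx O := by_contra fun h => hn (key e1 h1 h)
  have m2 : e2.1 ∈ mx O := by_contra fun h => hn (key e2 h2 h)
  have m3 : e3.1 ∈ mx O := by_contra fun h => hn (key e3 h3 h)
  refine (hu.pow 3).not_mx (h ▸ mx_add hO.1 (mx_sub' hO.1 (mx_mul_right m1 (pow_mem hu.mem 2))
    (mx_mul_right m2 hu.mem)) m3)

theorem exists_val_over {F : Type} [Field F] [Algebra k F] (ι : F →ₐ[k] K) {W : Subalgebra k F}
    (hW : IsLocalRing W) : ∃ V : Subalgebra k K, IsVal V ∧ Dom W (V.comap ι) := by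
  have h1 : ∀ u, IsU (W.map ι) (ι u) → IsU W u := fun u h => by
    obtain ⟨h0, ⟨a, ha, e⟩, ⟨b, hb, e'⟩⟩ := h
    rw [← map_inv₀] at e'
    exact ⟨fun e0 => h0 (by simp [e0]), ι.injective e ▸ ha, ι.injective e' ▸ hb⟩
  have h2 : ∀ u ∈ W, (ι u ∈ mx (W.map ι) ↔ u ∈ mx W) := fun u hu =>
    ⟨fun h => ⟨hu, fun h' => h.2 ⟨by simpa using h'.1, h.1, _, h'.2.2, map_inv₀ ι u⟩⟩,
      fun h => ⟨⟨u, hu, rfl⟩, fun h' => h.2 (h1 u h')⟩⟩
  obtain ⟨V, hV, hd⟩ := exists_val (W := W.map ι) (isLocalRing_of fun a ha b hb => by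
    obtain ⟨a, ha', rfl⟩ := ha.1
    obtain ⟨b, hb', rfl⟩ := hb.1
    have := (h2 _ (add_mem ha' hb')).2 (mx_add hW ((h2 a ha').1 ha) ((h2 b hb').1 hb))
    rwa [map_add] at this)
  exact ⟨V, hV, fun u hu => hd.1 ⟨u, hu, rfl⟩,
    fun u hu h => h1 u (hd.2 _ ⟨u, hu, rfl⟩ ((isU_comap ι).1 h))⟩

/-- The quotient is separated. -/
theorem sep (h3 : ∀ f, σ (σ (σ f)) = f) (hY : Good Y)
    (hs : ∀ O ∈ Y, ∃ B : Subalgebra k K, (∀ a ∈ B, σ a ∈ B) ∧ O ∈ Pts B ∧ Pts B ⊆ Y)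
    {O₁ O₂ W : Subalgebra k (Fx σ)} (h1 : O₁ ∈ quot σ Y) (h2 : O₂ ∈ quot σ Y) (hW : IsLocalRing W)
    (d1 : Dom O₁ W) (d2 : Dom O₂ W) : O₁ = O₂ := by
  obtain ⟨V, hV, hd⟩ := exists_val_over (Fx σ).val hW
  have key : ∀ O ∈ quot σ Y, Dom O W → ∃ C ∈ Y, Dom C V ∧ C.comap (Fx σ).val = O := by
    rintro _ ⟨O, hO, rfl⟩ d
    obtain ⟨B, hB, hOB, hBY⟩ := hs O hO
    have hq := qpt h3 hB hOB
    have hle : ∀ c : Fx σ, c.1 ∈ B → c.1 ∈ V := fun c hc => hd.1 (d.1 (hq.2.1 hc))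
    obtain ⟨C, hC, hCV⟩ := exists_ctr hV.isLocalRing (R := B) fun b hb => by
      obtain ⟨e1, e2, e3, m1, m2, m3, e⟩ := exists_cubic' h3 hB hb
      exact hV.nrm b (isIntegral_cubic (R := V) ⟨_, hle e1 m1⟩ ⟨_, hle e2 m2⟩ ⟨_, hle e3 m3⟩ e)
    have hq' := qpt h3 hB hC
    exact ⟨C, hBY hC, hCV, Pts_eq hq' hq hq.2.1 hq'.2.1 (hCV.comap _) (d.trans hd)⟩
  obtain ⟨C₁, a1, b1, rfl⟩ := key O₁ h1 d1
  obtain ⟨C₂, a2, b2, rfl⟩ := key O₂ h2 d2
  rw [hY.sep C₁ a1 C₂ a2 V hV.isLocalRing b1 b2]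

/-- Local homomorphisms extend from the invariants, with values in an algebraically closed field. -/
theorem ext_closed {L Ω : Type} [Field L] [Algebra k L] [Field Ω] [Algebra k Ω] [IsAlgClosed Ω]
    (h3 : ∀ f, σ (σ (σ f)) = f) (hB : ∀ a ∈ B, σ a ∈ B) (hO : O ∈ Pts B)
    {ρ : O.comap (Fx σ).val →ₐ[k] L} (hρ : LocHom _ ρ) (j : L →ₐ[k] Ω) :
    ∃ φ : O →ₐ[k] Ω, LocHom O φ ∧ ∀ u : Fx σ, evO O φ u.1 = j (evO _ ρ u) := by
  have := hO.1
  have := isLocalRing_comap (Fx σ).val hO.1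
  obtain ⟨i0, h0⟩ := hρ.factor
  let inc : O.comap (Fx σ).val →ₐ[k] O :=
    ((Fx σ).val.comp (O.comap (Fx σ).val).val).codRestrict O fun u => u.2
  have hl : LocHom _ ((resid O).comp inc) := fun u hu => (isU_comap _).2 (resid_loc (inc u) hu)
  obtain ⟨i1, h1⟩ := hl.factor
  let := i1.toRingHom.toAlgebra
  let := (j.comp i0).toRingHom.toAlgebra
  have e1 : ∀ (c : Fx σ) (hc : c.1 ∈ O), evO O (resid O) c.1 =
      algebraMap _ (IsLocalRing.ResidueField O) (resid (O.comap (Fx σ).val) ⟨c, hc⟩) :=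
    fun c hc => (evO_of_mem _ hc).trans (DFunLike.congr_fun h1 ⟨c, hc⟩).symm
  have hint : ∀ b ∈ B, IsIntegral (IsLocalRing.ResidueField (O.comap (Fx σ).val))
      (evO O (resid O) b) := fun b hb => by
    obtain ⟨c1, c2, c3, m1, m2, m3, e⟩ := exists_cubic' h3 hB hb
    have n1 := hO.2.1 m1
    have n2 := hO.2.1 m2
    have n3 := hO.2.1 m3
    have n := hO.2.1 hb
    refine isIntegral_cubic (resid (O.comap (Fx σ).val) ⟨c1, n1⟩)
      (resid (O.comap (Fx σ).val) ⟨c2, n2⟩) (resid (O.comap (Fx σ).val) ⟨c3, n3⟩) ?_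
    rw [← e1 c1 n1, ← e1 c2 n2, ← e1 c3 n3, ← evO_pow _ n, e,
      evO_add _ (sub_mem (mul_mem n1 (pow_mem n 2)) (mul_mem n2 n)) n3,
      evO_sub _ (mul_mem n1 (pow_mem n 2)) (mul_mem n2 n), evO_mul _ n1 (pow_mem n 2),
      evO_mul _ n2 n, evO_pow _ n]
  have : Algebra.IsAlgebraic (IsLocalRing.ResidueField (O.comap (Fx σ).val))
      (IsLocalRing.ResidueField O) := ⟨fun z => by
    obtain ⟨u, rfl⟩ := resid_surj z
    obtain ⟨a, ha, b, hb, hu, e⟩ := hO.2.2 u u.2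
    rw [← evO_coe, e, evO_div _ (hO.2.1 ha) hu, div_eq_mul_inv]
    exact ((hint a ha).mul (hint b hb).inv).isAlgebraic⟩
  let ψ : IsLocalRing.ResidueField O →ₐ[IsLocalRing.ResidueField (O.comap (Fx σ).val)] Ω :=
    IsAlgClosed.lift
  let ψ' : IsLocalRing.ResidueField O →ₐ[k] Ω :=
    { ψ.toRingHom with
      commutes' := fun c => by
        have := ψ.commutes (algebraMap k _ c)
        change ψ (i1 _) = j.comp i0 _ at this
        rwa [AlgHom.commutes, AlgHom.commutes] at this }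
  refine ⟨ψ'.comp (resid O), resid_loc.comp ψ', fun u => ?_⟩
  by_cases hu : u.1 ∈ O
  · rw [evO_comp, e1 u hu, evO_of_mem ρ (show u ∈ O.comap (Fx σ).val from hu), ← h0]
    exact ψ.commutes _
  · rw [evO, evO, dif_neg hu, dif_neg (show u ∉ O.comap (Fx σ).val from hu), map_zero]

/-- Local homomorphisms extend from the invariants, with values in a finite extension. -/
theorem ext_finite {L : Type} [Field L] [Algebra k L] {G : Set K} (hG : G.Finite)
    (h3 : ∀ f, σ (σ (σ f)) = f) (hB : ∀ a ∈ Algebra.adjoin k G, σ a ∈ Algebra.adjoin k G)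
    (hO : O ∈ Pts (Algebra.adjoin k G)) {O₀ : Subalgebra k (Fx σ)} (e : O.comap (Fx σ).val = O₀)
    {ρ : O₀ →ₐ[k] L} (hρ : LocHom _ ρ) :
    ∃ (L' : Type) (_ : Field L') (_ : Algebra k L') (_ : Algebra L L') (_ : IsScalarTower k L L')
      (_ : FiniteDimensional L L') (φ : O →ₐ[k] L'), LocHom O φ ∧
        ∀ u : Fx σ, evO O φ u.1 = algebraMap L L' (evO _ ρ u) := by
  subst e
  obtain ⟨φ, h1, h2⟩ := ext_closed h3 hB hO hρ (IsScalarTower.toAlgHom k L (AlgebraicClosure L))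
  let L' := IntermediateField.adjoin L (evO O φ '' G)
  have : Finite (evO O φ '' G) := hG.image _
  have hfin : FiniteDimensional L L' :=
    IntermediateField.finiteDimensional_adjoin fun x _ => Algebra.IsIntegral.isIntegral x
  have h4 : ∀ a ∈ Algebra.adjoin k G, evO O φ a ∈ L' := fun a ha => by
    induction ha using Algebra.adjoin_induction with
    | mem x hx => exact IntermediateField.subset_adjoin _ _ ⟨x, hx, rfl⟩
    | algebraMap r =>
      rw [evO_const, IsScalarTower.algebraMap_apply k L]; exact L'.algebraMap_mem _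
    | add x y hx hy a b => rw [evO_add _ (hO.2.1 hx) (hO.2.1 hy)]; exact add_mem a b
    | mul x y hx hy a b => rw [evO_mul _ (hO.2.1 hx) (hO.2.1 hy)]; exact mul_mem a b
  have h5 : ∀ u : O, φ u ∈ L' := fun u => by
    obtain ⟨a, ha, b, hb, hu, e⟩ := hO.2.2 u u.2
    rw [← evO_coe, e, evO_div _ (hO.2.1 ha) hu]
    exact div_mem (h4 a ha) (h4 b hb)
  let φ' : O →ₐ[k] L' :=
    { toFun := fun u => ⟨φ u, h5 u⟩
      map_one' := Subtype.ext (map_one φ)
      map_mul' := fun a b => Subtype.ext (map_mul φ a b)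
      map_zero' := Subtype.ext (map_zero φ)
      map_add' := fun a b => Subtype.ext (map_add φ a b)
      commutes' := fun c => Subtype.ext (φ.commutes c) }
  refine ⟨L', inferInstance, inferInstance, inferInstance, inferInstance, hfin, φ',
    fun u hu => h1 u fun h => hu (Subtype.ext h), fun u => Subtype.ext ?_⟩
  exact (evO_comp φ' (L'.val.restrictScalars k) u.1).symm.trans (h2 u)

end quot

end Lift

theorem tr_stmt : TrStmt := by
  intro k L L' _ _ _ _ _ _ _ _ _ _ _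
  classical
  choose r hr using Lift.exists_res (k := k) (L := L) (L' := L')
  choose e he h using fun P => exists_ram (algebraMap L L') (r P) P (hr P)
  refine ⟨r, fun P g => by rw [← Place.ge0_iff, ← Place.ge0_iff, hr], fun g hg => ?_⟩
  have hn : (0 : ℤ) < Module.finrank L L' := by exact_mod_cast Module.finrank_pos
  have hs : (Function.support fun a : Place k L => a.ord (g a)).Finite := by
    refine (hg.image r).subset fun a ha => ?_
    obtain ⟨P, hP⟩ : ∃ P, (if r P = a then e P else 0) ≠ 0 := by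
      by_contra hc
      push Not at hc
      have := (Lift.fibre he h a).2
      rw [finsum_congr hc, finsum_zero] at this
      omega
    have hP' : r P = a := by by_contra hc; exact hP (if_neg hc)
    refine ⟨P, ?_, hP'⟩
    rw [Function.mem_support, h, hP']
    exact mul_ne_zero (he P).ne' ha
  have e1 : ∀ P, P.ord (algebraMap L L' (g (r P))) =
      ∑ a ∈ hs.toFinset, (if r P = a then e P else 0) * a.ord (g a) := fun P => by
    simp only [ite_mul, zero_mul, Finset.sum_ite_eq, h]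
    split_ifs with hP
    · rfl
    · rw [Set.Finite.mem_toFinset, Function.mem_support, not_not] at hP
      rw [hP, mul_zero]
  rw [finsum_congr e1, finsum_sum_comm _ _ fun a _ => (Lift.fibre he h a).1.subset
    (Function.support_mul_subset_left _ _), finsum_eq_sum _ hs, Finset.mul_sum]
  refine Finset.sum_congr rfl fun a _ => ?_
  rw [← finsum_mul' _ _ (Lift.fibre he h a).1, (Lift.fibre he h a).2]

theorem lift_stmt (hT : TrStmt) (hY : YStmt) : LiftStmt := by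
  intro k K _ _ _ _ _ _ w x y σ h ν
  have hF := hY k K w x y σ h
  obtain ⟨η, hη, e⟩ := ν.gen_mem
  obtain ⟨G, hG, hB, hO, -⟩ := hF.stab η hη
  obtain ⟨L', _, _, _, _, _, φ, h1, h2⟩ := Lift.ext_finite hG h.σ3 hB hO e ν.locHom
  have : IsFF k L' := IsFF.of_finite ν.L
  obtain ⟨r, hr, hdeg⟩ := hT k ν.L L'
  let ν' := hF.good.curve hη φ h1
  have hpt : ∀ P : Place k L', (ν'.pt P).comap (Fx σ).val = ν.pt (r P) := fun P => by
    refine Lift.sep h.σ3 hF.good (fun O hO => ?_) (quot_mem σ _ _ (ν'.pt_mem P)) (ν.pt_mem _)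
      (preO_local ν.locHom (r P)) ?_ (ν.dom_preO (r P))
    · obtain ⟨G, -, a1, a2, a3⟩ := hF.stab O hO
      exact ⟨_, a1, a2, a3⟩
    · have h3 : (preO η φ P).comap (Fx σ).val = preO ν.gen ν.ρ (r P) := by
        ext u
        rw [Subalgebra.mem_comap, mem_preO, mem_preO, ← hr, ← h2]
        exact and_congr_left' (SetLike.ext_iff.1 e u)
      exact h3 ▸ (ν'.dom_preO P).comap _
  refine ⟨ν', Module.finrank ν.L L', Module.finrank_pos, fun f hf => ?_⟩
  have h4 : ∀ P : Place k L', ν'.ev ((Fx σ).val (f ((ν'.pt P).comap (Fx σ).val)) /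
      (Fx σ).val (f (ν'.gen.comap (Fx σ).val))) =
        algebraMap ν.L L' (ν.ev (f (ν.pt (r P)) / f ν.gen)) := fun P => by
    rw [hpt, ← map_div₀, show ν'.gen.comap (Fx σ).val = ν.gen from e]
    exact h2 (f (ν.pt (r P)) / f ν.gen)
  have h5 := (hf.pull (Fx σ).val (quot_mem σ _)).finite hF.good ν'
  have h6 := hdeg (fun a => ν.ev (f (ν.pt a) / f ν.gen)) (by
    exact h5.subset fun P hP h0 => hP ((congrArg P.ord (h4 P)).symm.trans h0))
  rw [Curve.down, Curve.deg_push]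
  exact (finsum_congr fun P => congrArg P.ord (h4 P)).trans h6

end Pool.Agent.MP_20d318_ag.AG

end MrgPart2

-- marker of a merged file
example : 731051 + 567335 = 731051 + 567335 := rfl
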