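import Mathlib.RingTheory.Valuation.Discrete.IsDiscreteValuationRing
import Mathlib.RingTheory.Finiteness.ModuleFinitePresentation
import Mathlib.FieldTheory.PurelyInseparable.Exponent
import Mathlib.RingTheory.TotallySplit
import Mathlib.RingTheory.Etale.Weakly
import Pool.Agent.MP_20d318_ag.AG.Lift
import Pool.Agent.MP_20d318_ag.AG.Spec

-- ======== part 0: formerly Pool.Agent.MP_20d318_ag.AG.Cur
section MrgPart0

/-! Degrees on curves: heights, classes of curves, effective divisors on the quotient. -/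

set_option autoImplicit false
set_option linter.unusedSectionVars false

namespace Pool.Agent.MP_20d318_ag.AG

open Pool.Agent.MP_79c67d_ag Pool.Agent.MP_20d318_ag.Lat E

namespace CurM

variable {k K L : Type} [Field k] [CharZero k] [Field K] [Algebra k K] [Field L] [Algebra k L]
  {Y : Set (Subalgebra k K)} {O : Subalgebra k K}

theorem ev_sub_sv (ρ : O →ₐ[k] L) {s : K} (hs : s ∈ O) (c : ZMod 3) :
    evO O ρ (s - sv c) = evO O ρ s - sv c := by
  rw [evO_sub ρ hs (sv_mem O c)]; simp [sv, evO_intCast]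

theorem sub_mx_pt (ν : Curve Y) (P : Place k ν.L) {s : K} {c : ZMod 3} (h : s - sv c ∈ mx ν.gen)
    (hs : s ∈ ν.pt P ∨ s⁻¹ ∈ ν.pt P) : s - sv c ∈ mx (ν.pt P) := by
  have h1 := mem_of_sub_sv h
  suffices s ∈ ν.pt P from mx_of_le (ν.pt_le P) (sub_mem this (sv_mem _ c)) h
  refine hs.elim id fun h2 => ?_
  by_cases h0 : s = 0
  · exact h0 ▸ zero_mem _
  have hu : IsU ν.gen s := ⟨h0, h1, ν.pt_le P h2⟩
  have e : evO ν.gen ν.ρ s = algebraMap k ν.L (sv c) := by
    have := (ν.locHom.eq_zero_iff h.1).2 h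
    rwa [ev_sub_sv _ h1, sub_eq_zero, ← map_sv (algebraMap k ν.L)] at this
  have h3 : P.v (ν.ev s⁻¹) = 1 := by
    rw [ν.ev_eq, evO_inv _ hu, e, ← map_inv₀]
    refine FF.v_const P (inv_ne_zero fun h4 => evO_ne ν.ρ hu ?_)
    rw [e, h4, map_zero]
  simpa using ((ν.v_eq_one_iff P h2).1 h3).2.2

theorem prod_ep_pos (hO : IsLocalRing O) {s τ : Fin 3 → K} {S : Finset (Pt 3)} {p : Pt 3}
    (hp : p ∈ S) (h : Over s p O) : (∏ q ∈ S, ep s τ q) O = ep s τ p O := by
  rw [Finset.prod_apply]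
  exact Finset.prod_eq_single_of_mem p hp fun q _ hq => ep_neg fun h' => hq (Over.unique hO h' h)

theorem prod_ep_neg {s τ : Fin 3 → K} {S : Finset (Pt 3)} (h : ∀ p ∈ S, ¬ Over s p O) :
    (∏ q ∈ S, ep s τ q) O = 1 := by
  rw [Finset.prod_apply]
  exact Finset.prod_eq_one fun q hq => ep_neg (h q hq)

theorem exists_over (ν : Curve Y) {s τ : Fin 3 → K} {p : Pt 3} (hg : ¬ Over s p ν.gen)
    (h : ν.deg (ep s τ p) ≠ 0) : ∃ P, Over s p (ν.pt P) := by
  by_contra hn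
  refine h ((finsum_congr fun P => ?_).trans (deg_one ν))
  rw [ep_neg hg, ep_neg fun h' => hn ⟨P, h'⟩]
  rfl

variable [CharZero K] [IsAlgClosed k]

theorem const_of_alg {R : E K} (h : IsAlgebraic k R.X) :
    ∃ c : E k, R = pmap (algebraMap k K) c := by
  by_cases h0 : R = 0
  · exact ⟨0, by simp [h0]⟩
  obtain ⟨a, ha⟩ := exists_const_of_algebraic h
  obtain ⟨b, hb⟩ := exists_const_of_algebraic (K := k) (f := R.Y)
    (IsAlgebraic.of_pow two_pos (by rw [eqn h0]; exact (h.pow 3).add isAlgebraic_one))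
  have e : b ^ 2 = a ^ 3 + 1 := (algebraMap k K).injective (by
    rw [map_add, map_pow, map_pow, map_one, ha, hb, eqn h0])
  exact ⟨mk a b, by rw [pmap_mk _ e, ha, hb, mk_XY h0]⟩

theorem XY_ne (ν : Curve Y) (H : HtFacts k ν.L) {R : E K} (h : ht k (ν.pull R) ≠ 0) :
    R.X ≠ 0 ∧ R.Y ≠ 0 := by
  have h1 : ¬ IsAlgebraic k R.X := fun ha => by
    obtain ⟨c, rfl⟩ := const_of_alg ha
    exact h ((H.zero _).2 ⟨c, res_const _ c⟩)
  have h2 : R.X ≠ 0 := fun e => h1 (e ▸ isAlgebraic_zero)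
  refine ⟨h2, fun e => h1 (IsAlgebraic.of_pow three_pos ?_)⟩
  have h3 : R ≠ 0 := by rintro rfl; exact h2 rfl
  have h4 : R.X ^ 3 = -1 := by
    have := eqn h3
    rw [e] at this
    linear_combination -this
  exact h4 ▸ isAlgebraic_one.neg

theorem ht_fx [CharZero L] (H : HtFacts k L) (c : ZMod 3) : ht k (fx c : E L) = 0 :=
  (H.zero _).2 ⟨fx c, (pmap_fx _ c).symm⟩

theorem const_gen (ν : Curve Y) (H : HtFacts k ν.L) {Q : E K} (hg : Reg ν.gen Q)
    (h0 : ht k (ν.pull Q) = 0) {P : Place k ν.L} {c : ZMod 3} (hs : Q.ss - sv c ∈ mx (ν.pt P))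
    (hQ : Q = 0 ∨ Q.Y ≠ 0) : Q.ss - sv c ∈ mx ν.gen := by
  obtain ⟨c0, e⟩ := (H.zero _).1 h0
  have h1 := ν.pt_le P (mem_of_sub_sv hs)
  have h2 : evO ν.gen ν.ρ (Q.ss - sv c) = algebraMap k ν.L (c0.ss - sv c) := by
    rw [ev_sub_sv _ h1, ← (res_ss_tt ν.locHom hg h1 hQ).1, map_sub, map_sv, ← ss_pmap, ← e]; rfl
  have h3 := (ν.v_lt_one_iff P hs.1).2 hs
  rw [ν.ev_eq, h2, ← mem_mx_plO, const_mem_mx] at h3
  rw [← ν.locHom.eq_zero_iff (ν.pt_le P hs.1), h2, h3, map_zero]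

variable {w : k} {x y : Fin 3 → K} {σ : K ≃ₐ[k] K}

theorem res_over [CharZero L] (hR : RegStmt) (h : Setup w x y σ) (hY : YFacts x y σ)
    (hE : ExcFacts x y σ) (hO : O ∈ blE x y σ) {ρ : O →ₐ[k] L} (hρ : LocHom O ρ) {p : Pt 3}
    (hp : Over (sc y) p O) (l : Vec 3) :
    res O ρ (lin (algebraMap k K w) l (zz x y)) = fx (rv l ⬝ᵥ p) := by
  rw [(res_lin hR (hE.nrm O hO) hρ h.hw (hY.reg_zz h.toGen hO) l).2, ← lin_fx (h.hwK L)]
  congr 1
  funext i
  exact (res_eq_fx hρ (hY.reg_zz h.toGen hO i) _).2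
    ⟨by rw [h.zz_ss]; exact hp i, Or.inr (by rw [h.zz_Y]; exact h.y_ne i)⟩

theorem reg_lin (hR : RegStmt) (h : Setup w x y σ) (hY : YFacts x y σ) (hE : ExcFacts x y σ)
    (hO : O ∈ blE x y σ) (l : Vec 3) : Reg O (lin (algebraMap k K w) l (zz x y)) := by
  have := hY.good.loc O hO
  have : CharZero (IsLocalRing.ResidueField O) :=
    charZero_of_injective_algebraMap (algebraMap k _).injective
  exact (res_lin hR (hE.nrm O hO) resid_loc h.hw (hY.reg_zz h.toGen hO) l).1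

theorem over_lin (hR : RegStmt) (h : Setup w x y σ) (hY : YFacts x y σ) (hE : ExcFacts x y σ)
    (hO : O ∈ blE x y σ) {p : Pt 3} (hp : Over (sc y) p O) (l : Vec 3) :
    (lin (algebraMap k K w) l (zz x y)).ss - sv (rv l ⬝ᵥ p) ∈ mx O ∧
      (lin (algebraMap k K w) l (zz x y) = 0 ∨ (lin (algebraMap k K w) l (zz x y)).Y ≠ 0) := by
  have := hY.good.loc O hO
  have : CharZero (IsLocalRing.ResidueField O) :=
    charZero_of_injective_algebraMap (algebraMap k _).injective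
  exact (res_eq_fx resid_loc (reg_lin hR h hY hE hO l) _).1
    (res_over hR h hY hE hO resid_loc hp l)

theorem ep_mem (hY : YFacts x y σ) (hO : O ∈ blE x y σ) (p : Pt 3) :
    ep (sc y) (tc x y) p O ∈ O := by
  by_cases hp : Over (sc y) p O
  · obtain ⟨j, e, -⟩ := ep_pos hp (hY.exists_j hO hp)
    exact e ▸ (hY.st hO j).2 (mem_of_sub_sv (hp j))
  · exact ep_neg (τ := tc x y) hp ▸ one_mem _

theorem plane (hD : DegStmt) (hR : RegStmt) (h : Setup w x y σ) (hY : YFacts x y σ)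
    (hE : ExcFacts x y σ) (ν : Curve (blE x y σ)) (H : HtFacts k ν.L)
    (hg : ∀ p, ¬ Over (sc y) p ν.gen) (l : Vec 3)
    (h0 : ht k (ν.pull (lin (algebraMap k K w) l (zz x y))) ≠ 0) (c : ZMod 3) :
    ∑ p with rv l ⬝ᵥ p = c, ν.deg (ep (sc y) (tc x y) p) ≤
      ht k (ν.pull (lin (algebraMap k K w) l (zz x y))) := by
  have hreg := fun O hO => reg_lin (O := O) hR h hY hE hO l
  have hov := fun O hO p hp => (over_lin (O := O) (p := p) hR h hY hE hO hp l).1
  generalize lin (algebraMap k K w) l (zz x y) = R at *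
  obtain ⟨hX, hY0⟩ := XY_ne ν H h0
  have h1 : ∀ O ∈ blE x y σ, IsLocalRing O ∧ Reg O R := fun O hO => ⟨hY.good.loc O hO, hreg O hO⟩
  have c1 := isCart_ec_pt c hX hY0 h1
  have c2 : ∀ p ∈ Finset.univ.filter fun p : Pt 3 => rv l ⬝ᵥ p = c, _ :=
    fun p _ => hY.isCart_ep h.toGen p
  have := deg_nonneg hY.good (c1.div (isCart_prod c2)) (fun O hO => ?_) ν ?_
  · rw [deg_div hY.good c1 (isCart_prod c2), deg_prod hY.good c2, hD k K _ ν R c hY0 h1] at this
    exact sub_nonneg.1 this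
  · rw [Pi.div_apply]
    by_cases h2 : ∃ p ∈ Finset.univ.filter fun p : Pt 3 => rv l ⬝ᵥ p = c, Over (sc y) p O
    · obtain ⟨p, hp, h2⟩ := h2
      obtain rfl := (Finset.mem_filter.1 hp).2
      obtain ⟨P, a1, a2, -, a3⟩ := hE.exc p
      have h3 := (hreg O hO).tt_mem (mem_of_sub_sv (hov O hO p h2))
      rw [prod_ep_pos (h1 O hO).1 hp h2, ec_pos (hov O hO p h2)]
      refine (a3 O hO h2).2 _ h3 (mx_of_pow ((a3 O hO h2).1 h3) (n := 3) ?_)
      rw [tt_cube]
      exact mx_of_sub_sv (hov _ a1 p a2)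
    · rw [prod_ep_neg fun p hp h3 => h2 ⟨p, hp, h3⟩, div_one]
      by_cases h3 : R.ss - sv c ∈ mx O
      · rw [ec_pos h3]; exact (hreg O hO).tt_mem (mem_of_sub_sv h3)
      · rw [ec_neg h3]; exact one_mem _
  · rw [Pi.div_apply, prod_ep_neg fun p _ => hg p, div_one, ec_neg fun h2 => h0 ?_]
    · exact isU_one
    · rw [Curve.pull, (res_eq_fx ν.locHom (hreg _ ν.gen_mem) c).2 ⟨h2, Or.inr hY0⟩, ht_fx H]

end CurM

open CurM

theorem deg_stmt (hH : HtStmt) : DegStmt := by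
  intro k K _ _ _ _ _ _ Y ν Q c hY h
  have H := hH k ν.L
  have hg := (h _ ν.gen_mem).2
  have e := res_eq_fx ν.locHom hg c
  by_cases h1 : Q.ss - sv c ∈ mx ν.gen
  · rw [Curve.pull, e.2 ⟨h1, Or.inr hY⟩, ht_fx H, ← deg_const ν Q.tt]
    refine finsum_congr fun P => ?_
    rw [ec_pos h1, ec_pos (sub_mx_pt ν P h1 (h _ (ν.pt_mem P)).2.ss_or)]
  rw [Curve.pull, H.htc _ c fun h2 => h1 (e.1 h2).1]
  refine finsum_congr fun P => ?_
  rw [ec_neg h1, div_one, ν.ev_eq]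
  by_cases h2 : Q.ss ∈ ν.pt P
  · obtain ⟨a1, a2, a3⟩ := res_ss_tt ν.locHom hg (ν.pt_le P h2) (Or.inr hY)
    have a4 : P.v ((res ν.gen ν.ρ Q).ss - sv c) < 1 ↔ Q.ss - sv c ∈ mx (ν.pt P) := by
      rw [← ν.v_lt_one_iff P (sub_mem h2 (sv_mem _ c)), ν.ev_eq, ev_sub_sv _ (ν.pt_le P h2), a1]
    by_cases h3 : Q.ss - sv c ∈ mx (ν.pt P)
    · rw [ec_pos h3, ← a2]
      split_ifs with h4
      · rfl
      · rw [a3.resolve_right fun h5 => h4 ⟨h5, a4.2 h3⟩, tt_zero, P.ord_zero]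
    · rw [ec_neg h3, if_neg fun h4 => h3 (a4.1 h4.2), evO_one, P.ord_one]
  · rw [ec_neg fun h3 => h2 (mem_of_sub_sv h3), evO_one, P.ord_one, if_neg]
    rintro ⟨h4, h5⟩
    have h6 := (h _ (ν.pt_mem P)).2.resolve_right fun h6 => h2 h6.2.1.1
    obtain ⟨-, -, a3⟩ := res_of ν.ρ ⟨h6.1, ν.pt_le P h6.2.1, ν.pt_le P h6.2.2⟩
    have h7 := mem_of_sub_sv ((mem_mx_plO P).2 h5)
    rw [ss, a3] at h7
    rw [a3] at h4
    exact h2 ((ν.v_eq_one_iff P h6.2.2).1 ((isU_plO P).1 ⟨h4, ν.v_le P h6.2.2, h7⟩)).2.2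

theorem cur_stmt (hD : DegStmt) (hH : HtStmt) (hR : RegStmt) (hY : YStmt) (hE : ExcStmt) :
    CurStmt := by
  intro k K _ _ _ _ _ _ w x y σ h ν
  have Y := hY k K w x y σ h
  have Ex := hE k K w x y σ h
  have H := hH k ν.L
  by_cases hg : ∃ p, Over (sc y) p ν.gen
  · obtain ⟨p, hp⟩ := hg
    refine ⟨(0, fun q => ν.deg (ep (sc y) (tc x y) q)), ⟨fun l => ?_, fun _ => rfl⟩,
      Or.inr ⟨rfl, fun q => ?_⟩⟩
    · rw [Curve.pull, res_over hR h Y Ex ν.gen_mem ν.locHom hp, ht_fx H]; simp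
    have hP : ∀ P, Over (sc y) p (ν.pt P) := fun P i =>
      sub_mx_pt ν P (hp i) (Y.st (ν.pt_mem P) i).1
    have h1 : 0 ≤ ν.deg (ep (sc y) (tc x y) q)⁻¹ := finsum_nonneg fun P =>
      FF.ord_nonneg (ν.v_le P (by
        rw [Pi.inv_apply, Pi.inv_apply, inv_div_inv]
        by_cases e : q = p
        · subst e
          obtain ⟨j, e1, h2⟩ := ep_pos (hP P) (Y.exists_j (ν.pt_mem P) (hP P))
          obtain ⟨j', e2, -⟩ := ep_pos hp (Y.exists_j ν.gen_mem hp)
          rw [e1, e2]; exact h2 j'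
        · rw [ep_neg fun h2 => e (Over.unique (Y.good.loc _ ν.gen_mem) h2 hp),
            ep_neg fun h2 => e (Over.unique (Y.good.loc _ (ν.pt_mem P)) h2 (hP P)), div_one]
          exact one_mem _))
    rw [deg_inv Y.good (Y.isCart_ep h.toGen q)] at h1
    exact Int.cast_nonpos.2 (neg_nonneg.1 h1)
  rw [not_exists] at hg
  have hl := fun l => (res_lin hR (Ex.nrm _ ν.gen_mem) ν.locHom h.hw
    (Y.reg_zz h.toGen ν.gen_mem) l).2
  obtain ⟨Q, hQ⟩ := gram (fun l => ht k (ν.pull (lin (algebraMap k K w) l (zz x y))))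
    (fun a b => by
      simp only [Curve.pull, hl]
      rw [lin_add, lin_sub, H.par])
    (fun a => by
      simp only [Curve.pull, hl]
      rw [lin_smul (h.hwK _), H.sm w h.hw]; simp)
  have key : ∀ l, ev Q l = 0 → ∀ p, (ν.deg (ep (sc y) (tc x y) p) : ℝ) ≠ 0 →
      (lin (algebraMap k K w) l (zz x y)).ss - sv (rv l ⬝ᵥ p) ∈ mx ν.gen := fun l h0 p hp => by
    obtain ⟨P, hP⟩ := exists_over ν (hg p) (by exact_mod_cast hp)
    obtain ⟨a1, a2⟩ := over_lin hR h Y Ex (ν.pt_mem P) hP l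
    rw [hQ] at h0
    exact const_gen ν H (reg_lin hR h Y Ex ν.gen_mem l) (by exact_mod_cast h0) a1 a2
  refine ⟨(Q, fun q => ν.deg (ep (sc y) (tc x y) q)), ⟨hQ, fun _ => rfl⟩,
    Or.inl ⟨fun l => ?_, ?_, fun p => ?_, fun l h0 c => ?_, fun l h0 p q hp hq => ?_⟩⟩
  · refine ⟨(ht k (ν.pull (lin (algebraMap k K w) l (zz x y)))).toNat, (hQ l).trans ?_⟩
    exact_mod_cast (Int.toNat_of_nonneg (H.nonneg _)).symm
  · by_contra hn
    rw [not_or, not_exists] at hn
    obtain ⟨p, hp⟩ := Function.ne_iff.1 hn.2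
    refine hg p fun i => ?_
    have := key (Pi.single i 1) (not_not.1 (hn.1 _)) p hp
    rw [lin_single, sm_one, h.zz_ss] at this
    have e : rv (Pi.single i 1) = Pi.single i 1 := funext fun j => by
      by_cases e : j = i <;> simp [rv, e]
    rwa [e, single_one_dotProduct] at this
  · exact Int.cast_nonneg_iff.2 (deg_nonneg Y.good (Y.isCart_ep h.toGen p)
      (fun O hO => ep_mem Y hO p) ν (by rw [ep_neg (hg p)]; exact isU_one))
  · rw [hQ] at h0 ⊢
    have := plane hD hR h Y Ex ν H hg l (by exact_mod_cast h0) c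
    simp only [planeSum]
    exact_mod_cast this
  · exact sv_unique (Y.good.loc _ ν.gen_mem) (key l h0 p hp) (key l h0 q hq)

theorem eff_stmt (hD : DegStmt) (hY : YStmt) : EffStmt := by
  intro k K _ _ _ _ _ _ w x y σ h
  have Y := hY k K w x y σ h
  let s : Fin 3 → Fx σ := fun i => ⟨sc y i, mem_Fx.2 (h.σs i)⟩
  let τ : Fin 3 → Fx σ := fun i => s i - s i ^ 3
  have hs : ∀ i, (Fx σ).val (s i) = sc y i := fun _ => rfl
  have hτ : ∀ i, (Fx σ).val (τ i) = tc x y i ^ 3 := fun i => by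
    rw [h.tc_cube, map_sub, map_pow, hs]
  have h0 : ∀ i, τ i ≠ 0 := fun i e => pow_ne_zero 3 (h.tc_ne i) (by rw [← hτ, e, map_zero])
  have hm : ∀ (O : Subalgebra k K) i c,
      s i - sv c ∈ mx (O.comap (Fx σ).val) ↔ sc y i - sv c ∈ mx O := fun O i c => by
    rw [mem_mx_comap, map_sub, map_sv, hs]
  have ho : ∀ (O : Subalgebra k K) p, Over s p (O.comap (Fx σ).val) ↔ Over (sc y) p O :=
    fun O p => forall_congr' fun i => hm O i _
  have hr : ∀ (O : Subalgebra k K) i j,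
      τ i / τ j ∈ O.comap (Fx σ).val ↔ (tc x y i / tc x y j) ^ 3 ∈ O := fun O i j => by
    rw [Subalgebra.mem_comap, map_div₀, hτ, hτ, div_pow]
  have hX : ∀ O ∈ quot σ (blE x y σ), IsLocalRing O ∧ (∀ i, s i ∈ O ∨ (s i)⁻¹ ∈ O) ∧
      (∀ i, s i ∈ O → τ i ∈ O) ∧ ∀ p, Over s p O → ∃ j, ∀ i, τ i / τ j ∈ O := by
    rintro _ ⟨O, hO, rfl⟩
    refine ⟨isLocalRing_comap _ (Y.good.loc O hO), fun i => (Y.st hO i).1,
      fun i hi => sub_mem hi (pow_mem hi 3), fun p hp => ?_⟩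
    obtain ⟨j, hj⟩ := Y.exists_j hO ((ho O p).1 hp)
    exact ⟨j, fun i => (hr O i j).2 (pow_mem (hj i) 3)⟩
  have cp : ∀ p, IsCart (quot σ (blE x y σ)) (ep s τ p) := fun p =>
    isCart_ep p one_ne_zero (fun i => pow_one _) h0 fun O hO =>
      ⟨(hX O hO).1, (hX O hO).2.1, (hX O hO).2.2.1, (hX O hO).2.2.2 p⟩
  have cc : ∀ c, IsCart (quot σ (blE x y σ)) (ec (s 0) (τ 0) c) := fun c =>
    isCart_ec c one_ne_zero (pow_one _) (h0 0) fun O hO =>
      ⟨(hX O hO).1, (hX O hO).2.1 0, (hX O hO).2.2.1 0⟩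
  have dp : ∀ p (ν : Curve (blE x y σ)),
      ν.deg (fun O => (Fx σ).val (ep s τ p (O.comap (Fx σ).val))) =
        3 * ν.deg (ep (sc y) (tc x y) p) := fun p ν => by
    have c1 := Y.isCart_ep h.toGen p
    refine (deg_congr Y.good ((cp p).pull _ (quot_mem σ _)) (c1.pow 3) (fun O hO => ?_) ν).trans
      (deg_pow Y.good c1 3 ν)
    rw [Pi.pow_apply]
    by_cases hp : Over (sc y) p O
    · obtain ⟨j, e1, h1⟩ := ep_pos hp (Y.exists_j hO hp)
      obtain ⟨j', e2, h2⟩ := ep_pos ((ho O p).2 hp)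
        ((hX _ (quot_mem σ _ O hO)).2.2.2 p ((ho O p).2 hp))
      rw [e1, e2, hτ, ← div_pow]
      exact ⟨pow_ne_zero 3 (div_ne_zero (h.tc_ne _) (h.tc_ne _)), pow_mem (h1 j') 3, by
        rw [← inv_pow, inv_div]; exact (hr O j j').1 (h2 j)⟩
    · rw [ep_neg hp, ep_neg (mt (ho O p).1 hp)]
      simpa using isU_one
  refine ⟨fun c => ?_, fun p => ⟨⟨_, cp p⟩, fun O hO => ?_, fun ν Z hZ => ?_⟩⟩
  · have c2 : ∀ p ∈ Finset.univ.filter fun p : Pt 3 => p 0 = c, _ := fun p _ => cp p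
    refine ⟨⟨_, (cc c).div (isCart_prod c2)⟩, fun O hO => ?_, fun ν Z hZ => ?_⟩
    · change ec (s 0) (τ 0) c O / _ ∈ O
      by_cases h2 : ∃ p ∈ Finset.univ.filter fun p : Pt 3 => p 0 = c, Over s p O
      · obtain ⟨p, hp, h2⟩ := h2
        obtain rfl := (Finset.mem_filter.1 hp).2
        obtain ⟨j, e, h3⟩ := ep_pos h2 ((hX O hO).2.2.2 p h2)
        rw [prod_ep_pos (hX O hO).1 hp h2, ec_pos (h2 0), e]
        exact h3 0
      · rw [prod_ep_neg fun p hp h3 => h2 ⟨p, hp, h3⟩, div_one]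
        by_cases h3 : s 0 - sv c ∈ mx O
        · rw [ec_pos h3]; exact (hX O hO).2.2.1 0 (mem_of_sub_sv h3)
        · rw [ec_neg h3]; exact one_mem _
    have h1 : ∀ O ∈ blE x y σ, IsLocalRing O ∧ Reg O (zz x y 0) := fun O hO =>
      ⟨Y.good.loc O hO, Y.reg_zz h.toGen hO 0⟩
    have hy : (zz x y 0).Y ≠ 0 := by rw [h.zz_Y]; exact h.y_ne 0
    have c1 := isCart_ec_pt c (by rw [h.zz_X]; exact h.x_ne 0) hy h1
    have c3 : ∀ p ∈ Finset.univ.filter fun p : Pt 3 => p 0 = c, _ :=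
      fun p _ => (cp p).pull _ (quot_mem σ _)
    have e : (ν.down σ).deg (ec (s 0) (τ 0) c / ∏ p with p 0 = c, ep s τ p) =
        (3 : ℕ) * ht k (ν.pull (zz x y 0)) - ∑ p with p 0 = c, 3 * ν.deg (ep (sc y) (tc x y) p) := by
      rw [← hD k K _ ν _ c hy h1, ← Finset.sum_congr rfl fun p _ => dp p ν, ← deg_prod Y.good c3,
        ← deg_pow Y.good c1, ← deg_div Y.good (c1.pow 3) (isCart_prod c3),
        Curve.down, Curve.deg_push]
      congr 1
      funext O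
      rw [Pi.div_apply, Pi.div_apply, map_div₀, Finset.prod_apply, Finset.prod_apply, map_prod,
        Pi.pow_apply, h.zz_ss, h.zz_tt]
      congr 1
      by_cases h2 : sc y 0 - sv c ∈ mx O
      · rw [ec_pos h2, ec_pos ((hm O 0 c).2 h2), hτ]
      · rw [ec_neg h2, ec_neg (mt (hm O 0 c).1 h2), map_one, one_pow]
    have e1 : ∀ p : Pt 3, rv (Pi.single 0 1) ⬝ᵥ p = p 0 := fun p => by
      simp [rv, dotProduct, Fin.sum_univ_three]
    have e2 := hZ.1 (Pi.single 0 1)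
    rw [lin_single, sm_one] at e2
    change (((ν.down σ).deg (ec (s 0) (τ 0) c / ∏ p with p 0 = c, ep s τ p) : ℤ) : ℝ) = _
    rw [e, inter, clS, Prod.smul_fst, Prod.smul_snd, ← pairL_apply, map_smul, LinearMap.smul_apply,
      pairL_apply, pair_rk, e2, Finset.sum_filter]
    simp [e1, hZ.2]
  · change ep s τ p O ∈ O
    by_cases hp : Over s p O
    · obtain ⟨j, e, -⟩ := ep_pos hp ((hX O hO).2.2.2 p hp)
      exact e ▸ (hX O hO).2.2.1 j (mem_of_sub_sv (hp j))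
    · exact ep_neg (τ := τ) hp ▸ one_mem _
  · change (((ν.down σ).deg (ep s τ p) : ℤ) : ℝ) = _
    rw [Curve.down, Curve.deg_push, dp]
    simp [inter, clE, pair, hZ.2]

end Pool.Agent.MP_20d318_ag.AG

end MrgPart0

-- ======== part 1: formerly Pool.Agent.MP_20d318_ag.AG.Gl
section MrgPart1

/-! The automorphisms of the blow-up given by invertible matrices over the Eisenstein integers. -/

set_option autoImplicit false
set_option linter.unusedSectionVars false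

namespace Pool.Agent.MP_20d318_ag.AG

open Pool.Agent.MP_79c67d_ag Pool.Agent.MP_20d318_ag.Lat E

namespace Gl

variable {k K : Type} [Field k] [CharZero k] [Field K] [CharZero K] [Algebra k K] {w : k}
  {x y x' y' : Fin 3 → K} {σ : K ≃ₐ[k] K} {g h : Matrix (Fin 3) (Fin 3) Lat.O}
  {O : Subalgebra k K}

theorem lin_inv {u : K} (hw : u ^ 2 + u + 1 = 0) (hg : h * g = 1) (z : Fin 3 → E K) (i : Fin 3) :
    z i = lin u (h i) fun j => lin u (g j) z := by
  rw [← lin_vecMul hw]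
  have : Matrix.vecMul (h i) g = Pi.single i 1 := by
    rw [← Matrix.mul_apply_eq_vecMul, hg]
    funext j
    simp [Matrix.one_apply, Pi.single_apply, eq_comm]
  rw [this, lin_single, sm_one]

theorem lin_mem (hw : w ^ 2 + w + 1 = 0) (M : IntermediateField k K) (z : Fin 3 → E K)
    (hz : ∀ i, (z i).X ∈ M ∧ (z i).Y ∈ M) (l : Vec 3) :
    (lin (algebraMap k K w) l z).X ∈ M ∧ (lin (algebraMap k K w) l z).Y ∈ M := by
  have : CharZero M := charZero_of_injective_algebraMap (algebraMap k M).injective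
  have h1 : ∀ i, ∃ Q : E M, pmap (algebraMap M K) Q = z i := fun i => by
    by_cases h0 : z i = 0
    · exact ⟨0, by rw [h0, map_zero]⟩
    · refine ⟨mk ⟨_, (hz i).1⟩ ⟨_, (hz i).2⟩, ?_⟩
      rw [pmap_mk _ (Subtype.ext (eqn h0))]
      exact mk_XY h0
  choose Q hQ using h1
  have h2 := pmap_lin (algebraMap M K) (map_hw hw M) l Q
  simp only [hQ, ← IsScalarTower.algebraMap_apply] at h2
  rw [← h2, X_pmap, Y_pmap]
  exact ⟨Subtype.prop _, Subtype.prop _⟩

theorem gen_of (hT : TrdStmt) (hw : w ^ 2 + w + 1 = 0) (H : Gen k x y) (z : Fin 3 → E K)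
    (hz : ∀ i, zz x y i = lin (algebraMap k K w) (h i) z) :
    Gen k (fun i => (z i).X) (fun i => (z i).Y) ∧ zz (fun i => (z i).X) (fun i => (z i).Y) = z := by
  have top : IntermediateField.adjoin k
      (Set.range (fun i => (z i).X) ∪ Set.range fun i => (z i).Y) = ⊤ := by
    rw [eq_top_iff, ← H.top, IntermediateField.adjoin_le_iff]
    have := fun i => lin_mem hw (IntermediateField.adjoin k
      (Set.range (fun i => (z i).X) ∪ Set.range fun i => (z i).Y)) z (fun i =>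
        ⟨IntermediateField.subset_adjoin _ _ (Or.inl ⟨i, rfl⟩),
          IntermediateField.subset_adjoin _ _ (Or.inr ⟨i, rfl⟩)⟩) (h i)
    simp only [← hz, H.zz_X, H.zz_Y] at this
    rintro _ (⟨i, rfl⟩ | ⟨i, rfl⟩)
    exacts [(this i).1, (this i).2]
  have ind : AlgebraicIndependent k fun i => (z i).Y := by
    refine hT k K _ y _ H.ind fun i => IsAlgebraic.adjoin_of_forall_isAlgebraic
      (s := Set.range (fun i => (z i).X) ∪ Set.range fun i => (z i).Y) ?_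
      (IntermediateField.isAlgebraic_adjoin_iff.1 (isAlgebraic_algebraMap
        (⟨y i, by rw [top]; trivial⟩ : IntermediateField.adjoin k _)))
    rintro _ ⟨⟨j, rfl⟩ | ha, hn⟩
    · by_cases h0 : z j = 0
      · simpa [h0] using isAlgebraic_zero
      refine IsAlgebraic.of_pow (n := 3) (by norm_num) ?_
      have h2 : (z j).Y ∈ Algebra.adjoin k (Set.range fun i => (z i).Y) :=
        Algebra.subset_adjoin ⟨j, rfl⟩
      have h3 : (z j).X ^ 3 = (z j).Y ^ 2 - 1 := by linear_combination - eqn h0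
      exact h3 ▸ isAlgebraic_algebraMap
        (⟨_, sub_mem (pow_mem h2 2) (one_mem _)⟩ : Algebra.adjoin k (Set.range fun i => (z i).Y))
    · exact absurd ha hn
  have h0 : ∀ i, z i ≠ 0 := fun i e => ind.transcendental i (by simpa [e] using isAlgebraic_zero)
  exact ⟨⟨ind, fun i => eqn (h0 i), top⟩, funext fun i => mk_XY (h0 i)⟩

theorem pmap_sigma (H : Setup w x y σ) (l : Vec 3) :
    pmap (σ : K →+* K) (lin (algebraMap k K w) l (zz x y)) =
      zeta (algebraMap k K w) (lin (algebraMap k K w) l (zz x y)) := by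
  have hw := H.hwK K
  have h1 : ∀ i, pmap (σ : K →+* K) (zz x y i) = zeta (algebraMap k K w) (zz x y i) := fun i =>
    ext2 (by simp [zeta_eq_zero hw]) (by simp [X_zeta hw, H.toGen.zz_X, H.σx])
      (by simp [Y_zeta hw, H.toGen.zz_Y, H.σy])
  rw [pmap_lin _ hw]
  simp only [h1, lin, sm_apply, map_sum, map_add, map_zsmul, RingHom.coe_coe, AlgEquiv.commutes]

/-- The second system of coordinates is obtained from the first by the matrix `g`. -/
def Rel (w : k) (g : Matrix (Fin 3) (Fin 3) Lat.O) (x y x' y' : Fin 3 → K) : Prop :=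
  ∀ i, zz x' y' i = lin (algebraMap k K w) (g i) (zz x y)

theorem chart_of_reg (H : Gen k x y) (hr : ∀ i, Reg O (zz x y i)) : ∃ c, chart x y c ≤ O := by
  classical
  refine ⟨fun i => decide (x i ∈ O ∧ y i ∈ O), chart_le_iff.2 fun i => ?_⟩
  have := hr i
  unfold Reg at this
  rw [H.zz_X, H.zz_Y, H.zz_ss, H.zz_tt] at this
  unfold cu cv
  split_ifs with e
  · exact (of_decide_eq_true e).symm
  · have h1 := this.resolve_left fun h1 => e (decide_eq_true h1.2)
    exact ⟨h1.2.1.1, h1.1.1⟩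

theorem exists_dom (hR : RegStmt) (hw : w ^ 2 + w + 1 = 0) (H : Gen k x y) (H' : Gen k x' y')
    (r : Rel w g x y x' y') (hO : O ∈ prodE k x y) (hN : Nrm O) :
    ∃ O' ∈ prodE k x' y', Dom O' O := by
  obtain ⟨c, hc⟩ := mem_prodE.1 hO
  have hl := hc.1
  have := charZero_of_injective_algebraMap (algebraMap k (IsLocalRing.ResidueField O)).injective
  obtain ⟨c', h1⟩ := chart_of_reg (O := O) H' fun i => by
    rw [r i]; exact (res_lin hR hN resid_loc hw (H.reg_zz hl hc.2.1) _).1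
  obtain ⟨O', h2, h3⟩ := exists_ctr hl h1
  exact ⟨O', mem_prodE.2 ⟨c', h2⟩, h3⟩

theorem prodE_sub (hR : RegStmt) (hw : w ^ 2 + w + 1 = 0) (H : Gen k x y) (H' : Gen k x' y')
    (r : Rel w g x y x' y') (r' : Rel w h x' y' x y) (hN : ∀ O ∈ prodE k x y, Nrm O)
    (hN' : ∀ O ∈ prodE k x' y', Nrm O) : prodE k x y ⊆ prodE k x' y' := fun O hO => by
  obtain ⟨O', h1, h2⟩ := exists_dom hR hw H H' r hO (hN O hO)
  obtain ⟨O'', h3, h4⟩ := exists_dom hR hw H' H r' h1 (hN' O' h1)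
  obtain rfl := prodE_sep H h3 hO (h4.trans h2) (Dom.refl O)
  rwa [le_antisymm h4.1 h2.1]

theorem over_of (hR : RegStmt) (hw : w ^ 2 + w + 1 = 0) (H : Gen k x y) (H' : Gen k x' y')
    (r : Rel w g x y x' y') (hl : IsLocalRing O) (hN : Nrm O) (hr : ∀ i, Reg O (zz x y i))
    {p : Pt 3} (hp : Over (sc y) p O) : Over (sc y') ((g.map red).mulVec p) O := fun i => by
  have := charZero_of_injective_algebraMap (algebraMap k (IsLocalRing.ResidueField O)).injective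
  have h1 : ∀ j, res O (resid O) (zz x y j) = fx (p j) := fun j =>
    (res_eq_fx resid_loc (hr j) _).2 ⟨by rw [H.zz_ss]; exact hp j,
      Or.inr (by rw [H.zz_Y]; exact H.y_ne j)⟩
  obtain ⟨h2, h3⟩ := res_lin hR hN resid_loc hw hr (g i)
  simp only [h1] at h3
  rw [lin_fx (map_hw hw _), ← r i] at h3
  rw [← r i] at h2
  have h4 := ((res_eq_fx resid_loc h2 _).1 h3).1
  rwa [H'.zz_ss] at h4

theorem Pts_comap (φ : K ≃ₐ[k] K) (R : Subalgebra k K) :
    O ∈ Pts (R.map (φ : K →ₐ[k] K)) ↔ O.comap (φ : K →ₐ[k] K) ∈ Pts R := by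
  refine ⟨fun hO => ⟨isLocalRing_comap _ hO.1, Subalgebra.map_le.1 hO.2.1, fun f hf => ?_⟩,
    fun hO => ⟨?_, Subalgebra.map_le.2 hO.2.1, fun f hf => ?_⟩⟩
  · obtain ⟨_, ⟨a, ha, rfl⟩, _, ⟨b, hb, rfl⟩, hu, e⟩ := hO.2.2 _ hf
    exact ⟨a, ha, b, hb, (isU_comap _).2 hu, φ.injective (by simpa using e)⟩
  · have := isLocalRing_comap (φ.symm : K →ₐ[k] K) hO.1
    rwa [show (O.comap (φ : K →ₐ[k] K)).comap (φ.symm : K →ₐ[k] K) = O by ext; simp] at this
  · obtain ⟨a, ha, b, hb, hu, e⟩ := hO.2.2 (φ.symm f) (by simpa using hf)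
    exact ⟨φ a, ⟨a, ha, rfl⟩, φ b, ⟨b, hb, rfl⟩, (isU_comap _).1 hu, by
      rw [← map_div₀, ← e]; simp⟩

section transport

variable (φ : K ≃ₐ[k] K) (hx : ∀ i, φ (x i) = x' i) (hy : ∀ i, φ (y i) = y' i)
include hy

theorem map_sc (i : Fin 3) : φ (sc y i) = sc y' i := by simp [sc, hy]

theorem over_comap (p : Pt 3) : Over (sc y) p (O.comap (φ : K →ₐ[k] K)) ↔ Over (sc y') p O :=
  forall_congr' fun i => by simp [mem_mx_comap, map_sc φ hy]

include hx

theorem map_tc (i : Fin 3) : φ (tc x y i) = tc x' y' i := by simp [tc, hx, hy]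

theorem chart_map (c : Fin 3 → Bool) :
    (chart x y c : Subalgebra k K).map (φ : K →ₐ[k] K) = chart x' y' c := by
  have h1 : φ ∘ cv x y c = cv x' y' c := funext fun i => by
    simp only [Function.comp, cv]; split_ifs <;> simp [hx, hy]
  have h2 : φ ∘ cu y c = cu y' c := funext fun i => by
    simp only [Function.comp, cu]; split_ifs <;> simp [hy]
  rw [chart_eq, chart_eq, AlgHom.map_adjoin, Set.image_union, ← Set.range_comp, ← Set.range_comp,
    ← h1, ← h2]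
  rfl

theorem bch_map (j : Fin 3) : (bch k x y j).map (φ : K →ₐ[k] K) = bch k x' y' j := by
  rw [bch, bch, AlgHom.map_adjoin, Set.image_union, Set.image_union, ← Set.range_comp,
    ← Set.range_comp, ← Set.range_comp]
  simp [Function.comp_def, map_sc φ hy, map_tc φ hx hy]

theorem blE_comap (hY : YFacts x y σ) (hY' : YFacts x' y' σ) :
    O ∈ blE x' y' σ ↔ O.comap (φ : K →ₐ[k] K) ∈ blE x y σ := by
  simp only [hY.mem, hY'.mem, mem_prodE, ← Pts_comap, chart_map φ hx hy, bch_map φ hx hy,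
    over_comap φ hy]

theorem ep_comap (p : Pt 3) :
    φ (ep (sc y) (tc x y) p (O.comap (φ : K →ₐ[k] K))) = ep (sc y') (tc x' y') p O := by
  by_cases hp : Over (sc y') p O
  · rw [ep, ep, if_pos hp, if_pos ((over_comap φ hy p).2 hp), map_tc φ hx hy]
    simp only [Subalgebra.mem_comap, map_div₀, AlgEquiv.coe_toAlgHom, map_tc φ hx hy]
  · rw [ep_neg hp, ep_neg (mt (over_comap φ hy p).1 hp), map_one]

end transport

theorem ep_div (H' : Gen k x' y') (hY' : YFacts x' y' σ) (hE : ExcFacts x y σ)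
    (hE' : ExcFacts x' y' σ) (e : blE x' y' σ = blE x y σ) {p q : Pt 3}
    (hpq : ∀ O ∈ blE x y σ, Over (sc y) p O ↔ Over (sc y') q O) (hO : O ∈ blE x y σ)
    (hp : Over (sc y) p O) : ep (sc y') (tc x' y') q O / ep (sc y) (tc x y) p O ∈ O := by
  obtain ⟨P, h1, h2, -, h3⟩ := hE.exc p
  obtain ⟨P', -, -, h4, h5⟩ := hE'.exc q
  obtain rfl : P = P' := plO_inj (h5 _ (e ▸ h1) ((hpq _ h1).1 h2)).1
  have hq := (hpq O hO).1 hp
  obtain ⟨j, e1, -⟩ := ep_pos hq (hY'.exists_j (e ▸ hO) hq)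
  refine (h3 O hO hp).2 _ ?_ ?_ <;> rw [e1]
  · exact (hY'.st (e ▸ hO) j).2 (mem_of_sub_sv (hq j))
  · rw [mem_mx_plO, FF.v_lt_one_iff P (H'.tc_ne j)]
    exact (h4 j).symm ▸ one_pos

end Gl

open Gl in
theorem gl_stmt (hF : FieldHomStmt) (hT : TrdStmt) (hR : RegStmt) (hY : YStmt) (hE : ExcStmt) :
    GlStmt := by
  intro k K _ _ _ _ _ _ w x y σ H g hg
  obtain ⟨h, -, hg⟩ := isUnit_iff_exists.1 hg
  have hw := H.hwK K
  have r0 := lin_inv hw hg (zz x y)
  obtain ⟨G, hz⟩ := gen_of hT H.hw H.toGen _ r0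
  have H' : Setup w (fun i => (lin (algebraMap k K w) (g i) (zz x y)).X)
      (fun i => (lin (algebraMap k K w) (g i) (zz x y)).Y) σ :=
    ⟨G, H.hw, fun i => by simpa [X_zeta hw] using congrArg E.X (pmap_sigma H (g i)),
      fun i => by simpa [Y_zeta hw] using congrArg E.Y (pmap_sigma H (g i))⟩
  rw [← hz] at r0
  have r : Rel w g x y _ _ := congrFun hz
  clear hz G
  generalize (fun i => (lin (algebraMap k K w) (g i) (zz x y)).X) = x' at *
  generalize (fun i => (lin (algebraMap k K w) (g i) (zz x y)).Y) = y' at *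
  have r' : Rel w h x' y' x y := r0
  obtain ⟨φ₀, hx, hy⟩ := hF k K K _ x y x' y' H.toGen H'.ind H'.eq
  have hs : Function.Surjective φ₀ := by
    rw [← AlgHom.fieldRange_eq_top, eq_top_iff, ← H'.top, IntermediateField.adjoin_le_iff]
    rintro _ (⟨i, rfl⟩ | ⟨i, rfl⟩)
    exacts [⟨x i, hx i⟩, ⟨y i, hy i⟩]
  let φ : K ≃ₐ[k] K := AlgEquiv.ofBijective φ₀ ⟨φ₀.injective, hs⟩
  replace hx : ∀ i, φ (x i) = x' i := hx
  replace hy : ∀ i, φ (y i) = y' i := hy
  clear_value φ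
  have Y := hY k K w x y σ H
  have Y' := hY k K w x' y' σ H'
  have X := hE k K w x y σ H
  have X' := hE k K w x' y' σ H'
  have e : blE x' y' σ = blE x y σ := by
    rw [blE, blE, (prodE_sub hR H.hw H.toGen H'.toGen r r' X.nrmA X'.nrmA).antisymm
      (prodE_sub hR H.hw H'.toGen H.toGen r' r X'.nrmA X.nrmA)]
  refine ⟨⟨φ, fun O => by rw [← blE_comap φ hx hy Y Y', e]⟩, fun f => ?_,
    fun ν Z Z' hZ hZ' => ⟨fun l => ?_, fun p => ?_⟩⟩
  · exact DFunLike.congr_fun (algHom_ext_gen H.toGen (φ := ((φ * σ : K ≃ₐ[k] K) : K →ₐ[k] K))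
      (ψ := ((σ * φ : K ≃ₐ[k] K) : K →ₐ[k] K)) (fun i => by simp [H.σx, H'.σx, hx])
      fun i => by simp [H.σy, H'.σy, hy]) f
  · have h1 : ∀ i, pmap ((φ : K →ₐ[k] K) : K →+* K) (zz x y i) = zz x' y' i := fun i => by
      rw [zz, pmap_mk _ (H.eq i), zz, ← hx, ← hy]; rfl
    rw [hZ.1, hZ'.1, pull_push, pmap_lin _ hw, lin_vecMul hw]
    simp only [h1, r _, RingHom.coe_coe, AlgHom.commutes]
    rfl
  · rw [hZ.2, hZ'.2, Curve.deg_push]
    have hpq : ∀ O ∈ blE x y σ, Over (sc y) p O ↔ Over (sc y') ((g.map red).mulVec p) O := by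
      refine fun O hO => ⟨over_of hR H.hw H.toGen H'.toGen r (Y.good.loc O hO) (X.nrm O hO)
        (Y.reg_zz H.toGen hO), fun h1 => ?_⟩
      have := over_of hR H.hw H'.toGen H.toGen r' (Y.good.loc O hO) (X.nrm O hO)
        (Y'.reg_zz H'.toGen (e ▸ hO)) h1
      rwa [Matrix.mulVec_mulVec, ← Matrix.map_mul, hg, Matrix.map_one _ (map_zero _) (map_one _),
        Matrix.one_mulVec] at this
    have c1 := Y.isCart_ep H.toGen p
    have c2 := e ▸ Y'.isCart_ep H'.toGen ((g.map red).mulVec p)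
    simp only [AlgEquiv.coe_toAlgHom, ep_comap φ hx hy]
    refine congrArg _ (deg_congr Y.good c2 c1 (fun O hO => ?_) ν)
    by_cases hp : Over (sc y) p O
    · refine ⟨div_ne_zero (c2.ne hO) (c1.ne hO), ep_div H'.toGen Y' X X' e hpq hO hp, ?_⟩
      rw [inv_div]
      exact ep_div H.toGen Y X' X e.symm (fun O hO => (hpq O (e ▸ hO)).symm) (e ▸ hO)
        ((hpq O hO).1 hp)
    · rw [ep_neg hp, ep_neg (mt (hpq O hO).2 hp), div_one]
      exact isU_one

end Pool.Agent.MP_20d318_ag.AG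

end MrgPart1

-- ======== part 2: formerly Pool.Agent.MP_20d318_ag.AG.Krull
section MrgPart2

/-! Noetherian normal rings inside a field: localizations, discrete valuation rings, a normal
Noetherian ring is the intersection of its discrete valuation rings, finiteness of poles. -/

set_option autoImplicit false

namespace Pool.Agent.MP_20d318_ag.AG

open Pool.Agent.MP_79c67d_ag

namespace Krull

variable {k K : Type} [Field k] [Field K] [Algebra k K]

/-- A localization of a Noetherian ring is Noetherian. -/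
theorem noeth_loc {R O : Subalgebra k K} (hR : IsNoetherianRing R) (hle : R ≤ O)
    (h : ∀ f ∈ O, ∃ a ∈ R, ∃ b ∈ R, IsU O b ∧ f = a / b) : IsNoetherianRing O := by
  refine (isNoetherianRing_iff_ideal_fg O).2 fun I => ?_
  have h1 : I = (I.comap (Subalgebra.inclusion hle)).map (Subalgebra.inclusion hle) := by
    refine le_antisymm (fun f hf => ?_) Ideal.map_comap_le
    obtain ⟨a, ha, b, hb, hu, he⟩ := h f f.2
    have h2 : Subalgebra.inclusion hle ⟨a, ha⟩ = f * ⟨b, hu.mem⟩ :=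
      Subtype.ext (by
        change a = f * b
        rw [he, div_mul_cancel₀ _ hu.ne])
    have h3 : f = Subalgebra.inclusion hle ⟨a, ha⟩ * ⟨b⁻¹, hu.inv_mem⟩ :=
      Subtype.ext (by
        change (f : K) = a * b⁻¹
        rw [he, div_eq_mul_inv])
    rw [h3]
    refine Ideal.mul_mem_right _ _ (Ideal.mem_map_of_mem _ ?_)
    rw [Ideal.mem_comap, h2]
    exact Ideal.mul_mem_right _ _ hf
  rw [h1]
  exact ((isNoetherianRing_iff_ideal_fg R).1 hR _).map _

theorem noeth_pts {R O : Subalgebra k K} (hR : IsNoetherianRing R) (h : O ∈ Pts R) :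
    IsNoetherianRing O := noeth_loc hR h.2.1 h.2.2

theorem noeth_adjoin {G : Set K} (hG : G.Finite) : IsNoetherianRing (Algebra.adjoin k G) :=
  isNoetherianRing_of_fg (Subalgebra.fg_def.2 ⟨G, hG, rfl⟩)

theorem isFractionRing {O : Subalgebra k K} (h : Frac O) : IsFractionRing O K := by
  refine IsFractionRing.of_field O K fun f => ?_
  obtain ⟨a, ha, b, hb, -, he⟩ := h f
  exact ⟨⟨a, ha⟩, ⟨b, hb⟩, he⟩

/-- The ideal of denominators. -/
def den (O : Subalgebra k K) (g : K) : Ideal O where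
  carrier := {c | (c : K) * g ∈ O}
  add_mem' {a b} ha hb := by
    change ((a : K) + b) * g ∈ O
    rw [add_mul]; exact O.add_mem ha hb
  zero_mem' := by
    change ((0 : O) : K) * g ∈ O
    simp
  smul_mem' c a ha := by
    change ((c : K) * a) * g ∈ O
    rw [mul_assoc]; exact O.mul_mem c.2 ha

theorem mem_den {O : Subalgebra k K} {g : K} {c : O} : c ∈ den O g ↔ (c : K) * g ∈ O := Iff.rfl

/-- The center of a place on a ring. -/
def ctr (R : Subalgebra k K) (P : Place k K) : Ideal R where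
  carrier := {c | (c : K) ∈ R ∧ ∀ f ∈ R, P.v (f * c) < 1}
  add_mem' {a b} ha hb := ⟨(a + b).2, fun f hf => by
    change P.v (f * ((a : K) + b)) < 1
    rw [mul_add]
    exact (P.v.map_add _ _).trans_lt (max_lt (ha.2 f hf) (hb.2 f hf))⟩
  zero_mem' := ⟨(0 : R).2, fun f _ => by simp⟩
  smul_mem' c a ha := ⟨(c * a).2, fun f hf => by
    change P.v (f * ((c : K) * a)) < 1
    rw [← mul_assoc]
    exact ha.2 _ (R.mul_mem hf c.2)⟩

theorem mem_ctr {R : Subalgebra k K} {P : Place k K} (h : R ≤ plO P) {c : R} :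
    c ∈ ctr R P ↔ (c : K) ∈ mx (plO P) :=
  ⟨fun hc => (mem_mx_plO P).2 (by simpa using hc.2 1 R.one_mem),
    fun hc => ⟨c.2, fun _ hf => (mem_mx_plO P).1 (mx_mul_left (h hf) hc)⟩⟩

theorem ctr_prime {R : Subalgebra k K} {P : Place k K} (h : R ≤ plO P) : (ctr R P).IsPrime :=
  ⟨(Ideal.ne_top_iff_one _).2 fun h1 => one_not_mem_mx ((mem_ctr h).1 h1), fun {a b} hab =>
    (mx_or_of_mul (h a.2) (h b.2) ((mem_ctr h).1 hab)).imp (mem_ctr h).2 (mem_ctr h).2⟩

theorem finite_zero {R : Subalgebra k K} (hR : IsNoetherianRing R) {b : K} (hb : b ∈ R)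
    (hb0 : b ≠ 0) : {P : Place k K | plO P ∈ Pts R ∧ P.ord b ≠ 0}.Finite := by
  refine Set.Finite.of_finite_image (f := ctr R)
    ((Ideal.finite_minimalPrimes_of_isNoetherianRing R (Ideal.span {⟨b, hb⟩})).subset ?_) ?_
  · rintro _ ⟨P, ⟨hP, hord⟩, rfl⟩
    have hle := hP.2.1
    have hbm : b ∈ mx (plO P) := ⟨hle hb, fun hu => hord ((isU_plO' P).1 hu).2⟩
    refine ⟨⟨ctr_prime hle, (Ideal.span_singleton_le_iff_mem _).2 ((mem_ctr hle).2 hbm)⟩, ?_⟩
    rintro q ⟨hq, hbq⟩ hqle c hc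
    by_contra hn
    have hc0 : (c : K) ≠ 0 := fun h0 => hn (by rw [show c = 0 from Subtype.ext h0]; exact q.zero_mem)
    have h1 : 1 ≤ P.ord (c : K) := (P.ge1_iff.2 ((mem_mx_plO P).1 ((mem_ctr hle).1 hc))).le hc0
    have h2 : 0 ≤ P.ord b := ((mem_plO' P).1 (hle hb)).le hb0
    obtain ⟨n, hn'⟩ := Int.eq_ofNat_of_zero_le h2
    have h3 : (c : K) ^ n / b ∈ plO P := (mem_plO' P).2 (P.ge_of_le (by
      rw [P.ord_div (pow_ne_zero _ hc0) hb0, P.ord_pow, hn']
      nlinarith [Int.natCast_nonneg n]))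
    obtain ⟨x, hx, y, hy, hu, he⟩ := hP.2.2 _ h3
    have h4 : c ^ n * ⟨y, hy⟩ = ⟨x, hx⟩ * ⟨b, hb⟩ :=
      Subtype.ext ((div_eq_div_iff hb0 hu.ne).1 he)
    have h5 : c ^ n * ⟨y, hy⟩ ∈ q :=
      h4 ▸ q.mul_mem_left _ ((Ideal.span_singleton_le_iff_mem _).1 hbq)
    rcases hq.mem_or_mem h5 with h6 | h6
    · exact hn (hq.mem_of_pow_mem n h6)
    · exact hu.not_mx ((mem_ctr hle).1 (hqle h6))
  · rintro P ⟨hP, -⟩ Q ⟨hQ, -⟩ h
    refine plO_inj fun f hf => ?_
    obtain ⟨x, hx, y, hy, hu, rfl⟩ := hP.2.2 f hf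
    refine (isU_of_not_mx (hQ.2.1 hy) fun hm => hu.not_mx ?_).div_mem (hQ.2.1 hx)
    exact (mem_ctr hP.2.1 (c := ⟨y, hy⟩)).1 (h ▸ (mem_ctr hQ.2.1 (c := ⟨y, hy⟩)).2 hm)

end Krull

open Krull

theorem noeth_stmt : NoethStmt := fun _ _ _ _ _ _ hG _ hO => noeth_pts (noeth_adjoin hG) hO

theorem nrmLoc_stmt : NrmLocStmt := by
  intro k K _ _ _ R C hN hle h f hf
  let _ : Algebra R C := (Subalgebra.inclusion hle).toRingHom.toAlgebra
  have : IsScalarTower R C K := .of_algebraMap_eq fun _ => rfl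
  let M : Submonoid R := (IsUnit.submonoid C).comap (algebraMap R C)
  have : IsLocalization M C := by
    refine ⟨fun m => m.2, fun z => ?_, fun {a b} hab => ⟨1, ?_⟩⟩
    · obtain ⟨a, ha, b, hb, hu, he⟩ := h z z.2
      refine ⟨(⟨a, ha⟩, ⟨⟨b, hb⟩, (isU_iff_isUnit (O := C) ⟨b, hu.mem⟩).1 hu⟩), Subtype.ext ?_⟩
      change (z : K) * b = a
      rw [he, div_mul_cancel₀ _ hu.ne]
    · rw [Subalgebra.inclusion_injective hle hab]
  obtain ⟨m, hm⟩ := IsIntegral.exists_multiple_integral_of_isLocalization M f hf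
  have hu : IsU C (m.1 : K) := (isU_iff_isUnit (O := C) (algebraMap R C m.1)).2 m.2
  have h1 : (m.1 : K) * f ∈ R := hN _ hm
  have h2 := hu.div_mem (hle h1)
  rwa [mul_div_cancel_left₀ _ hu.ne] at h2

theorem dvr_stmt : DvrStmt := by
  intro k K _ _ _ O hO hN hF π hπ hπ0 h
  have hs : IsLocalRing.maximalIdeal O = Ideal.span {⟨π, hπ.1⟩} := by
    refine le_antisymm (fun a ha => Ideal.mem_span_singleton'.2
      ⟨⟨a / π, h a ((mem_mx_iff a).2 ha)⟩, Subtype.ext (div_mul_cancel₀ _ hπ0)⟩) ?_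
    exact (Ideal.span_singleton_le_iff_mem _).2 ((mem_mx_iff ⟨π, hπ.1⟩).1 hπ)
  have hne : (⟨π, hπ.1⟩ : O) ≠ 0 := fun h0 => hπ0 (congrArg Subtype.val h0)
  have hnf : ¬ IsField O := by
    rw [IsLocalRing.isField_iff_maximalIdeal_eq, hs, Ideal.span_singleton_eq_bot]
    exact hne
  have hpr : (IsLocalRing.maximalIdeal O).IsPrincipal := ⟨⟨_, hs⟩⟩
  have : IsDiscreteValuationRing O := ((IsDiscreteValuationRing.TFAE O hnf).out 0 4).2 hpr
  have := isFractionRing hF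
  let p := IsDiscreteValuationRing.maximalIdeal O
  let P : Place k K :=
    ⟨p.valuation K, p.valuation_surjective K, fun c => p.valuation_le_one (algebraMap k O c)⟩
  refine ⟨P, le_antisymm (fun f hf => ?_) fun f hf => p.valuation_le_one (⟨f, hf⟩ : O), ?_⟩
  · obtain ⟨a, rfl⟩ := IsDiscreteValuationRing.exists_lift_of_le_one (A := O) hf
    exact a.2
  · change - WithZero.log (p.valuation K (algebraMap O K ⟨π, hπ.1⟩)) = 1
    rw [p.valuation_of_algebraMap, p.intValuation_singleton hne hs, WithZero.log_exp, neg_neg]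

theorem krull_stmt : KrullStmt := by
  intro k K _ _ _ O hN hI hF f hf
  by_contra hn
  obtain ⟨_, ⟨a, ha, hg, rfl⟩, hmax⟩ := set_has_maximal_iff_noetherian.2 hN
    {I : Ideal O | ∃ a ∈ O, a * f ∉ O ∧ I = den O (a * f)}
    ⟨_, 1, O.one_mem, by simpa using hn, rfl⟩
  set g := a * f with hgd
  have hg0 : g ≠ 0 := fun h0 => hg (h0 ▸ O.zero_mem)
  have hpr : ∀ c ∈ O, ∀ d ∈ O, c * d * g ∈ O → c * g ∈ O ∨ d * g ∈ O := by
    intro c hc d hd hcd
    by_contra hcon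
    rw [not_or] at hcon
    have h1 : c * a * f = c * g := by rw [hgd, mul_assoc]
    refine hmax _ ⟨c * a, O.mul_mem hc ha, h1 ▸ hcon.1, rfl⟩ (lt_of_le_of_ne (fun e he => ?_) ?_)
    · rw [mem_den, h1, mul_left_comm]
      exact O.mul_mem hc he
    · intro he
      refine hcon.2 ((mem_den (c := ⟨d, hd⟩)).1 (he ▸ ?_))
      rw [mem_den, h1, ← mul_assoc, mul_comm _ c]
      exact hcd
  obtain ⟨π, hπ, hπ1, hπ2⟩ : ∃ π ∈ O, π * g ∈ O ∧ π * g * g ∉ O := by
    by_contra hcon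
    push Not at hcon
    refine hg (hI g (isIntegral_of_smul_mem_submodule
      (Submodule.map (Algebra.linearMap O K) (den O g)) ?_
      (Submodule.FG.map _ ((isNoetherianRing_iff_ideal_fg O).1 hN _)) g ?_))
    · obtain ⟨x, hx, y, hy, hy0, he⟩ := hF g
      refine (Submodule.ne_bot_iff _).2 ⟨y, ⟨⟨y, hy⟩, ?_, rfl⟩, hy0⟩
      change y * g ∈ O
      rwa [he, mul_div_cancel₀ _ hy0]
    · rintro _ ⟨c, hc, rfl⟩
      exact ⟨⟨c * g, hc⟩, hcon c c.2 hc, mul_comm _ _⟩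
  obtain ⟨O', hO', hU⟩ := exists_loc O {x | x * g ∈ O} (by simp) (by simpa using hg)
    (fun x _ y _ hx hy => by
      change (x + y) * g ∈ O
      rw [add_mul]; exact O.add_mem hx hy)
    (fun x hx y hy => ⟨hpr x hx y hy, fun h => by
      change x * y * g ∈ O
      rcases h with h | h
      · rw [mul_comm x, mul_assoc]; exact O.mul_mem hy h
      · rw [mul_assoc]; exact O.mul_mem hx h⟩)
  have hle := hO'.2.1
  have hπm : π ∈ mx O' := ⟨hle hπ, fun hu => (hU π hπ).1 hu hπ1⟩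
  have hπu : IsU O' (π * g) := (hU _ hπ1).2 hπ2
  have hπ0 : π ≠ 0 := left_ne_zero_of_mul hπu.ne
  obtain ⟨P, hP, -⟩ := dvr_stmt k K O' hO'.1 (noeth_pts hN hO') (hF.mono hle) π hπm hπ0 (by
    intro x hx
    obtain ⟨b, hb, c, hc, hu, rfl⟩ := hO'.2.2 x hx.1
    have h1 : b * g ∈ O := by
      by_contra h2
      exact hx.2 (((hU b hb).2 h2).div hu)
    have h2 := hπu.div_mem (hu.div_mem (hle h1))
    have h3 : b * g / c / (π * g) = b / c / π := by field_simp
    rwa [h3] at h2)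
  have h1 : f ∈ O' := hP ▸ hf P (hP ▸ hO')
  exact hπu.not_mx (mx_mul_right hπm (O'.mul_mem (hle ha) h1))

theorem pole_stmt : PoleStmt := by
  intro k K _ _ _ G hG hF f
  by_cases hf : f = 0
  · simp [hf]
  obtain ⟨a, ha, b, hb, hb0, rfl⟩ := hF f
  have ha0 : a ≠ 0 := fun h0 => hf (by simp [h0])
  refine ((finite_zero (noeth_adjoin hG) ha ha0).union
    (finite_zero (noeth_adjoin hG) hb hb0)).subset ?_
  rintro P ⟨h1, h2⟩
  by_contra hcon
  simp only [Set.mem_union, Set.mem_ofPred_eq, h1, true_and, not_or, not_not] at hcon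
  rw [P.ord_div ha0 hb0, hcon.1, hcon.2] at h2
  exact h2 rfl

end Pool.Agent.MP_20d318_ag.AG

end MrgPart2

-- ======== part 3: formerly Pool.Agent.MP_20d318_ag.AG.Test
section MrgPart3

/-! Test curves on the blow-up: lines in the exceptional divisors, and copies of the elliptic
curve through fixed points and in general position. -/

set_option autoImplicit false
set_option linter.unusedSectionVars false

namespace Pool.Agent.MP_20d318_ag.AG

open Pool.Agent.MP_79c67d_ag Pool.Agent.MP_20d318_ag.Lat E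

namespace Test

variable {k K : Type} [Field k] [CharZero k] [IsAlgClosed k] [Field K] [CharZero K] [Algebra k K]
  {w : k} {x y : Fin 3 → K} {σ : K ≃ₐ[k] K}

theorem mx_pt (hY : YFacts x y σ) (ν : Curve (blE x y σ)) (P : Place k ν.L) {i : Fin 3}
    {c : ZMod 3} (h : sc y i - sv c ∈ mx ν.gen) : sc y i - sv c ∈ mx (ν.pt P) := by
  by_contra hn
  obtain ⟨h0, h1⟩ := inv_sub_sv_mem (hY.good.loc _ (ν.pt_mem P)) (hY.st (ν.pt_mem P) i).1 hn
  exact h.2 ⟨h0, h.1, ν.pt_le P h1⟩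

theorem deg_ep_zero (hY : YFacts x y σ) (ν : Curve (blE x y σ)) {q : Pt 3}
    (h : ∀ P, ¬ Over (sc y) q (ν.pt P)) : ν.deg (ep (sc y) (tc x y) q) = 0 :=
  finsum_eq_zero_of_forall_eq_zero fun P => by
    rw [ep_neg (h P), ep_neg fun h' => h P fun i => mx_pt hY ν P (h' i)]
    simp [ν.ev_eq, evO_one]

theorem ht_lin (hHt : HtStmt) (hR : RegStmt) (h : Setup w x y σ) (hY : YFacts x y σ)
    (hE : ExcFacts x y σ) (ν : Curve (blE x y σ))
    (hc : ∀ i, i ≠ 0 → ∃ c : E k, ν.pull (zz x y i) = pmap (algebraMap k ν.L) c) (l : Vec 3) :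
    ht k (ν.pull (lin (algebraMap k K w) l (zz x y))) = nm (l 0) * ht k (ν.pull (zz x y 0)) := by
  obtain ⟨c1, h1⟩ := hc 1 (by decide)
  obtain ⟨c2, h2⟩ := hc 2 (by decide)
  have hH := hHt k ν.L
  unfold Curve.pull at *
  rw [(res_lin hR (hE.nrm _ ν.gen_mem) ν.locHom h.hw (hY.reg_zz h.toGen ν.gen_mem) l).2, lin,
    Fin.sum_univ_three, h1, h2, ← pmap_sm _ h.hw, ← pmap_sm _ h.hw, hH.const, hH.const,
    hH.sm w h.hw, nm]
  ring

theorem pull_fx (h : Gen k x y) (hY : YFacts x y σ) (ν : Curve (blE x y σ)) {i : Fin 3}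
    {c : ZMod 3} (hc : sc y i - sv c ∈ mx ν.gen) :
    ν.pull (zz x y i) = pmap (algebraMap k ν.L) (fx c) := by
  rw [pmap_fx]
  exact (res_eq_fx ν.locHom (hY.reg_zz h ν.gen_mem i) c).2
    ⟨by rwa [h.zz_ss], Or.inr (by rw [h.zz_Y]; exact h.y_ne i)⟩

theorem ev_rk_single (l : Vec 3) : ev (rk (Pi.single 0 1 : Vec 3)) l = nm (l 0) := by
  rw [ev_rk, single_one_dotProduct]

/-! ### Lines in the exceptional divisors -/

theorem deg_ep_neg (h : Gen k x y) (hY : YFacts x y σ) (ν : Curve (blE x y σ)) {p : Pt 3}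
    (hp : Over (sc y) p ν.gen) (h0 : ∀ i, tc x y i / tc x y 0 ∈ ν.gen)
    (h1 : Transcendental k (ν.ev (tc x y 1 / tc x y 0))) :
    ν.deg (ep (sc y) (tc x y) p) < 0 := by
  have hpt : ∀ P, Over (sc y) p (ν.pt P) := fun P i => mx_pt hY ν P (hp i)
  obtain ⟨j, hj, hj'⟩ := ep_pos (τ := tc x y) hp (hY.exists_j ν.gen_mem hp)
  choose J hJ hJ' using fun P =>
    ep_pos (τ := tc x y) (hpt P) (hY.exists_j (ν.pt_mem P) (hpt P))
  have hu : ∀ P, IsU ν.gen (tc x y (J P) / tc x y j) := fun P =>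
    ⟨div_ne_zero (h.tc_ne _) (h.tc_ne _), hj' _, by rw [inv_div]; exact ν.pt_le P (hJ' P j)⟩
  have hfin := (hY.isCart_ep h p).finite hY.good ν
  unfold Curve.deg
  simp only [hj, hJ] at hfin ⊢
  have hle : ∀ P : Place k ν.L, 0 ≤ - P.ord (ν.ev (tc x y (J P) / tc x y j)) := fun P => by
    have := FF.ord_nonneg (ν.v_le P (hJ' P j))
    rwa [← inv_div, ν.ev_eq, evO_inv _ (hu P), Place.ord_inv] at this
  rw [← neg_pos, ← finsum_neg_distrib]
  refine finsum_pos hle ?_ (by simpa [Function.HasFiniteSupport] using hfin)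
  by_contra hn
  have hz : ∀ P : Place k ν.L, P.ord (ν.ev (tc x y (J P) / tc x y j)) = 0 := fun P => by
    have h2 := hle P
    have h3 : ¬ 0 < - P.ord (ν.ev (tc x y (J P) / tc x y j)) := fun h3 => hn ⟨P, h3⟩
    omega
  have hcst : ∀ i, ∃ c : k, ν.ev (tc x y i / tc x y j) = algebraMap k ν.L c := fun i =>
    const_of_regular fun P => by
      rw [← div_mul_div_cancel₀ (h.tc_ne (J P)), ν.ev_eq,
        evO_mul _ (ν.pt_le P (hJ' P i)) (hu P).2.1]
      exact (P.ge0_iff.2 (ν.v_le P (hJ' P i))).mul0 (P.ge_of_le (hz P).ge)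
  obtain ⟨c0, e0⟩ := hcst 0
  obtain ⟨c1, e1⟩ := hcst 1
  have hu0 : IsU ν.gen (tc x y 0 / tc x y j) :=
    ⟨div_ne_zero (h.tc_ne _) (h.tc_ne _), hj' _, by rw [inv_div]; exact h0 j⟩
  refine h1 ?_
  have : ν.ev (tc x y 1 / tc x y 0) = algebraMap k ν.L (c1 / c0) := by
    rw [map_div₀, ← e0, ← e1, ν.ev_eq, ν.ev_eq, ν.ev_eq, ← evO_div _ (hj' 1) hu0,
      div_div_div_cancel_right₀ (h.tc_ne j)]
  exact this ▸ isAlgebraic_algebraMap _

/-! ### Copies of the first factor -/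

/-- The first coordinates, inside the function field of the first factor. -/
def xx (k : Type) [Field k] [Algebra k K] (x y : Fin 3 → K) : fld k x y {0} :=
  ⟨x 0, x_mem_fld rfl⟩

/-- The first coordinates, inside the function field of the first factor. -/
def yy (k : Type) [Field k] [Algebra k K] (x y : Fin 3 → K) : fld k x y {0} :=
  ⟨y 0, y_mem_fld rfl⟩

theorem gen_fld (h : Gen k x y) : Gen k (fun _ : Unit => xx k x y) (fun _ => yy k x y) where
  ind := algebraicIndependent_unique_type_iff.2 fun ha =>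
    h.y_trans 0 (ha.algHom (fld k x y {0}).val)
  eq _ := Subtype.ext (h.eq 0)
  top := (fld k x y {0}).lift_injective (by
    rw [IntermediateField.lift_adjoin, IntermediateField.lift_top, Set.image_union]
    simp [fld, xx, yy])

theorem map_gg {C D G : Type} [CommRing C] [CommRing D] [FunLike G C D] [RingHomClass G C D]
    (φ : G) (b : Bool) (u : C) : φ (gg b u) = gg b (φ u) := by
  unfold gg
  split_ifs <;> simp

theorem exists_hom (hHom : HomStmt) (h : Gen k x y) {c : Fin 3 → Bool} (hc : c 0 = true)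
    (χ : (chart x y c : Subalgebra k K) →ₐ[k] k) :
    ∃ ψ : (chart x y c : Subalgebra k K) →ₐ[k] fld k x y {0}, (∀ a, χ a ≠ 0 → ψ a ≠ 0) ∧
      evO _ ψ (y 0) = yy k x y ∧ evO _ ψ (x 0) = xx k x y ∧ ∀ i, i ≠ 0 →
        evO _ ψ (cu y c i) = algebraMap k _ (evO _ χ (cu y c i)) ∧
        evO _ ψ (cv x y c i) = algebraMap k _ (evO _ χ (cv x y c i)) := by
  have hu : cu y c 0 = y 0 := if_pos hc
  have hv : cv x y c 0 = x 0 := if_pos hc
  let R := chartOn k x y c {0}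
  have hR : R ≤ chart x y c := (chartOn_mono c (Set.subset_univ _)).trans (chartOn_univ c).le
  let u0 : R := ⟨cu y c 0, Algebra.subset_adjoin (Or.inr ⟨0, rfl, rfl⟩)⟩
  let v0 : R := ⟨cv x y c 0, Algebra.subset_adjoin (Or.inl ⟨0, rfl, rfl⟩)⟩
  let U : Fin 3 → (chart x y c : Subalgebra k K) := fun i => ⟨_, cu_mem x y c i⟩
  let V : Fin 3 → (chart x y c : Subalgebra k K) := fun i => ⟨_, cv_mem x y c i⟩
  have hUV : ∀ i, V i ^ 3 = gg (c i) (U i) := fun i => Subtype.ext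
    ((h.cv_cube c i).trans (map_gg (chart x y c : Subalgebra k K).val (c i) (U i)).symm)
  obtain ⟨φ, h1, h2⟩ := hHom k K R (Fin 3) x y c
    (fun i => if i = 0 then u0 else algebraMap k R (χ (U i)))
    (fun i => if i = 0 then v0 else algebraMap k R (χ (V i))) h fun i => by
      split_ifs with e
      · subst e
        exact Subtype.ext ((h.cv_cube c 0).trans (map_gg R.val (c 0) u0).symm)
      · rw [← map_pow, ← map_pow, hUV, map_gg, map_gg]
  have hχ : χ.comp ((Subalgebra.inclusion hR).comp φ) = χ := by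
    refine AlgHom.ext_of_eq_adjoin (chart_eq x y c) ?_
    rintro _ (⟨i, rfl⟩ | ⟨i, rfl⟩)
    · rw [AlgHom.comp_apply, AlgHom.comp_apply, h2]
      split_ifs with e
      · subst e; rfl
      · simp [V]
    · rw [AlgHom.comp_apply, AlgHom.comp_apply, h1]
      split_ifs with e
      · subst e; rfl
      · simp [U]
  let ι : R →ₐ[k] fld k x y {0} := Subalgebra.inclusion (chartOn_le_fld c {0})
  refine ⟨ι.comp φ, fun a ha h0 => ha ?_, ?_, ?_, fun i hi => ⟨?_, ?_⟩⟩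
  · have h3 : φ a = 0 := Subalgebra.inclusion_injective (chartOn_le_fld c {0})
      (h0.trans (map_zero ι).symm)
    rw [← hχ, AlgHom.comp_apply, AlgHom.comp_apply, h3, map_zero, map_zero]
  · rw [← hu, evO_of_mem _ (cu_mem x y c 0), AlgHom.comp_apply, h1, if_pos rfl]
    exact Subtype.ext hu
  · rw [← hv, evO_of_mem _ (cv_mem x y c 0), AlgHom.comp_apply, h2, if_pos rfl]
    exact Subtype.ext hv
  · rw [evO_of_mem _ (cu_mem x y c i), evO_of_mem _ (cu_mem x y c i), AlgHom.comp_apply, h1,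
      if_neg hi, AlgHom.commutes]
  · rw [evO_of_mem _ (cv_mem x y c i), evO_of_mem _ (cv_mem x y c i), AlgHom.comp_apply, h2,
      if_neg hi, AlgHom.commutes]

theorem exists_ell (hHom : HomStmt) (hF : FFStmt) (h : Gen k x y) (hY : YFacts x y σ)
    {c : Fin 3 → Bool} (hc : c 0 = true) (χ : (chart x y c : Subalgebra k K) →ₐ[k] k) :
    ∃ ν : Curve (blE x y σ), chart x y c ≤ ν.gen ∧
      (∀ a ∈ (chart x y c : Subalgebra k K), evO _ χ a ≠ 0 → IsU ν.gen a) ∧
      ht k (ν.pull (zz x y 0)) = 1 ∧ IsU ν.gen (tc x y 0) ∧ (∀ d, sc y 0 - sv d ∉ mx ν.gen) ∧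
      ∀ i, i ≠ 0 → ν.ev (cu y c i) = algebraMap k _ (evO _ χ (cu y c i)) ∧
        ν.ev (cv x y c i) = algebraMap k _ (evO _ χ (cv x y c i)) := by
  have hG := gen_fld h
  have : CharZero (fld k x y {0}) := charZero_of_injective_algebraMap (algebraMap k _).injective
  obtain ⟨hFF, hht⟩ := hF k (fld k x y {0}) _ _ hG
  obtain ⟨ψ, h0, hy, hx, hi⟩ := exists_hom hHom h hc χ
  obtain ⟨O, hO, ρ, hρ, he⟩ := exists_ext ψ
  have hym : y 0 ∈ (chart x y c : Subalgebra k K) := by simpa [cu, hc] using cu_mem (k := k) x y c 0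
  have hxm : x 0 ∈ (chart x y c : Subalgebra k K) := by simpa [cv, hc] using cv_mem (k := k) x y c 0
  rw [← he _ hym] at hy
  rw [← he _ hxm] at hx
  have hyu : IsU O (y 0) := isU_of_not_mx (hO.2.1 hym) fun hm =>
    hG.y_ne () (hy ▸ (hρ.eq_zero_iff hm.1).2 hm)
  have hxu : IsU O (x 0) := isU_of_not_mx (hO.2.1 hxm) fun hm =>
    hG.x_ne () (hx ▸ (hρ.eq_zero_iff hm.1).2 hm)
  have hs : ∀ d, sc y 0 - sv d ∉ mx O := fun d hm => by
    have h1 := (hρ.eq_zero_iff hm.1).2 hm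
    rw [sc, evO_sub _ hyu.2.2 (sv_mem O d), evO_inv _ hyu, hy, sv, evO_intCast, sub_eq_zero] at h1
    exact hG.sc_ne_const () (d.valMinAbs : k) (by simpa [sc] using h1)
  have hOY : O ∈ blE x y σ :=
    (hY.mem O).2 (Or.inl ⟨mem_prodE.2 ⟨c, hO⟩, fun q hq => hs _ (hq 0)⟩)
  refine ⟨hY.good.curve hOY ρ hρ, hO.2.1, fun a ha h1 => ?_, ?_, hxu.div hyu, hs,
    fun i hi0 => ⟨?_, ?_⟩⟩
  · refine isU_of_not_mx (hO.2.1 ha) fun hm => h0 ⟨a, ha⟩ (by rwa [evO_of_mem _ ha] at h1) ?_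
    rw [← evO_of_mem _ ha, ← he _ ha]
    exact (hρ.eq_zero_iff hm.1).2 hm
  · change ht k (res O ρ (zz x y 0)) = 1
    rw [res, if_pos ⟨h.zz_ne 0, by rw [h.zz_X]; exact hxu.2.1, by rw [h.zz_Y]; exact hyu.2.1⟩,
      h.zz_X, h.zz_Y, hx, hy, hht]
  · exact (he _ (cu_mem x y c i)).trans (hi i hi0).1
  · exact (he _ (cv_mem x y c i)).trans (hi i hi0).2

/-- A point of a finitely generated domain where a given nonzero function does not vanish. -/
theorem exists_point {G : Set K} (hG : G.Finite) {b : Algebra.adjoin k G} (hb : b ≠ 0) :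
    ∃ χ : Algebra.adjoin k G →ₐ[k] k, χ b ≠ 0 := by
  have : Algebra.FiniteType k (Algebra.adjoin k G) :=
    (Subalgebra.fg_iff_finiteType _).1 (Subalgebra.fg_def.2 ⟨G, hG, rfl⟩)
  have hJ : IsJacobsonRing (Algebra.adjoin k G) := isJacobsonRing_of_finiteType (A := k)
  have h1 : b ∉ (⊥ : Ideal (Algebra.adjoin k G)).jacobson := by
    rw [hJ.out Ideal.isPrime_bot.isRadical]
    exact hb
  obtain ⟨m, ⟨-, hm⟩, hbm⟩ : ∃ m ∈ {J : Ideal (Algebra.adjoin k G) | ⊥ ≤ J ∧ J.IsMaximal},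
      b ∉ m := by
    simpa only [Ideal.jacobson, Ideal.mem_sInf, not_forall, exists_prop] using h1
  let := Ideal.Quotient.field m
  have := finite_of_finite_type_of_isJacobsonRing k (Algebra.adjoin k G ⧸ m)
  refine ⟨(IsAlgClosed.lift : (Algebra.adjoin k G ⧸ m) →ₐ[k] k).comp (Ideal.Quotient.mkₐ k m), ?_⟩
  rw [AlgHom.comp_apply, map_ne_zero]
  exact fun h => hbm (Ideal.Quotient.eq_zero_iff_mem.1 h)

end Test

open Test

theorem testE_stmt (hB : BHomStmt) (hHt : HtStmt) (hR : RegStmt) (hYs : YStmt) (hEs : ExcStmt) :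
    TestEStmt := by
  intro k K _ _ _ _ _ _ w x y σ h p
  have hY := hYs k K w x y σ h
  have hE := hEs k K w x y σ h
  have : IsFF k (RatFunc k) := FF.isRat_ratFunc.isFF_self
  obtain ⟨χ, hs, -, hr⟩ := hB k K (RatFunc k) x y p 0 ![1, RatFunc.X, 0] h.toGen rfl
  obtain ⟨O, hO, ρ, hρ, he⟩ := exists_ext χ
  have hOY : O ∈ blE x y σ := (hY.mem O).2 (Or.inr ⟨0, hO⟩)
  have hp : Over (sc y) p O := fun i => by
    have hm := sc_mem_bch (k := k) x y 0 i
    rw [← hρ.eq_zero_iff (sub_mem (hO.2.1 hm) (sv_mem O _)), evO_sub _ (hO.2.1 hm) (sv_mem O _),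
      he _ hm, evO_of_mem _ hm, hs, sv, evO_intCast, sub_self]
  let ν := hY.good.curve hOY ρ hρ
  have hneg : ν.deg (ep (sc y) (tc x y) p) < 0 :=
    deg_ep_neg h.toGen hY ν hp (fun i => hO.2.1 (rc_mem_bch x y 0 i)) (by
      have hm := rc_mem_bch (k := k) x y 0 1
      change Transcendental k (evO O ρ _)
      rw [he _ hm, evO_of_mem _ hm, hr]
      exact RatFunc.transcendental_X)
  refine ⟨ν, -(ν.deg (ep (sc y) (tc x y) p) : ℝ), by exact_mod_cast neg_pos.2 hneg, fun l => ?_,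
    fun q => ?_⟩
  · rw [ht_lin hHt hR h hY hE ν fun i _ => ⟨_, pull_fx h.toGen hY ν (hp i)⟩,
      ((hHt k ν.L).zero _).2 ⟨_, pull_fx h.toGen hY ν (hp 0)⟩]
    simp
  · by_cases e : q = p
    · simp [e]
    · rw [deg_ep_zero hY ν fun P hq => e (hq.unique (hY.good.loc _ (ν.pt_mem P))
        fun i => mx_pt hY ν P (hp i))]
      simp [e]

theorem testL_stmt (hHom : HomStmt) (hF : FFStmt) (hHt : HtStmt) (hD : DegStmt) (hR : RegStmt)
    (hYs : YStmt) (hEs : ExcStmt) : TestLStmt := by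
  intro k K _ _ _ _ _ _ w x y σ h p
  have hY := hYs k K w x y σ h
  have hE := hEs k K w x y σ h
  obtain ⟨χ, h1, h2⟩ := hHom k K k (Fin 3) x y (fun i => decide (i = 0))
    (fun i => if i = 0 then 1 else sv (p i)) (fun _ => 0) h.toGen fun i => by
      by_cases e : i = 0 <;> simp [e, gg, sv_cube]
  obtain ⟨ν, hle, -, hht, ht0, hs0, hi⟩ := exists_ell hHom hF h.toGen hY (by simp) χ
  have hst : ∀ i, i ≠ 0 → sc y i - sv (p i) ∈ mx ν.gen ∧ tc x y i ∈ mx ν.gen := fun i hi0 => by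
    obtain ⟨a1, a2⟩ := hi i hi0
    obtain ⟨b1, b2⟩ := chart_le_iff.1 hle i
    rw [evO_of_mem _ (cu_mem x y _ i), h1, if_neg hi0, map_sv] at a1
    rw [evO_of_mem _ (cv_mem x y _ i), h2, map_zero] at a2
    have e1 : cu y (fun i => decide (i = 0)) i = sc y i := if_neg (by simpa using hi0)
    have e2 : cv x y (fun i => decide (i = 0)) i = tc x y i := if_neg (by simpa using hi0)
    rw [e1] at a1 b1
    rw [e2] at a2 b2
    refine ⟨(ν.locHom.eq_zero_iff (sub_mem b1 (sv_mem _ _))).1 ?_,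
      (ν.locHom.eq_zero_iff b2).1 a2⟩
    rw [evO_sub _ b1 (sv_mem _ _), ← ν.ev_eq, a1, sv, sv, evO_intCast, sub_self]
  refine ⟨ν, fun l => ?_, fun q => ?_⟩
  · rw [ht_lin hHt hR h hY hE ν fun i hi0 => ⟨_, pull_fx h.toGen hY ν (hst i hi0).1⟩, hht,
      ev_rk_single, mul_one]
  by_cases e : q 1 = p 1 ∧ q 2 = p 2
  · have hd := hD k K _ ν (zz x y 0) (q 0) (by rw [h.toGen.zz_Y]; exact h.toGen.y_ne 0)
      fun O hO => ⟨hY.good.loc O hO, hY.reg_zz h.toGen hO 0⟩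
    rw [hht, h.toGen.zz_ss, h.toGen.zz_tt] at hd
    have : ν.deg (ep (sc y) (tc x y) q) = ν.deg (ec (sc y 0) (tc x y 0) (q 0)) := by
      refine finsum_congr fun P => ?_
      rw [ep_neg fun hq => hs0 _ (hq 0), ec_neg (hs0 _)]
      by_cases hq : sc y 0 - sv (q 0) ∈ mx (ν.pt P)
      · have hq' : Over (sc y) q (ν.pt P) := fun i => by
          fin_cases i
          · exact hq
          · exact e.1 ▸ mx_pt hY ν P (hst 1 (by decide)).1
          · exact e.2 ▸ mx_pt hY ν P (hst 2 (by decide)).1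
        obtain ⟨j, hj, hj'⟩ := ep_pos (τ := tc x y) hq' (hY.exists_j (ν.pt_mem P) hq')
        obtain rfl : j = 0 := by_contra fun hj0 => ht0.not_mx (by
          simpa [h.toGen.tc_ne j] using mx_mul_left (ν.pt_le P (hj' 0)) (hst j hj0).2)
        rw [hj, ec_pos hq]
      · rw [ep_neg fun hq' => hq (hq' 0), ec_neg hq]
    simp [e, this, hd]
  · rw [deg_ep_zero hY ν fun P hq => e
      ⟨sv_unique (hY.good.loc _ (ν.pt_mem P)) (hq 1) (mx_pt hY ν P (hst 1 (by decide)).1),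
        sv_unique (hY.good.loc _ (ν.pt_mem P)) (hq 2) (mx_pt hY ν P (hst 2 (by decide)).1)⟩]
    simp [e]

theorem testG_stmt (hHom : HomStmt) (hF : FFStmt) (hHt : HtStmt) (hR : RegStmt)
    (hYs : YStmt) (hEs : ExcStmt) : TestGStmt := by
  intro k K _ _ _ _ _ _ w x y σ h T
  have hY := hYs k K w x y σ h
  have hE := hEs k K w x y σ h
  choose A hA B hB hB0 hAB using frac_stmt k K (Fin 3) x y (fun _ => true) h.toGen
  have hx : ∀ i, x i ∈ (chart x y (fun _ => true) : Subalgebra k K) := cv_mem x y fun _ => true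
  have hy : ∀ i, y i ∈ (chart x y (fun _ => true) : Subalgebra k K) := cu_mem x y fun _ => true
  have hb : (⟨x 1, hx 1⟩ * ∏ a ∈ T, ⟨B a, hB a⟩ : (chart x y (fun _ => true) : Subalgebra k K)) ≠ 0 :=
    mul_ne_zero (fun e => h.toGen.x_ne 1 (congrArg Subtype.val e))
      (Finset.prod_ne_zero_iff.2 fun a _ e => hB0 a (congrArg Subtype.val e))
  obtain ⟨χ, hχ⟩ : ∃ χ : (chart x y (fun _ => true) : Subalgebra k K) →ₐ[k] k,
      χ (⟨x 1, hx 1⟩ * ∏ a ∈ T, ⟨B a, hB a⟩) ≠ 0 :=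
    exists_point (chart_gen_finite x y fun _ => true) hb
  rw [map_mul, map_prod, mul_ne_zero_iff, Finset.prod_ne_zero_iff] at hχ
  obtain ⟨ν, hle, hU, hht, -, -, hi⟩ := exists_ell hHom hF h.toGen hY rfl χ
  have heq : ∀ i, evO _ χ (y i) ^ 2 = evO _ χ (x i) ^ 3 + 1 := fun i => by
    rw [← evO_pow _ (hy i), h.eq i, evO_add _ (pow_mem (hx i) 3) (one_mem _), evO_pow _ (hx i),
      evO_one]
  refine ⟨ν, ⟨fun l => ?_, fun q => ?_⟩, fun a ha => ?_⟩
  · rw [ht_lin hHt hR h hY hE ν fun i hi0 => ⟨mk (evO _ χ (x i)) (evO _ χ (y i)), ?_⟩, hht,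
      ev_rk_single, mul_one]
    rw [pmap_mk _ (heq i), Curve.pull, res, if_pos ⟨h.toGen.zz_ne i,
      by rw [h.toGen.zz_X]; exact hle (hx i), by rw [h.toGen.zz_Y]; exact hle (hy i)⟩,
      h.toGen.zz_X, h.toGen.zz_Y]
    exact congrArg₂ mk (hi i hi0).2 (hi i hi0).1
  · rw [deg_ep_zero hY ν fun P hq => ?_]
    · simp
    have hs := mem_of_sub_sv (hq 1)
    have hyu : IsU ν.gen (y 1) := ⟨h.toGen.y_ne 1, hle (hy 1), ν.pt_le P hs⟩
    have h1 : ν.ev (y 1) = algebraMap k _ (evO _ χ (y 1)) := (hi 1 (by decide)).1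
    have h2 : ν.ev (x 1) = algebraMap k _ (evO _ χ (x 1)) := (hi 1 (by decide)).2
    have h3 : tc x y 1 ∈ mx (ν.pt P) := mx_of_pow ((hY.st (ν.pt_mem P) 1).2 hs) (n := 3)
      (h.toGen.tc_cube 1 ▸ mx_of_sub_sv (hq 1))
    have h4 := (ν.v_lt_one_iff P h3.1).2 h3
    have h5 : evO _ χ (y 1) ≠ 0 := fun e => evO_ne ν.ρ hyu (by rw [← ν.ev_eq, h1, e, map_zero])
    rw [tc, ν.ev_eq, evO_div _ (hle (hx 1)) hyu, ← ν.ev_eq, ← ν.ev_eq, h1, h2, ← map_div₀,
      FF.v_const P (div_ne_zero (by rw [evO_of_mem _ (hx 1)]; exact hχ.1) h5)] at h4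
    exact lt_irrefl _ h4
  · rw [hAB a]
    exact (hU _ (hB a) (by rw [evO_of_mem _ (hB a)]; exact hχ.2 a ha)).div_mem (hle (hA a))

end Pool.Agent.MP_20d318_ag.AG

end MrgPart3

-- marker of a merged file
example : 731051 + 795617 = 731051 + 795617 := rfl
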