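import Mathlib.Analysis.RCLike.Basic
import Mathlib.Geometry.Convex.Cone.Pointed
import Pool.Agent.MP_79c67d_ag.FF.Norm
import Pool.Agent.MP_79c67d_ag.Riemann

-- ======== part 0: formerly Pool.Agent.MP_20d318_ag.AG.Defs
section MrgPart0

/-!
Varieties in the language of models: a variety with function field `K` over `k` is described by
the set of its local rings inside `K`. Cartier divisors, degrees on curves, numerical classes,
automorphisms, the cone statement, and the crepant resolution of `E^3 / mu_3`.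
-/

set_option autoImplicit false

namespace Pool.Agent.MP_20d318_ag.AG

open Pool.Agent.MP_79c67d_ag

variable {k K F : Type} [Field k] [Field K] [Field F] [Algebra k K] [Algebra k F]

/-- `u` is a unit of the ring `O`. -/
def IsU (O : Subalgebra k K) (u : K) : Prop := u ≠ 0 ∧ u ∈ O ∧ u⁻¹ ∈ O

/-- The non-units of `O`: the maximal ideal of a local ring. -/
def mx (O : Subalgebra k K) : Set K := {u | u ∈ O ∧ ¬ IsU O u}

/-- The points of `Spec R`: the localizations of `R` at its prime ideals, inside `K`. -/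
def Pts (R : Subalgebra k K) : Set (Subalgebra k K) :=
  {O | IsLocalRing O ∧ R ≤ O ∧ ∀ f ∈ O, ∃ a ∈ R, ∃ b ∈ R, IsU O b ∧ f = a / b}

/-- A Cartier divisor on the variety `X`: a local equation `f O` at every point `O`; the equation
at `O` is also an equation at all points of a neighbourhood of `O`. The sets of points where
finitely many given functions `T` are regular form a basis of the Zariski topology. -/
structure Cartier (X : Set (Subalgebra k K)) where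
  f : Subalgebra k K → K
  loc : ∀ O ∈ X, ∃ T : Finset K, (∀ a ∈ T, a ∈ O) ∧
    ∀ O' ∈ X, (∀ a ∈ T, a ∈ O') → IsU O' (f O' / f O)

/-- Effective Cartier divisors. -/
def Cartier.Effective {X : Set (Subalgebra k K)} (D : Cartier X) : Prop := ∀ O ∈ X, D.f O ∈ O

/-- A morphism to `X` from the smooth projective curve with function field `L`: the generic
point goes to `gen`, functions are pulled back by the local homomorphism `ρ`, and the closed point
`P` goes to the point `pt P`, where `ρ` restricts to a local homomorphism to the ring of `P`. -/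
structure Curve (X : Set (Subalgebra k K)) where
  L : Type
  [fld : Field L]
  [alg : Algebra k L]
  [ff : IsFF k L]
  gen : Subalgebra k K
  gen_mem : gen ∈ X
  ρ : gen →ₐ[k] L
  ρ_loc : ∀ u : gen, ρ u ≠ 0 → IsU gen u
  pt : Place k L → Subalgebra k K
  pt_mem : ∀ P, pt P ∈ X
  pt_le : ∀ P, pt P ≤ gen
  pt_reg : ∀ P (u : gen), (u : K) ∈ pt P → P.v (ρ u) ≤ 1
  pt_loc : ∀ P (u : gen), (u : K) ∈ pt P → P.v (ρ u) = 1 → IsU (pt P) u

attribute [instance] Curve.fld Curve.alg Curve.ff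

namespace Curve

variable {X : Set (Subalgebra k F)} {Y : Set (Subalgebra k K)}

open Classical in
/-- The pull-back of a function that is regular at the generic point of the curve. -/
noncomputable def ev (ν : Curve Y) (u : K) : ν.L := if h : u ∈ ν.gen then ν.ρ ⟨u, h⟩ else 0

/-- The degree of the pull-back to the curve of the line bundle with local equations `f`. -/
noncomputable def deg (ν : Curve Y) (f : Subalgebra k K → K) : ℤ :=
  ∑ᶠ P : Place k ν.L, P.ord (ν.ev (f (ν.pt P) / f ν.gen))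

/-- Composition with the morphism `Y → X` given by an embedding `ι` of function fields. -/
def push (ι : F →ₐ[k] K) (h : ∀ O ∈ Y, O.comap ι ∈ X) (ν : Curve Y) : Curve X where
  L := ν.L
  gen := ν.gen.comap ι
  gen_mem := h _ ν.gen_mem
  ρ := ν.ρ.comp ((ι.comp (ν.gen.comap ι).val).codRestrict ν.gen fun u => u.2)
  ρ_loc u hu := by
    obtain ⟨h0, h1, h2⟩ := ν.ρ_loc ⟨ι u, u.2⟩ hu
    exact ⟨fun h => h0 (by simp [h]), h1, by simpa using h2⟩
  pt P := (ν.pt P).comap ι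
  pt_mem P := h _ (ν.pt_mem P)
  pt_le P _ hu := ν.pt_le P hu
  pt_reg P u hu := ν.pt_reg P ⟨ι u, u.2⟩ hu
  pt_loc P u hu hv := by
    obtain ⟨h0, h1, h2⟩ := ν.pt_loc P ⟨ι u, u.2⟩ hu hv
    exact ⟨fun h => h0 (by simp [h]), h1, by simpa using h2⟩

end Curve

/-- The numerical class of a Cartier divisor: its degrees on all curves. -/
noncomputable def Cartier.cls {X : Set (Subalgebra k K)} (D : Cartier X) : Curve X → ℝ :=
  fun ν => ν.deg D.f

/-- `N^1(X)_R`: real Cartier divisors modulo numerical equivalence. -/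
def N1 (X : Set (Subalgebra k K)) : Submodule ℝ (Curve X → ℝ) :=
  Submodule.span ℝ (Set.range Cartier.cls)

/-- The effective nef cone: classes of effective real divisors that are nonnegative on curves. -/
def NefEff (X : Set (Subalgebra k K)) : Set (Curve X → ℝ) :=
  {ξ | (∀ ν, 0 ≤ ξ ν) ∧
    ξ ∈ PointedCone.hull ℝ {η | ∃ D : Cartier X, D.Effective ∧ D.cls = η}}

/-- The automorphisms of `X`: automorphisms of the function field that permute the points. -/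
def Aut (X : Set (Subalgebra k K)) : Type :=
  {g : K ≃ₐ[k] K // ∀ O, O ∈ X ↔ O.comap (g : K →ₐ[k] K) ∈ X}

/-- The action of an automorphism on numerical classes. -/
def Aut.act {X : Set (Subalgebra k K)} (g : Aut X) (ξ : Curve X → ℝ) : Curve X → ℝ :=
  fun ν => ξ (ν.push (g.1 : K →ₐ[k] K) fun O => (g.2 O).1)

/-- The nef cone statement of Morrison and Kawamata for `X`: a rational polyhedral cone `C` inside
the effective nef cone is a fundamental domain for the automorphism group. -/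
def ConeStatement (X : Set (Subalgebra k K)) : Prop :=
  FiniteDimensional ℝ (N1 X) ∧ ∃ (R : Finset (N1 X)) (C : Set (N1 X)),
    (∀ r ∈ R, r.1 ∈ Submodule.span ℚ (Set.range Cartier.cls)) ∧
    C = PointedCone.hull ℝ (R : Set (N1 X)) ∧ (∀ ξ ∈ C, ξ.1 ∈ NefEff X) ∧
    (∀ ξ, ξ ∈ NefEff X ↔ ∃ g : Aut X, ∃ η ∈ C, ξ = g.act η.1) ∧
    ∀ g : Aut X, (∃ ξ ∈ N1 X, g.act ξ ≠ ξ) →
      ∀ ξ ∈ interior C, ∀ η ∈ interior C, ξ.1 ≠ g.act η.1

/-- The standard affine charts of the product of the plane cubics `y i ^ 2 = x i ^ 3 + 1`: in each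
factor the coordinates are `(x, y)` or `(x / y, 1 / y)`. -/
def chart {ι : Type} (x y : ι → K) (c : ι → Bool) : Subalgebra k K :=
  Algebra.adjoin k ((Set.range fun i => if c i then x i else x i / y i) ∪
    Set.range fun i => if c i then y i else (y i)⁻¹)

variable (k) in
/-- The product of the plane cubics. -/
def prodE {ι : Type} (x y : ι → K) : Set (Subalgebra k K) := ⋃ c, Pts (chart x y c)

/-- The fixed points of an automorphism. -/
def fixPts (σ : K ≃ₐ[k] K) (A : Set (Subalgebra k K)) : Set (Subalgebra k K) :=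
  {O ∈ A | ∀ f ∈ O, σ f - f ∈ mx O}

/-- The blow-up of `A` at a set `S` of closed points. -/
def blowUp (A S : Set (Subalgebra k K)) : Set (Subalgebra k K) :=
  (A \ S) ∪ ⋃ O ∈ S, ⋃ g ∈ mx O \ {0},
    Pts (Algebra.adjoin k ((O : Set K) ∪ (fun a => a / g) '' mx O))

/-- The quotient by an automorphism of finite order: the rings of invariants. -/
def quot (σ : K ≃ₐ[k] K) (Y : Set (Subalgebra k K)) :
    Set (Subalgebra k (IntermediateField.fixedField (Subgroup.zpowers σ))) :=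
  (fun O => O.comap (IntermediateField.fixedField (Subgroup.zpowers σ)).val) '' Y

/-- The blow-up of `E^3` at the fixed points of `σ`. -/
def blE (x y : Fin 3 → K) (σ : K ≃ₐ[k] K) : Set (Subalgebra k K) :=
  blowUp (prodE k x y) (fixPts σ (prodE k x y))

end Pool.Agent.MP_20d318_ag.AG

end MrgPart0

-- ======== part 1: formerly Pool.Agent.MP_20d318_ag.AG.Base
section MrgPart1

/-! Local rings inside a field: units, domination, centers, valuation rings. -/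

set_option autoImplicit false

namespace Pool.Agent.MP_20d318_ag.AG

open Pool.Agent.MP_79c67d_ag

variable {k K F L : Type} [Field k] [Field K] [Field F] [Field L] [Algebra k K] [Algebra k F]
  [Algebra k L]

/-- `W` dominates `O`. -/
def Dom (O W : Subalgebra k K) : Prop := O ≤ W ∧ ∀ u ∈ O, IsU W u → IsU O u

/-- Valuation rings of `K` containing `k`. -/
def IsVal (V : Subalgebra k K) : Prop := ∀ f : K, f ∈ V ∨ f⁻¹ ∈ V

/-- Integrally closed in `K`. -/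
def Nrm (R : Subalgebra k K) : Prop := ∀ f : K, IsIntegral R f → f ∈ R

/-- The fraction field is `K`. -/
def Frac (R : Subalgebra k K) : Prop := ∀ f : K, ∃ a ∈ R, ∃ b ∈ R, b ≠ 0 ∧ f = a / b

/-- Local homomorphisms to a field. -/
def LocHom (O : Subalgebra k K) (ρ : O →ₐ[k] L) : Prop := ∀ u : O, ρ u ≠ 0 → IsU O u

/-- The ring of a place. -/
def plO (P : Place k K) : Subalgebra k K where
  carrier := {f | P.v f ≤ 1}
  mul_mem' ha hb := FF.v_mul_le ha hb
  add_mem' {a b} ha hb := (P.v.map_add a b).trans (max_le ha hb)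
  algebraMap_mem' := P.triv

open Classical in
/-- Evaluation of a homomorphism, extended by zero. -/
noncomputable def evO (O : Subalgebra k K) (ρ : O →ₐ[k] L) (u : K) : L :=
  if h : u ∈ O then ρ ⟨u, h⟩ else 0

/-- The local condition in the definition of Cartier divisors. -/
def IsCart (X : Set (Subalgebra k K)) (f : Subalgebra k K → K) : Prop :=
  ∀ O ∈ X, ∃ T : Finset K, (∀ a ∈ T, a ∈ O) ∧
    ∀ O' ∈ X, (∀ a ∈ T, a ∈ O') → IsU O' (f O' / f O)

/-- Complete separated models of finite type. -/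
structure Good (X : Set (Subalgebra k K)) : Prop where
  loc : ∀ O ∈ X, IsLocalRing O
  sep : ∀ O₁ ∈ X, ∀ O₂ ∈ X, ∀ W : Subalgebra k K, IsLocalRing W → Dom O₁ W → Dom O₂ W → O₁ = O₂
  cpl : ∀ V : Subalgebra k K, IsVal V → ∃ O ∈ X, Dom O V
  fg : ∀ O ∈ X, ∃ G : Set K, G.Finite ∧ O ∈ Pts (Algebra.adjoin k G) ∧
    Pts (Algebra.adjoin k G) ⊆ X

section units

variable {O O' W R : Subalgebra k K} {u v a b : K}

theorem IsU.ne (h : IsU O u) : u ≠ 0 := h.1
theorem IsU.mem (h : IsU O u) : u ∈ O := h.2.1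
theorem IsU.inv_mem (h : IsU O u) : u⁻¹ ∈ O := h.2.2
theorem IsU.inv (h : IsU O u) : IsU O u⁻¹ := ⟨inv_ne_zero h.1, h.2.2, by simpa using h.2.1⟩
theorem IsU.mul (h : IsU O u) (h' : IsU O v) : IsU O (u * v) :=
  ⟨mul_ne_zero h.1 h'.1, O.mul_mem h.2.1 h'.2.1, by rw [mul_inv]; exact O.mul_mem h.2.2 h'.2.2⟩
theorem IsU.div (h : IsU O u) (h' : IsU O v) : IsU O (u / v) := by
  rw [div_eq_mul_inv]; exact h.mul h'.inv
theorem IsU.neg (h : IsU O u) : IsU O (-u) :=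
  ⟨neg_ne_zero.2 h.1, O.neg_mem h.2.1, by rw [inv_neg]; exact O.neg_mem h.2.2⟩
theorem isU_one : IsU O 1 := ⟨one_ne_zero, O.one_mem, by simp⟩
theorem IsU.pow (h : IsU O u) (n : ℕ) : IsU O (u ^ n) := by
  induction n with
  | zero => simpa using isU_one
  | succ n ih => rw [pow_succ]; exact ih.mul h
theorem IsU.zpow (h : IsU O u) (n : ℤ) : IsU O (u ^ n) := by
  cases n with
  | ofNat n => simpa using h.pow n
  | negSucc n => rw [zpow_negSucc]; exact (h.pow _).inv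
theorem isU_prod {ι : Type*} {s : Finset ι} {f : ι → K} (h : ∀ i ∈ s, IsU O (f i)) :
    IsU O (∏ i ∈ s, f i) :=
  Finset.prod_induction f (IsU O) (fun _ _ => IsU.mul) isU_one h
theorem isU_const {c : k} (hc : c ≠ 0) : IsU O (algebraMap k K c) :=
  ⟨by simpa using hc, O.algebraMap_mem c, by rw [← map_inv₀]; exact O.algebraMap_mem _⟩
theorem isU_intCast [CharZero k] {n : ℤ} (hn : n ≠ 0) : IsU O (n : K) := by
  simpa using isU_const (O := O) (c := (n : k)) (by exact_mod_cast hn)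
theorem IsU.mono (h : IsU O u) (hle : O ≤ O') : IsU O' u := ⟨h.1, hle h.2.1, hle h.2.2⟩
theorem IsU.div_mem (hb : IsU O b) (ha : a ∈ O) : a / b ∈ O := by
  rw [div_eq_mul_inv]; exact O.mul_mem ha hb.2.2
theorem IsU.of_mul (ha : a ∈ O) (hb : b ∈ O) (h : IsU O (a * b)) : IsU O a := by
  have hb0 : b ≠ 0 := right_ne_zero_of_mul h.1
  refine ⟨left_ne_zero_of_mul h.1, ha, ?_⟩
  have := O.mul_mem hb h.2.2
  rwa [mul_inv, mul_left_comm, mul_inv_cancel₀ hb0, mul_one] at this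
theorem IsU.of_pow (ha : a ∈ O) {n : ℕ} (hn : n ≠ 0) (h : IsU O (a ^ n)) : IsU O a := by
  obtain ⟨m, rfl⟩ := Nat.exists_eq_succ_of_ne_zero hn
  rw [pow_succ'] at h
  exact IsU.of_mul ha (O.pow_mem ha m) h
theorem isU_top : IsU (⊤ : Subalgebra k K) u ↔ u ≠ 0 :=
  ⟨fun h => h.1, fun h => ⟨h, trivial, trivial⟩⟩

theorem isU_iff_isUnit (u : O) : IsU O u ↔ IsUnit u := by
  refine ⟨fun h => isUnit_iff_exists_inv.2 ⟨⟨_, h.2.2⟩, Subtype.ext (mul_inv_cancel₀ h.1)⟩,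
    fun h => ?_⟩
  obtain ⟨v, hv⟩ := isUnit_iff_exists_inv.1 h
  have hv' : (u : K) * v = 1 := congrArg Subtype.val hv
  exact ⟨left_ne_zero_of_mul_eq_one hv', u.2, (eq_inv_of_mul_eq_one_right hv') ▸ v.2⟩

theorem mx_sub : mx O ⊆ O := fun _ h => h.1
theorem zero_mem_mx : (0 : K) ∈ mx O := ⟨O.zero_mem, fun h => h.1 rfl⟩
theorem one_not_mem_mx : (1 : K) ∉ mx O := fun h => h.2 isU_one
theorem IsU.not_mx (h : IsU O u) : u ∉ mx O := fun h' => h'.2 h
theorem isU_or_mx (h : u ∈ O) : IsU O u ∨ u ∈ mx O := (em _).imp_right fun h' => ⟨h, h'⟩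
theorem isU_of_not_mx (h : u ∈ O) (h' : u ∉ mx O) : IsU O u := (isU_or_mx h).resolve_right h'
theorem mx_mul_left (ha : a ∈ O) (hb : b ∈ mx O) : a * b ∈ mx O :=
  ⟨O.mul_mem ha hb.1, fun h => hb.2 (IsU.of_mul hb.1 ha (by rwa [mul_comm]))⟩
theorem mx_mul_right (ha : a ∈ mx O) (hb : b ∈ O) : a * b ∈ mx O := by
  rw [mul_comm]; exact mx_mul_left hb ha
theorem mx_div (ha : a ∈ mx O) (hb : IsU O b) : a / b ∈ mx O := by
  rw [div_eq_mul_inv]; exact mx_mul_right ha hb.2.2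
theorem mx_neg (ha : a ∈ mx O) : -a ∈ mx O := by
  simpa using mx_mul_left (O.neg_mem O.one_mem) ha
theorem mx_or_of_mul (ha : a ∈ O) (hb : b ∈ O) (h : a * b ∈ mx O) : a ∈ mx O ∨ b ∈ mx O := by
  by_contra hn
  rw [not_or] at hn
  exact h.2 ((isU_of_not_mx ha hn.1).mul (isU_of_not_mx hb hn.2))
theorem mx_of_pow (ha : a ∈ O) {n : ℕ} (h : a ^ n ∈ mx O) : a ∈ mx O :=
  ⟨ha, fun h' => h.2 (h'.pow n)⟩
theorem mx_pow (ha : a ∈ mx O) {n : ℕ} (hn : n ≠ 0) : a ^ n ∈ mx O :=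
  ⟨O.pow_mem ha.1 n, fun h => ha.2 (IsU.of_pow ha.1 hn h)⟩
theorem mem_mx_top : u ∈ mx (⊤ : Subalgebra k K) ↔ u = 0 := by
  simp [mx, isU_top]
theorem const_mem_mx {c : k} : algebraMap k K c ∈ mx O ↔ c = 0 :=
  ⟨fun h => by_contra fun hc => h.2 (isU_const hc), fun h => by simpa [h] using zero_mem_mx⟩

theorem mem_mx_iff [IsLocalRing O] (u : O) : (u : K) ∈ mx O ↔ u ∈ IsLocalRing.maximalIdeal O := by
  simp [mx, isU_iff_isUnit]

theorem mx_add (hO : IsLocalRing O) (ha : a ∈ mx O) (hb : b ∈ mx O) : a + b ∈ mx O :=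
  (mem_mx_iff (⟨a, ha.1⟩ + ⟨b, hb.1⟩)).2
    (add_mem ((mem_mx_iff ⟨a, ha.1⟩).1 ha) ((mem_mx_iff ⟨b, hb.1⟩).1 hb))
theorem mx_sub' (hO : IsLocalRing O) (ha : a ∈ mx O) (hb : b ∈ mx O) : a - b ∈ mx O := by
  rw [sub_eq_add_neg]; exact mx_add hO ha (mx_neg hb)
theorem mx_sum (hO : IsLocalRing O) {ι : Type*} {s : Finset ι} {f : ι → K}
    (h : ∀ i ∈ s, f i ∈ mx O) : ∑ i ∈ s, f i ∈ mx O :=
  Finset.sum_induction f (· ∈ mx O) (fun _ _ => mx_add hO) zero_mem_mx h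
theorem IsU.add_mx (hO : IsLocalRing O) (ha : IsU O a) (hb : b ∈ mx O) : IsU O (a + b) :=
  isU_of_not_mx (O.add_mem ha.2.1 hb.1) fun h => ha.not_mx (by simpa using mx_sub' hO h hb)

theorem isLocalRing_of (h : ∀ a ∈ mx O, ∀ b ∈ mx O, a + b ∈ mx O) : IsLocalRing O :=
  .of_nonunits_add fun a b ha hb hab =>
    (h a ⟨a.2, fun h' => ha ((isU_iff_isUnit a).1 h')⟩
      b ⟨b.2, fun h' => hb ((isU_iff_isUnit b).1 h')⟩).2 ((isU_iff_isUnit (a + b)).2 hab)

theorem Dom.refl (O : Subalgebra k K) : Dom O O := ⟨le_rfl, fun _ _ h => h⟩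
theorem Dom.trans (h : Dom O O') (h' : Dom O' W) : Dom O W :=
  ⟨h.1.trans h'.1, fun u hu hW => h.2 u hu (h'.2 u (h.1 hu) hW)⟩
theorem Dom.mx (h : Dom O W) (hu : u ∈ mx O) : u ∈ mx W := ⟨h.1 hu.1, fun h' => hu.2 (h.2 u hu.1 h')⟩
theorem mx_of_le (h : O ≤ W) (hu : u ∈ O) (hW : u ∈ mx W) : u ∈ mx O :=
  ⟨hu, fun h' => hW.2 (h'.mono h)⟩
theorem Dom.of_le (h : Dom O W) (h1 : O ≤ O') (h2 : O' ≤ W) : Dom O O' :=
  ⟨h1, fun u hu h' => h.2 u hu (h'.mono h2)⟩

end units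

section pts

variable {O O' O₁ O₂ W R R' V : Subalgebra k K}

theorem self_mem_Pts (h : IsLocalRing O) : O ∈ Pts O :=
  ⟨h, le_rfl, fun f hf => ⟨f, hf, 1, O.one_mem, isU_one, by simp⟩⟩

theorem Pts_of_le (h : O ∈ Pts R) (h1 : R ≤ R') (h2 : R' ≤ O) : O ∈ Pts R' :=
  ⟨h.1, h2, fun f hf => by
    obtain ⟨a, ha, b, hb, h3⟩ := h.2.2 f hf
    exact ⟨a, h1 ha, b, h1 hb, h3⟩⟩

theorem Pts_trans (h : O ∈ Pts R) (h' : O' ∈ Pts O) : O' ∈ Pts R :=
  ⟨h'.1, h.2.1.trans h'.2.1, fun f hf => by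
    obtain ⟨a, ha, b, hb, hu, rfl⟩ := h'.2.2 f hf
    obtain ⟨a1, ha1, a2, ha2, hu1, rfl⟩ := h.2.2 a ha
    obtain ⟨b1, hb1, b2, hb2, hu2, rfl⟩ := h.2.2 b hb
    have h3 : IsU O' b1 := by
      have := hu.mul (hu2.mono h'.2.1)
      rwa [div_mul_cancel₀ _ hu2.1] at this
    refine ⟨a1 * b2, R.mul_mem ha1 hb2, a2 * b1, R.mul_mem ha2 hb1, (hu1.mono h'.2.1).mul h3, ?_⟩
    have := hu2.1
    field_simp⟩

theorem Pts_le (h : O₁ ∈ Pts R) (hR : R ≤ O₂) (h1 : O₁ ≤ W) (h2 : Dom O₂ W) : O₁ ≤ O₂ := by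
  intro f hf
  obtain ⟨a, ha, b, hb, hu, rfl⟩ := h.2.2 f hf
  exact (h2.2 b (hR hb) (hu.mono h1)).div_mem (hR ha)

theorem Pts_eq (h : O₁ ∈ Pts R) (h' : O₂ ∈ Pts R') (hR : R ≤ O₂) (hR' : R' ≤ O₁) (h1 : Dom O₁ W)
    (h2 : Dom O₂ W) : O₁ = O₂ :=
  le_antisymm (Pts_le h hR h1.1 h2) (Pts_le h' hR' h2.1 h1)

theorem top_mem_Pts (h : Frac R) : ⊤ ∈ Pts R :=
  ⟨isLocalRing_of fun a ha b hb => by simp_all [mem_mx_top], le_top, fun f _ => by
    obtain ⟨a, ha, b, hb, h0, h1⟩ := h f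
    exact ⟨a, ha, b, hb, isU_top.2 h0, h1⟩⟩

theorem Frac.mono (h : Frac R) (h' : R ≤ R') : Frac R' := fun f => by
  obtain ⟨a, ha, b, hb, h1⟩ := h f
  exact ⟨a, h' ha, b, h' hb, h1⟩

/-- Localization at a prime given as a set `p`. -/
theorem exists_loc (R : Subalgebra k K) (p : Set K) (h0 : (0 : K) ∈ p) (h1 : (1 : K) ∉ p)
    (hadd : ∀ a ∈ R, ∀ b ∈ R, a ∈ p → b ∈ p → a + b ∈ p)
    (hmul : ∀ a ∈ R, ∀ b ∈ R, (a * b ∈ p ↔ a ∈ p ∨ b ∈ p)) :
    ∃ O ∈ Pts R, (∀ b ∈ R, IsU O b ↔ b ∉ p) := by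
  have hne : ∀ b, b ∉ p → b ≠ 0 := fun b hb h => hb (h ▸ h0)
  have hm : ∀ a ∈ R, ∀ b ∈ R, a ∉ p → b ∉ p → a * b ∉ p := fun a ha b hb h2 h3 h4 =>
    ((hmul a ha b hb).1 h4).elim h2 h3
  let O : Subalgebra k K :=
    { carrier := {f | ∃ a ∈ R, ∃ b ∈ R, b ∉ p ∧ f = a / b}
      mul_mem' := by
        rintro _ _ ⟨a, ha, b, hb, hp, rfl⟩ ⟨c, hc, d, hd, hq, rfl⟩
        exact ⟨a * c, R.mul_mem ha hc, b * d, R.mul_mem hb hd, hm b hb d hd hp hq,
          div_mul_div_comm a b c d⟩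
      add_mem' := by
        rintro _ _ ⟨a, ha, b, hb, hp, rfl⟩ ⟨c, hc, d, hd, hq, rfl⟩
        exact ⟨a * d + b * c, R.add_mem (R.mul_mem ha hd) (R.mul_mem hb hc), b * d,
          R.mul_mem hb hd, hm b hb d hd hp hq, div_add_div a c (hne b hp) (hne d hq)⟩
      algebraMap_mem' := fun c => ⟨_, R.algebraMap_mem c, 1, R.one_mem, h1, by simp⟩ }
  have hRO : R ≤ O := fun a ha => ⟨a, ha, 1, R.one_mem, h1, by simp⟩
  have hU : ∀ b ∈ R, IsU O b ↔ b ∉ p := fun b hb => by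
    refine ⟨fun h hp => ?_, fun h => ⟨hne b h, hRO hb, 1, R.one_mem, b, hb, h, by simp⟩⟩
    obtain ⟨c, hc, d, hd, hq, h2⟩ := h.2.2
    have h3 : d = b * c := by
      have := h.1
      have := hne d hq
      field_simp at h2
      exact h2
    exact hq (h3 ▸ (hmul b hb c hc).2 (Or.inl hp))
  have hmx : ∀ a ∈ R, ∀ b ∈ R, b ∉ p → (a / b ∈ mx O ↔ a ∈ p) := fun a ha b hb hp => by
    have hb' := (hU b hb).2 hp
    refine ⟨fun h => by_contra fun hn => h.2 (((hU a ha).2 hn).div hb'), fun h => ?_⟩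
    exact mx_div ⟨hRO ha, fun h' => (hU a ha).1 h' h⟩ hb'
  refine ⟨O, ⟨isLocalRing_of ?_, hRO, ?_⟩, hU⟩
  · rintro _ ⟨⟨a, ha, b, hb, hp, rfl⟩, h2⟩ _ ⟨⟨c, hc, d, hd, hq, rfl⟩, h3⟩
    have h4 := (hmx a ha b hb hp).1 ⟨⟨a, ha, b, hb, hp, rfl⟩, h2⟩
    have h5 := (hmx c hc d hd hq).1 ⟨⟨c, hc, d, hd, hq, rfl⟩, h3⟩
    rw [div_add_div a c (hne b hp) (hne d hq)]
    exact (hmx _ (R.add_mem (R.mul_mem ha hd) (R.mul_mem hb hc)) _ (R.mul_mem hb hd)
      (hm b hb d hd hp hq)).2 (hadd _ (R.mul_mem ha hd) _ (R.mul_mem hb hc)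
        ((hmul a ha d hd).2 (Or.inl h4)) ((hmul b hb c hc).2 (Or.inr h5)))
  · rintro _ ⟨a, ha, b, hb, hp, rfl⟩
    exact ⟨a, ha, b, hb, (hU b hb).2 hp, rfl⟩

/-- The center on `R` of a local ring containing `R`. -/
theorem exists_ctr (hW : IsLocalRing W) (h : R ≤ W) : ∃ O ∈ Pts R, Dom O W := by
  obtain ⟨O, hO, hU⟩ := exists_loc R (mx W) zero_mem_mx one_not_mem_mx
    (fun a _ b _ => mx_add hW) (fun a ha b hb => ⟨mx_or_of_mul (h ha) (h hb),
      fun h1 => h1.elim (fun h2 => mx_mul_right h2 (h hb)) (mx_mul_left (h ha))⟩)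
  have h1 : ∀ b ∈ R, IsU O b → IsU W b := fun b hb hu => isU_of_not_mx (h hb) ((hU b hb).1 hu)
  refine ⟨O, hO, fun f hf => ?_, fun f hf hu => ?_⟩
  · obtain ⟨a, ha, b, hb, hu, rfl⟩ := hO.2.2 f hf
    exact (h1 b hb hu).div_mem (h ha)
  · obtain ⟨a, ha, b, hb, hu', rfl⟩ := hO.2.2 f hf
    have h2 := hu.mul (h1 b hb hu')
    rw [div_mul_cancel₀ _ hu'.1] at h2
    exact ((hU a ha).2 h2.not_mx).div hu'

theorem evO_of_mem (ρ : O →ₐ[k] L) {u : K} (h : u ∈ O) : evO O ρ u = ρ ⟨u, h⟩ := dif_pos h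
theorem evO_coe (ρ : O →ₐ[k] L) (u : O) : evO O ρ u = ρ u := dif_pos u.2
theorem evO_add (ρ : O →ₐ[k] L) {a b : K} (ha : a ∈ O) (hb : b ∈ O) :
    evO O ρ (a + b) = evO O ρ a + evO O ρ b := by
  rw [evO_of_mem ρ ha, evO_of_mem ρ hb, evO_of_mem ρ (O.add_mem ha hb), ← map_add]; rfl
theorem evO_mul (ρ : O →ₐ[k] L) {a b : K} (ha : a ∈ O) (hb : b ∈ O) :
    evO O ρ (a * b) = evO O ρ a * evO O ρ b := by
  rw [evO_of_mem ρ ha, evO_of_mem ρ hb, evO_of_mem ρ (O.mul_mem ha hb), ← map_mul]; rfl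
theorem evO_const (ρ : O →ₐ[k] L) (c : k) : evO O ρ (algebraMap k K c) = algebraMap k L c := by
  rw [evO_of_mem ρ (O.algebraMap_mem c)]; exact ρ.commutes c
theorem evO_zero (ρ : O →ₐ[k] L) : evO O ρ 0 = 0 := by simpa using evO_const ρ 0
theorem evO_one (ρ : O →ₐ[k] L) : evO O ρ 1 = 1 := by simpa using evO_const ρ 1
theorem evO_intCast (ρ : O →ₐ[k] L) (n : ℤ) : evO O ρ n = n := by simpa using evO_const ρ n
theorem evO_neg (ρ : O →ₐ[k] L) {a : K} (ha : a ∈ O) : evO O ρ (-a) = - evO O ρ a := by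
  rw [evO_of_mem ρ ha, evO_of_mem ρ (O.neg_mem ha), ← map_neg]; rfl
theorem evO_sub (ρ : O →ₐ[k] L) {a b : K} (ha : a ∈ O) (hb : b ∈ O) :
    evO O ρ (a - b) = evO O ρ a - evO O ρ b := by
  rw [sub_eq_add_neg, evO_add ρ ha (O.neg_mem hb), evO_neg ρ hb, sub_eq_add_neg]
theorem evO_pow (ρ : O →ₐ[k] L) {a : K} (ha : a ∈ O) (n : ℕ) : evO O ρ (a ^ n) = evO O ρ a ^ n := by
  rw [evO_of_mem ρ ha, evO_of_mem ρ (O.pow_mem ha n), ← map_pow]; rfl
theorem evO_ne (ρ : O →ₐ[k] L) {a : K} (ha : IsU O a) : evO O ρ a ≠ 0 := by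
  have := evO_mul ρ ha.2.1 ha.2.2
  rw [mul_inv_cancel₀ ha.1, evO_one] at this
  exact left_ne_zero_of_mul_eq_one this.symm
theorem evO_inv (ρ : O →ₐ[k] L) {a : K} (ha : IsU O a) : evO O ρ a⁻¹ = (evO O ρ a)⁻¹ := by
  have := evO_mul ρ ha.2.1 ha.2.2
  rw [mul_inv_cancel₀ ha.1, evO_one] at this
  exact eq_inv_of_mul_eq_one_right this.symm
theorem evO_div (ρ : O →ₐ[k] L) {a b : K} (ha : a ∈ O) (hb : IsU O b) :
    evO O ρ (a / b) = evO O ρ a / evO O ρ b := by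
  rw [div_eq_mul_inv, evO_mul ρ ha hb.2.2, evO_inv ρ hb, div_eq_mul_inv]
theorem LocHom.eq_zero_iff {ρ : O →ₐ[k] L} (h : LocHom O ρ) {a : K} (ha : a ∈ O) :
    evO O ρ a = 0 ↔ a ∈ mx O :=
  ⟨fun h0 => ⟨ha, fun hu => evO_ne ρ hu h0⟩, fun hm => by_contra fun hn =>
    hm.2 (h ⟨a, ha⟩ (by rwa [evO_of_mem ρ ha] at hn))⟩
theorem LocHom.isLocalRing {ρ : O →ₐ[k] L} (h : LocHom O ρ) : IsLocalRing O :=
  isLocalRing_of fun a ha b hb => (h.eq_zero_iff (O.add_mem ha.1 hb.1)).1 (by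
    rw [evO_add ρ ha.1 hb.1, (h.eq_zero_iff ha.1).2 ha, (h.eq_zero_iff hb.1).2 hb, add_zero])

/-- A homomorphism to a field extends to the localization at its kernel. -/
theorem exists_ext (φ : R →ₐ[k] L) :
    ∃ O ∈ Pts R, ∃ ρ : O →ₐ[k] L, LocHom O ρ ∧ ∀ a ∈ R, evO O ρ a = evO R φ a := by
  obtain ⟨O, hO, hU⟩ := exists_loc R {a | evO R φ a = 0} (evO_zero φ) (by simp [evO_one])
    (fun a ha b hb h1 h2 => by simp_all [evO_add φ ha hb])
    (fun a ha b hb => by simp [evO_mul φ ha hb])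
  have hU' : ∀ b ∈ R, IsU O b → evO R φ b ≠ 0 := fun b hb h => (hU b hb).1 h
  choose! n hn d hd hu he using hO.2.2
  let g : K → L := fun f => evO R φ (n f) / evO R φ (d f)
  have key : ∀ a ∈ R, ∀ b ∈ R, IsU O b → g (a / b) = evO R φ a / evO R φ b := by
    intro a ha b hb hb'
    have hf := hb'.div_mem (hO.2.1 ha)
    have h1 := (div_eq_div_iff hb'.1 (hu _ hf).1).1 (he _ hf)
    rw [div_eq_div_iff (hU' _ (hd _ hf) (hu _ hf)) (hU' b hb hb'), ← evO_mul φ (hn _ hf) hb, ← h1,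
      evO_mul φ ha (hd _ hf)]
  have key1 : ∀ a ∈ R, g a = evO R φ a := fun a ha => by
    simpa [evO_one] using key a ha 1 R.one_mem isU_one
  let ρ : O →ₐ[k] L :=
    { toFun := fun f => g f
      map_one' := by simpa [evO_one] using key1 1 R.one_mem
      map_zero' := by simpa [evO_zero] using key1 0 R.zero_mem
      map_mul' := fun a b => by
        have := key _ (R.mul_mem (hn a a.2) (hn b b.2)) _ (R.mul_mem (hd a a.2) (hd b b.2))
          ((hu a a.2).mul (hu b b.2))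
        rw [← div_mul_div_comm, ← he a a.2, ← he b b.2, evO_mul φ (hn a a.2) (hn b b.2),
          evO_mul φ (hd a a.2) (hd b b.2), ← div_mul_div_comm] at this
        exact this
      map_add' := fun a b => by
        have := key _ (R.add_mem (R.mul_mem (hn a a.2) (hd b b.2)) (R.mul_mem (hd a a.2) (hn b b.2)))
          _ (R.mul_mem (hd a a.2) (hd b b.2)) ((hu a a.2).mul (hu b b.2))
        rw [← div_add_div _ _ (hu a a.2).1 (hu b b.2).1, ← he a a.2, ← he b b.2,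
          evO_add φ (R.mul_mem (hn a a.2) (hd b b.2)) (R.mul_mem (hd a a.2) (hn b b.2)),
          evO_mul φ (hn a a.2) (hd b b.2), evO_mul φ (hd a a.2) (hn b b.2),
          evO_mul φ (hd a a.2) (hd b b.2), ← div_add_div _ _ (hU' _ (hd a a.2) (hu a a.2))
            (hU' _ (hd b b.2) (hu b b.2))] at this
        exact this
      commutes' := fun c => (key1 _ (R.algebraMap_mem c)).trans (evO_const φ c) }
  refine ⟨O, hO, ρ, fun u h => ?_, fun a ha => (evO_of_mem ρ (hO.2.1 ha)).trans (key1 a ha)⟩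
  have h1 : evO R φ (n u) ≠ 0 := fun h0 => h (by change g u = 0; simp [g, h0])
  rw [he u u.2]
  exact ((hU _ (hn u u.2)).2 h1).div (hu u u.2)

theorem IsVal.isLocalRing (h : IsVal V) : IsLocalRing V := by
  refine isLocalRing_of fun a ha b hb => ?_
  by_cases ha0 : a = 0
  · simpa [ha0] using hb
  by_cases hb0 : b = 0
  · simpa [hb0] using ha
  rcases h (a / b) with h1 | h1
  · have : a + b = (a / b + 1) * b := by field_simp
    exact this ▸ mx_mul_left (V.add_mem h1 V.one_mem) hb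
  · have : a + b = ((a / b)⁻¹ + 1) * a := by field_simp; ring
    exact this ▸ mx_mul_left (V.add_mem h1 V.one_mem) ha

theorem IsVal.inv_mx (h : IsVal V) {f : K} (hf : f ∉ V) : f⁻¹ ∈ mx V :=
  ⟨(h f).resolve_left hf, fun hu => hf (by simpa using hu.2.2)⟩

theorem IsVal.mono (h : IsVal V) (h' : V ≤ W) : IsVal W := fun f =>
  (h f).imp (fun a => h' a) fun a => h' a

theorem IsVal.eq_of_dom (h : IsVal V) (h' : Dom V W) : V = W :=
  le_antisymm h'.1 fun f hf => by_contra fun hn => by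
    have h1 := h'.mx (h.inv_mx hn)
    have h0 : f ≠ 0 := fun h0 => hn (h0 ▸ V.zero_mem)
    exact h1.2 ⟨inv_ne_zero h0, h1.1, by simpa using hf⟩

/-- The valuation subring of Mathlib attached to a valuation ring. -/
def IsVal.vs (h : IsVal V) : ValuationSubring K := ⟨V.toSubring, h⟩

theorem IsVal.nrm (h : IsVal V) : Nrm V := fun _ hf =>
  mem_of_isIntegral h.vs (fun a => a.2) hf

theorem IsVal.frac (h : IsVal V) : Frac V := fun f =>
  (h f).elim (fun h1 => ⟨f, h1, 1, V.one_mem, one_ne_zero, by simp⟩) fun h1 => by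
    by_cases h0 : f = 0
    · exact ⟨0, V.zero_mem, 1, V.one_mem, one_ne_zero, by simp [h0]⟩
    · exact ⟨1, V.one_mem, f⁻¹, h1, inv_ne_zero h0, by simp⟩

theorem dom_of_le_valuationSubring (hW : IsLocalRing W) (B : ValuationSubring K)
    (h : @LocalSubring.mk K _ W.toSubring hW ≤ B.toLocalSubring) :
    ∃ V : Subalgebra k K, IsVal V ∧ Dom W V ∧ ∀ f, f ∈ V ↔ f ∈ B := by
  obtain ⟨h1, h2⟩ := h
  let V : Subalgebra k K :=
    { B.toSubring.toSubsemiring with algebraMap_mem' := fun c => h1 (W.algebraMap_mem c) }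
  refine ⟨V, B.mem_or_inv_mem, ⟨h1, fun u hu hV => ?_⟩, fun _ => Iff.rfl⟩
  exact (isU_iff_isUnit (O := W) ⟨u, hu⟩).2
    (h2.1 ⟨u, hu⟩ ((isU_iff_isUnit (O := V) ⟨u, h1 hu⟩).1 hV))

/-- Every local ring is dominated by a valuation ring. -/
theorem exists_val (hW : IsLocalRing W) : ∃ V : Subalgebra k K, IsVal V ∧ Dom W V := by
  obtain ⟨B, hB⟩ := (@LocalSubring.mk K _ W.toSubring hW).exists_le_valuationSubring
  obtain ⟨V, h1, h2, -⟩ := dom_of_le_valuationSubring hW B hB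
  exact ⟨V, h1, h2⟩

/-- A normal local ring is the intersection of the valuation rings dominating it. -/
theorem exists_val_not_mem (hW : IsLocalRing W) (hN : Nrm W) {f : K} (hf : f ∉ W) :
    ∃ V : Subalgebra k K, IsVal V ∧ Dom W V ∧ f ∉ V := by
  have : IsIntegrallyClosedIn (@LocalSubring.mk K _ W.toSubring hW).toSubring K :=
    Subring.isIntegrallyClosedIn_iff.2 fun {x} hx => hN x hx
  obtain ⟨B, hB, hf'⟩ := LocalSubring.exists_le_valuationSubring_of_isIntegrallyClosedIn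
    (R := @LocalSubring.mk K _ W.toSubring hW) hf
  obtain ⟨V, h1, h2, h3⟩ := dom_of_le_valuationSubring hW B hB
  exact ⟨V, h1, h2, fun h => hf' ((h3 f).1 h)⟩

/-- The residue map. -/
noncomputable def resid (O : Subalgebra k K) [IsLocalRing O] :
    O →ₐ[k] IsLocalRing.ResidueField O :=
  IsScalarTower.toAlgHom k O _

theorem resid_loc [IsLocalRing O] : LocHom O (resid O) := fun u h =>
  (isU_iff_isUnit u).2 ((IsLocalRing.residue_ne_zero_iff_isUnit u).1 h)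

theorem resid_surj [IsLocalRing O] : Function.Surjective (resid O) := IsLocalRing.residue_surjective

/-- A local homomorphism factors through the residue field. -/
theorem LocHom.factor [IsLocalRing O] {ρ : O →ₐ[k] L} (h : LocHom O ρ) :
    ∃ ι : IsLocalRing.ResidueField O →ₐ[k] L, ι.comp (resid O) = ρ := by
  refine ⟨Ideal.Quotient.liftₐ (IsLocalRing.maximalIdeal O) ρ fun a ha => ?_, AlgHom.ext fun _ => rfl⟩
  by_contra hn
  exact ha ((isU_iff_isUnit a).1 (h a hn))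

theorem LocHom.comp {L' : Type} [Field L'] [Algebra k L'] {ρ : O →ₐ[k] L} (h : LocHom O ρ)
    (ι : L →ₐ[k] L') : LocHom O (ι.comp ρ) := fun u hu => h u fun h0 => hu (by simp [h0])

theorem evO_comp {L' : Type} [Field L'] [Algebra k L'] (ρ : O →ₐ[k] L) (ι : L →ₐ[k] L') (u : K) :
    evO O (ι.comp ρ) u = ι (evO O ρ u) := by
  unfold evO; split_ifs <;> simp

theorem LocHom.restrict {ρ : W →ₐ[k] L} (h : LocHom W ρ) (hd : Dom O W) :
    LocHom O (ρ.comp (Subalgebra.inclusion hd.1)) := fun u hu => hd.2 u u.2 (h ⟨u, hd.1 u.2⟩ hu)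

theorem evO_restrict (ρ : W →ₐ[k] L) (h : O ≤ W) {u : K} (hu : u ∈ O) :
    evO O (ρ.comp (Subalgebra.inclusion h)) u = evO W ρ u := by
  rw [evO_of_mem _ hu, evO_of_mem _ (h hu)]; rfl

end pts

section places

variable (P : Place k K) {u : K}

theorem mem_plO : u ∈ plO P ↔ P.v u ≤ 1 := Iff.rfl
theorem mem_plO' : u ∈ plO P ↔ P.Ge 0 u := P.ge0_iff.symm
theorem plO_isVal : IsVal (plO P) := fun f => P.v.valuationSubring.mem_or_inv_mem f
theorem isU_plO : IsU (plO P) u ↔ P.v u = 1 := by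
  refine ⟨fun h => le_antisymm h.2.1 ?_, fun h => ⟨fun h0 => by simp [h0] at h, h.le, ?_⟩⟩
  · have h1 : P.v u⁻¹ ≤ 1 := h.2.2
    rwa [map_inv₀, inv_le_one₀ (zero_lt_iff.2 (P.v_ne h.1))] at h1
  · rw [mem_plO, map_inv₀, h, inv_one]
theorem isU_plO' : IsU (plO P) u ↔ u ≠ 0 ∧ P.ord u = 0 :=
  ⟨fun h => ⟨h.1, FF.ord_of_one ((isU_plO P).1 h)⟩,
    fun h => (isU_plO P).2 ((FF.v_eq_one_iff P h.1).2 h.2)⟩
theorem mem_mx_plO : u ∈ mx (plO P) ↔ P.v u < 1 := by
  rw [mx, Set.mem_ofPred_eq, isU_plO, mem_plO, lt_iff_le_and_ne]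
theorem plO_ne_top : plO P ≠ ⊤ := fun h => by
  have h1 : P.unif⁻¹ ∈ plO P := h ▸ Algebra.mem_top
  have := ((mem_plO' P).1 h1).le (inv_ne_zero P.unif_ne)
  simp at this
theorem plO_inj {P Q : Place k K} (h : plO P ≤ plO Q) : P = Q :=
  FF.eq_of_le_one_imp fun _ hg => h hg

end places

section comap

variable {O W : Subalgebra k K} (ι : F →ₐ[k] K) {u : F}

theorem isU_comap : IsU (O.comap ι) u ↔ IsU O (ι u) := by simp [IsU]
theorem mem_mx_comap : u ∈ mx (O.comap ι) ↔ ι u ∈ mx O := by simp [mx, isU_comap]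
theorem isLocalRing_comap (h : IsLocalRing O) : IsLocalRing (O.comap ι) :=
  isLocalRing_of fun a ha b hb => (mem_mx_comap ι).2 (by
    rw [map_add]; exact mx_add h ((mem_mx_comap ι).1 ha) ((mem_mx_comap ι).1 hb))
theorem Dom.comap (h : Dom O W) : Dom (O.comap ι) (W.comap ι) :=
  ⟨fun _ hu => h.1 hu, fun _ hu hW => (isU_comap ι).2 (h.2 _ hu ((isU_comap ι).1 hW))⟩

end comap

section curve

variable {X : Set (Subalgebra k F)} {Y : Set (Subalgebra k K)}

instance Curve.charZero [CharZero k] (ν : Curve Y) : CharZero ν.L :=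
  charZero_of_injective_algebraMap (algebraMap k ν.L).injective

theorem Curve.ev_eq (ν : Curve Y) (u : K) : ν.ev u = evO ν.gen ν.ρ u := rfl
theorem Curve.locHom (ν : Curve Y) : LocHom ν.gen ν.ρ := ν.ρ_loc
theorem Curve.ev_push (ι : F →ₐ[k] K) (h : ∀ O ∈ Y, O.comap ι ∈ X) (ν : Curve Y) (u : F) :
    (ν.push ι h).ev u = ν.ev (ι u) := rfl
theorem Curve.deg_push (ι : F →ₐ[k] K) (h : ∀ O ∈ Y, O.comap ι ∈ X) (ν : Curve Y)
    (f : Subalgebra k F → F) : (ν.push ι h).deg f = ν.deg fun O => ι (f (O.comap ι)) := by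
  unfold Curve.deg
  refine finsum_congr fun P => ?_
  rw [Curve.ev_push, map_div₀]; rfl
theorem Curve.v_le (ν : Curve Y) (P : Place k ν.L) {u : K} (hu : u ∈ ν.pt P) : P.v (ν.ev u) ≤ 1 := by
  rw [ν.ev_eq, evO_of_mem _ (ν.pt_le P hu)]; exact ν.pt_reg P _ hu
theorem Curve.v_eq_one_iff (ν : Curve Y) (P : Place k ν.L) {u : K} (hu : u ∈ ν.pt P) :
    P.v (ν.ev u) = 1 ↔ IsU (ν.pt P) u := by
  refine ⟨fun h => ν.pt_loc P ⟨u, ν.pt_le P hu⟩ hu
    (by rwa [ν.ev_eq, evO_of_mem _ (ν.pt_le P hu)] at h), fun h => (isU_plO P).1 ?_⟩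
  refine ⟨evO_ne _ (h.mono (ν.pt_le P)), ν.v_le P hu, ?_⟩
  rw [ν.ev_eq, ← evO_inv _ (h.mono (ν.pt_le P))]
  exact ν.v_le P h.2.2
theorem Curve.v_lt_one_iff (ν : Curve Y) (P : Place k ν.L) {u : K} (hu : u ∈ ν.pt P) :
    P.v (ν.ev u) < 1 ↔ u ∈ mx (ν.pt P) := by
  rw [lt_iff_le_and_ne, ne_eq, ν.v_eq_one_iff P hu]
  exact ⟨fun h => ⟨hu, h.2⟩, fun h => ⟨ν.v_le P hu, h.2⟩⟩

end curve

end Pool.Agent.MP_20d318_ag.AG

end MrgPart1

-- marker of a merged file
example : 731051 + 379060 = 731051 + 379060 := rfl
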