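import Mathlib.RingTheory.TensorProduct.IsBaseChangeFree
import Pool.Agent.MP_20d318_ag.Sch.Places
import Pool.Agent.MP_20d318_ag.AG.Tools
import Pool.Agent.MP_20d318_ag.AG.Lift
import Pool.Agent.MP_20d318_ag.Lat.StarH

-- ======== part 0: formerly Pool.Agent.MP_20d318_ag.Sch.Canon
section MrgPart0

/-!
The charts of the resolution are smooth, and the canonical class is trivial.
-/

set_option autoImplicit false
set_option linter.unusedSectionVars false
set_option linter.style.haveILetI false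

open AlgebraicGeometry CategoryTheory

namespace Pool.Agent.MP_20d318_ag.Sch

open MP_a703b5_ag AG

namespace Canon

/-- The derivative of `gg b`. -/
def gd {S : Type} [CommRing S] (b : Bool) (T : S) : S := if b then 2 * T else 1 - 3 * T ^ 2

section ring

variable {S : Type} [CommRing S]

lemma bez (b : Bool) (T : S) : ∃ A B : S, A * gg b T + B * gd b T = 2 := by
  cases b
  · exact ⟨9 * T, 2 - 3 * T ^ 2, by simp only [gg, gd, Bool.false_eq_true, if_false]; ring⟩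
  · exact ⟨-2, T, by simp only [gg, gd, if_true]; ring⟩

lemma taylor (b : Bool) (T δ : S) : ∃ q, gg b (T + δ) = gg b T + gd b T * δ + q * δ ^ 2 := by
  cases b
  · exact ⟨-3 * T - δ, by simp only [gg, gd, Bool.false_eq_true, if_false]; ring⟩
  · exact ⟨1, by simp only [gg, gd, if_true]; ring⟩

lemma map_gd {A G : Type} [CommRing A] [FunLike G A S] [RingHomClass G A S] (f : G) (b : Bool)
    (T : A) : f (gd b T) = gd b (f T) := by
  cases b <;> simp [gd, map_ofNat]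

lemma lift_rel [Algebra ℂ S] (b : Bool) (T u G e : S) (h1 : gg b T - G * u ^ 3 = e)
    (h2 : e ^ 2 = 0) : ∃ δ η, gg b (T + δ * e) = G * (u + η * e) ^ 3 := by
  obtain ⟨A, B, h3⟩ := bez b T
  have h4 : (6 : S) * algebraMap ℂ S 6⁻¹ = 1 := by
    rw [← map_ofNat (algebraMap ℂ S) 6, ← map_mul, mul_inv_cancel₀ (by norm_num), map_one]
  generalize algebraMap ℂ S 6⁻¹ = t at h4
  obtain ⟨q, h5⟩ := taylor b T (-3 * t * B * e)
  refine ⟨-3 * t * B, t * A * u, ?_⟩
  rw [h5]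
  linear_combination (1 + 3 * t * A * e) * h1 - 3 * t * e * h3 - e * h4 +
    (3 * t * A + q * (3 * t * B) ^ 2 - G * (3 * u * (t * A * u) ^ 2 + (t * A * u) ^ 3 * e)) * h2

end ring

variable {K : Type} [Field K] [Algebra ℂ K]

lemma D_gg {N : Type} [AddCommGroup N] [Module K N] [Module ℂ N] (D : Derivation ℂ K N) (b : Bool)
    (T : K) : D (gg b T) = gd b T • D T := by
  cases b
  · simp [gg, gd, sub_smul, mul_smul, ← Nat.cast_smul_eq_nsmul K]
  · simp [gg, gd, mul_smul, ← Nat.cast_smul_eq_nsmul K]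

lemma rel {x y : Fin 3 → K} (h : Gen ℂ x y) (c : Fin 3 → Bool) (j i : Fin 3) :
    gg (c i) (cu y c i) = gg (c j) (cu y c j) * (cv x y c i / cv x y c j) ^ 3 := by
  rw [← cv_cube h, ← cv_cube h, ← mul_pow, mul_div_cancel₀ _ (cv_ne h c j)]

lemma smooth_Bk {x y : Fin 3 → K} (h : Gen ℂ x y) (c : Fin 3 → Bool) (j : Fin 3) :
    Algebra.FormallySmooth ℂ (Bk x y c j) := by
  refine .of_comp_surjective fun S _ _ I hI φ => ?_
  have m1 : ∀ i, cv x y c i / cv x y c j ∈ Bk x y c j := fun i =>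
    Algebra.subset_adjoin (Or.inl ⟨i, rfl⟩)
  have m2 : ∀ i, cu y c i ∈ Bk x y c j := fun i => Algebra.subset_adjoin (Or.inr ⟨i, rfl⟩)
  obtain ⟨t, ht⟩ := Ideal.Quotient.mk_surjective (φ ⟨_, m2 j⟩)
  have key : ∀ i, ∃ υ τ : S, Ideal.Quotient.mk I υ = φ ⟨_, m1 i⟩ ∧
      Ideal.Quotient.mk I τ = φ ⟨_, m2 i⟩ ∧ gg (c i) τ = gg (c j) t * υ ^ 3 ∧
      (i = j → υ = 1 ∧ τ = t) := fun i => by
    by_cases hi : i = j
    · subst hi
      refine ⟨1, t, ?_, ht, by rw [one_pow, mul_one], fun _ => ⟨rfl, rfl⟩⟩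
      rw [map_one, ← map_one φ]
      exact congrArg φ (Subtype.ext (div_self (cv_ne h c i)).symm)
    obtain ⟨υ, h1⟩ := Ideal.Quotient.mk_surjective (φ ⟨_, m1 i⟩)
    obtain ⟨τ, h2⟩ := Ideal.Quotient.mk_surjective (φ ⟨_, m2 i⟩)
    have h3 : Ideal.Quotient.mk I (gg (c i) τ - gg (c j) t * υ ^ 3) = 0 := by
      rw [map_sub, map_mul, map_pow, map_gg, map_gg, h1, h2, ht, ← map_gg, ← map_gg, ← map_pow,
        ← map_mul, sub_eq_zero]
      refine congrArg φ (Subtype.ext ?_)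
      exact (map_gg (Bk x y c j).val _ _).trans ((rel h c j i).trans
        (congrArg (· * _) (map_gg (Bk x y c j).val _ ⟨_, m2 j⟩).symm))
    obtain ⟨δ, η, h4⟩ := lift_rel (c i) τ υ _ _ rfl (Ideal.mem_bot.mp
      (hI ▸ Ideal.pow_mem_pow (Ideal.Quotient.eq_zero_iff_mem.mp h3) 2))
    exact ⟨_, _, by rw [map_add, map_mul, h3, mul_zero, add_zero, h1],
      by rw [map_add, map_mul, h3, mul_zero, add_zero, h2], h4, fun h => (hi h).elim⟩
  choose υ τ h1 h2 h3 h4 using key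
  have hj : cu y c j ∈ Algebra.adjoin ℂ {cu y c j} := Algebra.self_mem_adjoin_singleton _ _
  let E := Polynomial.algEquivOfTranscendental ℂ _ ((cu_ind h c).transcendental j)
  obtain ⟨Ψ, -, h5⟩ := exists_hom_chart h c j (Algebra.adjoin ℂ {cu y c j}) (fun a ha => by
      rw [Set.image_singleton]; exact isAlgebraic_algebraMap (⟨a, ha⟩ : Algebra.adjoin ℂ _)) hj
    ((Polynomial.aeval t).comp E.symm.toAlgHom) (υ := υ) (τ := τ) (h4 j rfl).1 (by
      rw [(h4 j rfl).2]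
      change Polynomial.aeval t (E.symm ⟨_, hj⟩) = t
      rw [Polynomial.algEquivOfTranscendental_symm_gen, Polynomial.aeval_X])
    (fun i => by rw [(h4 j rfl).2, h3]) (Bk x y c j)
    (Algebra.adjoin_mono Set.subset_union_right)
  refine ⟨Ψ, AlgHom.ext_of_eq_adjoin rfl ?_⟩
  rintro _ (⟨i, rfl⟩ | ⟨i, rfl⟩)
  · exact (congrArg (Ideal.Quotient.mk I) ((h5 i).1 _)).trans (h1 i)
  · exact (congrArg (Ideal.Quotient.mk I) ((h5 i).2 _)).trans (h2 i)

lemma exists_basis {n : ℕ} {y : Fin n → K} (h : IsTranscendenceBasis ℂ y) :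
    ∃ b : Module.Basis (Fin n) K Ω[K⁄ℂ], ∀ i, b i = KaehlerDifferential.D ℂ K (y i) := by
  let P := MvPolynomial (Fin n) ℂ
  let Q := IntermediateField.adjoin ℂ (Set.range y)
  let : Algebra P Q := (h.1.aevalEquivField.toRingHom.comp (algebraMap P (FractionRing P))).toAlgebra
  let : Algebra P K := (MvPolynomial.aeval y).toRingHom.toAlgebra
  have : IsScalarTower P Q K :=
    .of_algebraMap_eq fun a => (h.1.aevalEquivField_algebraMap_apply_coe a).symm
  have : IsScalarTower ℂ P K := .of_algebraMap_eq fun a => ((MvPolynomial.aeval y).commutes a).symm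
  have : IsFractionRing P Q := IsLocalization.isLocalization_of_algEquiv _
    (AlgEquiv.ofRingEquiv (f := h.1.aevalEquivField.toRingEquiv) fun _ => rfl)
  have := h.isAlgebraic_field
  have : Algebra.FormallyEtale P Q := .of_isLocalization (nonZeroDivisors P)
  have : Algebra.FormallyEtale Q K := .of_isSeparable _ _
  have : Algebra.FormallyEtale P K := .comp P Q K
  refine ⟨(KaehlerDifferential.isBaseChange_of_formallyEtale ℂ P K).basis
    (KaehlerDifferential.mvPolynomialBasis ℂ (Fin n)), fun i => ?_⟩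
  rw [IsBaseChange.basis_apply, KaehlerDifferential.mvPolynomialBasis_apply,
    KaehlerDifferential.map_D]
  exact congrArg _ (MvPolynomial.aeval_X y i)

/-- Regular functions whose differential lies in a given submodule. -/
def Wr (D : Derivation ℂ K (Fin 3 → K)) (O : Subring K) (P : Submodule O (Fin 3 → K)) :
    Subring K where
  carrier := {a | a ∈ O ∧ D a ∈ P}
  mul_mem' {a b} ha hb := ⟨mul_mem ha.1 hb.1, by
    rw [D.leibniz]
    exact add_mem (P.smul_mem ⟨a, ha.1⟩ hb.2) (P.smul_mem ⟨b, hb.1⟩ ha.2)⟩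
  one_mem' := ⟨one_mem _, by rw [D.map_one_eq_zero]; exact zero_mem _⟩
  add_mem' ha hb := ⟨add_mem ha.1 hb.1, by rw [map_add]; exact add_mem ha.2 hb.2⟩
  zero_mem' := ⟨zero_mem _, by rw [map_zero]; exact zero_mem _⟩
  neg_mem' ha := ⟨neg_mem ha.1, by rw [map_neg]; exact neg_mem ha.2⟩

variable {ι : Type} {𝒞 : Charts K ι}

lemma trivial_of (M : Model 𝒞) {y : Fin 3 → K} (hy : IsTranscendenceBasis ℂ y) {l : K}
    (hl : l ≠ 0) (h : ∀ D : Derivation ℂ K (Fin 3 → K), (∀ i, D (y i) = Pi.single i 1) →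
      ∀ x : M.X, ∃ c : Fin 3 → K, (∀ k, c k ∈ M.O x) ∧
        (∀ a ∈ M.O x, D a ∈ Submodule.span (M.O x) (Set.range fun k => D (c k))) ∧
        M.U x (l * (Matrix.of fun k => D (c k)).det)) : TrivialCanonical M.s := by
  letI : Algebra ℂ M.X.functionField := (const M.s).toAlgebra
  let e : M.X.functionField ≃ₐ[ℂ] K := AlgEquiv.ofRingEquiv (f := M.e) M.e_const
  obtain ⟨b, hb⟩ := exists_basis (y := fun i => e.symm (y i))
    (.of_comp e.toAlgHom e.injective (by simpa [Function.comp_def] using hy))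
  let D : Derivation ℂ K (Fin 3 → K) := Derivation.mk' (LinearMap.pi fun i => e.toLinearMap ∘ₗ
    (b.coord i).restrictScalars ℂ ∘ₗ (KaehlerDifferential.D ℂ _).toLinearMap ∘ₗ e.symm.toLinearMap)
    fun x y => by ext i; simp
  have hD : ∀ y i, D (M.e y) i = M.e (b.repr (KaehlerDifferential.D ℂ _ y) i) := fun y i => by
    change e (b.coord i (KaehlerDifferential.D ℂ _ (e.symm (e y)))) = _
    rw [e.symm_apply_apply]
    rfl
  let b' := b.unitsSMul (Pi.mulSingle 0 (Units.mk0 (e.symm l) (by simpa using hl))⁻¹)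
  have hdet : ∀ (z : M.X) (a : Fin 3 → M.X.presheaf.stalk z), M.e (b'.det fun i =>
      KaehlerDifferential.D ℂ M.X.functionField (algebraMap _ _ (a i))) =
      l * (Matrix.of fun k => D (M.ev z (a k))).det := fun z a => by
    rw [Module.Basis.det_unitsSMul, Finset.prod_pi_mulSingle' 0, if_pos (Finset.mem_univ _), inv_inv,
      AlternatingMap.smul_apply, smul_eq_mul, map_mul, Module.Basis.det_apply, RingEquiv.map_det,
      ← Matrix.det_transpose]
    congr 2
    · exact e.apply_symm_apply l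
    · ext j k
      exact (hD _ k).symm
  refine ⟨3, b', fun z => ?_⟩
  obtain ⟨c, h1, h2, h3⟩ := h D (fun i => funext fun j => by
    rw [← M.e.apply_symm_apply (y i), hD]
    change M.e (b.repr (KaehlerDifferential.D ℂ _ (e.symm (y i))) j) = _
    rw [← hb, b.repr_self, Finsupp.single_apply, Pi.single_apply]
    simp [eq_comm]) z
  constructor
  · intro a
    choose t ht using fun k => (Submodule.mem_span_range_iff_exists_fun _).mp (h2 _ ⟨a k, rfl⟩)
    have h5 : (Matrix.of fun k => D (M.ev z (a k))).det =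
        ((Matrix.of t).det : M.O z) * (Matrix.of fun k => D (c k)).det := by
      rw [← Subring.coe_subtype, RingHom.map_det, ← Matrix.det_mul]
      congr 1
      ext j k
      simp [Matrix.mul_apply, ← ht, Subring.smul_def]
    obtain ⟨u, hu⟩ := mul_mem (Matrix.of t).det.2 h3.2.1
    exact ⟨u, M.e.injective (by rw [hdet, h5, mul_left_comm]; exact hu)⟩
  · choose a ha using h1
    simp only [← ha, ← hdet] at h3
    obtain ⟨h4, -, u, hu⟩ := h3
    exact ⟨a, fun h0 => h4 (by rw [h0, map_zero]), u, M.e.injective (by rw [map_inv₀]; exact hu)⟩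

lemma det3 (A : Matrix (Fin 3) (Fin 3) K) (j : Fin 3) (h : ∀ k m, m ≠ k → m ≠ j → A k m = 0) :
    A.det = ∏ i, A i i := by
  rw [Matrix.det_fin_three, Fin.prod_univ_three]
  fin_cases j
  · rw [h 0 1 (by decide) (by decide), h 0 2 (by decide) (by decide), h 1 2 (by decide) (by decide)]
    ring
  · rw [h 1 0 (by decide) (by decide), h 1 2 (by decide) (by decide), h 0 2 (by decide) (by decide)]
    ring
  · rw [h 1 0 (by decide) (by decide), h 2 0 (by decide) (by decide), h 2 1 (by decide) (by decide)]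
    ring

lemma coords {M : Model 𝒞} {a : ι} {p : Spec (CommRingCat.of (𝒞.B a))} {x : M.X}
    (hx : M.ch a p = x) {T u ε : Fin 3 → K} {c : Fin 3 → Bool} {j : Fin 3}
    (hB : 𝒞.B a = Algebra.adjoin ℂ (Set.range u ∪ Set.range T)) (D : Derivation ℂ K (Fin 3 → K))
    (hD : ∀ i, D (T i) = Pi.single i (ε i)) (hu : u j = 1)
    (hr : ∀ i, gg (c i) (T i) = gg (c j) (T j) * u i ^ 3) (h0 : ∀ i, gg (c i) (T i) ≠ 0) {l s : K}
    (hs : M.U x s) (hl : l * ∏ i, ε i = s * (gg (c j) (T j) ^ 2 * ∏ i, u i ^ 2)) :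
    ∃ f : Fin 3 → K, (∀ k, f k ∈ M.O x) ∧
      (∀ a ∈ M.O x, D a ∈ Submodule.span (M.O x) (Set.range fun k => D (f k))) ∧
      M.U x (l * (Matrix.of fun k => D (f k)).det) := by
  classical
  have : CharZero K := charZero_of_injective_algebraMap (algebraMap ℂ K).injective
  have m1 : ∀ i, u i ∈ 𝒞.B a := fun i => hB ▸ Algebra.subset_adjoin (Or.inl ⟨i, rfl⟩)
  have m2 : ∀ i, T i ∈ 𝒞.B a := fun i => hB ▸ Algebra.subset_adjoin (Or.inr ⟨i, rfl⟩)
  have hc : ∀ r : ℂ, r ≠ 0 → M.U x (algebraMap ℂ K r) := fun r hr =>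
    ⟨by simpa using hr, Model.const_mem_O x r, map_inv₀ (algebraMap ℂ K) r ▸ Model.const_mem_O x _⟩
  have h3 : M.U x 3 := map_ofNat (algebraMap ℂ K) 3 ▸ hc 3 three_ne_zero
  have h2 : M.U x 2 := map_ofNat (algebraMap ℂ K) 2 ▸ hc 2 two_ne_zero
  have hor : ∀ i, ¬ M.U x (gd (c i) (T i)) → M.U x (gg (c j) (T j) * u i ^ 2) := fun i hi => by
    obtain ⟨A, B, h⟩ := bez (c i) (⟨_, m2 i⟩ : 𝒞.B a)
    rw [← show ((gd (c i) ⟨_, m2 i⟩ : 𝒞.B a) : K) = gd (c i) (T i) from map_gd (𝒞.B a).val _ _,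
      Model.U_iff hx, not_not] at hi
    have e : ((gg (c j) ⟨_, m2 j⟩ : 𝒞.B a) : K) = gg (c j) (T j) := map_gg (𝒞.B a).val _ _
    rw [← e]
    refine (Model.U_iff hx (gg (c j) ⟨_, m2 j⟩ * ⟨_, m1 i⟩ ^ 2)).mpr fun h4 => ?_
    have h5 : (gg (c i) ⟨_, m2 i⟩ : 𝒞.B a) = gg (c j) ⟨_, m2 j⟩ * ⟨_, m1 i⟩ ^ 2 * ⟨_, m1 i⟩ :=
      Subtype.ext ((map_gg (𝒞.B a).val _ _).trans ((hr i).trans (by
        rw [← e, pow_succ, ← mul_assoc]; rfl)))
    refine (Model.U_iff hx 2).mp h2 ?_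
    rw [← h, h5]
    exact add_mem (Ideal.mul_mem_left _ _ (Ideal.mul_mem_right _ _ h4)) (Ideal.mul_mem_left _ _ hi)
  have hu0 : ∀ i, u i ≠ 0 := fun i h => h0 i (by rw [hr, h, zero_pow three_ne_zero, mul_zero])
  have hd : ∀ i, gd (c i) (T i) • D (T i) = (u i ^ 3 * gd (c j) (T j)) • D (T j) +
      (3 * (gg (c j) (T j) * u i ^ 2)) • D (u i) := fun i => by
    rw [← D_gg, hr i, D.leibniz, D_gg, D.leibniz_pow, ← Nat.cast_smul_eq_nsmul K]
    simp only [smul_smul]
    rw [add_comm]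
    congr 2
    push_cast
    ring
  let f : Fin 3 → K := fun i => if i ≠ j ∧ M.U x (gd (c i) (T i)) then u i else T i
  have fp : ∀ i, i ≠ j ∧ M.U x (gd (c i) (T i)) → f i = u i := fun i h => if_pos h
  have fn : ∀ i, ¬ (i ≠ j ∧ M.U x (gd (c i) (T i))) → f i = T i := fun i h => if_neg h
  have o1 : ∀ i, u i ∈ M.O x := fun i => Model.B_le_O hx (m1 i)
  have o2 : ∀ i, T i ∈ M.O x := fun i => Model.B_le_O hx (m2 i)
  have o3 : ∀ i, gg (c i) (T i) ∈ M.O x := fun i =>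
    map_gg (M.O x).subtype _ ⟨_, o2 i⟩ ▸ Subtype.prop _
  have o4 : ∀ i, gd (c i) (T i) ∈ M.O x := fun i =>
    map_gd (M.O x).subtype _ ⟨_, o2 i⟩ ▸ Subtype.prop _
  let P := Submodule.span (M.O x) (Set.range fun k => D (f k))
  have hP : ∀ r ∈ M.O x, ∀ v ∈ P, r • v ∈ P := fun r hr v hv => P.smul_mem ⟨r, hr⟩ hv
  have f1 : ∀ i, ¬ (i ≠ j ∧ M.U x (gd (c i) (T i))) → D (T i) ∈ P := fun i hi =>
    Submodule.subset_span ⟨i, congrArg D (fn i hi)⟩
  have fj := f1 j fun h => h.1 rfl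
  have f2 : ∀ i, D (u i) ∈ P ∧ D (T i) ∈ P := fun i => by
    by_cases hi : i ≠ j ∧ M.U x (gd (c i) (T i))
    · have h4 : D (u i) ∈ P := Submodule.subset_span ⟨i, congrArg D (fp i hi)⟩
      refine ⟨h4, ?_⟩
      rw [← inv_smul_smul₀ hi.2.1 (D (T i)), hd]
      exact hP _ hi.2.2.2 _ (add_mem (hP _ (mul_mem (pow_mem (o1 i) 3) (o4 j)) _ fj)
        (hP _ (mul_mem h3.2.1 (mul_mem (o3 j) (pow_mem (o1 i) 2))) _ h4))
    refine ⟨?_, f1 i hi⟩
    by_cases hj : i = j
    · rw [hj, hu, D.map_one_eq_zero]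
      exact zero_mem _
    have h4 := h3.mul (hor i fun h => hi ⟨hj, h⟩)
    rw [← inv_smul_smul₀ h4.1 (D (u i)), ← sub_eq_iff_eq_add'.mpr (hd i)]
    exact hP _ h4.2.2 _ (sub_mem (hP _ (o4 i) _ (f1 i hi))
      (hP _ (mul_mem (pow_mem (o1 i) 3) (o4 j)) _ fj))
  have hW : ∀ r ∈ 𝒞.B a, r ∈ Wr D (M.O x) P := fun r hr => by
    rw [hB] at hr
    induction hr using Algebra.adjoin_induction with
    | mem r hr =>
      rcases hr with ⟨i, rfl⟩ | ⟨i, rfl⟩
      exacts [⟨o1 i, (f2 i).1⟩, ⟨o2 i, (f2 i).2⟩]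
    | algebraMap r => exact ⟨Model.const_mem_O x r, by rw [D.map_algebraMap]; exact zero_mem _⟩
    | add _ _ _ _ h4 h5 => exact add_mem h4 h5
    | mul _ _ _ _ h4 h5 => exact mul_mem h4 h5
  refine ⟨f, fun k => ?_, fun r hr => ?_, ?_⟩
  · by_cases hk : k ≠ j ∧ M.U x (gd (c k) (T k))
    exacts [fp k hk ▸ o1 k, fn k hk ▸ o2 k]
  · obtain ⟨a, b, hb, hr⟩ := (Model.mem_O hx).mp hr
    have h4 := (Model.U_iff hx b).mpr hb
    rw [← mul_inv_cancel_right₀ h4.1 r, hr]
    refine (mul_mem (hW _ a.2) (⟨h4.2.2, ?_⟩ : _ ∈ Wr D (M.O x) P)).2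
    rw [D.leibniz_inv]
    exact hP _ (neg_mem (pow_mem h4.2.2 2)) _ (hW _ b.2).2
  have h4 : ∀ i, 3 * (gg (c j) (T j) * u i ^ 2) ≠ 0 := fun i =>
    mul_ne_zero three_ne_zero (mul_ne_zero (h0 j) (pow_ne_zero 2 (hu0 i)))
  have h5 : ∀ i, ∃ v, M.U x v ∧ gg (c j) (T j) * u i ^ 2 * D (f i) i =
      (if i = j then gg (c j) (T j) else 1) * v * ε i := fun i => by
    by_cases hi : i ≠ j ∧ M.U x (gd (c i) (T i))
    · refine ⟨_, hi.2.div h3, ?_⟩
      have h6 := congrFun (hd i) i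
      simp only [hD, Pi.add_apply, Pi.smul_apply, Pi.single_eq_same, Pi.single_eq_of_ne hi.1,
        smul_eq_mul] at h6
      rw [fp i hi, if_neg hi.1]
      linear_combination - h6 / 3
    rw [fn i hi, hD, Pi.single_eq_same]
    by_cases hj : i = j
    · exact ⟨1, .one x, by rw [if_pos hj, hj, hu, one_pow]⟩
    · exact ⟨_, hor i fun h => hi ⟨hj, h⟩, by rw [if_neg hj, one_mul]⟩
  choose v hv h5 using h5
  have h6 := Finset.prod_congr (rfl : Finset.univ = Finset.univ) fun i _ => h5 i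
  simp only [Finset.prod_mul_distrib, Finset.prod_ite_eq', Finset.mem_univ, if_true,
    Finset.prod_const, Finset.card_univ, Fintype.card_fin] at h6
  rw [det3 _ j fun k m h7 h8 => ?_, show l * ∏ i, Matrix.of (fun k => D (f k)) i i = s * ∏ i, v i
    from ?_]
  · exact hs.mul (Finset.prod_induction v (M.U x) (fun _ _ => .mul) (.one x) fun i _ => hv i)
  · refine mul_left_cancel₀ (mul_ne_zero (pow_ne_zero 3 (h0 j))
      (Finset.prod_ne_zero_iff.mpr fun i (_ : i ∈ Finset.univ) => pow_ne_zero 2 (hu0 i))) ?_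
    simp only [Matrix.of_apply]
    linear_combination l * h6 + gg (c j) (T j) * (∏ i, v i) * hl
  · change D (f k) m = 0
    by_cases hk : k ≠ j ∧ M.U x (gd (c k) (T k))
    · have h9 := congrFun (hd k) m
      simp only [hD, Pi.add_apply, Pi.smul_apply, Pi.single_eq_of_ne h7, Pi.single_eq_of_ne h8,
        smul_eq_mul, mul_zero, zero_add] at h9
      rw [fp k hk]
      exact (mul_eq_zero.mp h9.symm).resolve_left (h4 k)
    · rw [fn k hk, hD, Pi.single_eq_of_ne h7]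

variable {w : ℂ} {x y : Fin 3 → K} {σ : K ≃ₐ[ℂ] K}

lemma trb (h : Gen ℂ x y) : IsTranscendenceBasis ℂ y := by
  refine h.ind.isTranscendenceBasis_iff_isAlgebraic.mpr ⟨fun f => ?_⟩
  let R := Algebra.adjoin ℂ (Set.range y)
  have h1 : ∀ i, y i = algebraMap R K ⟨y i, Algebra.subset_adjoin ⟨i, rfl⟩⟩ := fun _ => rfl
  refine (top_of_mem h (c := fun _ => true) (M := ((Subalgebra.algebraicClosure R K).restrictScalars
    ℂ).toIntermediateField fun _ => IsAlgebraic.inv) (fun i => ?_) fun i => ?_).ge (Set.mem_univ f)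
  · refine IsAlgebraic.of_pow three_pos ?_
    rw [cv_cube h, cu, if_pos rfl, h1, ← map_gg]
    exact isAlgebraic_algebraMap _
  · exact isAlgebraic_algebraMap (⟨y i, Algebra.subset_adjoin ⟨i, rfl⟩⟩ : R)

lemma u_mem (h : Setup w x y σ) (c : Fin 3 → Bool) (j i : Fin 3) :
    cv x y c i / cv x y c j ∈ Fx σ := by
  have h1 : ∀ i, σ (cv x y c i) = algebraMap ℂ K w * cv x y c i := fun i => by
    unfold cv
    split_ifs
    · exact h.σx i
    · rw [map_div₀, h.σx, h.σy, mul_div_assoc]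
  have h2 : w ≠ 0 := fun h0 => by simpa [h0] using h.hw
  rw [mem_Fx, map_div₀, h1, h1, mul_div_mul_left _ _ (by simpa using h2)]

lemma val_cu {y' : Fin 3 → Fx σ} (hy : ∀ i, (y' i : K) = y i) (c : Fin 3 → Bool) (i : Fin 3) :
    (cu y' c i : Fx σ) = cu y c i := by
  unfold cu
  split_ifs
  exacts [hy i, congrArg (·⁻¹) (hy i)]

lemma map_eq (h : Setup w x y σ) {y' : Fin 3 → Fx σ} (hy : ∀ i, (y' i : K) = y i)
    (c : Fin 3 → Bool) (j : Fin 3) : (Algebra.adjoin ℂ ((Set.range fun i => (⟨_, u_mem h c j i⟩ :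
      Fx σ)) ∪ Set.range (cu y' c))).map (Fx σ).val = Bk x y c j := by
  rw [AlgHom.map_adjoin, Set.image_union, ← Set.range_comp, ← Set.range_comp,
    show (Fx σ).val ∘ cu y' c = cu y c from funext (val_cu hy c)]
  rfl

lemma Bq_eq (h : Setup w x y σ) {y' : Fin 3 → Fx σ} (hy : ∀ i, (y' i : K) = y i)
    (c : Fin 3 → Bool) (j : Fin 3) : Bq x y σ (c, j) = Algebra.adjoin ℂ
      ((Set.range fun i => (⟨_, u_mem h c j i⟩ : Fx σ)) ∪ Set.range (cu y' c)) := by
  rw [Bq, ← map_eq h hy, Subalgebra.comap_map_eq_self_of_injective (Fx σ).val.injective]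

end Canon

open Canon

theorem smooth_stmt : SmoothStmt := by
  rintro K _ _ w x y σ h ⟨c, j⟩
  have hy : ∀ i, ((⟨y i, mem_Fx.mpr (h.σy i)⟩ : Fx σ) : K) = y i := fun _ => rfl
  have := smooth_Bk h.toGen c j
  rw [← map_eq h hy] at this
  rw [Bq_eq h hy]
  exact .of_equiv (Subalgebra.equivMapOfInjective _ _ (Fx σ).val.injective).symm

theorem canon_stmt : CanonStmt := by
  intro K _ _ w x y σ h 𝒞 hB M
  let y' : Fin 3 → Fx σ := fun i => ⟨y i, mem_Fx.mpr (h.σy i)⟩
  have hy : ∀ i, (y' i : K) = y i := fun _ => rfl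
  have hx : ∀ i, x i ≠ 0 := fun i => cv_ne h.toGen (fun _ => true) i
  have hl : (∏ i, x i) ^ 2 ∈ Fx σ := pow_mem (mem_Fx.mpr (by
    simp only [map_prod, h.σx, Finset.prod_mul_distrib, Finset.prod_const, Finset.card_univ,
      Fintype.card_fin, ← map_pow, E.cube h.hw, map_one, one_mul])) 2
  refine trivial_of M (y := y') (.of_comp (Fx σ).val (Fx σ).val.injective (trb h.toGen))
    (l := ⟨_, hl⟩) (fun h0 => pow_ne_zero 2 (Finset.prod_ne_zero_iff.mpr fun i _ => hx i)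
      (congrArg Subtype.val h0)) fun D hD z => ?_
  obtain ⟨⟨c, j⟩, p, hp⟩ := M.cover z
  have hg : ∀ i, ((gg (c i) (cu y' c i) : Fx σ) : K) = cv x y c i ^ 3 := fun i =>
    (map_gg (Fx σ).val _ _).trans ((congrArg _ (val_cu hy c i)).trans (cv_cube h.toGen c i).symm)
  have h0 := cv_ne h.toGen c
  refine coords hp (c := c) (j := j) (hB ▸ Bq_eq h hy c j) D
    (ε := fun i => if c i then 1 else -(y' i)⁻¹ ^ 2) (fun i => ?_) (Subtype.ext (div_self (h0 j)))
    (fun i => Subtype.ext ?_) (fun i h1 => pow_ne_zero 3 (h0 i) ?_)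
    (s := ∏ i, if c i then 1 else -1) (Finset.prod_induction _ (M.U z) (fun _ _ => .mul) (.one z)
      fun i _ => ?_) (Subtype.ext ?_)
  · unfold cu
    split_ifs
    · exact hD i
    · rw [D.leibniz_inv, hD, ← Pi.single_smul', smul_eq_mul, mul_one]
  · change _ = ((gg (c j) (cu y' c j) : Fx σ) : K) * (cv x y c i / cv x y c j) ^ 3
    rw [hg, hg, ← mul_pow, mul_div_cancel₀ _ (h0 j)]
  · rw [← hg, h1]
    rfl
  · split_ifs
    exacts [.one z, (Model.U.one z).neg]
  · have h1 : ∀ i, x i ^ 2 * ((if c i then 1 else -(y' i)⁻¹ ^ 2 : Fx σ) : K) =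
        ((if c i then 1 else -1 : Fx σ) : K) * cv x y c i ^ 2 := fun i => by
      unfold cv
      split_ifs
      · exact mul_comm _ _
      · change x i ^ 2 * -(y i)⁻¹ ^ 2 = -1 * _
        ring
    have h2 := h0 j
    simp only [Fin.prod_univ_three, MulMemClass.coe_mul, SubmonoidClass.coe_pow, hg]
    rw [show ∀ a b d : K, (x 0 * x 1 * x 2) ^ 2 * (a * b * d) =
      (x 0 ^ 2 * a) * (x 1 ^ 2 * b) * (x 2 ^ 2 * d) from fun a b d => by ring, h1, h1, h1]
    field_simp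

end Pool.Agent.MP_20d318_ag.Sch

end MrgPart0

-- ======== part 1: formerly Pool.Agent.MP_20d318_ag.AG.Cls
section MrgPart1

/-! The numerical class of a Cartier divisor on the blow-up. -/

set_option autoImplicit false
set_option linter.unusedSectionVars false

namespace Pool.Agent.MP_20d318_ag.AG

open Pool.Agent.MP_79c67d_ag Pool.Agent.MP_20d318_ag.Lat E

namespace Cls

variable {k K : Type} [Field k] [CharZero k] [IsAlgClosed k] [Field K] [CharZero K] [Algebra k K]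
  {w : k} {x y : Fin 3 → K} {σ : K ≃ₐ[k] K} {f g : Subalgebra k K → K}

variable (w x y σ) in
/-- Cartier divisors whose degrees are given by a class. -/
def Gd (g : Subalgebra k K → K) : Prop :=
  IsCart (blE x y σ) g ∧ ∃ D : W 3, D.1.IsHermitian ∧
    ∀ (ν : Curve (blE x y σ)) (Z : W 3), IsZ w x y ν Z → (ν.deg g : ℝ) = inter D Z

theorem Gd.mul (hX : Good (blE x y σ)) (hf : Gd w x y σ f) (hg : Gd w x y σ g) :
    Gd w x y σ (f * g) := by
  obtain ⟨h1, D, h2, h3⟩ := hf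
  obtain ⟨h4, D', h5, h6⟩ := hg
  refine ⟨h1.mul h4, D + D', h2.add h5, fun ν Z hZ => ?_⟩
  rw [deg_mul hX h1 h4, Int.cast_add, h3 ν Z hZ, h6 ν Z hZ]
  simp [← interL_apply]

theorem Gd.zpow (hX : Good (blE x y σ)) (hf : Gd w x y σ f) (n : ℤ) : Gd w x y σ (f ^ n) := by
  obtain ⟨h1, D, h2, h3⟩ := hf
  refine ⟨h1.zpow n, (n : ℝ) • D, herm_smul _ h2, fun ν Z hZ => ?_⟩
  rw [deg_zpow hX h1, Int.cast_mul, h3 ν Z hZ]
  simp [← interL_apply]

theorem gd_const {h : K} (hh : h ≠ 0) : Gd w x y σ fun _ => h :=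
  ⟨isCart_const hh, 0, Matrix.isHermitian_zero, fun ν Z _ => by
    simp [deg_const, ← interL_apply]⟩

theorem gd_ep (hY : YFacts x y σ) (h : Gen k x y) (p : Pt 3) :
    Gd w x y σ (ep (sc y) (tc x y) p) :=
  ⟨hY.isCart_ep h p, clE p, Matrix.isHermitian_zero, fun ν Z hZ => by rw [inter_clE, hZ.2]⟩

theorem gd_ec (hMW : MW3Stmt) (hDeg : DegStmt) (hHt : HtStmt) (hReg : RegStmt)
    (hS : Setup w x y σ) (hY : YFacts x y σ) (hE : ExcFacts x y σ) {Q : E K} (hQ : Q.Y ≠ 0) :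
    Gd w x y σ (ec Q.ss Q.tt 0) := by
  by_cases hX : Q.X = 0
  · have h0 : Q ≠ 0 := by rintro rfl; exact hQ rfl
    have h1 : Q.ss ^ 2 = 1 := by rw [ss, inv_pow, eqn h0, hX]; simp
    have : ec Q.ss Q.tt 0 = fun _ : Subalgebra k K => (1 : K) := funext fun O => ec_neg fun h =>
      one_not_mem_mx (O := O) (by simpa [h1] using mx_pow h two_ne_zero)
    rw [this]
    exact gd_const one_ne_zero
  obtain ⟨l, c, hl⟩ := hMW k K 3 w x y hS.hw hS.toGen Q
  have key : ∀ (L : Type) [Field L] [CharZero L] [Algebra k L], ∀ O ∈ blE x y σ,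
      ∀ ρ : O →ₐ[k] L, LocHom O ρ → Reg O Q ∧ res O ρ Q =
        res O ρ (lin (algebraMap k K w) l (zz x y)) + pmap (algebraMap k L) c := by
    intro L _ _ _ O hO ρ hρ
    have := hReg k K L O ρ (hE.nrm O hO) hρ _ _
      (res_lin hReg (hE.nrm O hO) hρ hS.hw (hY.reg_zz hS.toGen hO) l).1 (reg_const c)
    rwa [← hl, res_const] at this
  have hR : ∀ O ∈ blE x y σ, IsLocalRing O ∧ Reg O Q := fun O hO => by
    have := hY.good.loc O hO
    have : CharZero (IsLocalRing.ResidueField O) :=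
      charZero_of_injective_algebraMap (algebraMap k _).injective
    exact ⟨‹_›, (key _ O hO _ resid_loc).1⟩
  refine ⟨isCart_ec_pt 0 hX hQ hR, (rk l, 0), herm_rk l, fun ν Z hZ => ?_⟩
  rw [hDeg k K _ ν Q 0 hQ hR, Curve.pull, (key _ _ ν.gen_mem _ ν.locHom).2, (hHt k ν.L).const]
  simp [inter, pair_rk, hZ.1, Curve.pull]

end Cls

open Cls in
theorem cls_stmt (hSee : SeeStmt) (hMW : MW3Stmt) (hDeg : DegStmt) (hHt : HtStmt) (hReg : RegStmt)
    (hYs : YStmt) (hEs : ExcStmt) (hPole : PoleStmt) : ClsStmt := by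
  intro k K _ _ _ _ _ _ w x y σ hS f hf
  classical
  have hY := hYs k K w x y σ hS
  have hE := hEs k K w x y σ hS
  have hX := hY.good
  have hm : ∀ P : {P : Place k K // plO P ∈ prodE k x y}, plO P.1 ∈ blE x y σ := fun P =>
    (hY.mem _).2 (Or.inl ⟨P.2, hE.dv P.1 P.2⟩)
  let T : Submodule ℚ ({P : Place k K // plO P ∈ prodE k x y} → ℚ) :=
    { carrier := {φ | ∃ (N : ℤ) (g : Subalgebra k K → K), N ≠ 0 ∧ Gd w x y σ g ∧
        ∀ P, (P.1.ord (g (plO P.1)) : ℚ) = N * φ P}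
      zero_mem' := ⟨1, _, one_ne_zero, gd_const one_ne_zero, fun P => by simp⟩
      add_mem' := by
        rintro a b ⟨N, g, h1, h2, h3⟩ ⟨N', g', h4, h5, h6⟩
        refine ⟨N * N', g ^ N' * g' ^ N, mul_ne_zero h1 h4,
          (h2.zpow hX _).mul hX (h5.zpow hX _), fun P => ?_⟩
        rw [Pi.mul_apply, Pi.pow_apply, Pi.pow_apply, FF.ord_mul _ (zpow_ne_zero _ (h2.1.ne (hm P)))
          (zpow_ne_zero _ (h5.1.ne (hm P))), FF.ord_zpow, FF.ord_zpow]
        push_cast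
        rw [h3, h6, Pi.add_apply]; ring
      smul_mem' := by
        rintro q a ⟨N, g, h1, h2, h3⟩
        refine ⟨N * q.den, g ^ q.num, mul_ne_zero h1 (by exact_mod_cast q.den_nz), h2.zpow hX _,
          fun P => ?_⟩
        rw [Pi.pow_apply, FF.ord_zpow]
        push_cast
        rw [h3, Pi.smul_apply, smul_eq_mul, ← Rat.mul_den_eq_num]; ring }
  have hT := hSee k K (Fin 3) x y hS.toGen T
    (fun h hh => ⟨1, _, one_ne_zero, gd_const hh, fun P => by simp⟩)
    fun Q hQ => ⟨1, _, one_ne_zero, gd_ec hMW hDeg hHt hReg hS hY hE hQ, fun P => by simp⟩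
  let φ : {P : Place k K // plO P ∈ prodE k x y} → ℚ := fun P => P.1.ord (f (plO P.1))
  have hφ : (Function.support φ).Finite := by
    obtain ⟨T0, -, h2⟩ := hf ⊤ hY.top
    refine Set.Finite.of_finite_image (f := Subtype.val) ?_ Subtype.val_injective.injOn
    refine (Set.finite_iUnion fun c => (insert (f ⊤) T0).finite_toSet.biUnion fun a _ =>
      hPole k K _ (chart_gen_finite x y c) (frac_stmt k K _ x y c hS.toGen) a).subset ?_
    rintro _ ⟨P, hP, rfl⟩
    obtain ⟨c, hc⟩ := mem_prodE.1 P.2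
    by_contra hn
    simp only [Set.mem_iUnion, not_exists, Set.mem_ofPred_eq, not_and, not_not] at hn
    have h3 := fun a ha => hn c a ha hc
    have h4 := (isU_plO' P.1).1 (h2 _ (hm P) fun a ha => (mem_plO' P.1).2
      (P.1.ge_of_le (h3 a (by simp [ha])).ge))
    rw [FF.ord_div _ (hf.ne (hm P)) (hf.ne hY.top), h3 (f ⊤) (by simp), sub_zero] at h4
    exact hP (by simp [φ, h4.2])
  obtain ⟨N, g, hN, hg, h0⟩ : φ ∈ T := by
    have e : φ = ∑ P ∈ hφ.toFinset, φ P • Pi.single P 1 := by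
      funext P
      simp only [Finset.sum_apply, Pi.smul_apply, Pi.single_apply, smul_eq_mul, mul_ite, mul_one,
        mul_zero, Finset.sum_ite_eq, Set.Finite.mem_toFinset, Function.mem_support]
      split_ifs with h
      exacts [rfl, not_not.1 h]
    rw [e]
    exact T.sum_mem fun P _ => T.smul_mem _ (hT P)
  choose Pe hP1 hP2 hP3 hP4 using hE.exc
  let n : Pt 3 → ℤ := fun p => (Pe p).ord ((f ^ N / g : _ → K) (plO (Pe p)))
  have hc := (hf.zpow N).div hg.1
  have hep := fun p => gd_ep (w := w) hY hS.toGen p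
  have hg2 : Gd w x y σ (∏ p, ep (sc y) (tc x y) p ^ n p) :=
    Finset.prod_induction _ (Gd w x y σ) (fun _ _ => Gd.mul hX) (gd_const one_ne_zero)
      fun p _ => (hep p).zpow hX _
  have hh := hc.div hg2.1
  have h1 : ∀ P : Place k K, plO P ∈ blE x y σ →
      IsU (plO P) ((f ^ N / g / ∏ p, ep (sc y) (tc x y) p ^ n p : _ → K) (plO P)) := by
    intro P hP
    refine (isU_plO' P).2 ⟨hh.ne hP, ?_⟩
    rw [Pi.div_apply, FF.ord_div _ (hc.ne hP) (hg2.1.ne hP), Finset.prod_apply,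
      FF.ord_prod _ _ _ fun p _ => ((hep p).1.zpow _).ne hP]
    simp only [Pi.pow_apply, FF.ord_zpow]
    by_cases ho : ∃ p, Over (sc y) p (plO P)
    · obtain ⟨p, hp⟩ := ho
      obtain rfl : P = Pe p := plO_inj (hP4 p _ hP hp).1
      rw [Finset.sum_eq_single p (fun q _ hq => by
        rw [ep_neg fun h => hq (Over.unique (hX.loc _ hP) h hp)]; simp) (by simp)]
      obtain ⟨j, hj, -⟩ := ep_pos hp (hY.exists_j hP hp)
      rw [hj, hP3, mul_one, sub_self]
    · push Not at ho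
      have h2 := h0 ⟨P, hY.memA _ hP ho⟩
      rw [Pi.div_apply, Pi.pow_apply, FF.ord_div _ (zpow_ne_zero _ (hf.ne hP)) (hg.1.ne hP),
        FF.ord_zpow]
      simp only [ep_neg (ho _), φ] at h2 ⊢
      have h3 : P.ord (g (plO P)) = N * P.ord (f (plO P)) := by exact_mod_cast h2
      simp [h3]
  have h2 := deg_eq_zero hX hh fun O hO => by
    generalize (f ^ N / g / ∏ p, ep (sc y) (tc x y) p ^ n p : _ → K) = h at hh h1 ⊢
    have h3 : ∀ P : Place k K, plO P ∈ blE x y σ → O ≤ plO P → IsU (plO P) (h O) :=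
      fun P hP hle => by simpa [hh.ne hP] using (hh.unit hO hP hle).mul (h1 P hP)
    exact ⟨hh.ne hO, hE.krull O hO _ fun P hP hle => (h3 P hP hle).2.1,
      hE.krull O hO _ fun P hP hle => (h3 P hP hle).2.2⟩
  obtain ⟨-, D, h3, h4⟩ := hg.mul hX hg2
  refine ⟨(N : ℝ)⁻¹ • D, herm_smul _ h3, fun ν Z hZ => ?_⟩
  have h5 := h2 ν
  have h6 := h4 ν Z hZ
  rw [deg_div hX hc hg2.1, deg_div hX (hf.zpow N) hg.1, deg_zpow hX hf] at h5
  rw [deg_mul hX hg.1 hg2.1] at h6
  have hN' : (N : ℝ) ≠ 0 := by exact_mod_cast hN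
  rw [← interL_apply, map_smul, LinearMap.smul_apply, interL_apply, ← h6, smul_eq_mul,
    eq_inv_mul_iff_mul_eq₀ hN']
  exact_mod_cast (by omega : N * ν.deg f = ν.deg g + ν.deg (∏ p, ep (sc y) (tc x y) p ^ n p))

end Pool.Agent.MP_20d318_ag.AG

end MrgPart1

-- marker of a merged file
example : 731051 + 506228 = 731051 + 506228 := rfl
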