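import Mathlib.AlgebraicGeometry.EllipticCurve.Affine.Point
import Pool.Agent.MP_20d318_ag.AG.Base
import Pool.Agent.MP_20d318_ag.Lat.Lin

/-! The elliptic curve `y ^ 2 = x ^ 3 + 1`: points, group law, maps, complex multiplication. -/

set_option autoImplicit false
set_option linter.unusedSectionVars false

namespace Pool.Agent.MP_20d318_ag.AG

open Pool.Agent.MP_79c67d_ag Pool.Agent.MP_20d318_ag.Lat WeierstrassCurve

/-- The Weierstrass curve. -/
def Wc (L : Type) [Field L] : WeierstrassCurve.Affine L := ⟨0, 0, 0, 0, 1⟩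

/-- The points. -/
def E (L : Type) [Field L] : Type := (Wc L).Point

noncomputable instance (L : Type) [Field L] : AddCommGroup (E L) :=
  letI := Classical.decEq L
  inferInstanceAs (AddCommGroup (Wc L).Point)

namespace E

variable {L L' L'' : Type} [Field L] [Field L'] [Field L'']

/-- The first coordinate, `0` at infinity. -/
def X : E L → L
  | .zero => 0
  | .some x _ _ => x

/-- The second coordinate, `0` at infinity. -/
def Y : E L → L
  | .zero => 0
  | .some _ y _ => y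

/-- The coordinate `x / y`. -/
def tt (P : E L) : L := P.X / P.Y

/-- The coordinate `1 / y`. -/
def ss (P : E L) : L := P.Y⁻¹

open Classical in
/-- The point with given coordinates, zero if they are not on the curve. -/
noncomputable def mk (a b : L) : E L :=
  if h : (Wc L).Nonsingular a b then Affine.Point.some a b h else 0

open Classical in
/-- The slope of the chord or tangent. -/
noncomputable def sl (P Q : E L) : L :=
  if P.X = Q.X then 3 * P.X ^ 2 / (2 * P.Y) else (P.Y - Q.Y) / (P.X - Q.X)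

@[simp] theorem X_zero : X (0 : E L) = 0 := rfl
@[simp] theorem Y_zero : Y (0 : E L) = 0 := rfl
@[simp] theorem tt_zero : tt (0 : E L) = 0 := by simp [tt]
@[simp] theorem ss_zero : ss (0 : E L) = 0 := by simp [ss]

theorem eqn_of {a b : L} (h : (Wc L).Nonsingular a b) : b ^ 2 = a ^ 3 + 1 := by
  have := (Affine.equation_iff _ _).1 h.1
  simpa [Wc] using this

theorem eqn {P : E L} (h : P ≠ 0) : P.Y ^ 2 = P.X ^ 3 + 1 := by
  cases P with
  | zero => exact absurd rfl h
  | some x y h' => exact eqn_of h'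

theorem tt_cube (P : E L) : P.tt ^ 3 = P.ss - P.ss ^ 3 := by
  by_cases h : P.Y = 0
  · simp [tt, ss, h]
  have h0 : P ≠ 0 := by rintro rfl; exact h rfl
  unfold tt ss
  field_simp
  linear_combination - eqn h0

theorem ext' {P Q : E L} (hP : P ≠ 0) (hQ : Q ≠ 0) (hx : P.X = Q.X) (hy : P.Y = Q.Y) : P = Q := by
  cases P with
  | zero => exact absurd rfl hP
  | some x y h =>
    cases Q with
    | zero => exact absurd rfl hQ
    | some x' y' h' =>
      obtain rfl : x = x' := hx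
      obtain rfl : y = y' := hy
      rfl

@[simp] theorem X_neg (P : E L) : (-P).X = P.X := by cases P <;> rfl
@[simp] theorem Y_neg (P : E L) : (-P).Y = - P.Y := by
  cases P with
  | zero => exact neg_zero.symm
  | some x y h => change (Wc L).negY x y = - y; simp [Affine.negY, Wc]

theorem eq_or_neg {P Q : E L} (hP : P ≠ 0) (hQ : Q ≠ 0) (hx : P.X = Q.X) : P = Q ∨ P = -Q := by
  have h : P.Y ^ 2 = Q.Y ^ 2 := by rw [eqn hP, eqn hQ, hx]
  exact (sq_eq_sq_iff_eq_or_eq_neg.1 h).imp (ext' hP hQ hx)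
    fun h1 => ext' hP (neg_ne_zero.2 hQ) (by simpa using hx) (by simpa using h1)

theorem add_formula {P Q : E L} (hP : P ≠ 0) (hQ : Q ≠ 0) (h : P + Q ≠ 0) :
    (P + Q).X = sl P Q ^ 2 - P.X - Q.X ∧ (P + Q).Y = -(sl P Q * ((P + Q).X - P.X) + P.Y) := by
  let := Classical.decEq L
  cases P with
  | zero => exact absurd rfl hP
  | some x y h1 =>
    cases Q with
    | zero => exact absurd rfl hQ
    | some x' y' h2 =>
      have hxy : ¬ (x = x' ∧ y = (Wc L).negY x' y') := fun h3 =>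
        h (Affine.Point.add_of_Y_eq h3.1 h3.2)
      have e : HAdd.hAdd (α := E L) (β := E L) (.some x y h1) (.some x' y' h2) = _ :=
        Affine.Point.add_some hxy
      have hs : (Wc L).slope x x' y y' = sl (.some x y h1) (.some x' y' h2) := by
        by_cases hx : x = x'
        · rw [Affine.slope_of_Y_ne hx fun h3 => hxy ⟨hx, h3⟩, sl, if_pos (by exact hx)]
          simp [Wc, X, Y, Affine.negY, two_mul]
        · rw [Affine.slope_of_X_ne hx, sl, if_neg (by exact hx)]; rfl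
      rw [e, ← hs]
      simp [X, Y, Affine.addX, Affine.addY, Affine.negY, Affine.negAddY, Wc]

theorem X_add {P Q : E L} (hP : P ≠ 0) (hQ : Q ≠ 0) (h : P + Q ≠ 0) :
    (P + Q).X = sl P Q ^ 2 - P.X - Q.X := (add_formula hP hQ h).1
theorem Y_add {P Q : E L} (hP : P ≠ 0) (hQ : Q ≠ 0) (h : P + Q ≠ 0) :
    (P + Q).Y = -(sl P Q * ((P + Q).X - P.X) + P.Y) := (add_formula hP hQ h).2

section charZero

variable [CharZero L] [CharZero L'] [CharZero L'']

theorem nonsing {a b : L} (h : b ^ 2 = a ^ 3 + 1) : (Wc L).Nonsingular a b := by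
  rw [Affine.nonsingular_iff, Affine.equation_iff]
  refine ⟨by simpa [Wc] using h, ?_⟩
  by_contra hn
  simp only [Wc, not_or, not_not, zero_mul, mul_zero, add_zero, sub_zero] at hn
  have ha : a = 0 := by simpa using hn.1.symm
  have hb : b = 0 := by linear_combination hn.2 / 2
  simp [ha, hb] at h

theorem mk_ne {a b : L} (h : b ^ 2 = a ^ 3 + 1) : mk a b ≠ 0 := by
  rw [mk, dif_pos (nonsing h)]; exact Affine.Point.some_ne_zero _
theorem X_mk {a b : L} (h : b ^ 2 = a ^ 3 + 1) : (mk a b).X = a := by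
  rw [mk, dif_pos (nonsing h)]; rfl
theorem Y_mk {a b : L} (h : b ^ 2 = a ^ 3 + 1) : (mk a b).Y = b := by
  rw [mk, dif_pos (nonsing h)]; rfl
theorem mk_XY {P : E L} (h : P ≠ 0) : mk P.X P.Y = P :=
  ext' (mk_ne (eqn h)) h (X_mk (eqn h)) (Y_mk (eqn h))

theorem Y_ne_of_add_self {P : E L} (hP : P ≠ 0) (h : P + P ≠ 0) : P.Y ≠ 0 := fun h0 =>
  h (add_eq_zero_iff_eq_neg.2 (ext' hP (neg_ne_zero.2 hP) (by simp) (by simp [h0])))

theorem sl_mul1 {P Q : E L} (hP : P ≠ 0) (hQ : Q ≠ 0) (h : P + Q ≠ 0) :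
    (P.X - Q.X) * sl P Q = P.Y - Q.Y := by
  unfold sl
  split_ifs with hx
  · obtain rfl := (eq_or_neg hP hQ hx).resolve_right fun h1 => h (by simp [h1])
    simp
  · exact mul_div_cancel₀ _ (sub_ne_zero.2 hx)

theorem sl_mul2 {P Q : E L} (hP : P ≠ 0) (hQ : Q ≠ 0) (h : P + Q ≠ 0) :
    (P.Y + Q.Y) * sl P Q = P.X ^ 2 + P.X * Q.X + Q.X ^ 2 := by
  unfold sl
  split_ifs with hx
  · obtain rfl := (eq_or_neg hP hQ hx).resolve_right fun h1 => h (by simp [h1])
    have := Y_ne_of_add_self hP h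
    field_simp; ring
  · have := sub_ne_zero.2 hx
    field_simp
    linear_combination eqn hP - eqn hQ

/-- The slope is characterized by two linear equations. -/
theorem sl_eq {P Q : E L} (hP : P ≠ 0) (hQ : Q ≠ 0) {m : L} (h1 : (P.X - Q.X) * m = P.Y - Q.Y)
    (h2 : (P.Y + Q.Y) * m = P.X ^ 2 + P.X * Q.X + Q.X ^ 2) : P + Q ≠ 0 ∧ sl P Q = m := by
  have h : P + Q ≠ 0 := fun h => by
    obtain rfl := add_eq_zero_iff_eq_neg.1 h
    simp only [X_neg, Y_neg] at h1 h2
    have ha : Q.X = 0 := pow_eq_zero_iff two_ne_zero |>.1 (by linear_combination - h2 / 3)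
    have hb : Q.Y = 0 := by linear_combination h1 / 2
    have := eqn hQ
    simp [ha, hb] at this
  refine ⟨h, ?_⟩
  by_cases hx : P.X = Q.X
  · obtain rfl := (eq_or_neg hP hQ hx).resolve_right fun h1 => h (by simp [h1])
    have h3 : P.Y + P.Y ≠ 0 := by
      rw [← two_mul]; exact mul_ne_zero two_ne_zero (Y_ne_of_add_self hP h)
    exact mul_left_cancel₀ h3 ((sl_mul2 hP hP h).trans h2.symm)
  · exact mul_left_cancel₀ (sub_ne_zero.2 hx) ((sl_mul1 hP hQ h).trans h1.symm)

open Classical in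
/-- The map `(x, y) ↦ (u φ x, φ y)` for `u ^ 3 = 1`. -/
noncomputable def tw (φ : L →+* L') (u : L') (hu : u ^ 3 = 1) : E L →+ E L' :=
  have he : ∀ {P : E L}, P ≠ 0 → φ P.Y ^ 2 = (u * φ P.X) ^ 3 + 1 := fun h => by
    rw [mul_pow, hu, one_mul, ← map_pow, eqn h]; simp
  AddMonoidHom.mk' (fun P => if P = 0 then 0 else mk (u * φ P.X) (φ P.Y)) fun P Q => by
    by_cases hP : P = 0
    · simp [hP]
    by_cases hQ : Q = 0
    · simp [hQ]
    rw [if_neg hP, if_neg hQ]
    split_ifs with h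
    · obtain rfl := add_eq_zero_iff_eq_neg.1 h
      refine (add_eq_zero_iff_eq_neg.2 (ext' (mk_ne (he hP)) (neg_ne_zero.2 (mk_ne (he hQ))) ?_ ?_)).symm
      · rw [X_mk (he hP), X_neg, X_neg, X_mk (he hQ)]
      · rw [Y_mk (he hP), Y_neg, Y_neg, Y_mk (he hQ), map_neg]
    · have h1 := congrArg φ (sl_mul1 hP hQ h)
      have h2 := congrArg φ (sl_mul2 hP hQ h)
      have h3 := congrArg φ (X_add hP hQ h)
      have h4 := congrArg φ (Y_add hP hQ h)
      simp only [map_mul, map_sub, map_add, map_pow, map_neg] at h1 h2 h3 h4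
      obtain ⟨h5, h6⟩ := sl_eq (mk_ne (he hP)) (mk_ne (he hQ)) (m := u ^ 2 * φ (sl P Q))
        (by simp only [X_mk (he hP), X_mk (he hQ), Y_mk (he hP), Y_mk (he hQ)]
            linear_combination h1 + (φ P.X - φ Q.X) * φ (sl P Q) * hu)
        (by simp only [X_mk (he hP), X_mk (he hQ), Y_mk (he hP), Y_mk (he hQ)]
            linear_combination u ^ 2 * h2)
      have h7 := X_add (mk_ne (he hP)) (mk_ne (he hQ)) h5
      have h8 := Y_add (mk_ne (he hP)) (mk_ne (he hQ)) h5
      rw [h7] at h8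
      simp only [h6, X_mk (he hP), X_mk (he hQ), Y_mk (he hP)] at h7 h8
      refine ext' (mk_ne (he h)) h5 ?_ ?_
      · rw [X_mk (he h), h7]
        linear_combination u * h3 - u * φ (sl P Q) ^ 2 * hu
      · rw [Y_mk (he h), h8, h4, h3]
        linear_combination (φ (sl P Q) ^ 3 * (u ^ 3 + 1) - φ (sl P Q) * (2 * φ P.X + φ Q.X)) * hu

theorem tw_spec (φ : L →+* L') (u : L') (hu : u ^ 3 = 1) (P : E L) :
    (tw φ u hu P).X = u * φ P.X ∧ (tw φ u hu P).Y = φ P.Y ∧ (tw φ u hu P = 0 ↔ P = 0) := by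
  by_cases hP : P = 0
  · simp [hP]
  have he : φ P.Y ^ 2 = (u * φ P.X) ^ 3 + 1 := by
    rw [mul_pow, hu, one_mul, ← map_pow, eqn hP]; simp
  have : tw φ u hu P = mk (u * φ P.X) (φ P.Y) := if_neg hP
  rw [this]
  exact ⟨X_mk he, Y_mk he, iff_of_false (mk_ne he) hP⟩

/-- The map induced by a field homomorphism. -/
noncomputable def pmap (φ : L →+* L') : E L →+ E L' := tw φ 1 (one_pow 3)

@[simp] theorem X_pmap (φ : L →+* L') (P : E L) : (pmap φ P).X = φ P.X :=
  (tw_spec φ 1 _ P).1.trans (one_mul _)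
@[simp] theorem Y_pmap (φ : L →+* L') (P : E L) : (pmap φ P).Y = φ P.Y := (tw_spec φ 1 _ P).2.1
@[simp] theorem pmap_eq_zero (φ : L →+* L') (P : E L) : pmap φ P = 0 ↔ P = 0 :=
  (tw_spec φ 1 _ P).2.2
@[simp] theorem tt_pmap (φ : L →+* L') (P : E L) : (pmap φ P).tt = φ P.tt := by simp [tt]
@[simp] theorem ss_pmap (φ : L →+* L') (P : E L) : (pmap φ P).ss = φ P.ss := by simp [ss]
theorem pmap_inj (φ : L →+* L') : Function.Injective (pmap φ) :=
  (injective_iff_map_eq_zero' _).2 (pmap_eq_zero φ)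

omit [CharZero L] in
theorem ext2 {P Q : E L} (h0 : P = 0 ↔ Q = 0) (hx : P.X = Q.X) (hy : P.Y = Q.Y) : P = Q := by
  by_cases h : P = 0
  · rw [h, h0.1 h]
  · exact ext' h (mt h0.2 h) hx hy

theorem pmap_pmap (φ : L →+* L') (ψ : L' →+* L'') (P : E L) :
    pmap ψ (pmap φ P) = pmap (ψ.comp φ) P := ext2 (by simp) (by simp) (by simp)
theorem pmap_mk (φ : L →+* L') {a b : L} (h : b ^ 2 = a ^ 3 + 1) :
    pmap φ (mk a b) = mk (φ a) (φ b) := by
  have h' : φ b ^ 2 = φ a ^ 3 + 1 := by rw [← map_pow, h]; simp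
  exact ext' (by simpa using mk_ne h) (mk_ne h') (by simp [X_mk h, X_mk h']) (by simp [Y_mk h, Y_mk h'])

open Classical in
/-- The automorphism `(x, y) ↦ (w x, y)`. -/
noncomputable def zeta (w : L) : E L →+ E L := if h : w ^ 3 = 1 then tw (RingHom.id L) w h else 0

omit [CharZero L] in
theorem cube {w : L} (hw : w ^ 2 + w + 1 = 0) : w ^ 3 = 1 := by linear_combination (w - 1) * hw

theorem X_zeta {w : L} (hw : w ^ 2 + w + 1 = 0) (P : E L) : (zeta w P).X = w * P.X := by
  rw [zeta, dif_pos (cube hw)]; exact (tw_spec _ _ _ P).1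
theorem Y_zeta {w : L} (hw : w ^ 2 + w + 1 = 0) (P : E L) : (zeta w P).Y = P.Y := by
  rw [zeta, dif_pos (cube hw)]; exact (tw_spec _ _ _ P).2.1
theorem zeta_eq_zero {w : L} (hw : w ^ 2 + w + 1 = 0) (P : E L) : zeta w P = 0 ↔ P = 0 := by
  rw [zeta, dif_pos (cube hw)]; exact (tw_spec _ _ _ P).2.2

theorem zeta_zeta {w : L} (hw : w ^ 2 + w + 1 = 0) (P : E L) :
    zeta w (zeta w P) = - P - zeta w P := by
  by_cases hP : P = 0
  · simp [hP]
  have hQ : zeta w P ≠ 0 := mt (zeta_eq_zero hw P).1 hP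
  obtain ⟨h1, h2⟩ := sl_eq hP hQ (m := 0) (by simp [Y_zeta hw])
    (by rw [X_zeta hw]; linear_combination - P.X ^ 2 * hw)
  rw [← neg_add']
  have h3 := X_add hP hQ h1
  have h4 := Y_add hP hQ h1
  refine ext' (mt (zeta_eq_zero hw _).1 hQ) (neg_ne_zero.2 h1) ?_ ?_
  · rw [X_neg, h3, h2, X_zeta hw, X_zeta hw]; linear_combination P.X * hw
  · rw [Y_neg, h4, h2, Y_zeta hw, Y_zeta hw]; ring

theorem pmap_zeta (φ : L →+* L') {w : L} (hw : w ^ 2 + w + 1 = 0) (P : E L) :
    pmap φ (zeta w P) = zeta (φ w) (pmap φ P) := by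
  have hw' : φ w ^ 2 + φ w + 1 = 0 := by simpa using congrArg φ hw
  exact ext2 (by simp [zeta_eq_zero hw, zeta_eq_zero hw']) (by simp [X_zeta hw, X_zeta hw'])
    (by simp [Y_zeta hw, Y_zeta hw'])

/-- Complex multiplication by `a`. -/
noncomputable def sm (w : L) (a : O) : E L →+ E L := a.re • AddMonoidHom.id _ + a.im • zeta w

theorem sm_apply (w : L) (a : O) (P : E L) : sm w a P = a.re • P + a.im • zeta w P := rfl
theorem sm_add (w : L) (a b : O) (P : E L) : sm w (a + b) P = sm w a P + sm w b P := by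
  simp only [sm_apply, QuadraticAlgebra.re_add, QuadraticAlgebra.im_add]; module
theorem sm_zero (w : L) (P : E L) : sm w 0 P = 0 := by simp [sm_apply]
theorem sm_neg (w : L) (a : O) (P : E L) : sm w (-a) P = - sm w a P := by
  simp only [sm_apply, QuadraticAlgebra.re_neg, QuadraticAlgebra.im_neg]; module
theorem sm_one (w : L) (P : E L) : sm w 1 P = P := by
  simp [sm_apply, QuadraticAlgebra.re_one, QuadraticAlgebra.im_one]
theorem sm_omega (w : L) (P : E L) : sm w QuadraticAlgebra.omega P = zeta w P := by simp [sm_apply]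
theorem sm_mul {w : L} (hw : w ^ 2 + w + 1 = 0) (a b : O) (P : E L) :
    sm w (a * b) P = sm w a (sm w b P) := by
  simp only [sm_apply, QuadraticAlgebra.re_mul, QuadraticAlgebra.im_mul, map_add, map_zsmul,
    zeta_zeta hw]
  module
theorem pmap_sm (φ : L →+* L') {w : L} (hw : w ^ 2 + w + 1 = 0) (a : O) (P : E L) :
    pmap φ (sm w a P) = sm (φ w) a (pmap φ P) := by
  simp [sm_apply, pmap_zeta φ hw]

/-- Linear combinations of points. -/
noncomputable def lin {n : ℕ} (w : L) (l : Vec n) (P : Fin n → E L) : E L := ∑ i, sm w (l i) (P i)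

theorem lin_add {n : ℕ} (w : L) (l l' : Vec n) (P : Fin n → E L) :
    lin w (l + l') P = lin w l P + lin w l' P := by simp [lin, sm_add, Finset.sum_add_distrib]
theorem lin_neg {n : ℕ} (w : L) (l : Vec n) (P : Fin n → E L) : lin w (-l) P = - lin w l P := by
  simp [lin, sm_neg]
theorem lin_sub {n : ℕ} (w : L) (l l' : Vec n) (P : Fin n → E L) :
    lin w (l - l') P = lin w l P - lin w l' P := by
  rw [sub_eq_add_neg, lin_add, lin_neg, sub_eq_add_neg]
theorem lin_smul {n : ℕ} {w : L} (hw : w ^ 2 + w + 1 = 0) (a : O) (l : Vec n) (P : Fin n → E L) :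
    lin w (a • l) P = sm w a (lin w l P) := by simp [lin, sm_mul hw]
theorem lin_single {n : ℕ} (w : L) (i : Fin n) (a : O) (P : Fin n → E L) :
    lin w (Pi.single i a) P = sm w a (P i) := by
  rw [lin, Finset.sum_eq_single i (fun j _ hj => by simp [hj, sm_zero]) (by simp)]; simp
theorem sm_sum (w : L) {ι : Type} (s : Finset ι) (a : ι → O) (P : E L) :
    sm w (∑ i ∈ s, a i) P = ∑ i ∈ s, sm w (a i) P := by
  classical
  induction s using Finset.induction_on with
  | empty => simp [sm_zero]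
  | insert i s hi ih => simp [Finset.sum_insert hi, sm_add, ih]
theorem lin_vecMul {n : ℕ} {w : L} (hw : w ^ 2 + w + 1 = 0) (l : Vec n)
    (g : Matrix (Fin n) (Fin n) O) (P : Fin n → E L) :
    lin w (Matrix.vecMul l g) P = lin w l fun i => lin w (g i) P := by
  simp only [lin, Matrix.vecMul, dotProduct, sm_sum, sm_mul hw, map_sum]
  exact Finset.sum_comm
theorem pmap_lin (φ : L →+* L') {n : ℕ} {w : L} (hw : w ^ 2 + w + 1 = 0) (l : Vec n)
    (P : Fin n → E L) : pmap φ (lin w l P) = lin (φ w) l fun i => pmap φ (P i) := by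
  simp [lin, pmap_sm φ hw]

/-- The value of `1 / y` at the fixed point with label `c`. -/
def sv (c : ZMod 3) : L := (c.valMinAbs : L)

/-- The fixed points of the automorphism of order three. -/
noncomputable def fx (c : ZMod 3) : E L := c.valMinAbs • mk 0 1

omit [CharZero L] in
theorem zmod3 (c : ZMod 3) : c = 0 ∨ c = 1 ∨ c = -1 := by revert c; decide
omit [CharZero L] in
@[simp] theorem sv_zero : (sv 0 : L) = 0 := by simp [sv]
omit [CharZero L] in
@[simp] theorem sv_one : (sv 1 : L) = 1 := by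
  have : (1 : ZMod 3).valMinAbs = 1 := by decide
  simp [sv, this]
omit [CharZero L] in
@[simp] theorem sv_neg_one : (sv (-1) : L) = -1 := by
  have : (-1 : ZMod 3).valMinAbs = -1 := by decide
  simp [sv, this]
omit [CharZero L] in
theorem sv_cube (c : ZMod 3) : (sv c : L) - sv c ^ 3 = 0 := by
  rcases zmod3 c with rfl | rfl | rfl <;> norm_num
theorem sv_inj {c d : ZMod 3} (h : (sv c : L) = sv d) : c = d :=
  ZMod.valMinAbs_inj.1 (Int.cast_injective h)
omit [CharZero L] [CharZero L'] in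
@[simp] theorem map_sv {G : Type*} [FunLike G L L'] [RingHomClass G L L'] (φ : G) (c : ZMod 3) :
    φ (sv c) = sv c := map_intCast φ _
omit [CharZero L] in
@[simp] theorem fx_zero : (fx 0 : E L) = 0 := by simp [fx]
omit [CharZero L] in
theorem fx_one : (fx 1 : E L) = mk 0 1 := by
  have : (1 : ZMod 3).valMinAbs = 1 := by decide
  simp [fx, this]
omit [CharZero L] in
theorem fx_neg_one : (fx (-1) : E L) = - mk 0 1 := by
  have : (-1 : ZMod 3).valMinAbs = -1 := by decide
  simp [fx, this]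
omit [CharZero L] in
theorem eqT : (1 : L) ^ 2 = 0 ^ 3 + 1 := by simp
theorem X_fx (c : ZMod 3) : (fx c : E L).X = 0 := by
  rcases zmod3 c with rfl | rfl | rfl <;> simp [fx_one, fx_neg_one, X_mk eqT]
theorem Y_fx (c : ZMod 3) : (fx c : E L).Y = sv c := by
  rcases zmod3 c with rfl | rfl | rfl <;> simp [fx_one, fx_neg_one, Y_mk eqT]
theorem ss_fx (c : ZMod 3) : (fx c : E L).ss = sv c := by
  rcases zmod3 c with rfl | rfl | rfl <;> simp [ss, Y_fx]
theorem tt_fx (c : ZMod 3) : (fx c : E L).tt = 0 := by simp [tt, X_fx]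
theorem fx_inj {c d : ZMod 3} (h : (fx c : E L) = fx d) : c = d :=
  sv_inj (L := L) (by rw [← Y_fx, h, Y_fx])
theorem three_T : (3 : ℤ) • (mk 0 1 : E L) = 0 := by
  have h0 := mk_ne (eqT (L := L))
  obtain ⟨h1, h2⟩ := sl_eq h0 h0 (m := 0) (by simp) (by simp [X_mk eqT])
  have : (mk 0 1 : E L) + mk 0 1 = - mk 0 1 := ext' h1 (neg_ne_zero.2 h0)
    (by simp [X_add h0 h0 h1, h2, X_mk eqT]) (by simp [Y_add h0 h0 h1, h2])
  linear_combination (norm := module) this
theorem fx_cast (n : ℤ) : (fx (n : ZMod 3) : E L) = n • mk 0 1 := by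
  obtain ⟨m, hm⟩ : (3 : ℤ) ∣ n - (n : ZMod 3).valMinAbs :=
    (ZMod.intCast_eq_intCast_iff_dvd_sub _ _ 3).1 (by simp)
  rw [fx, ← sub_eq_zero, ← neg_sub, ← sub_smul, hm, mul_comm, mul_smul, three_T]; simp
theorem fx_add (c d : ZMod 3) : (fx (c + d) : E L) = fx c + fx d := by
  have := fx_cast (L := L) (c.valMinAbs + d.valMinAbs)
  simpa [fx, add_smul] using this
theorem zeta_fx {w : L} (hw : w ^ 2 + w + 1 = 0) (c : ZMod 3) : zeta w (fx c) = fx c :=
  ext2 (zeta_eq_zero hw _) (by simp [X_zeta hw, X_fx]) (Y_zeta hw _)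
theorem sm_fx {w : L} (hw : w ^ 2 + w + 1 = 0) (a : O) (c : ZMod 3) :
    sm w a (fx c) = fx (red a * c) := by
  have := fx_cast (L := L) ((a.re + a.im) * c.valMinAbs)
  rw [sm_apply, zeta_fx hw, ← add_smul, fx, ← mul_smul, ← this]
  simp [red]
theorem lin_fx {n : ℕ} {w : L} (hw : w ^ 2 + w + 1 = 0) (l : Vec n) (p : Pt n) :
    lin w l (fun i => fx (p i)) = fx (rv l ⬝ᵥ p) := by
  simp only [lin, sm_fx hw, dotProduct, rv]
  exact (map_sum (AddMonoidHom.mk' fx fx_add) _ _).symm
theorem pmap_fx (φ : L →+* L') (c : ZMod 3) : pmap φ (fx c) = fx c := by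
  simp [fx, pmap_mk φ eqT]

end charZero

end E

open E

variable {k K L : Type} [Field k] [Field K] [Field L] [Algebra k K] [Algebra k L]

open Classical in
/-- The restriction of a point along a homomorphism from a local ring to a field. -/
noncomputable def res (O : Subalgebra k K) (ρ : O →ₐ[k] L) (Q : E K) : E L :=
  if Q ≠ 0 ∧ Q.X ∈ O ∧ Q.Y ∈ O then mk (evO O ρ Q.X) (evO O ρ Q.Y) else 0

/-- The point `Q` is defined over the local ring `O`. -/
def Reg (O : Subalgebra k K) (Q : E K) : Prop :=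
  (Q ≠ 0 ∧ Q.X ∈ O ∧ Q.Y ∈ O) ∨ (Q.tt ∈ mx O ∧ Q.ss ∈ mx O ∧ (Q = 0 ∨ Q.Y ≠ 0))

open Classical in
/-- The order of contact with the origin at a place. -/
noncomputable def mloc (P : Place k L) (Q : E L) : ℤ := if 1 < P.v Q.X then P.ord Q.tt else 0

variable (k) in
/-- The degree of the map to the elliptic curve given by a point. -/
noncomputable def ht (Q : E L) : ℤ := ∑ᶠ P : Place k L, mloc P Q

end Pool.Agent.MP_20d318_ag.AG
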