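import Mathlib.AlgebraicGeometry.Morphisms.SchemeTheoreticallyDominant
import Mathlib.RingTheory.MvPolynomial.IrreducibleQuadratic
import Mathlib.Tactic.Polynomial.Basic
import Pool.Agent.MP_20d318_ag.Sch.Places
import Pool.Agent.MP_20d318_ag.AG.Spec

-- ======== part 0: formerly Pool.Agent.MP_20d318_ag.Sch.Bridge
section MrgPart0

/-!
From models to schemes: points, Cartier divisors, curves and automorphisms of a projective variety
are described by local rings inside the function field.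
-/

set_option autoImplicit false
set_option linter.unusedSectionVars false

open AlgebraicGeometry CategoryTheory Limits IsLocalRing

namespace Pool.Agent.MP_20d318_ag.Sch

open MP_a703b5_ag MP_79c67d_ag AG

variable {K ι : Type} [Field K] [Algebra ℂ K] {𝒞 : Charts K ι} (M : Model 𝒞)

/-- The local ring of a point as a subalgebra of the function field. -/
noncomputable def OA (x : M.X) : Subalgebra ℂ K :=
  { M.O x with algebraMap_mem' := Model.const_mem_O x }

/-- The identification of the stalk with the local ring. -/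
noncomputable def toOA (x : M.X) : M.X.presheaf.stalk x ≃+* OA M x :=
  RingEquiv.ofBijective ((M.ev x).codRestrict (OA M x) fun u => ⟨u, rfl⟩)
    ⟨fun _ _ h => M.ev_inj x (congrArg Subtype.val h), fun ⟨_, u, hu⟩ => ⟨u, Subtype.ext hu⟩⟩

lemma ev_eq (x : M.X) (u : M.X.presheaf.stalk x) : M.ev x u = M.e (alg x u) := rfl

lemma ev_const (x : M.X) (c : ℂ) :
    M.ev x (Spec.preimage (M.X.fromSpecStalk x ≫ M.s) c) = algebraMap ℂ K c :=
  (congrArg M.e (alg_const M.s x c)).trans (M.e_const c)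

variable {M}

lemma OA_ch {j : ι} {p : Spec (CommRingCat.of (𝒞.B j))} {x : M.X} (h : M.ch j p = x) :
    OA M x ∈ Pts (𝒞.B j) := by
  refine ⟨(toOA M x).isLocalRing, fun _ hy => Model.B_le_O h hy, fun f hf => ?_⟩
  obtain ⟨a, b, hb, h1⟩ := (Model.mem_O h).mp hf
  have h2 := (Model.U_iff h b).mpr hb
  exact ⟨a, a.2, b, b.2, h2, eq_div_of_mul_eq h2.1 h1⟩

lemma isU_ch {j : ι} (p : Spec (CommRingCat.of (𝒞.B j))) (a : 𝒞.B j) :
    IsU (OA M (M.ch j p)) a ↔ a ∉ p.asIdeal := Model.U_iff rfl a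

lemma OA_mem (x : M.X) : OA M x ∈ pts 𝒞 := by
  obtain ⟨j, p, h⟩ := M.cover x
  exact Set.mem_iUnion.mpr ⟨j, OA_ch h⟩

variable (M) in
lemma exists_OA {O : Subalgebra ℂ K} (hO : O ∈ pts 𝒞) : ∃ x, OA M x = O := by
  obtain ⟨j, hO⟩ := Set.mem_iUnion.mp hO
  have := hO.1
  let p : PrimeSpectrum (𝒞.B j) :=
    (closedPoint O).comap (Subalgebra.inclusion hO.2.1).toRingHom
  have h : ∀ b : 𝒞.B j, IsU (OA M (M.ch j p)) b ↔ IsU O b := fun b =>
    (isU_ch p b).trans ((mem_mx_iff (Subalgebra.inclusion hO.2.1 b)).symm.not.trans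
      ⟨isU_of_not_mx (hO.2.1 b.2), IsU.not_mx⟩)
  have h1 := OA_ch (M := M) (p := p) rfl
  refine ⟨M.ch j p, le_antisymm (fun f hf => ?_) fun f hf => ?_⟩
  · obtain ⟨a, ha, b, hb, hu, rfl⟩ := h1.2.2 f hf
    exact ((h ⟨b, hb⟩).mp hu).div_mem (hO.2.1 ha)
  · obtain ⟨a, ha, b, hb, hu, rfl⟩ := hO.2.2 f hf
    exact ((h ⟨b, hb⟩).mpr hu).div_mem (h1.2.1 ha)

lemma OA_inj : Function.Injective (OA M) := fun x y h => eq_of_range fun f => by
  have h1 : M.e f ∈ OA M x ↔ M.e f ∈ OA M y := by rw [h]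
  exact (exists_congr fun u => M.e.injective.eq_iff).symm.trans
    (h1.trans (exists_congr fun u => M.e.injective.eq_iff))

lemma ch_of_le {j : ι} {x : M.X} (h : 𝒞.B j ≤ OA M x) : ∃ p, M.ch j p = x := by
  obtain ⟨i, p, rfl⟩ := M.cover x
  exact (M.overlap j i p).mpr ((isU_ch (M := M) p _).mp ⟨div_ne_zero (𝒞.f_ne _) (𝒞.f_ne _),
    (OA_ch rfl).2.1 (𝒞.ratio j i), inv_div (𝒞.f j) _ ▸ h (𝒞.ratio i j)⟩)

lemma specializes_of_le {x y : M.X} (h : OA M y ≤ OA M x) : x ⤳ y := by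
  obtain ⟨j, q, rfl⟩ := M.cover y
  obtain ⟨p, rfl⟩ := ch_of_le ((OA_ch rfl).2.1.trans h)
  refine Model.ch_specializes.mpr fun a ha => by_contra fun hq => ?_
  exact (isU_ch p a).mp (((isU_ch q a).mpr hq).mono h) ha

lemma isOpen_reg (a : K) : IsOpen {x | a ∈ OA M x} := by
  refine isOpen_iff_forall_mem_open.mpr fun x ⟨u, hu⟩ => ?_
  obtain ⟨W, hW, t, rfl⟩ := M.X.presheaf.exists_germ_eq u
  refine ⟨W, fun y hy => ⟨M.X.presheaf.germ W y hy t, ?_⟩, W.2, hW⟩
  rw [← hu, ← M.ev_specializes (genericPoint_specializes x),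
    ← M.ev_specializes (genericPoint_specializes y), TopCat.Presheaf.germ_stalkSpecializes_apply,
    TopCat.Presheaf.germ_stalkSpecializes_apply]

lemma exists_T {x : M.X} {U : M.X.Opens} (h : x ∈ U) :
    ∃ T : Finset K, (∀ a ∈ T, a ∈ OA M x) ∧ ∀ y, (∀ a ∈ T, a ∈ OA M y) → y ∈ U := by
  classical
  obtain ⟨j, p, rfl⟩ := M.cover x
  obtain ⟨G, hG⟩ := 𝒞.fg j
  obtain ⟨_, ⟨_, ⟨b, rfl⟩, rfl⟩, h1, h2⟩ :=
    PrimeSpectrum.isBasis_basic_opens.exists_subset_of_mem_open
    (show p ∈ (M.ch j ⁻¹ᵁ U : Set _) from h) (M.ch j ⁻¹ᵁ U).2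
  have h3 := (isU_ch (M := M) p b).mpr h1
  refine ⟨insert (b : K)⁻¹ G, fun a ha => ?_, fun y hy => ?_⟩
  · rcases Finset.mem_insert.mp ha with rfl | ha
    exacts [h3.2.2, (OA_ch rfl).2.1 (hG ▸ Algebra.subset_adjoin ha)]
  · have h4 : 𝒞.B j ≤ OA M y :=
      hG ▸ Algebra.adjoin_le fun a ha => hy a (Finset.mem_insert_of_mem ha)
    obtain ⟨q, rfl⟩ := ch_of_le h4
    exact h2 ((isU_ch q b).mp ⟨h3.1, h4 b.2, hy _ (Finset.mem_insert_self _ _)⟩)

/-- The divisors `D` and `E` have the same local equations. -/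
def RelD (D : CDiv M.X) (E : Cartier (pts 𝒞)) : Prop := ∀ x, E.f (OA M x) = M.e (D.eqn x)

lemma exists_cart (D : CDiv M.X) : ∃ E, RelD D E := by
  have h := OA_inj.extend_apply (fun x => M.e (D.eqn x)) 1
  refine ⟨⟨Function.extend (OA M) (fun x => M.e (D.eqn x)) 1, fun O hO => ?_⟩, h⟩
  obtain ⟨x, rfl⟩ := exists_OA M hO
  obtain ⟨U, hU, h1⟩ := D.loc x
  obtain ⟨T, h2, h3⟩ := exists_T hU
  refine ⟨T, h2, fun O' hO' h4 => ?_⟩
  obtain ⟨y, rfl⟩ := exists_OA M hO'
  obtain ⟨u, hu⟩ := h1 y (h3 y h4)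
  rw [h, h, hu, map_mul, mul_div_cancel_right₀ _ ((map_ne_zero _).mpr (D.ne x))]
  exact Model.U_ev.mpr u.isUnit

variable (M) in
lemma exists_cdiv (E : Cartier (pts 𝒞)) : ∃ D : CDiv M.X, RelD D E := by
  have h0 : ∀ x, E.f (OA M x) ≠ 0 := fun x => by
    obtain ⟨T, h1, h2⟩ := E.loc _ (OA_mem x)
    exact (div_ne_zero_iff.mp (h2 _ (OA_mem x) h1).1).1
  refine ⟨⟨fun x => M.e.symm (E.f (OA M x)), fun x => (map_ne_zero _).mpr (h0 x), fun x => ?_⟩,
    fun x => (M.e.apply_symm_apply _).symm⟩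
  obtain ⟨T, h1, h2⟩ := E.loc _ (OA_mem x)
  refine ⟨⟨_, isOpen_biInter_finset (s := T) fun a _ => isOpen_reg a⟩, Set.mem_iInter₂.mpr h1,
    fun y hy => ?_⟩
  have h3 := h2 _ (OA_mem y) (Set.mem_iInter₂.mp hy)
  obtain ⟨u, hu⟩ := h3.2.1
  obtain ⟨u, rfl⟩ := Model.U_ev.mp (hu ▸ h3 :)
  refine ⟨u, M.e.injective ?_⟩
  rw [map_mul, M.e.apply_symm_apply, M.e.apply_symm_apply]
  exact (div_eq_iff (h0 x)).mp hu.symm

lemma RelD.eff {D : CDiv M.X} {E : Cartier (pts 𝒞)} (h : RelD D E) : D.Effective ↔ E.Effective := by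
  refine ⟨fun h1 O hO => ?_, fun h1 x => ?_⟩
  · obtain ⟨x, rfl⟩ := exists_OA M hO
    obtain ⟨u, hu⟩ := h1 x
    exact ⟨u, by rw [h, hu]; rfl⟩
  · obtain ⟨u, hu⟩ := h1 _ (OA_mem x)
    exact ⟨u, M.e.injective ((h x).symm.trans hu.symm)⟩

section hom

variable {C : Scheme.{0}} [IsIntegral C] {t : C ⟶ Spec (CommRingCat.of ℂ)} {L : Type} [Field L]
  [Algebra ℂ L] (e : C.functionField ≃+* L) (he : ∀ c, e (const t c) = algebraMap ℂ L c)

include he in
/-- A morphism gives a homomorphism from the local ring at the image of the generic point. -/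
lemma exists_rho (γ : C ⟶ M.X) (h : γ ≫ M.s = t) : ∃ ρ : OA M (γ (genericPoint C)) →ₐ[ℂ] L,
    ∀ p u, evO _ ρ (M.ev (γ p) u) = e (alg p (γ.stalkMap p u)) := by
  let ρ := e.toRingHom.comp ((γ.stalkMap (genericPoint C)).hom.comp (toOA M _).symm.toRingHom)
  have h1 : ∀ u, ρ (toOA M _ u) = e (γ.stalkMap (genericPoint C) u) := fun u =>
    congrArg (fun v => e (γ.stalkMap _ v)) ((toOA M _).symm_apply_apply u)
  refine ⟨{ ρ with commutes' := fun c => ?_ }, fun p u => ?_⟩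
  · have h2 := h1 (Spec.preimage (M.X.fromSpecStalk _ ≫ M.s) c)
    rw [stalkMap_const, h] at h2
    refine ((congrArg ρ (Subtype.ext (ev_const M _ c).symm)).trans h2).trans ?_
    rw [← he, ← alg_const t (genericPoint C), alg_gen]
  · have h2 := (genericPoint_specializes p).map γ.continuous
    rw [← M.ev_specializes h2]
    exact (evO_coe _ (toOA M _ _)).trans ((h1 _).trans
      (congrArg e (γ.stalkSpecializes_stalkMap_apply _ _ (genericPoint_specializes p) u)))

lemma stalk_congr {R : CommRingCat} {x y : M.X} (f : M.X.presheaf.stalk x ⟶ R)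
    (g : M.X.presheaf.stalk y ⟶ R) (h : x ⤳ y) (h1 : ∀ u v, M.ev x u = M.ev y v → f u = g v) :
    Spec.map f ≫ M.X.fromSpecStalk x = Spec.map g ≫ M.X.fromSpecStalk y := by
  rw [← Scheme.SpecMap_stalkSpecializes_fromSpecStalk h, ← Spec.map_comp_assoc]
  congr 2
  exact CommRingCat.hom_ext (RingHom.ext fun v => h1 _ v (M.ev_specializes h v))

lemma stalk_eq {R : CommRingCat} [IsLocalRing R] {x y : M.X} (f : M.X.presheaf.stalk x ⟶ R)
    (g : M.X.presheaf.stalk y ⟶ R) [IsLocalHom f.hom] [IsLocalHom g.hom]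
    (h : Spec.map f ≫ M.X.fromSpecStalk x = Spec.map g ≫ M.X.fromSpecStalk y) :
    x = y ∧ ∀ u, ∃ v, M.ev x u = M.ev y v ∧ f u = g v := by
  have h2 := congrArg (fun g => g (closedPoint R)) h
  simp only [Scheme.Hom.comp_apply, Spec_closedPoint, Scheme.fromSpecStalk_closedPoint] at h2
  subst h2
  rw [cancel_mono, Spec.map_inj] at h
  exact ⟨rfl, fun u => ⟨u, rfl, by rw [h]⟩⟩

include he in
/-- Compatible local homomorphisms of local rings come from a morphism. -/
lemma exists_mhom {O : Subalgebra ℂ K} (hO : O ∈ pts 𝒞) (ρ : O →ₐ[ℂ] L) (W : C → Subalgebra ℂ K)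
    (hW : ∀ p, W p ∈ pts 𝒞) (hle : ∀ p, W p ≤ O)
    (hreg : ∀ p, ∀ a ∈ W p, ∃ v, e (alg p v) = evO O ρ a ∧ (IsUnit v → IsU (W p) a)) :
    ∃ γ : C ⟶ M.X, γ ≫ M.s = t ∧ ∀ p, OA M (γ p) = W p ∧
      ∀ u, e (alg p (γ.stalkMap p u)) = evO O ρ (M.ev (γ p) u) := by
  obtain ⟨x₀, rfl⟩ := exists_OA M hO
  choose x hx using fun p => exists_OA M (hW p)
  obtain rfl : W = fun p => OA M (x p) := funext fun p => (hx p).symm
  let χ₀ := e.symm.toRingHom.comp (ρ.toRingHom.comp (toOA M x₀).toRingHom)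
  have h0 : ∀ u, e (χ₀ u) = evO _ ρ (M.ev _ u) := fun u =>
    (e.apply_symm_apply _).trans (evO_coe ρ (toOA M x₀ u)).symm
  have h1 : ∀ p, x₀ ⤳ x p := fun p => specializes_of_le (hle p)
  choose χ hχ using fun p => exists_factor (p := p) (χ₀.comp
    (M.X.presheaf.stalkSpecializes (h1 p)).hom) fun u => by
      obtain ⟨v, hv, -⟩ := hreg p _ ⟨u, rfl⟩
      exact ⟨v, e.injective (hv.trans ((h0 _).trans (by rw [M.ev_specializes])).symm)⟩
  have h2 : ∀ p u, e (alg p (χ p u)) = evO _ ρ (M.ev _ u) := fun p u => by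
    rw [hχ, RingHom.comp_apply, h0, M.ev_specializes]
  have h3 : ∀ p, Spec.map (alg p) ≫ Spec.map (CommRingCat.ofHom (χ p)) ≫ M.X.fromSpecStalk _ =
      Spec.map (CommRingCat.ofHom χ₀) ≫ M.X.fromSpecStalk x₀ := fun p => by
    rw [← Spec.map_comp_assoc]
    exact (stalk_congr _ _ (h1 p) fun u v h => e.injective
      ((h0 u).trans (h ▸ (h2 p v).symm))).symm
  obtain ⟨γ, h4, h5⟩ := exists_glue t M.s _ (by
    rw [spec_const, Category.assoc, ← Spec.map_preimage (M.X.fromSpecStalk x₀ ≫ M.s),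
      ← Spec.map_comp]
    congr 1
    refine CommRingCat.hom_ext (RingHom.ext fun c => e.injective ((h0 _).trans ?_))
    exact (congrArg _ (ev_const M _ c)).trans ((evO_const ρ c).trans (he c).symm)) fun p => ⟨_, h3 p⟩
  refine ⟨γ, h4, fun p => ?_⟩
  have : IsLocalHom (CommRingCat.ofHom (χ p)).hom := ⟨fun u hu => by
    obtain ⟨v, hv, h6⟩ := hreg p _ ⟨u, rfl⟩
    obtain rfl : v = χ p u := alg_inj p (e.injective (hv.trans (h2 p u).symm))
    exact Model.U_ev.mp (h6 hu)⟩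
  obtain ⟨h6, h7⟩ := stalk_eq (γ.stalkMap p) (CommRingCat.ofHom (χ p))
    (ext_of_isDominant (Spec.map (alg p)) (Eq.trans (by
      rw [Scheme.SpecMap_stalkMap_fromSpecStalk, ← Category.assoc, spec_alg, h5]) (h3 p).symm))
  refine ⟨congrArg _ h6, fun u => ?_⟩
  obtain ⟨v, h8, h9⟩ := h7 u
  rw [h8, h9]
  exact h2 p v

end hom

section curve

open scoped IntermediateField IntermediateField.algebraAdjoinAdjoin

variable {L : Type} [Field L] [Algebra ℂ L]

lemma exists_pow_mul {A : Type} [CommRing A] [Algebra A L] [FaithfulSMul A L] [Algebra ℂ A]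
    [IsScalarTower ℂ A L] {u : A} {s c : L} (h : algebraMap A L u * s = 1)
    (hc : IsIntegral (Algebra.adjoin ℂ {s}) c) :
    ∃ N : ℕ, IsIntegral A (algebraMap A L u ^ N * c) := by
  replace hc : IsIntegral (Algebra.adjoin A {s}) c := hc.map_of_comp_eq
    ((Algebra.adjoin ℂ {s}).val.toRingHom.codRestrict _ fun a => Algebra.adjoin_le
      (S := (Algebra.adjoin A {s}).restrictScalars ℂ) (Algebra.subset_adjoin (R := A)) a.2)
    (RingHom.id L) rfl
  have : IsLocalization.Away u (Algebra.adjoin A {s}) := .mk _ (isUnit_iff_exists_inv.mpr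
    ⟨⟨s, Algebra.subset_adjoin rfl⟩, Subtype.ext h⟩) (fun ⟨z, hz⟩ => by
      suffices ∃ (n : ℕ) (a : A), z * algebraMap A L u ^ n = algebraMap A L a by
        obtain ⟨n, a, h⟩ := this
        exact ⟨n, a, Subtype.ext h⟩
      induction hz using Algebra.adjoin_induction with
      | mem x hx => exact ⟨1, 1, by rw [hx, pow_one, mul_comm, h, map_one]⟩
      | algebraMap r => exact ⟨0, r, by rw [pow_zero, mul_one]⟩
      | add x y _ _ hx hy =>
        obtain ⟨n, a, ha⟩ := hx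
        obtain ⟨m, b, hb⟩ := hy
        exact ⟨n + m, a * u ^ m + b * u ^ n, by simp only [map_add, map_mul, map_pow, ← ha, ← hb]; ring⟩
      | mul x y _ _ hx hy =>
        obtain ⟨n, a, ha⟩ := hx
        obtain ⟨m, b, hb⟩ := hy
        exact ⟨n + m, a * b, by rw [map_mul, ← ha, ← hb]; ring⟩)
    fun a b h => ⟨0, by rw [FaithfulSMul.algebraMap_injective A L (congrArg Subtype.val h)]⟩
  obtain ⟨⟨_, N, rfl⟩, h2⟩ := hc.exists_multiple_integral_of_isLocalization (.powers u) c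
  exact ⟨N, by simpa [Submonoid.smul_def, Algebra.smul_def] using h2⟩

/-- The integral closure of `ℂ[s]`. -/
noncomputable def icl (s : L) : Subalgebra ℂ L :=
  (integralClosure (Algebra.adjoin ℂ {s}) L).restrictScalars ℂ

lemma le_icl (s : L) : Algebra.adjoin ℂ {s} ≤ icl s := fun a ha =>
  isIntegral_algebraMap (x := (⟨a, ha⟩ : Algebra.adjoin ℂ {s}))

lemma icl_comp {s c : L} (hs : s ≠ 0) (hc : c ∈ icl s) : ∃ N : ℕ, s⁻¹ ^ N * c ∈ icl s⁻¹ :=
  exists_pow_mul (u := (⟨s⁻¹, Algebra.subset_adjoin rfl⟩ : Algebra.adjoin ℂ {s⁻¹}))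
    (inv_mul_cancel₀ hs) hc

variable [IsFF ℂ L]

lemma icl_facts {s : L} (hs : Transcendental ℂ s) :
    (icl s).FG ∧ IsDedekindDomain (icl s) ∧ IsFractionRing (icl s) L := by
  let A := Algebra.adjoin ℂ {s}
  have : IsPrincipalIdealRing A := IsPrincipalIdealRing.of_surjective _
    (Polynomial.algEquivOfTranscendental ℂ s hs).surjective
  have := finDim_adjoin hs
  have : CharZero L := charZero_of_injective_algebraMap (algebraMap ℂ L).injective
  let : Algebra A (icl s) := (Subalgebra.inclusion (le_icl s)).toRingHom.toAlgebra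
  have : IsScalarTower A (icl s) L := .of_algebraMap_eq fun _ => rfl
  have : IsScalarTower ℂ A (icl s) := .of_algebraMap_eq fun _ => rfl
  have : IsIntegralClosure (icl s) A L :=
    ⟨Subtype.val_injective, ⟨fun h => ⟨⟨_, h⟩, rfl⟩, fun ⟨y, h⟩ => h ▸ y.2⟩⟩
  have := IsIntegralClosure.finite A ℂ⟮s⟯ L (icl s)
  have : Algebra.FiniteType ℂ A := (Subalgebra.fg_iff_finiteType _).mp ⟨{s}, by simp [A]⟩
  have h1 : Algebra.FiniteType A (icl s) := inferInstance
  have h2 := IsIntegralClosure.isDedekindDomain A ℂ⟮s⟯ L (icl s)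
  have h3 := IsIntegralClosure.isFractionRing_of_finite_extension A ℂ⟮s⟯ L (icl s)
  have h4 : Algebra.FiniteType ℂ (icl s) := .trans this h1
  exact ⟨(Subalgebra.fg_iff_finiteType _).mpr h4, h2, h3⟩

variable (L) in
/-- The complete normal curve with a given function field. -/
lemma exists_curve : ∃ (𝒟 : Charts L Bool) (N : Model 𝒟),
    (∀ p, IsIntegrallyClosed (N.X.presheaf.stalk p)) ∧ topologicalKrullDim N.X = 1 := by
  obtain ⟨s, hs⟩ := exists_transcendental ℂ L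
  have h0 : s ≠ 0 := fun h => hs (h ▸ isAlgebraic_zero)
  let r : Bool → L := fun b => if b then s else s⁻¹
  have hr : ∀ b, Transcendental ℂ (r b) := fun b => by
    cases b
    exacts [fun h => hs (IsAlgebraic.inv_iff.mp h), hs]
  have hm : ∀ a : L, a ∈ icl a := fun a => le_icl a (Algebra.subset_adjoin rfl)
  let 𝒟 : Charts L Bool :=
    { B := fun b => icl (r b)
      f := fun b => if b then 1 else s
      f_ne := fun b => by cases b <;> simp [h0]
      ratio := fun i j => by cases i <;> cases j <;> simp [h0, r, hm]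
      comp := fun i j c hc => by
        cases i <;> cases j
        · exact ⟨0, by simpa using hc⟩
        · simpa [r] using icl_comp (inv_ne_zero h0) hc
        · simpa [r] using icl_comp h0 hc
        · exact ⟨0, by simpa using hc⟩
      fg := fun b => (icl_facts (hr b)).1
      proper := fun O hO => by
        obtain ⟨b, hb⟩ : ∃ b, r b ∈ O := (O.mem_or_inv_mem s).elim (⟨true, ·⟩) (⟨false, ·⟩)
        exact ⟨b, fun c hc => mem_of_isIntegral O (fun a => Algebra.adjoin_le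
          (S := { O.toSubring with algebraMap_mem' := hO }) (Set.singleton_subset_iff.mpr hb) a.2) hc⟩
      frac := fun b x => by
        have := (icl_facts (hr b)).2.2
        obtain ⟨a, c, hc, rfl⟩ := IsFractionRing.div_surjective (icl (r b)) x
        have h1 : (c : L) ≠ 0 := Subtype.coe_ne_coe.mpr (nonZeroDivisors.ne_zero hc)
        exact ⟨a, a.2, c, c.2, h1, div_mul_cancel₀ _ h1⟩ }
  have hD : ∀ b, IsDedekindDomain (𝒟.B b) := fun b => (icl_facts (hr b)).2.1
  obtain ⟨N⟩ := exists_model 𝒟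
  refine ⟨𝒟, N, fun x => ?_, dim_eq_one ?_ fun x y z h1 h2 => ?_⟩
  · obtain ⟨j, p, h⟩ := N.cover x
    obtain ⟨φ, h1, -, h2⟩ := N.exists_chart h
    let := φ.toAlgebra
    exact isIntegrallyClosed_of_isLocalization _ _ p.asIdeal.primeCompl_le_nonZeroDivisors
  · obtain ⟨P, hP⟩ := exists_place_pos hs
    obtain ⟨O, h1, h2⟩ := exists_ctr (plO_isVal P).isLocalRing (R := 𝒟.B true) fun c hc =>
      (mem_plO' P).mpr (P.ge_of_isIntegral (fun a => (mem_plO' P).mp (Algebra.adjoin_le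
        (Set.singleton_subset_iff.mpr ((mem_plO' P).mpr (P.ge_of_le hP.le))) a.2)) hc)
    obtain ⟨y, rfl⟩ := exists_OA N (Set.mem_iUnion.mpr ⟨true, h1⟩)
    refine ⟨_, y, genericPoint_specializes y, fun h => plO_ne_top P (eq_top_iff.mpr fun f _ => ?_)⟩
    exact h2.1 (h ▸ ⟨N.e.symm f, (N.ev_gen _).trans (N.e.apply_symm_apply f)⟩)
  · obtain ⟨j, r, rfl⟩ := N.cover z
    obtain ⟨q, rfl⟩ := Model.exists_of_specializes h2
    obtain ⟨p, rfl⟩ := Model.exists_of_specializes h1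
    by_cases h : q.asIdeal = ⊥
    · exact Or.inl (congrArg _ (PrimeSpectrum.ext
        (h ▸ eq_bot_iff.mpr (h ▸ Model.ch_specializes.mp h1))))
    · exact Or.inr (congrArg _ (PrimeSpectrum.ext ((q.isPrime.isMaximal h).eq_of_le r.isPrime.ne_top
        (Model.ch_specializes.mp h2))))

end curve

/-- The curve `c` on the scheme and the curve `ν` on the model are the same. -/
def Rel (c : Curve M.s) (ν : AG.Curve (pts 𝒞)) : Prop :=
  ∃ (e : c.C.functionField ≃+* ν.L) (z : Place ℂ ν.L → c.C),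
    (∀ g : c.C → c.C.functionField,
      ∑ᶠ p, c.C.ord (g p) p = ∑ᶠ P : Place ℂ ν.L, P.ord (e (g (z P)))) ∧
    ν.gen = OA M (c.γ (genericPoint c.C)) ∧ (∀ P, ν.pt P = OA M (c.γ (z P))) ∧
    ∀ u, ν.ev (M.ev _ u) = e (c.γ.stalkMap (genericPoint c.C) u)

lemma Rel.deg {c : Curve M.s} {ν : AG.Curve (pts 𝒞)} (h : Rel c ν) {D : CDiv M.X}
    {E : Cartier (pts 𝒞)} (hD : RelD D E) : deg M.s D c = E.cls ν := by
  obtain ⟨e, z, h1, h2, h3, h4⟩ := h
  rw [MP_20d318_ag.deg, h1, Cartier.cls, Curve.deg]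
  congr 2
  funext P
  rw [h3, h2, hD, hD, ← map_div₀]
  generalize D.eqn _ / D.eqn _ = f
  unfold pull
  by_cases h : ∃ u, algebraMap (M.X.presheaf.stalk (c.γ (genericPoint c.C))) _ u = f
  · obtain ⟨u, rfl⟩ := h
    rw [(IsFractionRing.injective _ _).extend_apply]
    exact congrArg _ (h4 u).symm
  · rw [Function.extend_apply' _ _ _ h, Curve.ev, dif_neg, Pi.zero_apply, map_zero]
    rw [h2]
    exact fun ⟨u, hu⟩ => h ⟨u, M.e.injective hu⟩

lemma exists_rel (c : Curve M.s) : ∃ ν, Rel c ν := by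
  let : Algebra ℂ c.C.functionField := (const (c.γ ≫ M.s)).toAlgebra
  have := c.proper
  let e := RingEquiv.refl c.C.functionField
  have he : ∀ a, e (const (c.γ ≫ M.s) a) = algebraMap ℂ _ a := fun _ => rfl
  have := isFF _ e he c.normal c.dim
  obtain ⟨z, -, h1, -, -, h2⟩ := exists_places _ e he c.normal c.dim
  obtain ⟨ρ, hρ⟩ := exists_rho e he c.γ rfl
  have h3 : ∀ p (u : OA M _) v, M.ev (c.γ p) v = u → ρ u = alg p (c.γ.stalkMap p v) :=
    fun p u v h => (evO_coe ρ u).symm.trans (h ▸ hρ p v)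
  have h4 : ∀ p v, IsUnit (c.γ.stalkMap p v) → IsU (OA M (c.γ p)) (M.ev _ v) := fun p v h =>
    Model.U_ev.mpr ((isUnit_map_iff _ _).mp h)
  refine ⟨{ L := c.C.functionField
            gen := _
            gen_mem := OA_mem _
            ρ := ρ
            ρ_loc := fun u hu => ?_
            pt := fun P => OA M (c.γ (z P))
            pt_mem := fun P => OA_mem _
            pt_le := fun P => Model.O_mono ((genericPoint_specializes _).map c.γ.continuous)
            pt_reg := fun P u ⟨v, hv⟩ => (h1 P _).mpr ⟨_, (h3 _ u v hv).symm⟩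
            pt_loc := fun P u ⟨v, hv⟩ h => ?_ }, e, z, h2, rfl, fun _ => rfl,
    fun u => (hρ _ u).trans (alg_gen _)⟩
  · obtain ⟨v, hv⟩ := u.2
    rw [h3 _ u v hv, alg_gen] at hu
    exact hv ▸ h4 _ v (Ne.isUnit (G₀ := c.C.functionField) hu)
  · rw [h3 _ u v hv] at h
    have h5 := (isU_plO P).mpr h
    exact hv ▸ h4 _ v (isUnit_iff_inv.mpr ⟨fun h0 => h5.1 (by rw [h0, map_zero]),
      (h1 P _).mp h5.2.2⟩)

variable (M) in
lemma exists_rel' (ν : AG.Curve (pts 𝒞)) : ∃ c : Curve M.s, Rel c ν := by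
  obtain ⟨𝒟, N, hn, hd⟩ := exists_curve ν.L
  obtain ⟨z, hz, h1, h2, h3, h4⟩ := exists_places N.s N.e N.e_const hn hd
  have h5 := hz.extend_apply ν.pt fun _ => ν.gen
  have h6 := Function.extend_apply' ν.pt (fun _ => ν.gen) _ h3
  have h7 : ∀ p, p = genericPoint N.X ∨ ∃ P, z P = p := fun p => (em _).symm.imp_left (h2 p)
  obtain ⟨γ, h8, h9⟩ := exists_mhom (M := M) N.e N.e_const ν.gen_mem ν.ρ
    (Function.extend z ν.pt fun _ => ν.gen)
    (fun p => by rcases h7 p with rfl | ⟨P, rfl⟩; exacts [h6.symm ▸ ν.gen_mem, (h5 P).symm ▸ ν.pt_mem P])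
    (fun p => by rcases h7 p with rfl | ⟨P, rfl⟩; exacts [h6.le, (h5 P).le.trans (ν.pt_le P)])
    fun p a ha => by
      rcases h7 p with rfl | ⟨P, rfl⟩
      · rw [h6] at ha ⊢
        refine ⟨N.e.symm (ν.ev a), (congrArg _ (alg_gen _)).trans (N.e.apply_symm_apply _),
          fun h => isU_of_not_mx ha fun h' => h.ne_zero ?_⟩
        rw [ν.ev_eq, (ν.locHom.eq_zero_iff ha).mpr h']
        exact map_zero _
      · rw [h5] at ha ⊢
        obtain ⟨v, hv⟩ := (h1 P (N.e.symm (ν.ev a))).mp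
          ((N.e.apply_symm_apply _).symm ▸ ν.v_le P ha)
        have hv' := (congrArg N.e hv).trans (N.e.apply_symm_apply _)
        refine ⟨v, hv', fun h => (ν.v_eq_one_iff P ha).mp ((isU_plO P).mp ?_)⟩
        obtain ⟨h0, w, hw⟩ := isUnit_iff_inv.mp h
        rw [← hv']
        exact ⟨(map_ne_zero _).mpr ((map_ne_zero_iff _ (alg_inj _)).mpr h0),
          (h1 P _).mpr ⟨v, rfl⟩, map_inv₀ N.e _ ▸ (h1 P _).mpr ⟨w, hw⟩⟩
  exact ⟨⟨N.X, inferInstance, inferInstance, γ, h8 ▸ inferInstance, hn, hd⟩, N.e, z, h4,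
    ((h9 _).1.trans h6).symm, fun P => ((h9 _).1.trans (h5 P)).symm,
    fun u => ((h9 _).2 u).symm.trans (congrArg _ (alg_gen _))⟩

/-- The endomorphism `b` of the scheme induces `g` on functions. -/
def RelA (b : M.X ⟶ M.X) (g : K →ₐ[ℂ] K) : Prop :=
  ∀ x, OA M (b x) = (OA M x).comap g ∧ ∀ u, M.ev x (b.stalkMap x u) = g (M.ev (b x) u)

lemma RelA.comp {b b' : M.X ⟶ M.X} {g g' : K →ₐ[ℂ] K} (h : RelA b g) (h' : RelA b' g') :
    RelA (b ≫ b') (g.comp g') := fun x =>
  ⟨(h' _).1.trans (congrArg _ (h x).1), fun u => by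
    rw [Scheme.Hom.stalkMap_comp]
    exact ((h x).2 _).trans (congrArg g ((h' _).2 u))⟩

lemma RelA.eq_id {b : M.X ⟶ M.X} {g : K →ₐ[ℂ] K} (h : RelA b g) (hg : ∀ a, g a = a) : b = 𝟙 _ := by
  refine ext_of_isDominant (M.X.fromSpecStalk (genericPoint M.X)) ?_
  rw [← Scheme.SpecMap_stalkMap_fromSpecStalk, Category.comp_id, ← spec_alg (b _)]
  congr 2
  exact CommRingCat.hom_ext (RingHom.ext fun u => M.e.injective
    ((M.ev_gen _).symm.trans (((h _).2 u).trans (hg _))))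

lemma exists_relA (g : K →ₐ[ℂ] K) (hg : ∀ O ∈ pts 𝒞, O.comap g ∈ pts 𝒞) :
    ∃ b : M.X ⟶ M.X, b ≫ M.s = M.s ∧ RelA b g := by
  let O := (OA M (genericPoint M.X)).comap g
  have h : ∀ a ∈ O, evO O (g.comp O.val) a = g a := fun a ha => evO_of_mem _ ha
  have h1 : ∀ p, (OA M p).comap g ≤ O := fun p a ha => Model.O_mono (genericPoint_specializes p) ha
  obtain ⟨b, h2, h3⟩ := exists_mhom (M := M) M.e M.e_const (hg _ (OA_mem _)) (g.comp O.val)
    (fun p => (OA M p).comap g) (fun p => hg _ (OA_mem p)) h1 fun p a ⟨v, hv⟩ =>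
      ⟨v, hv.trans (h a (h1 p ⟨v, hv⟩)).symm, fun hu => (isU_comap g).mpr (hv ▸ Model.U_ev.mpr hu)⟩
  exact ⟨b, h2, fun x => ⟨(h3 x).1, fun u => ((h3 x).2 u).trans
    (h _ (h1 x ((h3 x).1 ▸ ⟨u, rfl⟩)))⟩⟩

variable (M) in
lemma exists_aut (g : AG.Aut (pts 𝒞)) :
    ∃ a : Aut (Over.mk M.s), RelA (M := M) a.inv.left (g.1 : K →ₐ[ℂ] K) := by
  obtain ⟨b, h1, h2⟩ := exists_relA (M := M) (g.1 : K →ₐ[ℂ] K) fun O => (g.2 O).1
  obtain ⟨b', h3, h4⟩ := exists_relA (M := M) (g.1.symm : K →ₐ[ℂ] K) fun O hO => (g.2 _).2 (by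
    convert hO using 1
    ext f
    simp)
  exact ⟨Over.isoMk ⟨b', b, (h4.comp h2).eq_id g.1.symm_apply_apply,
    (h2.comp h4).eq_id g.1.apply_symm_apply⟩ h3, h2⟩

lemma exists_aut' (a : Aut (Over.mk M.s)) :
    ∃ g : AG.Aut (pts 𝒞), RelA (M := M) a.inv.left (g.1 : K →ₐ[ℂ] K) := by
  obtain ⟨b, hb⟩ : ∃ b : M.X ⟶ M.X, b = a.inv.left := ⟨_, rfl⟩
  have : IsIso b := hb ▸ inferInstanceAs (IsIso ((Over.forget _).map a.inv))
  obtain ⟨ρ, hρ⟩ := exists_rho M.e M.e_const b (hb ▸ Over.w a.inv)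
  have h0 : ∀ f, f ∈ OA M (b (genericPoint M.X)) := fun f => by
    rw [genericPoint_eq_of_isOpenImmersion]
    exact ⟨M.e.symm f, (M.ev_gen _).trans (M.e.apply_symm_apply f)⟩
  let g := ρ.comp ((AlgHom.id ℂ K).codRestrict _ h0)
  have h1 : ∀ x u, M.ev x (b.stalkMap x u) = g (M.ev (b x) u) := fun x u =>
    (hρ x u).symm.trans (evO_of_mem ρ (h0 _))
  have h2 : ∀ x, ∀ f ∈ OA M x, ∃ u, g (M.ev (b x) u) = f := fun x f ⟨w, hw⟩ => by
    obtain ⟨u, rfl⟩ := (ConcreteCategory.bijective_of_isIso (b.stalkMap x)).2 w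
    exact ⟨u, (h1 x u).symm.trans hw⟩
  have h3 : Function.Surjective g := fun f =>
    (h2 _ f ⟨M.e.symm f, (M.ev_gen _).trans (M.e.apply_symm_apply f)⟩).elim fun u hu => ⟨_, hu⟩
  have h4 : ∀ x, OA M (b x) = (OA M x).comap g := fun x => Subalgebra.ext fun f =>
    ⟨fun ⟨u, hu⟩ => ⟨_, hu ▸ h1 x u⟩, fun hf => (h2 x _ hf).imp fun u hu => g.injective hu⟩
  have h5 : RelA b g := fun x => ⟨h4 x, h1 x⟩
  refine ⟨⟨.ofBijective g ⟨g.injective, h3⟩, fun O => ⟨fun hO => ?_, fun hO => ?_⟩⟩, hb ▸ h5⟩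
  · obtain ⟨x, rfl⟩ := exists_OA M hO
    exact h4 x ▸ OA_mem (b x)
  · obtain ⟨y, hy⟩ := exists_OA M hO
    obtain ⟨x, rfl⟩ := b.surjective y
    refine (Subalgebra.ext fun f => ?_ : OA M x = O) ▸ OA_mem x
    obtain ⟨f, rfl⟩ := h3 f
    exact SetLike.ext_iff.mp ((h4 x).symm.trans hy) f

lemma Rel.push {c : Curve M.s} {ν : AG.Curve (pts 𝒞)} (h : Rel c ν) {a : Aut (Over.mk M.s)}
    {g : AG.Aut (pts 𝒞)} (ha : RelA (M := M) a.inv.left (g.1 : K →ₐ[ℂ] K)) :
    ∃ c', Rel c' (ν.push (g.1 : K →ₐ[ℂ] K) fun O => (g.2 O).1) ∧ ∀ ξ, push a ξ c = ξ c' := by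
  obtain ⟨e, z, h1, h2, h3, h4⟩ := h
  refine ⟨_, ?_, fun ξ => rfl⟩
  refine ⟨e, z, h1, (congrArg _ h2).trans (ha _).1.symm,
    fun P => (congrArg _ (h3 P)).trans (ha _).1.symm, fun u => ?_⟩
  refine ((congrArg ν.ev ((ha _).2 u).symm).trans (h4 _)).trans (congrArg e ?_)
  exact (congrArg (fun f => f.hom u) (Scheme.Hom.stalkMap_comp c.γ a.inv.left _)).symm

lemma image_hull {V W : Type*} [AddCommGroup V] [Module ℝ V] [AddCommGroup W] [Module ℝ W]
    (f : V →ₗ[ℝ] W) (S : Set V) : f '' PointedCone.hull ℝ S = PointedCone.hull ℝ (f '' S) :=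
  congrArg SetLike.coe (Submodule.map_span (f : V →ₗ[{c : ℝ // 0 ≤ c}] W) S)

theorem bridge : BridgeStmt := by
  classical
  intro K ι _ _ 𝒞 M ⟨hfd, R, C, hR, hC, h1, h2, h3⟩
  choose r hr using exists_rel (M := M)
  choose l hl using exists_rel' M
  let Φ : (AG.Curve (pts 𝒞) → ℝ) →ₗ[ℝ] Curve M.s → ℝ := LinearMap.funLeft ℝ ℝ r
  have hΦ : ∀ {D : CDiv M.X} {E : Cartier (pts 𝒞)}, RelD D E → Φ E.cls = deg M.s D :=
    fun h => funext fun c => ((hr c).deg h).symm
  have key : ∀ ξ ∈ AG.N1 (pts 𝒞), ∀ c ν, Rel c ν → Φ ξ c = ξ ν := fun ξ hξ c ν h => by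
    refine LinearMap.eqOn_span' (f := (LinearMap.proj c).comp Φ) (g := LinearMap.proj ν) ?_ hξ
    rintro _ ⟨E, rfl⟩
    obtain ⟨D, hD⟩ := exists_cdiv M E
    exact (congrFun (hΦ hD) c).trans (h.deg hD)
  have hrg : Φ '' Set.range Cartier.cls = Set.range (deg M.s) := Set.ext fun η =>
    ⟨fun ⟨_, ⟨E, rfl⟩, h⟩ => (exists_cdiv M E).imp fun D hD => (hΦ hD).symm.trans h,
      fun ⟨D, h⟩ => (exists_cart D).elim fun E hE => ⟨_, ⟨E, rfl⟩, (hΦ hE).trans h⟩⟩
  have hef : Φ '' {η | ∃ E : Cartier (pts 𝒞), E.Effective ∧ E.cls = η} =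
      deg M.s '' {D | D.Effective} := Set.ext fun η =>
    ⟨fun ⟨_, ⟨E, hE, rfl⟩, h⟩ => (exists_cdiv M E).imp fun D hD =>
      ⟨hD.eff.mpr hE, (hΦ hD).symm.trans h⟩, fun ⟨D, hD, h⟩ => (exists_cart D).elim fun E hE =>
        ⟨_, ⟨E, hE.eff.mp hD, rfl⟩, (hΦ hE).trans h⟩⟩
  have hN : (AG.N1 (pts 𝒞)).map Φ = N1 M.s := by rw [AG.N1, Submodule.map_span, hrg, N1]
  have hinj : ∀ ξ ∈ AG.N1 (pts 𝒞), ∀ η ∈ AG.N1 (pts 𝒞), Φ ξ = Φ η → ξ = η := fun ξ hξ η hη h =>
    funext fun ν => by rw [← key ξ hξ _ ν (hl ν), ← key η hη _ ν (hl ν), h]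
  have hnef : Φ '' NefEff (pts 𝒞) = effNef M.s := Set.ext fun η => by
    rw [effNef, ← hef, Set.mem_ofPred_eq, ← SetLike.mem_coe, ← image_hull]
    refine ⟨fun ⟨ξ, h, h'⟩ => ⟨fun c => h' ▸ h.1 (r c), ξ, h.2, h'⟩, fun ⟨h, ξ, hξ, h'⟩ =>
      ⟨ξ, ⟨fun ν => ?_, hξ⟩, h'⟩⟩
    rw [← key ξ (Submodule.span_mono (fun _ h => h.imp fun _ h => h.2)
      (PointedCone.hull_le_span ℝ _ hξ)) _ ν (hl ν), h']
    exact h _
  have hact' : ∀ (a : Aut (Over.mk M.s)) (g : AG.Aut (pts 𝒞)),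
      RelA (M := M) a.inv.left (g.1 : K →ₐ[ℂ] K) → ∀ ξ ∈ AG.N1 (pts 𝒞), ∀ c ν, Rel c ν →
      push a (Φ ξ) c = g.act ξ ν := fun a g h ξ hξ c ν h' => by
    obtain ⟨c', h4, h5⟩ := h'.push h
    exact (h5 _).trans (key ξ hξ _ _ h4)
  have hact := fun a g h ξ hξ => funext fun c => hact' a g h ξ hξ c _ (hr c)
  let φ := Φ.comp (AG.N1 (pts 𝒞)).subtype
  let E : AG.N1 (pts 𝒞) ≃ₗ[ℝ] N1 M.s := .ofBijective
    (φ.codRestrict _ fun ξ => hN ▸ Submodule.mem_map_of_mem ξ.2)
    ⟨fun ξ η h => Subtype.ext (hinj _ ξ.2 _ η.2 (congrArg Subtype.val h)), fun ⟨η, hη⟩ => by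
      obtain ⟨ξ, hξ, rfl⟩ := hN.ge hη
      exact ⟨⟨ξ, hξ⟩, rfl⟩⟩
  have hint : int M.s (φ '' C) = φ '' interior C := by
    have h4 : (Subtype.val ⁻¹' (φ '' C) : Set (N1 M.s)) = E.toContinuousLinearEquiv.toHomeomorph '' C :=
      Set.ext fun η => exists_congr fun ξ => and_congr_right fun _ =>
        (Subtype.ext_iff (a1 := E ξ)).symm
    rw [int, h4, ← Homeomorph.image_interior, Set.image_image]
    rfl
  refine ⟨E.finrank_eq.symm, E.finiteDimensional, R.image φ, φ '' C, fun η hη => ?_, ?_, ?_, ?_,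
    fun a ⟨η, h4, h5⟩ => ?_⟩
  · obtain ⟨ξ, hξ, rfl⟩ := Finset.mem_image.mp hη
    rw [← hrg]
    exact Submodule.map_span (Φ.restrictScalars ℚ) _ ▸ Submodule.mem_map_of_mem (hR ξ hξ)
  · rw [hC, image_hull, Finset.coe_image]
  · rintro _ ⟨ξ, hξ, rfl⟩
    exact hnef ▸ ⟨_, h1 ξ hξ, rfl⟩
  · rw [← hnef]
    refine Set.ext fun η => ⟨?_, fun h => ?_⟩
    · rintro ⟨ξ, hξ, rfl⟩
      obtain ⟨g, ζ, hζ, rfl⟩ := (h2 ξ).mp hξ
      obtain ⟨a, ha⟩ := exists_aut M g
      exact Set.mem_iUnion.mpr ⟨a, _, ⟨ζ, hζ, rfl⟩, hact a g ha _ ζ.2⟩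
    · obtain ⟨a, _, ⟨ζ, hζ, rfl⟩, rfl⟩ := Set.mem_iUnion.mp h
      obtain ⟨g, hg⟩ := exists_aut' a
      exact ⟨_, (h2 _).mpr ⟨g, ζ, hζ, rfl⟩, (hact a g hg _ ζ.2).symm⟩
  · obtain ⟨g, hg⟩ := exists_aut' a
    obtain ⟨ξ₀, h6, rfl⟩ := hN.ge h4
    rw [hint]
    refine Set.eq_empty_of_forall_notMem ?_
    rintro _ ⟨⟨ξ, hξ, rfl⟩, _, ⟨ζ, hζ, rfl⟩, h7⟩
    refine h3 g ⟨ξ₀, h6, fun h => h5 ((hact a g hg _ h6).trans (congrArg Φ h))⟩ ξ hξ ζ hζ ?_
    exact funext fun ν => (key _ ξ.2 _ ν (hl ν)).symm.trans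
      ((congrFun h7 _).symm.trans (hact' a g hg _ ζ.2 _ ν (hl ν)))

end Pool.Agent.MP_20d318_ag.Sch

end MrgPart0

-- ======== part 1: formerly Pool.Agent.MP_20d318_ag.AG.Exc
section MrgPart1

/-! Module EXC: the exceptional valuations of the blow-up, and normality. -/

set_option autoImplicit false

namespace Pool.Agent.MP_20d318_ag.AG

open Pool.Agent.MP_79c67d_ag Pool.Agent.MP_20d318_ag.Lat E

namespace Exc

variable {k K : Type} [Field k] [Field K] [Algebra k K] {x y : Fin 3 → K} {p : Pt 3}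
  {O : Subalgebra k K}

theorem y_ne (h : Gen k x y) (i : Fin 3) : y i ≠ 0 := h.ind.ne_zero i

theorem t_ne (h : Gen k x y) (i : Fin 3) : tc x y i ≠ 0 := by
  refine div_ne_zero (fun h0 => h.ind.transcendental i ?_) (y_ne h i)
  have h1 := h.eq i
  rw [h0] at h1
  refine ⟨Polynomial.X ^ 2 - Polynomial.C 1, Polynomial.X_pow_sub_C_ne_zero two_pos 1, ?_⟩
  simp [h1]

theorem t_cube (h : Gen k x y) (i : Fin 3) : tc x y i ^ 3 = sc y i - sc y i ^ 3 := by
  have h0 := y_ne h i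
  have h1 := h.eq i
  simp only [tc, sc]
  field_simp
  linear_combination -h1

theorem s_bch (i j : Fin 3) : sc y i ∈ bch k x y j :=
  Algebra.subset_adjoin (Or.inl (Or.inl ⟨i, rfl⟩))

theorem t_bch (i j : Fin 3) : tc x y i ∈ bch k x y j :=
  Algebra.subset_adjoin (Or.inl (Or.inr ⟨i, rfl⟩))

theorem r_bch (i j : Fin 3) : tc x y i / tc x y j ∈ bch k x y j :=
  Algebra.subset_adjoin (Or.inr ⟨i, rfl⟩)

theorem bch_le {j : Fin 3} (hs : ∀ i, sc y i ∈ O) (ht : ∀ i, tc x y i ∈ O)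
    (hr : ∀ i, tc x y i / tc x y j ∈ O) : bch k x y j ≤ O := by
  refine Algebra.adjoin_le ?_
  rintro _ ((⟨i, rfl⟩ | ⟨i, rfl⟩) | ⟨i, rfl⟩)
  exacts [hs i, ht i, hr i]

theorem s_B0 (i : Fin 3) : sc y i ∈ (chart x y fun _ => false : Subalgebra k K) :=
  Algebra.subset_adjoin (Or.inr ⟨i, rfl⟩)

theorem t_B0 (i : Fin 3) : tc x y i ∈ (chart x y fun _ => false : Subalgebra k K) :=
  Algebra.subset_adjoin (Or.inl ⟨i, rfl⟩)

theorem B0_le (hs : ∀ i, sc y i ∈ O) (ht : ∀ i, tc x y i ∈ O) :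
    (chart x y fun _ => false : Subalgebra k K) ≤ O := by
  refine Algebra.adjoin_le ?_
  rintro _ (⟨i, rfl⟩ | ⟨i, rfl⟩)
  exacts [ht i, hs i]

theorem sv_mem (c : ZMod 3) : (sv c : K) ∈ O := intCast_mem O _

theorem s_mem (hp : Over (sc y) p O) (i : Fin 3) : sc y i ∈ O := by
  simpa using O.add_mem (hp i).1 (sv_mem (p i))

/-- The cofactor of `s - sv c` in `s - s ^ 3`. -/
def qq (s : K) (c : ZMod 3) : K := 1 - s ^ 2 - s * sv c - sv c ^ 2

theorem mul_qq (s : K) (c : ZMod 3) : (s - sv c) * qq s c = s - s ^ 3 := by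
  have := sv_cube (L := K) c
  unfold qq
  linear_combination -this

theorem qq_unit [CharZero k] (hO : IsLocalRing O) {s : K} {c : ZMod 3} (h : s - sv c ∈ mx O) :
    IsU O (qq s c) := by
  have hs : s ∈ O := by simpa using O.add_mem h.1 (sv_mem c)
  have e : qq s c = (1 - 3 * sv c ^ 2) + -(s + 2 * sv c) * (s - sv c) := by unfold qq; ring
  have h1 : IsU O ((1 : K) - 3 * sv c ^ 2) := by
    rcases zmod3 c with rfl | rfl | rfl
    · simpa using isU_one
    · have := isU_intCast (O := O) (n := -2) (by norm_num)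
      convert this using 1
      norm_num
    · have := isU_intCast (O := O) (n := -2) (by norm_num)
      convert this using 1
      norm_num
  rw [e]
  refine h1.add_mx hO (mx_mul_left (O.neg_mem (O.add_mem hs (O.mul_mem ?_ (sv_mem c)))) h)
  exact_mod_cast natCast_mem O 2

theorem t_mx [CharZero k] (h : Gen k x y) (hO : IsLocalRing O) (hp : Over (sc y) p O) {i : Fin 3}
    (ht : tc x y i ∈ O) : tc x y i ∈ mx O := by
  refine mx_of_pow ht (n := 3) ?_
  rw [t_cube h, ← mul_qq _ (p i)]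
  exact mx_mul_right (hp i) (qq_unit hO (hp i)).mem

theorem isIntegral_mono {C : Subalgebra k K} (h : O ≤ C) {f : K} (hf : IsIntegral O f) :
    IsIntegral C f := by
  let := (Subalgebra.inclusion h).toAlgebra
  have : IsScalarTower O C K := IsScalarTower.of_algebraMap_eq fun _ => rfl
  exact hf.tower_top

/-- Elements of the chart of the blow-up are polynomials in the slopes modulo `t j`. -/
theorem decomp [CharZero k] (h : Gen k x y) (p : Pt 3) (j : Fin 3) {a : K} (ha : a ∈ bch k x y j) :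
    ∃ (P : MvPolynomial (Fin 3) k) (a' : K),
      (∀ O : Subalgebra k K, IsLocalRing O → bch k x y j ≤ O → Over (sc y) p O → a' ∈ O) ∧
      a = MvPolynomial.aeval (fun i => tc x y i / tc x y j) P + tc x y j * a' := by
  have htj := t_ne h j
  have hP : ∀ (P : MvPolynomial (Fin 3) k),
      MvPolynomial.aeval (fun i => tc x y i / tc x y j) P ∈ bch k x y j := fun P => by
    have h1 : Algebra.adjoin k (Set.range fun i => tc x y i / tc x y j) ≤ bch k x y j := by
      refine Algebra.adjoin_le ?_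
      rintro _ ⟨i, rfl⟩
      exact r_bch i j
    refine h1 ?_
    rw [Algebra.adjoin_range_eq_range_aeval]
    exact ⟨P, rfl⟩
  induction ha using Algebra.adjoin_induction with
  | mem a ha =>
    rcases ha with (⟨i, rfl⟩ | ⟨i, rfl⟩) | ⟨i, rfl⟩
    · refine ⟨MvPolynomial.C (sv (p i)), (sc y i - sv (p i)) / tc x y j, fun O hO hle hp => ?_, ?_⟩
      · have hq := qq_unit hO (hp i)
        have e : (sc y i - sv (p i)) / tc x y j =
            tc x y i ^ 2 * (tc x y i / tc x y j) / qq (sc y i) (p i) := by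
          have h1 := mul_qq (sc y i) (p i)
          rw [← t_cube h] at h1
          have := hq.ne
          field_simp
          linear_combination h1
        rw [e]
        exact hq.div_mem (O.mul_mem (O.pow_mem (hle (t_bch i j)) 2) (hle (r_bch i j)))
      · rw [MvPolynomial.aeval_C, map_sv]
        field_simp
        ring
    · exact ⟨0, tc x y i / tc x y j, fun O _ hle _ => hle (r_bch i j), by
        rw [map_zero, zero_add, mul_div_cancel₀ _ htj]⟩
    · exact ⟨MvPolynomial.X i, 0, fun O _ _ _ => O.zero_mem, by simp⟩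
  | algebraMap c => exact ⟨MvPolynomial.C c, 0, fun O _ _ _ => O.zero_mem, by simp⟩
  | add a b _ _ iha ihb =>
    obtain ⟨P, a', ha', rfl⟩ := iha
    obtain ⟨Q, b', hb', rfl⟩ := ihb
    exact ⟨P + Q, a' + b', fun O h1 h2 h3 => O.add_mem (ha' O h1 h2 h3) (hb' O h1 h2 h3), by
      rw [map_add]; ring⟩
  | mul a b _ _ iha ihb =>
    obtain ⟨P, a', ha', rfl⟩ := iha
    obtain ⟨Q, b', hb', rfl⟩ := ihb
    refine ⟨P * Q, a' * MvPolynomial.aeval (fun i => tc x y i / tc x y j) Q +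
      MvPolynomial.aeval (fun i => tc x y i / tc x y j) P * b' + tc x y j * a' * b',
      fun O h1 h2 h3 => ?_, by rw [map_mul]; ring⟩
    exact O.add_mem (O.add_mem (O.mul_mem (ha' O h1 h2 h3) (h2 (hP Q)))
      (O.mul_mem (h2 (hP P)) (hb' O h1 h2 h3)))
      (O.mul_mem (O.mul_mem (h2 (t_bch j j)) (ha' O h1 h2 h3)) (hb' O h1 h2 h3))

theorem evO_aeval {L : Type} [Field L] [Algebra k L] (ρ : O →ₐ[k] L) {r : Fin 3 → K}
    (hr : ∀ i, r i ∈ O) (P : MvPolynomial (Fin 3) k) :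
    evO O ρ (MvPolynomial.aeval r P) = MvPolynomial.aeval (fun i => evO O ρ (r i)) P := by
  have e : MvPolynomial.aeval r P =
      ((MvPolynomial.aeval (fun i => (⟨r i, hr i⟩ : O)) P : O) : K) := by
    have := MvPolynomial.comp_aeval_apply (f := fun i => (⟨r i, hr i⟩ : O)) O.val P
    exact this.symm
  rw [e, evO_coe, MvPolynomial.comp_aeval_apply]
  simp only [← evO_coe]

/-- The generic point of the exceptional divisor in the chart `j`. -/
theorem exists_gen [CharZero k] (hB : BHomStmt) (h : Gen k x y) (p : Pt 3) (j : Fin 3) :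
    ∃ G ∈ Pts (bch k x y j), Over (sc y) p G ∧
      (∀ i, IsU G (tc x y i / tc x y j)) ∧
      (∀ i, i ≠ j → ∀ c : k, tc x y i / tc x y j - algebraMap k K c ∉ mx G) ∧
      ∀ O ∈ Pts (bch k x y j), Over (sc y) p O → O ≤ G ∧ ∀ f ∈ O, f ∈ mx G → f / tc x y j ∈ O := by
  let A := MvPolynomial (Fin 3) k
  let u : Fin 3 → A := Function.update MvPolynomial.X j 1
  have hinj := IsFractionRing.injective A (FractionRing A)
  obtain ⟨χ, hs, ht, hr⟩ := hB k K (FractionRing A) x y p j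
    (fun i => algebraMap A (FractionRing A) (u i)) h (by simp [u])
  obtain ⟨G, hG, ρ, hρ, he⟩ := exists_ext χ
  have hs' : ∀ i, evO G ρ (sc y i) = sv (p i) := fun i => by
    rw [he _ (s_bch i j), evO_of_mem _ (s_bch i j), hs]; rfl
  have ht' : ∀ i, evO G ρ (tc x y i) = 0 := fun i => by
    rw [he _ (t_bch i j), evO_of_mem _ (t_bch i j), ht]
  have hr' : ∀ i, evO G ρ (tc x y i / tc x y j) = algebraMap A (FractionRing A) (u i) := fun i => by
    rw [he _ (r_bch i j), evO_of_mem _ (r_bch i j), hr]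
  have hrG : ∀ i, tc x y i / tc x y j ∈ G := fun i => hG.2.1 (r_bch i j)
  have hover : Over (sc y) p G := fun i => by
    have h1 := hG.2.1 (s_bch (x := x) i j)
    refine (hρ.eq_zero_iff (G.sub_mem h1 (sv_mem _))).1 ?_
    rw [evO_sub ρ h1 (sv_mem _), hs', sv, sv, evO_intCast, sub_self]
  have hne : ∀ i, i ≠ j → ∀ c : k, tc x y i / tc x y j - algebraMap k K c ∉ mx G := by
    intro i hi c hm
    have h1 := (hρ.eq_zero_iff hm.1).2 hm
    rw [evO_sub ρ (hrG i) (G.algebraMap_mem c), hr', evO_const, sub_eq_zero,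
      IsScalarTower.algebraMap_apply k A (FractionRing A)] at h1
    have h2 := hinj h1
    simp only [u, Function.update_of_ne hi] at h2
    have h3 := congrArg (MvPolynomial.eval fun _ => c + 1) h2
    simp [A] at h3
  have key : ∀ a ∈ bch k x y j, a ∈ mx G → ∀ O : Subalgebra k K, IsLocalRing O →
      bch k x y j ≤ O → Over (sc y) p O → a / tc x y j ∈ O := by
    intro a ha hm O h1 h2 h3
    obtain ⟨P, a', ha', rfl⟩ := decomp h p j ha
    have h4 := ha' G hG.1 hG.2.1 hover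
    have h5 := G.mul_mem (hG.2.1 (t_bch j j)) h4
    have h6 : MvPolynomial.aeval (fun i => tc x y i / tc x y j) P ∈ G := by
      simpa using G.sub_mem hm.1 h5
    have h7 := (hρ.eq_zero_iff hm.1).2 hm
    rw [evO_add ρ h6 h5, evO_mul ρ (hG.2.1 (t_bch j j)) h4, ht', zero_mul, add_zero,
      evO_aeval ρ hrG] at h7
    simp only [hr'] at h7
    have h8 : MvPolynomial.aeval u P = 0 := by
      apply hinj
      rw [map_zero, ← h7]
      exact MvPolynomial.comp_aeval_apply (f := u) (IsScalarTower.toAlgHom k A (FractionRing A)) P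
    have h9 : MvPolynomial.aeval (fun i => tc x y i / tc x y j) P = 0 := by
      have := MvPolynomial.comp_aeval_apply (f := u)
        (MvPolynomial.aeval (R := k) fun i => tc x y i / tc x y j) P
      rw [h8, map_zero] at this
      rw [this]
      congr 2
      funext i
      by_cases hi : i = j
      · subst hi
        simp [u, div_self (t_ne h i)]
      · simp only [u, Function.update_of_ne hi]
        exact (MvPolynomial.aeval_X (fun i => tc x y i / tc x y j) i).symm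
    rw [h9, zero_add, mul_div_cancel_left₀ _ (t_ne h j)]
    exact ha' O h1 h2 h3
  refine ⟨G, hG, hover, fun i => ?_, hne, fun O hO hp => ?_⟩
  · by_cases hi : i = j
    · rw [hi, div_self (t_ne h j)]; exact isU_one
    · exact isU_of_not_mx (hrG i) (by simpa using hne i hi 0)
  · have hU : ∀ b ∈ bch k x y j, IsU O b → IsU G b := fun b hb hu =>
      isU_of_not_mx (hG.2.1 hb) fun hm => hu.not_mx (by
        have := mx_mul_right (t_mx h hO.1 hp (hO.2.1 (t_bch j j))) (key b hb hm O hO.1 hO.2.1 hp)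
        rwa [mul_div_cancel₀ _ (t_ne h j)] at this)
    refine ⟨fun f hf => ?_, fun f hf hm => ?_⟩
    · obtain ⟨a, ha, b, hb, hu, rfl⟩ := hO.2.2 f hf
      exact (hU b hb hu).div_mem (hG.2.1 ha)
    · obtain ⟨a, ha, b, hb, hu, rfl⟩ := hO.2.2 f hf
      have h1 := mx_mul_right hm (hG.2.1 hb)
      rw [div_mul_cancel₀ _ hu.ne] at h1
      rw [div_right_comm]
      exact hu.div_mem (key a ha h1 O hO.1 hO.2.1 hp)

theorem bch_fin (x y : Fin 3 → K) (j : Fin 3) :
    (Set.range (sc y) ∪ Set.range (tc x y) ∪ Set.range fun i => tc x y i / tc x y j).Finite :=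
  ((Set.finite_range _).union (Set.finite_range _)).union (Set.finite_range _)

/-- The same as a place. -/
theorem exists_place [CharZero k] (hB : BHomStmt) (hF : FracStmt) (hNo : NoethStmt)
    (hD : DvrStmt) (h : Gen k x y) (p : Pt 3) (j : Fin 3) :
    ∃ P : Place k K, plO P ∈ Pts (bch k x y j) ∧ Over (sc y) p (plO P) ∧
      (∀ i, P.ord (tc x y i) = 1) ∧ (∀ j', bch k x y j' ≤ plO P) ∧
      (∀ i, i ≠ j → ∀ c : k, tc x y i / tc x y j - algebraMap k K c ∉ mx (plO P)) ∧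
      ∀ O ∈ Pts (bch k x y j), Over (sc y) p O →
        O ≤ plO P ∧ ∀ f ∈ O, f ∈ mx (plO P) → f / tc x y j ∈ O := by
  obtain ⟨G, hG, hp, hU, hne, hle⟩ := exists_gen hB h p j
  have hs : ∀ i, sc y i ∈ G := fun i => hG.2.1 (s_bch i j)
  have ht : ∀ i, tc x y i ∈ G := fun i => hG.2.1 (t_bch i j)
  obtain ⟨P, rfl, hP⟩ := hD k K G hG.1 (hNo k K _ (bch_fin x y j) G hG)
    ((hF k K _ x y _ h).mono (B0_le hs ht)) (tc x y j) (t_mx h hG.1 hp (ht j)) (t_ne h j)
    fun a ha => (hle G hG hp).2 a ha.1 ha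
  refine ⟨P, hG, hp, fun i => ?_, fun j' => bch_le hs ht fun i => ?_, hne, hle⟩
  · have h1 := ((isU_plO' P).1 (hU i)).2
    rw [P.ord_div (t_ne h i) (t_ne h j)] at h1
    omega
  · have := (hU j').div_mem (hU i).mem
    rwa [div_div_div_cancel_right₀ (t_ne h j)] at this

theorem mem_Pts {σ : K ≃ₐ[k] K} (hY : YFacts x y σ) (hO : O ∈ blE x y σ) {j : Fin 3}
    (h : bch k x y j ≤ O) : O ∈ Pts (bch k x y j) := by
  obtain ⟨O', hO', hd⟩ := exists_ctr (hY.good.loc O hO) h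
  rwa [← hY.good.sep O' ((hY.mem O').2 (Or.inr ⟨j, hO'⟩)) O hO O (hY.good.loc O hO) hd (Dom.refl O)]

/-- Elements of the chart of the blow-up have powers of `t j` as denominators. -/
theorem denom (h : Gen k x y) (j : Fin 3) {a : K} (ha : a ∈ bch k x y j) :
    ∃ b ∈ (chart x y fun _ => false : Subalgebra k K), ∃ n : ℕ, a = b / tc x y j ^ n := by
  have htj := t_ne h j
  induction ha using Algebra.adjoin_induction with
  | mem a ha =>
    rcases ha with (⟨i, rfl⟩ | ⟨i, rfl⟩) | ⟨i, rfl⟩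
    · exact ⟨_, s_B0 i, 0, by simp⟩
    · exact ⟨_, t_B0 i, 0, by simp⟩
    · exact ⟨_, t_B0 i, 1, by simp⟩
  | algebraMap c => exact ⟨_, Subalgebra.algebraMap_mem _ c, 0, by simp⟩
  | add a b _ _ iha ihb =>
    obtain ⟨a, ha, m, rfl⟩ := iha
    obtain ⟨b, hb, n, rfl⟩ := ihb
    refine ⟨a * tc x y j ^ n + tc x y j ^ m * b, add_mem (mul_mem ha (pow_mem (t_B0 j) n))
      (mul_mem (pow_mem (t_B0 j) m) hb), m + n, ?_⟩
    rw [div_add_div _ _ (pow_ne_zero m htj) (pow_ne_zero n htj), pow_add]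
  | mul a b _ _ iha ihb =>
    obtain ⟨a, ha, m, rfl⟩ := iha
    obtain ⟨b, hb, n, rfl⟩ := ihb
    exact ⟨a * b, mul_mem ha hb, m + n, by rw [div_mul_div_comm, pow_add]⟩

/-- The ring `O [1 / t]`. -/
def away (O : Subalgebra k K) {t : K} (ht : t ∈ O) (h0 : t ≠ 0) : Subalgebra k K where
  carrier := {f | ∃ a ∈ O, ∃ n : ℕ, f = a / t ^ n}
  mul_mem' := by
    rintro _ _ ⟨a, ha, m, rfl⟩ ⟨b, hb, n, rfl⟩
    exact ⟨a * b, mul_mem ha hb, m + n, by rw [div_mul_div_comm, pow_add]⟩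
  add_mem' := by
    rintro _ _ ⟨a, ha, m, rfl⟩ ⟨b, hb, n, rfl⟩
    refine ⟨a * t ^ n + t ^ m * b, add_mem (mul_mem ha (pow_mem ht n))
      (mul_mem (pow_mem ht m) hb), m + n, ?_⟩
    rw [div_add_div _ _ (pow_ne_zero m h0) (pow_ne_zero n h0), pow_add]
  algebraMap_mem' c := ⟨_, O.algebraMap_mem c, 0, by simp⟩

theorem nrm_over (hNL : NrmLocStmt) (h : Gen k x y)
    (hN : Nrm (chart x y fun _ => false : Subalgebra k K)) {j : Fin 3}
    (hO : O ∈ Pts (bch k x y j)) {V : Subalgebra k K} (hV : Nrm V) (hle : O ≤ V)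
    (ht : tc x y j ∈ mx V) (hdiv : ∀ f ∈ O, f ∈ mx V → f / tc x y j ∈ O) : Nrm O := by
  have htj := t_ne h j
  have htO := hO.2.1 (t_bch j j)
  have h1 : O ≤ away O htO htj := fun a ha => ⟨a, ha, 0, by simp⟩
  have h2 : IsU (away O htO htj) (tc x y j) := ⟨htj, h1 htO, 1, O.one_mem, 1, by simp⟩
  have h3 : Nrm (away O htO htj) := by
    refine hNL k K _ _ hN ((B0_le (fun i => hO.2.1 (s_bch i j))
      fun i => hO.2.1 (t_bch i j)).trans h1) ?_
    rintro _ ⟨f, hf, n, rfl⟩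
    obtain ⟨a, ha, b, hb, hu, rfl⟩ := hO.2.2 f hf
    obtain ⟨a, ha0, m, rfl⟩ := denom h j ha
    obtain ⟨b, hb0, l, rfl⟩ := denom h j hb
    have h4 : IsU (away O htO htj) b := by
      have := (hu.mono h1).mul (h2.pow l)
      rwa [div_mul_cancel₀ _ (pow_ne_zero l htj)] at this
    refine ⟨a * tc x y j ^ l, mul_mem ha0 (pow_mem (t_B0 j) l), b * tc x y j ^ (m + n),
      mul_mem hb0 (pow_mem (t_B0 j) _), h4.mul (h2.pow _), ?_⟩
    have := h4.ne
    rw [pow_add]
    field_simp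
  intro f hf
  have hfV := hV f (isIntegral_mono hle hf)
  obtain ⟨a, ha, n, e⟩ := h3 f (isIntegral_mono h1 hf)
  induction n generalizing a with
  | zero => simpa [e] using ha
  | succ n ih =>
    refine ih (a / tc x y j) (hdiv a ha ?_) (by rw [e, pow_succ', div_div])
    have := mx_mul_left hfV (mx_pow ht (Nat.succ_ne_zero n))
    rwa [e, div_mul_cancel₀ _ (pow_ne_zero _ htj)] at this

/-- At a fixed point all functions are constant modulo the maximal ideal. -/
theorem const_mod [CharZero k] (h : Gen k x y)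
    (hO : O ∈ Pts (chart x y fun _ => false : Subalgebra k K)) (hp : Over (sc y) p O) {f : K}
    (hf : f ∈ O) : ∃ c : k, f - algebraMap k K c ∈ mx O := by
  have h1 : ∀ a ∈ (chart x y fun _ => false : Subalgebra k K),
      ∃ c : k, a - algebraMap k K c ∈ mx O := by
    intro a ha
    induction ha using Algebra.adjoin_induction with
    | mem a ha =>
      rcases ha with ⟨i, rfl⟩ | ⟨i, rfl⟩
      · exact ⟨0, by simpa [tc] using t_mx h hO.1 hp (hO.2.1 (t_B0 i))⟩
      · exact ⟨sv (p i), by rw [map_sv]; exact hp i⟩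
    | algebraMap c => exact ⟨c, by simpa using zero_mem_mx⟩
    | add a b _ _ iha ihb =>
      obtain ⟨c, hc⟩ := iha
      obtain ⟨d, hd⟩ := ihb
      refine ⟨c + d, ?_⟩
      convert mx_add hO.1 hc hd using 1
      rw [map_add]; ring
    | mul a b _ hb iha ihb =>
      obtain ⟨c, hc⟩ := iha
      obtain ⟨d, hd⟩ := ihb
      refine ⟨c * d, ?_⟩
      convert mx_add hO.1 (mx_mul_right hc (hO.2.1 hb)) (mx_mul_left (O.algebraMap_mem c) hd)
        using 1
      rw [map_mul]; ring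
  obtain ⟨a, ha, b, hb, hu, rfl⟩ := hO.2.2 f hf
  obtain ⟨c, hc⟩ := h1 a ha
  obtain ⟨d, hd⟩ := h1 b hb
  have hd0 : d ≠ 0 := fun h0 => hu.not_mx (by simpa [h0] using hd)
  have hd1 : algebraMap k K d ≠ 0 := by simpa using hd0
  refine ⟨c / d, ?_⟩
  convert mx_div (mx_sub' hO.1 hc (mx_mul_left (O.algebraMap_mem (c / d)) hd)) hu using 1
  have := hu.ne
  rw [map_div₀]
  field_simp
  ring

theorem exists_top (R : Fin 3 → Fin 3 → Prop) (h1 : ∀ i, R i i) (h2 : ∀ i j, R i j ∨ R j i)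
    (h3 : ∀ i j l, R i j → R j l → R i l) : ∃ j, ∀ i, R i j := by
  obtain ⟨j, a, b⟩ : ∃ j, R 0 j ∧ R 1 j :=
    (h2 0 1).elim (fun h => ⟨1, h, h1 1⟩) fun h => ⟨0, h1 0, h⟩
  rcases h2 j 2 with h | h
  · refine ⟨2, fun i => ?_⟩
    fin_cases i
    exacts [h3 _ _ _ a h, h3 _ _ _ b h, h1 2]
  · refine ⟨j, fun i => ?_⟩
    fin_cases i
    exacts [a, b, h]

/-- A valuation ring over a fixed point which is a point of the product. -/
theorem val_over (h : Gen k x y) {V : Subalgebra k K} (hV : IsVal V) (hA : V ∈ prodE k x y)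
    (hp : Over (sc y) p V) :
    V ∈ Pts (chart x y fun _ => false : Subalgebra k K) ∧ ∃ j, bch k x y j ≤ V := by
  have hs := s_mem hp
  have ht : ∀ i, tc x y i ∈ V := fun i => by
    by_contra hn
    have h1 := mx_pow (hV.inv_mx hn) (n := 3) (by norm_num)
    have h2 : tc x y i ^ 3 ∈ V := by
      rw [t_cube h]; exact V.sub_mem (hs i) (V.pow_mem (hs i) 3)
    have h3 := mx_mul_left h2 h1
    rw [← mul_pow, mul_inv_cancel₀ (t_ne h i), one_pow] at h3
    exact one_not_mem_mx h3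
  obtain ⟨c, hc⟩ := Set.mem_iUnion.1 hA
  obtain ⟨O', hO', hd⟩ := exists_ctr hV.isLocalRing (B0_le hs ht)
  have h1 : chart x y c ≤ O' := by
    have hy : ∀ i, c i = true → y i ∈ O' := fun i hi => by
      have h2 : y i ∈ V := hc.2.1 (Algebra.subset_adjoin (Or.inr ⟨i, by simp [hi]⟩))
      have h3 := hd.2 _ (hO'.2.1 (s_B0 i)) ⟨inv_ne_zero (y_ne h i), hs i, by simpa [sc] using h2⟩
      simpa [sc] using h3.inv_mem
    refine Algebra.adjoin_le ?_
    rintro _ (⟨i, rfl⟩ | ⟨i, rfl⟩)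
    · by_cases hi : c i = true
      · have := O'.mul_mem (hO'.2.1 (t_B0 i)) (hy i hi)
        rw [tc, div_mul_cancel₀ _ (y_ne h i)] at this
        simpa [hi] using this
      · simpa [hi, tc] using hO'.2.1 (t_B0 i)
    · by_cases hi : c i = true
      · simpa [hi] using hy i hi
      · simpa [hi, sc] using hO'.2.1 (s_B0 i)
  refine ⟨by rwa [le_antisymm (Pts_le hc h1 le_rfl hd) hd.1], ?_⟩
  have hcmp : ∀ i j, tc x y i / tc x y j ∈ V ∨ tc x y j / tc x y i ∈ V := fun i j => by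
    simpa using hV (tc x y i / tc x y j)
  have hrefl : ∀ i, tc x y i / tc x y i ∈ V := fun i => by
    rw [div_self (t_ne h i)]; exact V.one_mem
  have htr : ∀ i j l, tc x y i / tc x y j ∈ V → tc x y j / tc x y l ∈ V →
      tc x y i / tc x y l ∈ V := fun i j l h2 h3 => by
    have := V.mul_mem h2 h3
    rwa [div_mul_div_cancel₀ (t_ne h j)] at this
  obtain ⟨j, hj⟩ := exists_top (fun i j => tc x y i / tc x y j ∈ V) hrefl hcmp htr
  exact ⟨j, bch_le hs ht hj⟩

end Exc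

open Exc in
theorem exc_stmt (hB : BHomStmt) (hY : YStmt) (hF : FracStmt) (hN : NrmStmt) (hNo : NoethStmt)
    (hNL : NrmLocStmt) (hD : DvrStmt) (hK : KrullStmt) : ExcStmt := by
  intro k K _ _ _ _ w x y σ hS
  have h := hS.toGen
  have hY := hY k K w x y σ hS
  choose P hP hover hord hle hne hmain using exists_place hB hF hNo hD h
  have hmem : ∀ p j, plO (P p j) ∈ blE x y σ := fun p j => (hY.mem _).2 (Or.inr ⟨j, hP p j⟩)
  have heq : ∀ p j j', P p j = P p j' := fun p j j' =>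
    plO_inj (hmain p j' _ (mem_Pts hY (hmem p j) (hle p j j')) (hover p j)).1
  have hA : ∀ O ∈ prodE k x y, Nrm O := fun O hO => by
    obtain ⟨c, hc⟩ := Set.mem_iUnion.1 hO
    exact hNL k K _ O (hN k K _ w x y c hS.hw h) hc.2.1 hc.2.2
  have hnrm : ∀ O ∈ blE x y σ, Nrm O := fun O hO => by
    by_cases hp : ∃ p, Over (sc y) p O
    · obtain ⟨p, hp⟩ := hp
      obtain ⟨j, hj⟩ := hY.memB O hO p hp
      exact nrm_over hNL h (hN k K _ w x y _ hS.hw h) hj (plO_isVal (P p j)).nrm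
        (hmain p j O hj hp).1 (t_mx h (hP p j).1 (hover p j) (hle p j j (t_bch j j)))
        (hmain p j O hj hp).2
    · exact hA O (hY.memA O hO fun p h' => hp ⟨p, h'⟩)
  refine ⟨fun p => ⟨P p 0, hmem p 0, hover p 0, hord p 0, fun O hO hp => ?_⟩, hnrm, hA,
    fun Q hQ p hp => ?_, fun O hO f hf => ?_⟩
  · obtain ⟨j, hj⟩ := hY.memB O hO p hp
    refine ⟨heq p j 0 ▸ (hmain p j O hj hp).1, fun f hf hm => ?_⟩
    have h1 := Classical.epsilon_spec (p := fun j => ∀ i, tc x y i / tc x y j ∈ O)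
      ⟨j, fun i => hj.2.1 (r_bch i j)⟩
    rw [ep, if_pos hp]
    exact (hmain p _ O (mem_Pts hY hO (bch_le (fun i => hj.2.1 (s_bch i j))
      (fun i => hj.2.1 (t_bch i j)) h1)) hp).2 f hf (heq p 0 _ ▸ hm)
  · obtain ⟨h1, j, hj⟩ := val_over h (plO_isVal Q) hQ hp
    have h2 := Pts_of_le h1 (B0_le (fun i => s_bch i j) fun i => t_bch i j) hj
    obtain rfl : Q = P p j := plO_inj (hmain p j _ h2 hp).1
    obtain ⟨i, hi⟩ := exists_ne j
    obtain ⟨c, hc⟩ := const_mod h h1 hp (hj (r_bch i j))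
    exact hne p j i hi c hc
  · obtain ⟨G, hG, hOG, hsub⟩ := hY.good.fg O hO
    obtain ⟨c, hc⟩ := hY.chart_le O hO
    exact hK k K O (hNo k K G hG O hOG) (hnrm O hO) ((hF k K _ x y c h).mono hc) f
      fun Q hQ => hf Q (hsub (Pts_trans hOG hQ)) hQ.2.1

end Pool.Agent.MP_20d318_ag.AG

end MrgPart1

-- ======== part 2: formerly Pool.Agent.MP_20d318_ag.AG.Red
section MrgPart2

/-! Reduction of points modulo valuation rings and normal local rings. -/

set_option autoImplicit false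
set_option linter.unusedSectionVars false

namespace Pool.Agent.MP_20d318_ag.AG

open Pool.Agent.MP_79c67d_ag Pool.Agent.MP_20d318_ag.Lat E

section val

variable {L Γ : Type*} [Field L] [LinearOrderedCommGroupWithZero Γ] (v : Valuation L Γ)

theorem max_mul_max (a b : L) :
    max 1 (v a) * max 1 (v b) = max 1 (max (v (a + b)) (v (a * b))) := by
  have key : ∀ a b : L, 1 < v a → v b ≤ 1 →
      max 1 (v a) * max 1 (v b) = max 1 (max (v (a + b)) (v (a * b))) := by
    intro a b ha hb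
    rw [max_eq_right ha.le, max_eq_left hb, mul_one, v.map_add_eq_of_lt_left (hb.trans_lt ha),
      map_mul, max_eq_left (mul_le_of_le_one_right' hb), max_eq_right ha.le]
  rcases le_or_gt (v a) 1 with ha | ha <;> rcases le_or_gt (v b) 1 with hb | hb
  · rw [max_eq_left ha, max_eq_left hb, mul_one, max_eq_left]
    exact max_le (v.map_add_le ha hb) (by rw [map_mul]; exact mul_le_one' ha hb)
  · rw [mul_comm, key b a hb ha, add_comm, mul_comm]
  · exact key a b ha hb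
  · rw [max_eq_right ha.le, max_eq_right hb.le, map_mul, max_eq_right (v.map_add_le
      (le_mul_of_one_le_right' hb.le) (le_mul_of_one_le_left' ha.le)),
      max_eq_right (one_le_mul ha.le hb.le)]

variable {v} (h2 : v 2 = 1) (h3' : v 3 = 1)
include h2 h3'

theorem max_three (a b : L) :
    max (v ((a - b) ^ 2)) (max (v (2 * (a * b) * (a + b) + 4)) (v ((a * b) ^ 2 - 4 * (a + b)))) =
      max 1 (v a) ^ 2 * max 1 (v b) ^ 2 := by
  have h4 : v 4 = 1 := by rw [show (4 : L) = 2 * 2 by norm_num, map_mul, h2, one_mul]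
  have h36 : v 36 = 1 := by
    rw [show (36 : L) = 4 * (3 * 3) by norm_num, map_mul, map_mul, h3', h4, one_mul, one_mul]
  have up : ∀ a b : L, max (v ((a - b) ^ 2)) (max (v (2 * (a * b) * (a + b) + 4))
      (v ((a * b) ^ 2 - 4 * (a + b)))) ≤ max 1 (v a) ^ 2 * max 1 (v b) ^ 2 := by
    intro a b
    have ha := le_max_right 1 (v a)
    have hb := le_max_right 1 (v b)
    have hA := le_max_left 1 (v a)
    have hB := le_max_left 1 (v b)
    generalize max 1 (v a) = A at *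
    generalize max 1 (v b) = B at *
    have h1 : v (a + b) ≤ A * B :=
      v.map_add_le (ha.trans (le_mul_of_one_le_right' hB)) (hb.trans (le_mul_of_one_le_left' hA))
    have h1' : v (a - b) ≤ A * B :=
      v.map_sub_le (ha.trans (le_mul_of_one_le_right' hB)) (hb.trans (le_mul_of_one_le_left' hA))
    have h3 : v (a * b) ≤ A * B := by rw [map_mul]; exact mul_le_mul' ha hb
    have h5 : 1 ≤ A * B := one_le_mul hA hB
    rw [← mul_pow]
    generalize A * B = C at *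
    refine max_le ?_ (max_le (v.map_add_le ?_ ?_) (v.map_sub_le ?_ ?_))
    · rw [map_pow]; exact pow_le_pow_left' h1' 2
    · rw [map_mul, map_mul, h2, one_mul, sq]; exact mul_le_mul' h3 h1
    · rw [h4]; exact one_le_pow_of_one_le' h5 2
    · rw [map_pow]; exact pow_le_pow_left' h3 2
    · rw [map_mul, h4, one_mul, sq]; exact h1.trans (le_mul_of_one_le_right' h5)
  refine le_antisymm (up a b) ?_
  rcases le_or_gt (v a) 1 with ha | ha <;> rcases le_or_gt (v b) 1 with hb | hb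
  · rw [max_eq_left ha, max_eq_left hb, one_pow, mul_one]
    by_contra hn
    simp only [not_le, max_lt_iff, map_pow] at hn
    obtain ⟨h1, h3, h5⟩ := hn
    have hd : v (a - b) < 1 := by
      by_contra h; exact absurd h1 (not_lt.2 (one_le_pow_of_one_le' (not_lt.1 h) 2))
    have ha' : a ∈ v.integer := ha
    have hb' : b ∈ v.integer := hb
    have m : ∀ x y, x ∈ v.integer → v y < 1 → v (x * y) < 1 := fun x y hx hy => by
      rw [map_mul]; exact (mul_le_of_le_one_left' hx).trans_lt hy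
    have e : (36 : L) = (9 - b ^ 3) * (2 * (a * b) * (a + b) + 4) +
        4 * b ^ 2 * ((a * b) ^ 2 - 4 * (a + b)) -
        ((9 - b ^ 3) * (2 * a * b + 4 * b ^ 2) + 4 * b ^ 2 * (b ^ 2 * (a + b) - 4)) * (a - b) := by
      ring
    refine absurd h36 (ne_of_lt ?_)
    rw [e]
    refine v.map_sub_lt (v.map_add_lt (m _ _ ?_ h3) (m _ _ ?_ h5)) (m _ _ ?_ hd) <;>
      apply_rules [add_mem, mul_mem, sub_mem, pow_mem, ofNat_mem]
  · refine le_max_of_le_left ?_
    rw [max_eq_left ha, max_eq_right hb.le, one_pow, one_mul, map_pow,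
      v.map_sub_eq_of_lt_right (ha.trans_lt hb)]
  · refine le_max_of_le_left ?_
    rw [max_eq_left hb, max_eq_right ha.le, one_pow, mul_one, map_pow,
      v.map_sub_eq_of_lt_left (hb.trans_lt ha)]
  · refine le_max_of_le_right (le_max_of_le_right ?_)
    rw [max_eq_right ha.le, max_eq_right hb.le, ← mul_pow, v.map_sub_eq_of_lt_left, map_pow, map_mul]
    rw [map_mul, h4, one_mul, map_pow, map_mul, sq]
    have h5 : 1 < v a * v b := one_lt_mul'' ha hb
    exact (v.map_add_le (le_mul_of_one_le_right' hb.le) (le_mul_of_one_le_left' ha.le)).trans_lt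
      (lt_mul_of_one_lt_right (one_pos.trans h5) h5)

end val

theorem loc_stmt : LocStmt := by
  intro L Γ _ _ _ v h2 h3 Q R hQ hR h1 h2'
  have h : Q.X ≠ R.X := fun h => (eq_or_neg hQ hR h).elim (fun e => h2' (by simp [e]))
    fun e => h1 (by simp [e])
  have hd := sub_ne_zero.2 h
  have e1 := X_add hQ hR h1
  have e2 := X_add hQ (neg_ne_zero.2 hR) (by rwa [← sub_eq_add_neg])
  rw [sl, if_neg (by simpa using h)] at e1 e2
  simp only [X_neg, Y_neg, ← sub_eq_add_neg] at e2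
  have e3 : (Q.X - R.X) ^ 2 * ((Q + R).X + (Q - R).X) = 2 * (Q.X * R.X) * (Q.X + R.X) + 4 := by
    rw [e1, e2]; field_simp; linear_combination 2 * eqn hQ + 2 * eqn hR
  have e4 : (Q.X - R.X) ^ 2 * ((Q + R).X * (Q - R).X) = (Q.X * R.X) ^ 2 - 4 * (Q.X + R.X) := by
    rw [e1, e2]; field_simp
    linear_combination (Q.Y ^ 2 - 2 * R.Y ^ 2 + Q.X ^ 3 + 1 -
      2 * (Q.X + R.X) * (Q.X - R.X) ^ 2) * eqn hQ + (R.Y ^ 2 + R.X ^ 3 + 1 - 2 * (Q.X ^ 3 + 1) -
      2 * (Q.X + R.X) * (Q.X - R.X) ^ 2) * eqn hR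
  have := max_three h2 h3 Q.X R.X
  rwa [← e3, ← e4, map_mul, map_mul, ← mul_max, ← mul_one (v ((Q.X - R.X) ^ 2)), mul_assoc,
    ← mul_max, one_mul, ← max_mul_max, map_pow, ← mul_pow] at this

section red

variable {k K L L' : Type} [Field k] [CharZero k] [Field K] [CharZero K] [Algebra k K]
  [Field L] [CharZero L] [Algebra k L] [Field L'] [CharZero L'] [Algebra k L']
  {O V : Subalgebra k K}

/-- The point has coordinates in `O`. -/
def AffR (O : Subalgebra k K) (Q : E K) : Prop := Q ≠ 0 ∧ Q.X ∈ O ∧ Q.Y ∈ O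

theorem AffR.eqn {Q : E K} (h : AffR O Q) (ρ : O →ₐ[k] L) :
    evO O ρ Q.Y ^ 2 = evO O ρ Q.X ^ 3 + 1 := by
  rw [← evO_pow ρ h.2.2, E.eqn h.1, evO_add ρ (O.pow_mem h.2.1 3) O.one_mem, evO_pow ρ h.2.1,
    evO_one]

theorem AffR.res_eq {Q : E K} (h : AffR O Q) (ρ : O →ₐ[k] L) :
    res O ρ Q = mk (evO O ρ Q.X) (evO O ρ Q.Y) := if_pos h

theorem res_of_notR {Q : E K} (h : ¬ AffR O Q) (ρ : O →ₐ[k] L) : res O ρ Q = 0 := if_neg h

theorem AffR.res_ne {Q : E K} (h : AffR O Q) (ρ : O →ₐ[k] L) : res O ρ Q ≠ 0 := by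
  rw [h.res_eq]; exact mk_ne (h.eqn ρ)

theorem AffR.res_X {Q : E K} (h : AffR O Q) (ρ : O →ₐ[k] L) : (res O ρ Q).X = evO O ρ Q.X := by
  rw [h.res_eq, X_mk (h.eqn ρ)]

theorem AffR.res_Y {Q : E K} (h : AffR O Q) (ρ : O →ₐ[k] L) : (res O ρ Q).Y = evO O ρ Q.Y := by
  rw [h.res_eq, Y_mk (h.eqn ρ)]

theorem affR_neg {Q : E K} : AffR O (-Q) ↔ AffR O Q := by simp [AffR]

theorem res_negR (ρ : O →ₐ[k] L) (Q : E K) : res O ρ (-Q) = - res O ρ Q := by
  by_cases h : AffR O Q
  · have h' := affR_neg.2 h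
    refine ext' (h'.res_ne ρ) (neg_ne_zero.2 (h.res_ne ρ)) ?_ ?_
    · rw [h'.res_X, X_neg, X_neg, h.res_X]
    · rw [h'.res_Y, Y_neg, Y_neg, h.res_Y, evO_neg ρ h.2.2]
  · rw [res_of_notR h, res_of_notR (mt affR_neg.1 h), neg_zero]

theorem res_compR (ρ : O →ₐ[k] L) (ι : L →ₐ[k] L') (Q : E K) :
    res O (ι.comp ρ) Q = pmap (ι : L →+* L') (res O ρ Q) := by
  by_cases h : AffR O Q
  · rw [h.res_eq, h.res_eq, pmap_mk _ (h.eqn ρ), evO_comp, evO_comp]; rfl
  · rw [res_of_notR h, res_of_notR h, map_zero]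

theorem IsVal.of_powR (hV : IsVal V) {a : K} {n : ℕ} (h : a ^ (n + 1) ∈ V) : a ∈ V := by
  by_contra hn
  have h0 : a ≠ 0 := fun h0 => hn (h0 ▸ V.zero_mem)
  have := V.mul_mem h (V.pow_mem (hV.inv_mx hn).1 n)
  rw [pow_succ', mul_assoc, ← mul_pow, mul_inv_cancel₀ h0, one_pow, mul_one] at this
  exact hn this

theorem IsVal.affR (hV : IsVal V) {Q : E K} (h0 : Q ≠ 0) (h : Q.X ∈ V) : AffR V Q :=
  ⟨h0, h, hV.of_powR (n := 1) (by rw [eqn h0]; exact V.add_mem (V.pow_mem h 3) V.one_mem)⟩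

theorem red_affR (hV : IsVal V) {ρ : V →ₐ[k] L} (hρ : LocHom V ρ) {P Q : E K} (hP : AffR V P)
    (hQ : AffR V Q) : res V ρ (P + Q) = res V ρ P + res V ρ Q := by
  by_cases h : P + Q = 0
  · obtain rfl := add_eq_zero_iff_eq_neg.1 h
    rw [h, res_negR, neg_add_cancel, res_of_notR fun h => h.1 rfl]
  have h1 := sl_mul1 hP.1 hQ.1 h
  have h2 := sl_mul2 hP.1 hQ.1 h
  have h3 := X_add hP.1 hQ.1 h
  have h4 := Y_add hP.1 hQ.1 h
  generalize sl P Q = m at *
  obtain ⟨-, a1, b1⟩ := id hP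
  obtain ⟨-, a2, b2⟩ := id hQ
  by_cases hm : m ∈ V
  · have a3 : (P + Q).X ∈ V := by rw [h3]; exact sub_mem (sub_mem (pow_mem hm 2) a1) a2
    have hR := hV.affR h a3
    have g1 := congrArg (evO V ρ) h1
    have g2 := congrArg (evO V ρ) h2
    have g3 := congrArg (evO V ρ) h3
    have g4 := congrArg (evO V ρ) h4
    rw [evO_mul ρ (sub_mem a1 a2) hm, evO_sub ρ a1 a2, evO_sub ρ b1 b2] at g1
    rw [evO_mul ρ (add_mem b1 b2) hm, evO_add ρ b1 b2,
      evO_add ρ (add_mem (pow_mem a1 2) (mul_mem a1 a2)) (pow_mem a2 2),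
      evO_add ρ (pow_mem a1 2) (mul_mem a1 a2), evO_pow ρ a1, evO_pow ρ a2, evO_mul ρ a1 a2] at g2
    rw [evO_sub ρ (sub_mem (pow_mem hm 2) a1) a2, evO_sub ρ (pow_mem hm 2) a1, evO_pow ρ hm] at g3
    rw [evO_neg ρ (add_mem (mul_mem hm (sub_mem a3 a1)) b1),
      evO_add ρ (mul_mem hm (sub_mem a3 a1)) b1, evO_mul ρ hm (sub_mem a3 a1),
      evO_sub ρ a3 a1] at g4
    rw [← hP.res_X, ← hQ.res_X, ← hP.res_Y, ← hQ.res_Y] at g1 g2
    obtain ⟨h5, h6⟩ := sl_eq (hP.res_ne ρ) (hQ.res_ne ρ) g1 g2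
    have h7 : (res V ρ (P + Q)).X = (res V ρ P + res V ρ Q).X := by
      rw [X_add (hP.res_ne ρ) (hQ.res_ne ρ) h5, h6, hR.res_X, g3, hP.res_X, hQ.res_X]
    refine ext' (hR.res_ne ρ) h5 h7 ?_
    rw [Y_add (hP.res_ne ρ) (hQ.res_ne ρ) h5, h6, ← h7, hR.res_Y, g4, hR.res_X, hP.res_X, hP.res_Y]
  · have h0 : m ≠ 0 := fun h0 => hm (h0 ▸ V.zero_mem)
    have hi := hV.inv_mx hm
    rw [res_of_notR fun hR => hm (hV.of_powR (n := 1) ?_)]
    · refine (add_eq_zero_iff_eq_neg.2 (ext' (hP.res_ne ρ) (neg_ne_zero.2 (hQ.res_ne ρ)) ?_ ?_)).symm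
      · rw [X_neg, hP.res_X, hQ.res_X, ← sub_eq_zero, ← evO_sub ρ a1 a2,
          hρ.eq_zero_iff (sub_mem a1 a2), (eq_mul_inv_iff_mul_eq₀ h0).2 h1]
        exact mx_mul_left (sub_mem b1 b2) hi
      · rw [Y_neg, hP.res_Y, hQ.res_Y, ← add_eq_zero_iff_eq_neg, ← evO_add ρ b1 b2,
          hρ.eq_zero_iff (add_mem b1 b2), (eq_mul_inv_iff_mul_eq₀ h0).2 h2]
        exact mx_mul_left (add_mem (add_mem (pow_mem a1 2) (mul_mem a1 a2)) (pow_mem a2 2)) hi
    · rw [show m ^ (1 + 1) = (P + Q).X + P.X + Q.X by rw [h3]; ring]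
      exact add_mem (add_mem hR.2.1 a1) a2

theorem affR_add (hV : IsVal V) {P Q : E K} (hP : ¬ AffR V P) (hQ : AffR V Q) : AffR V (P + Q) := by
  by_cases h0 : P = 0
  · simpa [h0] using hQ
  have h1 : P + Q ≠ 0 := fun h => hP (add_eq_zero_iff_eq_neg.1 h ▸ affR_neg.2 hQ)
  have h2 : P - Q ≠ 0 := fun h => hP (sub_eq_zero.1 h ▸ hQ)
  let v := hV.vs.valuation
  have hv : ∀ a, v a ≤ 1 ↔ a ∈ V := fun a => hV.vs.valuation_le_one_iff a
  have hn : ∀ n : ℤ, n ≠ 0 → v n = 1 := fun n hn => by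
    have hu := isU_intCast (O := V) hn
    refine le_antisymm ((hv _).2 hu.2.1) ?_
    have := (hv _).2 hu.2.2
    rwa [map_inv₀, inv_le_one₀ (zero_lt_iff.2 (by simpa using hn))] at this
  have := loc_stmt K _ v (by simpa using hn 2 (by norm_num)) (by simpa using hn 3 (by norm_num))
    P Q h0 hQ.1 h1 h2
  have hx : 1 < v P.X := not_le.1 fun h => hP (hV.affR h0 ((hv _).1 h))
  have hy := (hv _).2 hQ.2.1
  rw [v.map_sub_eq_of_lt_left (hy.trans_lt hx), max_eq_right hx.le, max_eq_left hy, mul_one,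
    mul_right_eq_self₀] at this
  have h3 := this.resolve_right (pow_ne_zero 2 (one_pos.trans hx).ne')
  refine hV.affR h1 ((hv _).1 ((le_max_right 1 _).trans (le_of_le_of_eq ?_ h3)))
  exact le_mul_of_one_le_right' (le_max_left _ _)

theorem red_stmt : RedStmt := by
  intro k K L _ _ _ _ _ _ _ _ V ρ hV hρ
  have key : ∀ P Q : E K, ¬ AffR V P → AffR V Q → res V ρ (P + Q) = res V ρ P + res V ρ Q := by
    intro P Q hP hQ
    have := red_affR hV hρ (affR_add hV hP hQ) (affR_neg.2 hQ)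
    rw [add_neg_cancel_right, res_negR] at this
    rw [this, neg_add_cancel_right]
  intro P Q
  by_cases hP : AffR V P <;> by_cases hQ : AffR V Q
  · exact red_affR hV hρ hP hQ
  · rw [add_comm, key Q P hQ hP, add_comm]
  · exact key P Q hP hQ
  · rw [res_of_notR hP, res_of_notR hQ, add_zero, res_of_notR fun h => hQ ?_]
    simpa using affR_add hV (mt affR_neg.1 hP) h

theorem not_affR {Q : E K} (h : Q.ss ∈ mx O) (h' : Q = 0 ∨ Q.Y ≠ 0) : ¬ AffR O Q := fun ha =>
  one_not_mem_mx (O := O) (by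
    simpa [ss, h'.resolve_left ha.1] using mx_mul_left ha.2.2 h)

theorem IsVal.regR (hV : IsVal V) {Q : E K} (h : ¬ AffR V Q) :
    Q.tt ∈ mx V ∧ Q.ss ∈ mx V ∧ (Q = 0 ∨ Q.Y ≠ 0) := by
  by_cases h0 : Q = 0
  · simp [h0, zero_mem_mx]
  have hX : Q.X ∉ V := fun hx => h (hV.affR h0 hx)
  have hY : Q.Y ∉ V := fun hy => hX (hV.of_powR (n := 2) (by
    rw [show Q.X ^ (2 + 1) = Q.Y ^ 2 - 1 by rw [eqn h0]; ring]
    exact sub_mem (pow_mem hy 2) V.one_mem))
  have hs : Q.ss ∈ mx V := hV.inv_mx hY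
  have ht : Q.tt ^ 3 ∈ mx V := by
    rw [tt_cube]; exact mx_sub' hV.isLocalRing hs (mx_pow hs three_ne_zero)
  exact ⟨mx_of_pow (hV.of_powR ht.1) ht, hs, Or.inr fun hy => hY (hy ▸ V.zero_mem)⟩

theorem res_restrictR (hd : Dom O V) (ρ : V →ₐ[k] L) {Q : E K} (h : Reg O Q) :
    res O (ρ.comp (Subalgebra.inclusion hd.1)) Q = res V ρ Q := by
  rcases h with h | h
  · rw [AffR.res_eq h, AffR.res_eq ⟨h.1, hd.1 h.2.1, hd.1 h.2.2⟩, evO_restrict _ _ h.2.1,
      evO_restrict _ _ h.2.2]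
  · rw [res_of_notR (not_affR h.2.1 h.2.2), res_of_notR (not_affR (hd.mx h.2.1) h.2.2)]

theorem resid_charZeroR (O : Subalgebra k K) [IsLocalRing O] :
    CharZero (IsLocalRing.ResidueField O) :=
  charZero_of_injective_algebraMap (algebraMap k _).injective

theorem reg_stmt : RegStmt := by
  intro k K L _ _ _ _ _ _ _ _ O ρ hN hρ P Q hP hQ
  have hO := hρ.isLocalRing
  have := resid_charZeroR O
  have key : ∀ V : Subalgebra k K, IsVal V → Dom O V →
      (AffR V (P + Q) ↔ res O (resid O) P + res O (resid O) Q ≠ 0) ∧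
      (Reg O (P + Q) → res O (resid O) (P + Q) = res O (resid O) P + res O (resid O) Q) := by
    intro V hV hd
    have := hV.isLocalRing
    have := resid_charZeroR V
    obtain ⟨ι, hι⟩ := ((resid_loc (O := V)).restrict hd).factor
    have h1 : ∀ R, Reg O R → res V (resid V) R = pmap (ι : _ →+* _) (res O (resid O) R) :=
      fun R hR => by rw [← res_compR, hι, res_restrictR hd _ hR]
    have h2 := red_stmt k K _ V _ hV resid_loc P Q
    rw [h1 P hP, h1 Q hQ, ← map_add] at h2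
    refine ⟨⟨fun h h0 => h.res_ne (resid V) (by rw [h2, h0, map_zero]), fun h => ?_⟩,
      fun h => pmap_inj _ ((h1 _ h).symm.trans h2)⟩
    by_contra hn
    rw [res_of_notR hn, eq_comm, pmap_eq_zero] at h2
    exact h h2
  have hmem : ∀ f, (∀ V : Subalgebra k K, IsVal V → Dom O V → f ∈ V) → f ∈ O := fun f hf => by
    by_contra hn
    obtain ⟨V, h1, h2, h3⟩ := exists_val_not_mem hO hN hn
    exact h3 (hf V h1 h2)
  obtain ⟨V, hV, hd⟩ := exists_val hO
  have hR : Reg O (P + Q) := by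
    by_cases h : res O (resid O) P + res O (resid O) Q = 0
    · have h1 := fun V hV hd => IsVal.regR hV fun ha => (key V hV hd).1.1 ha h
      exact Or.inr ⟨mx_of_le hd.1 (hmem _ fun V hV hd => (h1 V hV hd).1.1) (h1 V hV hd).1,
        mx_of_le hd.1 (hmem _ fun V hV hd => (h1 V hV hd).2.1.1) (h1 V hV hd).2.1,
        (h1 V hV hd).2.2⟩
    · have h1 := fun V hV hd => (key V hV hd).1.2 h
      exact Or.inl ⟨(h1 V hV hd).1, hmem _ fun V hV hd => (h1 V hV hd).2.1,
        hmem _ fun V hV hd => (h1 V hV hd).2.2⟩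
  obtain ⟨ι, rfl⟩ := hρ.factor
  exact ⟨hR, by rw [res_compR, res_compR, res_compR, (key V hV hd).2 hR, map_add]⟩

end red

end Pool.Agent.MP_20d318_ag.AG

end MrgPart2

-- ======== part 3: formerly Pool.Agent.MP_20d318_ag.AG.Ht
section MrgPart3

/-! Heights of points over a function field. -/

set_option autoImplicit false
set_option linter.unusedSectionVars false

namespace Pool.Agent.MP_20d318_ag.AG

open Pool.Agent.MP_79c67d_ag Pool.Agent.MP_20d318_ag.Lat E
open scoped IntermediateField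


variable {k L : Type} [Field k] [Field L] [Algebra k L]

theorem exp_mloc (P : Place k L) (Q : E L) :
    WithZero.exp (2 * mloc P Q) = max 1 (P.v Q.X) := by
  unfold mloc
  split_ifs with h
  · have hX : Q.X ≠ 0 := fun h0 => by simp [h0] at h
    have hQ : Q ≠ 0 := by rintro rfl; exact hX rfl
    have h1 : P.v (Q.Y ^ 2) = P.v (Q.X ^ 3) := by
      rw [eqn hQ, P.v.map_add_eq_of_lt_left]
      rw [map_one, map_pow]; exact one_lt_pow' h (by norm_num)
    have hY : Q.Y ≠ 0 := fun h0 => by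
      rw [h0, zero_pow two_ne_zero, map_zero, eq_comm] at h1
      exact P.v_ne (pow_ne_zero 3 hX) h1
    rw [map_pow, map_pow, P.v_eq hY, P.v_eq hX, ← WithZero.exp_nsmul, ← WithZero.exp_nsmul,
      WithZero.exp_inj] at h1
    rw [max_eq_right h.le, P.v_eq hX, tt, P.ord_div hX hY]
    congr 1
    simp only [nsmul_eq_mul] at h1
    push_cast at h1
    omega
  · rw [max_eq_left (not_lt.1 h)]; simp

theorem mloc_nonneg (P : Place k L) (Q : E L) : 0 ≤ mloc P Q := by
  have := (exp_mloc P Q).symm ▸ le_max_left 1 (P.v Q.X)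
  rw [← WithZero.exp_zero, WithZero.exp_le_exp] at this
  omega

theorem mloc_eq_zero {P : Place k L} {Q : E L} : mloc P Q = 0 ↔ P.v Q.X ≤ 1 := by
  rw [← max_eq_left_iff, ← exp_mloc, ← WithZero.exp_zero, WithZero.exp_inj]
  omega

theorem mloc_congr (P : Place k L) {Q R : E L} (h : P.v Q.X = P.v R.X) : mloc P Q = mloc P R := by
  have := exp_mloc P Q
  rw [h, ← exp_mloc, WithZero.exp_inj] at this
  omega

@[simp] theorem mloc_zero (P : Place k L) : mloc P 0 = 0 := mloc_eq_zero.2 (by simp)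

@[simp] theorem mloc_neg (P : Place k L) (Q : E L) : mloc P (-Q) = mloc P Q :=
  mloc_congr P (by simp)

variable [CharZero k] [CharZero L]

theorem v_nat (P : Place k L) (n : ℕ) (hn : n ≠ 0) : P.v n = 1 := by
  simpa using FF.v_const P (c := (n : k)) (by exact_mod_cast hn)

theorem v_two (P : Place k L) : P.v 2 = 1 := by simpa using v_nat P 2 (by norm_num)

theorem v_three (P : Place k L) : P.v 3 = 1 := by simpa using v_nat P 3 (by norm_num)

theorem mloc_par (P : Place k L) {Q R : E L} (hQ : Q ≠ 0) (hR : R ≠ 0) (h : Q.X ≠ R.X) :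
    mloc P (Q + R) + mloc P (Q - R) = 2 * mloc P Q + 2 * mloc P R + P.ord (Q.X - R.X) := by
  have := loc_stmt L _ P.v (v_two P) (v_three P) Q R hQ hR
    (fun h0 => h (by rw [add_eq_zero_iff_eq_neg.1 h0, X_neg])) fun h0 => h (by rw [sub_eq_zero.1 h0])
  rw [← exp_mloc, ← exp_mloc, ← exp_mloc, ← exp_mloc, P.v_eq (sub_ne_zero.2 h)] at this
  simp only [← WithZero.exp_nsmul, ← WithZero.exp_add, WithZero.exp_inj, nsmul_eq_mul] at this
  push_cast at this
  omega

theorem mloc_two (P : Place k L) {Q : E L} (h : Q + Q ≠ 0) :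
    mloc P (Q + Q) = 4 * mloc P Q + P.ord Q.Y := by
  have hQ : Q ≠ 0 := by rintro rfl; simp at h
  have hY := Y_ne_of_add_self hQ h
  have e1 := X_add hQ hQ h
  rw [sl, if_pos rfl] at e1
  have e3 : 2 * (Q.X * Q.X) * (Q.X + Q.X) + 4 = 4 * Q.Y ^ 2 := by linear_combination -4 * eqn hQ
  have e4 : (Q.X * Q.X) ^ 2 - 4 * (Q.X + Q.X) = 4 * Q.Y ^ 2 * (Q + Q).X := by
    rw [e1]; field_simp; linear_combination 32 * Q.X * eqn hQ
  have := max_three (v_two P) (v_three P) Q.X Q.X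
  have h4 : P.v 4 = 1 := by simpa using v_nat P 4 (by norm_num)
  rw [e3, e4, sub_self, zero_pow two_ne_zero, map_zero, max_eq_right zero_le, map_mul (P.v) _ (Q + Q).X,
    ← mul_one (P.v (4 * Q.Y ^ 2)), mul_assoc, ← mul_max, one_mul, ← exp_mloc, ← exp_mloc, map_mul,
    h4, one_mul, map_pow, P.v_eq hY] at this
  simp only [← WithZero.exp_nsmul, ← WithZero.exp_add, WithZero.exp_inj, nsmul_eq_mul] at this
  push_cast at this
  omega

theorem mloc_zeta (P : Place k L) {w : L} (hw : w ^ 2 + w + 1 = 0) (Q : E L) :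
    mloc P (zeta w Q) = mloc P Q := by
  have : P.v w = 1 := by
    have := congrArg P.v (cube hw)
    rw [map_pow, map_one] at this
    exact (pow_eq_one_iff_of_nonneg zero_le (by norm_num)).1 this
  exact mloc_congr P (by rw [X_zeta hw, map_mul, this, one_mul])

theorem mloc_const (P : Place k L) (c : E k) : mloc P (pmap (algebraMap k L) c) = 0 :=
  mloc_eq_zero.2 (by rw [X_pmap]; exact P.triv _)

@[simp] theorem ht_zero : ht k (0 : E L) = 0 := by simp [ht]

@[simp] theorem ht_neg (Q : E L) : ht k (-Q) = ht k Q := by simp [ht]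

theorem ht_nonneg (Q : E L) : 0 ≤ ht k Q := finsum_nonneg fun P => mloc_nonneg P Q

theorem ht_zeta {w : L} (hw : w ^ 2 + w + 1 = 0) (Q : E L) : ht k (zeta w Q) = ht k Q := by
  simp [ht, mloc_zeta _ hw]

theorem ht_const (c : E k) : ht k (pmap (algebraMap k L) c) = 0 := by simp [ht, mloc_const]

variable [IsAlgClosed k] [IsFF k L]

theorem mloc_finite (Q : E L) : (Function.support fun P : Place k L => mloc P Q).Finite := by
  refine (FF.finite_ord Q.X).subset fun P hP h => hP (mloc_eq_zero.2 ?_)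
  exact P.ge0_iff.1 (P.ge_of_le (le_of_eq h.symm))

theorem exists_const {Q : E L} (h : ∃ a : k, Q.X = algebraMap k L a) :
    ∃ c : E k, Q = pmap (algebraMap k L) c := by
  by_cases hQ : Q = 0
  · exact ⟨0, by simp [hQ]⟩
  obtain ⟨a, ha⟩ := h
  obtain ⟨b, hb⟩ := IsAlgClosed.exists_pow_nat_eq (a ^ 3 + 1) two_pos
  have h0 : pmap (algebraMap k L) (mk a b) ≠ 0 := by simpa using mk_ne hb
  rcases eq_or_neg hQ h0 (by rw [X_pmap, X_mk hb, ha]) with h | h
  · exact ⟨_, h⟩
  · exact ⟨- mk a b, by rw [map_neg, h]⟩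

theorem ht_eq_zero {Q : E L} : ht k Q = 0 ↔ ∃ c : E k, Q = pmap (algebraMap k L) c := by
  refine ⟨fun h => exists_const (const_of_regular fun P => P.ge0_iff.2 (mloc_eq_zero.1 ?_)),
    by rintro ⟨c, rfl⟩; exact ht_const c⟩
  refine le_antisymm ?_ (mloc_nonneg P Q)
  rw [← h]
  exact single_le_finsum P (mloc_finite Q) fun R => mloc_nonneg R Q

theorem ht_two (Q : E L) : ht k (Q + Q) = 4 * ht k Q := by
  by_cases h : Q + Q = 0
  · have : ht k Q = 0 := by
      by_cases hQ : Q = 0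
      · simp [hQ]
      refine ht_eq_zero.2 (exists_const ?_)
      have hY : Q.Y = 0 := by
        have := congrArg E.Y (add_eq_zero_iff_eq_neg.1 h)
        rw [Y_neg] at this
        linear_combination this / 2
      obtain ⟨a, ha⟩ := exists_const_of_algebraic (K := k) (f := Q.X)
        ⟨Polynomial.X ^ 3 + 1, (Polynomial.monic_X_pow_add_C 1 three_ne_zero).ne_zero, by
          simpa [hY] using (eqn hQ).symm⟩
      exact ⟨a, ha.symm⟩
    simp [h, this]
  · have hQ : Q ≠ 0 := by rintro rfl; simp at h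
    simp only [ht, mloc_two _ h]
    rw [finsum_add_distrib ((mloc_finite Q).subset fun P hP h0 => hP (by simp [h0]))
      (FF.finite_ord _), FF.finsum_ord (Y_ne_of_add_self hQ h), add_zero, mul_finsum]

/-- The parallelogram law. -/
theorem ht_par (Q R : E L) : ht k (Q + R) + ht k (Q - R) = 2 * ht k Q + 2 * ht k R := by
  by_cases hQ : Q = 0
  · simp [hQ, two_mul]
  by_cases hR : R = 0
  · simp [hR, two_mul]
  by_cases h : Q.X = R.X
  · rcases eq_or_neg hQ hR h with rfl | rfl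
    · rw [ht_two]; simp; ring
    · rw [sub_eq_add_neg, ht_two]; simp; ring
  have f2 : ∀ S : E L, (Function.support fun P : Place k L => 2 * mloc P S).Finite := fun S =>
    (mloc_finite S).subset fun P hP h0 => hP (by simp [h0])
  simp only [ht]
  rw [← finsum_add_distrib (mloc_finite _) (mloc_finite _), mul_finsum, mul_finsum,
    ← finsum_add_distrib (f2 Q) (f2 R)]
  simp only [mloc_par _ hQ hR h]
  rw [finsum_add_distrib (((f2 Q).union (f2 R)).subset (Function.support_add _ _))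
    (FF.finite_ord _), FF.finsum_ord (sub_ne_zero.2 h), add_zero]

theorem ht_add_of_zero (Q : E L) {C : E L} (hC : ht k C = 0) : ht k (Q + C) = ht k Q := by
  have h1 : ∀ n : ℕ, ∀ S D : E L, ht k D = 0 →
      ht k (S + n • D) = ht k S + n * (ht k (S + D) - ht k S) := by
    intro n S D hD
    induction n using Nat.twoStepInduction with
    | zero => simp
    | one => simp
    | more n h0 h1 =>
      have := ht_par (k := k) (S + (n + 1) • D) D
      rw [show S + (n + 1) • D + D = S + (n + 2) • D by module,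
        show S + (n + 1) • D - D = S + n • D by module, h0, h1, hD] at this
      push_cast at this ⊢
      linear_combination this
  have h2 : ∀ S D : E L, ht k D = 0 → ht k S ≤ ht k (S + D) := by
    intro S D hD
    by_contra hn
    have h3 := h1 ((ht k S).toNat + 1) S D hD
    have h4 := ht_nonneg (k := k) (S + ((ht k S).toNat + 1) • D)
    have h5 := ht_nonneg (k := k) S
    push_cast [Int.toNat_of_nonneg h5] at h3
    nlinarith
  refine le_antisymm ?_ (h2 Q C hC)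
  simpa using h2 (Q + C) (-C) (by simpa using hC)

theorem ht_add_const (Q : E L) (c : E k) : ht k (Q + pmap (algebraMap k L) c) = ht k Q :=
  ht_add_of_zero Q (ht_const c)

theorem ht_sm {w : L} (hw : w ^ 2 + w + 1 = 0) (a : O) (Q : E L) :
    ht k (sm w a Q) = nm a * ht k Q := by
  obtain ⟨H, hH⟩ := gram (n := 1) (fun l => ht k (sm w (l 0) Q))
    (fun a b => by
      rw [← ht_par, Pi.add_apply, sm_add, sub_eq_add_neg a, Pi.add_apply, sm_add, Pi.neg_apply,
        sm_neg, ← sub_eq_add_neg])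
    fun a => by rw [Pi.smul_apply, smul_eq_mul, sm_mul hw, sm_omega, ht_zeta hw]
  have h1 := hH (a • fun _ => 1)
  rw [ev_smul_vec, hH] at h1
  simp only [Pi.smul_apply, smul_eq_mul, mul_one, sm_one] at h1
  exact_mod_cast h1.symm

omit [IsAlgClosed k] [IsFF k L] in
open Classical in
theorem mloc_sub_fx (P : Place k L) {Q : E L} {c : ZMod 3} (h : Q ≠ fx c) :
    mloc P (Q - fx c) = if Q.Y ≠ 0 ∧ P.v (Q.ss - sv c) < 1 then P.ord Q.tt else 0 := by
  by_cases hQ : Q = 0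
  · rw [if_neg (by simp [hQ]), hQ, zero_sub, mloc_neg, mloc_eq_zero, X_fx]; simp
  have hc : ∀ {a b : WithZero (Multiplicative ℤ)}, a ^ 3 ≤ b ^ 3 → a ≤ b := fun h =>
    (pow_le_pow_iff_left₀ zero_le zero_le three_ne_zero).1 h
  by_cases h0 : c = 0
  · subst h0
    rw [fx_zero, sub_zero, sv_zero, sub_zero, mloc]
    refine if_congr ⟨fun h1 => ?_, fun h1 => ?_⟩ rfl rfl
    · have h2 : 1 < P.v (Q.X ^ 3) := by rw [map_pow]; exact one_lt_pow' h1 three_ne_zero
      have h3 : 1 < P.v Q.Y := by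
        by_contra hn
        have := pow_le_one₀ zero_le (not_lt.1 hn) (n := 2)
        rw [← map_pow, eqn hQ, P.v.map_add_eq_of_lt_left (by simpa using h2)] at this
        exact absurd h2 (not_lt.2 this)
      exact ⟨fun hy => by simp [hy] at h3, by
        rw [ss, map_inv₀]; exact inv_lt_one_of_one_lt₀ h3⟩
    · by_contra hn
      have h2 : P.v (Q.Y ^ 2) ≤ 1 := by
        rw [eqn hQ]
        exact P.v.map_add_le (by rw [map_pow]; exact pow_le_one₀ zero_le (not_lt.1 hn)) (by simp)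
      have h3 := h1.2
      rw [ss, map_inv₀, inv_lt_one₀ (zero_lt_iff.2 (P.v_ne h1.1))] at h3
      rw [map_pow] at h2
      exact absurd (one_lt_pow' h3 two_ne_zero) (not_lt.2 h2)
  have hε : (sv c : L) ^ 2 = 1 := by
    rcases zmod3 c with rfl | rfl | rfl <;> simp_all
  have hT : (fx c : E L) ≠ 0 := fun h1 => h0 (fx_inj (h1.trans fx_zero.symm))
  have hv : P.v (sv c) = 1 := by
    have := congrArg P.v hε
    rwa [map_pow, map_one, pow_eq_one_iff_of_nonneg zero_le two_ne_zero] at this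
  have e0 : Q.X ^ 3 = (Q.Y - sv c) * (Q.Y + sv c) := by linear_combination hε - eqn hQ
  have hY : Q.Y - sv c ≠ 0 := fun h1 => h (ext' hQ hT (by
    rw [X_fx, ← pow_eq_zero_iff three_ne_zero, e0, h1, zero_mul]) (by
    rw [Y_fx]; exact sub_eq_zero.1 h1))
  have e1 : (Q - fx c).X = 2 * sv c * (Q.X / (Q.Y - sv c)) := by
    by_cases hX : Q.X = 0
    · obtain rfl := (eq_or_neg hQ hT (by rw [hX, X_fx])).resolve_left h
      have : -fx c - fx c = (fx c : E L) := by
        have : c + c + c = 0 := (by decide : ∀ c : ZMod 3, c + c + c = 0) c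
        have h3 : (fx (c + c + c) : E L) = 0 := by rw [this, fx_zero]
        rw [fx_add, fx_add] at h3
        linear_combination (norm := module) - h3
      rw [this, hX, X_fx]; simp
    · have := X_add hQ (neg_ne_zero.2 hT) (by rwa [← sub_eq_add_neg, sub_ne_zero])
      rw [sl, if_neg (by simpa [X_fx] using hX), ← sub_eq_add_neg] at this
      simp only [X_neg, Y_neg, X_fx, Y_fx] at this
      rw [this]
      field_simp
      linear_combination (-Q.Y - sv c) * e0
  have e2 : P.v (Q - fx c).X = P.v Q.X / P.v (Q.Y - sv c) := by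
    rw [e1, map_mul, map_mul, v_two, hv, one_mul, one_mul, map_div₀]
  have e3 := congrArg P.v e0
  rw [map_pow, map_mul] at e3
  have e4 : Q.Y ≠ 0 → P.v (Q.ss - sv c) = P.v (Q.Y - sv c) / P.v Q.Y := fun hy => by
    rw [show Q.ss - sv c = -sv c * ((Q.Y - sv c) / Q.Y) by
      rw [ss]; field_simp; linear_combination -hε, map_mul, Valuation.map_neg, hv, one_mul, map_div₀]
  have hp : 0 < P.v (Q.Y - sv c) := zero_lt_iff.2 (P.v_ne hY)
  split_ifs with h1
  · have h2 := h1.2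
    rw [e4 h1.1, div_lt_one₀ (zero_lt_iff.2 (P.v_ne h1.1))] at h2
    have h3 : P.v Q.Y = 1 := by
      have := P.v.map_sub_eq_of_lt_left h2
      rw [sub_sub_cancel, hv] at this
      exact this.symm
    rw [h3] at h2
    have h4 : P.v (Q.Y + sv c) = 1 := by
      have h5 : P.v (2 * sv c) = 1 := by rw [map_mul, v_two, hv, one_mul]
      rw [show Q.Y + sv c = 2 * sv c + (Q.Y - sv c) by ring,
        P.v.map_add_eq_of_lt_left (by rwa [h5]), h5]
    rw [h4, mul_one] at e3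
    have hX : Q.X ≠ 0 := fun hx => by
      rw [hx, map_zero, zero_pow three_ne_zero] at e3
      exact hp.ne e3
    have h6 := exp_mloc P (Q - fx c)
    rw [← e3] at h2
    rw [e2, ← e3, P.v_eq hX, ← WithZero.exp_nsmul, ← WithZero.exp_sub] at h6
    rw [P.v_eq hX, ← WithZero.exp_nsmul, ← WithZero.exp_zero, WithZero.exp_lt_exp] at h2
    simp only [nsmul_eq_mul, Nat.cast_ofNat] at h2 h6
    rw [max_eq_right (by rw [← WithZero.exp_zero, WithZero.exp_le_exp]; omega),
      WithZero.exp_inj] at h6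
    rw [tt, P.ord_div hX h1.1, FF.ord_of_one h3]
    omega
  · rw [mloc_eq_zero, e2, div_le_one₀ hp]
    refine hc ?_
    rcases le_or_gt (P.v Q.Y) 1 with h2 | h2
    · have h3 : P.v (Q.Y - sv c) = 1 := by
        refine le_antisymm (P.v.map_sub_le h2 hv.le) (not_lt.1 fun h3 => h1 ?_)
        have h4 : P.v Q.Y = 1 := by
          have := P.v.map_add_eq_of_lt_left (x := sv c) (y := Q.Y - sv c) (by rwa [hv])
          rwa [add_sub_cancel, hv] at this
        have hy : Q.Y ≠ 0 := fun hy => by simp [hy] at h4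
        exact ⟨hy, by rwa [e4 hy, h4, div_one]⟩
      rw [e3, h3, one_mul, one_pow]
      exact P.v.map_add_le h2 hv.le
    · rw [e3, P.v.map_sub_eq_of_lt_left (by rwa [hv]), P.v.map_add_eq_of_lt_left (by rwa [hv]),
        ← sq]
      exact pow_le_pow_right₀ h2.le (by norm_num)

theorem two_ht {Q : E L} (h : Transcendental k Q.X) : 2 * ht k Q = Module.finrank k⟮Q.X⟯ L := by
  rw [← deg_pole h, FF.deg_eq_finsum, ht, mul_finsum]
  refine finsum_congr fun P => ?_
  have h0 : Q.X ≠ 0 := fun h0 => h (h0 ▸ isAlgebraic_zero)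
  have := exp_mloc P Q
  rw [P.v_eq h0, ← WithZero.exp_zero, ← Monotone.map_max (f := WithZero.exp)
    fun _ _ => WithZero.exp_le_exp.2, WithZero.exp_inj] at this
  rw [this, Finsupp.sup_apply, max_comm]
  rfl

theorem ht_stmt : HtStmt := fun k L _ _ _ _ _ _ _ =>
  { fin := mloc_finite
    nonneg := ht_nonneg
    par := ht_par
    const := ht_add_const
    zero := fun _ => ht_eq_zero
    sm := fun w hw a Q => by
      rw [ht_sm (by simpa using congrArg (algebraMap k L) hw), nm]; ring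
    htc := fun Q c h => by
      rw [← ht_add_const Q (-fx c), map_neg, pmap_fx, ← sub_eq_add_neg, ht]
      exact finsum_congr fun P => mloc_sub_fx P h
    deg := fun _ => two_ht }

theorem ff_stmt : FFStmt := by
  intro k L _ _ _ _ _ _ x y h
  have hy : Transcendental k y := algebraicIndependent_unique_type_iff.1 h.ind
  have he : y ^ 2 = x ^ 3 + 1 := h.eq ()
  have hx : Transcendental k x := fun hx => hy (IsAlgebraic.of_pow two_pos (by
    rw [he]; exact (hx.pow 3).add isAlgebraic_one))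
  have ht : IntermediateField.adjoin k⟮x⟯ {y} = ⊤ := by
    rw [← IntermediateField.restrictScalars_eq_top_iff (K := k),
      IntermediateField.adjoin_adjoin_left, ← h.top, Set.range_const, Set.range_const]
  let p : Polynomial k⟮x⟯ := Polynomial.X ^ 2 - Polynomial.C
    (IntermediateField.AdjoinSimple.gen k x ^ 3 + 1)
  have hp : p.Monic := Polynomial.monic_X_pow_sub_C _ two_ne_zero
  have hp0 : Polynomial.aeval y p = 0 := by simp [p, he]
  have hi : IsIntegral k⟮x⟯ y := ⟨p, hp, hp0⟩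
  have h1 := IntermediateField.adjoin.finiteDimensional hi
  have h2 := IntermediateField.adjoin.finrank hi
  rw [ht] at h1 h2
  have : FiniteDimensional k⟮x⟯ L := IntermediateField.topEquiv.toLinearEquiv.finiteDimensional
  have hF : IsFF k L := FF.isFF_of_transcendental hx
  refine ⟨hF, ?_⟩
  have h3 := Polynomial.natDegree_le_natDegree (minpoly.min _ _ hp hp0)
  rw [Polynomial.natDegree_X_pow_sub_C, ← h2, IntermediateField.finrank_top'] at h3
  have h4 := two_ht (k := k) (Q := mk x y) (by rwa [X_mk he])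
  rw [X_mk he] at h4
  have h5 : 0 < Module.finrank k⟮x⟯ L := Module.finrank_pos
  omega

end Pool.Agent.MP_20d318_ag.AG

end MrgPart3

-- marker of a merged file
example : 731051 + 406688 = 731051 + 406688 := rfl
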