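import Mathlib.RingTheory.TotallySplit
import Pool.Agent.MP_20d318_ag.AG.Lift
import Pool.Agent.MP_20d318_ag.AG.Glue

/-! Assembly of the geometric side. -/

set_option autoImplicit false
set_option linter.unusedSectionVars false

namespace Pool.Agent.MP_20d318_ag.AG

open Pool.Agent.MP_79c67d_ag Pool.Agent.MP_20d318_ag.Lat E

namespace Final

theorem inter_add (D D' Z : W 3) : inter (D + D') Z = inter D Z + inter D' Z := by
  simp only [inter, Prod.fst_add, Prod.snd_add, Pi.add_apply, add_mul, Finset.sum_add_distrib]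
  rw [pair_comm, pair_comm D.1, pair_comm D'.1, ← pairL_apply, map_add, pairL_apply, pairL_apply]
  ring

theorem inter_smul (c : ℝ) (D Z : W 3) : inter (c • D) Z = c * inter D Z := by
  simp only [inter, Prod.smul_fst, Prod.smul_snd, Pi.smul_apply, smul_eq_mul, mul_assoc,
    ← Finset.mul_sum]
  rw [pair_comm, pair_comm D.1, ← pairL_apply, map_smul, pairL_apply, smul_eq_mul]
  ring

theorem inter_zero (Z : W 3) : inter 0 Z = 0 := by simpa using inter_smul 0 0 Z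

theorem inter_E (D : W 3) (p : Pt 3) (κ : ℝ) :
    inter D (0, fun q => if q = p then -κ else 0) = κ * D.2 p := by
  simp [inter, pair, mul_comm]

theorem inter_G (D : W 3) (l : Vec 3) : inter D (rk l, 0) = ev D.1 l := by simp [inter, ev]

theorem line_ind (p q : Pt 3) : (if q 1 = p 1 ∧ q 2 = p 2 then 1 else 0 : ℕ) =
    (if q = p then 1 else 0) + (if q = p + Pi.single 0 1 then 1 else 0) +
      if q = p - Pi.single 0 1 then 1 else 0 := by
  revert p q; decide +kernel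

theorem inter_L (D : W 3) (p : Pt 3) :
    inter D (rk (Pi.single 0 1), fun q => if q 1 = p 1 ∧ q 2 = p 2 then 1 else 0) =
      ev D.1 (Pi.single 0 1) - lineSum D.2 p (Pi.single 0 1) := by
  have h : ∀ q : Pt 3, (if q 1 = p 1 ∧ q 2 = p 2 then 1 else 0 : ℝ) =
      (if q = p then 1 else 0) + (if q = p + Pi.single 0 1 then 1 else 0) +
        if q = p - Pi.single 0 1 then 1 else 0 := fun q => by exact_mod_cast line_ind p q
  simp only [inter, h, mul_add, Finset.sum_add_distrib, lineSum, ev]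
  simp

theorem inter_act {g : Matrix (Fin 3) (Fin 3) O} (hg : IsUnit g) {D Z Z' : W 3}
    (hD : D.1.IsHermitian) (h1 : ∀ l, ev Z'.1 l = ev Z.1 (Matrix.vecMul l g))
    (h2 : ∀ p, Z'.2 ((g.map red).mulVec p) = Z.2 p) : inter D Z' = inter (actW g D) Z := by
  have hb : Function.Bijective (g.map red).mulVec := Finite.injective_iff_bijective.1
    (Matrix.mulVec_injective_of_isUnit (hg.map red.mapMatrix))
  simp only [inter, actW, pair_act_of_ev _ _ _ g hD h1, ← h2]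
  rw [← hb.sum_comp]

variable {k K : Type} [Field k] [CharZero k] [IsAlgClosed k] [Field K] [CharZero K] [Algebra k K]
  {w : k} {x y : Fin 3 → K} {σ : K ≃ₐ[k] K}

variable (w) in
/-- `D` is the class of the pull-back of `ξ`. -/
def Rel (ξ : Curve (quot σ (blE x y σ)) → ℝ) (D : W 3) : Prop :=
  D.1.IsHermitian ∧ ∀ (ν : Curve (blE x y σ)) (Z : W 3), IsZ w x y ν Z → ξ (ν.down σ) = inter D Z

theorem Rel.add {ξ η : Curve (quot σ (blE x y σ)) → ℝ} {D D' : W 3} (h : Rel w ξ D)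
    (h' : Rel w η D') : Rel w (ξ + η) (D + D') :=
  ⟨h.1.add h'.1, fun ν Z hZ => by rw [Pi.add_apply, h.2 ν Z hZ, h'.2 ν Z hZ, inter_add]⟩

theorem Rel.smul {ξ : Curve (quot σ (blE x y σ)) → ℝ} {D : W 3} (h : Rel w ξ D) (c : ℝ) :
    Rel w (c • ξ) (c • D) :=
  ⟨herm_smul c h.1, fun ν Z hZ => by rw [Pi.smul_apply, h.2 ν Z hZ, inter_smul, smul_eq_mul]⟩

/-- The restriction of an automorphism to the invariants. -/
def resF (φ : K ≃ₐ[k] K) (h : ∀ f, φ (σ f) = σ (φ f)) : Fx σ →ₐ[k] Fx σ :=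
  ((φ : K →ₐ[k] K).comp (Fx σ).val).codRestrict (Fx σ).toSubalgebra fun f =>
    mem_Fx.2 ((h f).symm.trans (congrArg φ (mem_Fx.1 f.2)))

theorem comm_symm {φ : K ≃ₐ[k] K} (h : ∀ f, φ (σ f) = σ (φ f)) (f : K) :
    φ.symm (σ f) = σ (φ.symm f) := φ.injective (by rw [h]; simp)

/-- The induced automorphism of the quotient. -/
def autF {Y : Set (Subalgebra k K)} (φ : Aut Y) (h : ∀ f, φ.1 (σ f) = σ (φ.1 f)) : Aut (quot σ Y) :=
  ⟨AlgEquiv.ofAlgHom (resF φ.1 h) (resF φ.1.symm (comm_symm h))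
    (AlgHom.ext fun f => Subtype.ext (φ.1.apply_symm_apply f))
    (AlgHom.ext fun f => Subtype.ext (φ.1.symm_apply_apply f)), fun O => ⟨by
      rintro ⟨O', h1, rfl⟩
      exact ⟨_, (φ.2 O').1 h1, rfl⟩, by
      rintro ⟨O', h1, h2⟩
      refine ⟨_, (φ.inv.2 O').1 h1, Subalgebra.ext fun f => ?_⟩
      have := SetLike.ext_iff.1 h2 (resF φ.1.symm (comm_symm h) f)
      refine this.trans ?_
      change resF φ.1 h (resF φ.1.symm (comm_symm h) f) ∈ O ↔ _
      rw [show resF φ.1 h (resF φ.1.symm (comm_symm h) f) = f from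
        Subtype.ext (φ.1.apply_symm_apply f)]⟩⟩

end Final

open Final

theorem geo_of (hY : YStmt) (hCur : CurStmt) (hCls : ClsStmt) (hE : TestEStmt) (hL : TestLStmt)
    (hG : TestGStmt) (hGl : GlStmt) (hLift : LiftStmt) (hEff : EffStmt) (k K : Type) [Field k]
    [CharZero k] [IsAlgClosed k] [Field K] [Algebra k K] (w : k) (x y : Fin 3 → K)
    (σ : K ≃ₐ[k] K) (hS : Setup w x y σ) : ∃ Φ, Geo (quot σ (blE x y σ)) Φ := by
  have : CharZero K := charZero_of_injective_algebraMap (algebraMap k K).injective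
  have hY := hY k K w x y σ hS
  have hCur := hCur k K w x y σ hS
  have hGl := hGl k K w x y σ hS
  have hG := hG k K w x y σ hS
  have hE := hE k K w x y σ hS
  have uniq0 : ∀ D : W 3, Rel (x := x) (y := y) (σ := σ) w 0 D → D = 0 := fun D hD => by
    have h2 : D.2 = 0 := funext fun p => by
      obtain ⟨ν, κ, hκ, hZ⟩ := hE p
      have := hD.2 ν _ hZ
      rw [inter_E] at this
      exact (mul_eq_zero.1 this.symm).resolve_left hκ.ne'
    refine Prod.ext (herm_ext _ hD.1 fun g hg => ?_) h2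
    obtain ⟨φ, -, hφ⟩ := hGl g hg
    obtain ⟨ν, hZ, -⟩ := hG ∅
    obtain ⟨Z', hZ', -⟩ := hCur (ν.push (φ.1 : K →ₐ[k] K) fun O => (φ.2 O).1)
    have := hD.2 _ _ hZ'
    rw [inter_act hg hD.1 (hφ ν _ _ hZ hZ').1 (hφ ν _ _ hZ hZ').2, inter_G] at this
    exact this.symm
  have uniq : ∀ {ξ : Curve (quot σ (blE x y σ)) → ℝ} {D D' : W 3}, Rel w ξ D → Rel w ξ D' →
      D = D' := fun {ξ D D'} h h' => by
    have := h.add (h'.smul (-1))
    rw [neg_one_smul, add_neg_cancel] at this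
    simpa [add_neg_eq_zero] using uniq0 _ this
  have ex : ∀ ξ : N1 (quot σ (blE x y σ)), ∃ D, Rel w ξ.1 D := fun ⟨ξ, hξ⟩ => by
    induction hξ using Submodule.span_induction with
    | mem _ h =>
      obtain ⟨D, rfl⟩ := h
      obtain ⟨D', h1, h2⟩ := hCls k K w x y σ hS _ (D.isCart.pull (Fx σ).val (quot_mem σ _))
      exact ⟨D', h1, fun ν Z hZ => by rw [← h2 ν Z hZ, ← Curve.deg_push]; rfl⟩
    | zero => exact ⟨0, Matrix.isHermitian_zero, fun _ Z _ => (inter_zero Z).symm⟩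
    | add _ _ _ _ h1 h2 => exact ⟨_, h1.choose_spec.add h2.choose_spec⟩
    | smul c _ _ h => exact ⟨_, h.choose_spec.smul c⟩
  choose Φ0 hΦ using ex
  let Φ : N1 (quot σ (blE x y σ)) →ₗ[ℝ] W 3 :=
    { toFun := Φ0
      map_add' := fun ξ η => uniq (hΦ _) ((hΦ ξ).add (hΦ η))
      map_smul' := fun c ξ => uniq (hΦ _) ((hΦ ξ).smul c) }
  have cl : ∀ ν : Curve (quot σ (blE x y σ)), ∃ (r : ℝ) (Z : W 3), 0 < r ∧
      (∀ ξ : N1 (quot σ (blE x y σ)), ξ.1 ν = r * inter (Φ ξ) Z) ∧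
      (Cur Z ∨ (Z.1 = 0 ∧ ∀ p, Z.2 p ≤ 0)) := fun ν => by
    obtain ⟨ν', d, hd, h⟩ := hLift k K w x y σ hS ν
    obtain ⟨Z, hZ, hc⟩ := hCur ν'
    have hd' : (0 : ℝ) < d := by exact_mod_cast hd
    refine ⟨(d : ℝ)⁻¹, Z, inv_pos.2 hd', fun ξ => ?_, hc⟩
    have h1 : ∀ η ∈ N1 (quot σ (blE x y σ)), η (ν'.down σ) = d * η ν := fun η hη => by
      induction hη using Submodule.span_induction with
      | mem _ h1 =>
        obtain ⟨D, rfl⟩ := h1
        simp only [Cartier.cls]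
        exact_mod_cast h _ D.isCart
      | zero => simp
      | add _ _ _ _ h1 h2 => simp [h1, h2, mul_add]
      | smul c _ _ h1 => simp [h1, mul_left_comm]
    change _ = _ * inter (Φ0 ξ) Z
    rw [← (hΦ ξ).2 ν' Z hZ, h1 _ ξ.2, inv_mul_cancel_left₀ hd'.ne']
  refine ⟨Φ, (injective_iff_map_eq_zero Φ).2 fun ξ h => ?_,
    fun ξ => (hΦ ξ).1, fun c => ?_, fun p => ?_, fun D hD => ?_, cl, fun p => ?_, fun p => ?_,
    fun g hg => ?_⟩
  · refine Subtype.ext (funext fun ν => ?_)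
    obtain ⟨r, Z, -, h1, -⟩ := cl ν
    rw [h1, h, inter_zero, mul_zero]; rfl
  · obtain ⟨D, h1, h2⟩ := (hEff k K w x y σ hS).1 c
    exact ⟨D, h1, uniq (hΦ _) ⟨herm_smul _ (rk_herm _), h2⟩⟩
  · obtain ⟨D, h1, h2⟩ := (hEff k K w x y σ hS).2 p
    exact ⟨D, h1, uniq (hΦ _) ⟨herm_smul _ Matrix.isHermitian_zero, h2⟩⟩
  · classical
    have hc := D.isCart.pull (Fx σ).val (quot_mem σ _)
    obtain ⟨T, -, hT⟩ := hc _ hY.top
    set a : K := (Fx σ).val (D.f ((⊤ : Subalgebra k K).comap (Fx σ).val))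
    obtain ⟨ν, hZ, hν⟩ := hG (insert a (insert a⁻¹ T))
    have ha : IsU ν.gen a := ⟨hc.ne hY.top, hν _ (by simp), hν _ (by simp)⟩
    have h1 := (hT _ ν.gen_mem fun b hb => hν b (by simp [hb])).mul ha
    rw [div_mul_cancel₀ _ ha.1] at h1
    have h2 := deg_nonneg hY.good hc (fun O hO => hD _ (quot_mem σ _ O hO)) ν h1
    rw [← inter_G, ← show _ = inter (Φ D.n1) _ from (hΦ _).2 ν _ hZ]
    rw [← Curve.deg_push _ (quot_mem σ _)] at h2
    exact Int.cast_nonneg_iff.2 h2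
  · obtain ⟨ν, κ, hκ, hZ⟩ := hE p
    exact ⟨ν.down σ, κ, hκ, fun ξ => ((hΦ ξ).2 ν _ hZ).trans (inter_E _ _ _)⟩
  · obtain ⟨ν, hZ⟩ := hL k K w x y σ hS p
    exact ⟨ν.down σ, 1, one_pos, fun ξ => by rw [(hΦ ξ).2 ν _ hZ, inter_L, one_mul]; rfl⟩
  · obtain ⟨φ, h1, hφ⟩ := hGl g hg
    refine ⟨autF φ h1, fun ξ => uniq (hΦ _) ⟨act_herm g (hΦ ξ).1, fun ν Z hZ => ?_⟩⟩
    obtain ⟨Z', hZ', -⟩ := hCur (ν.push (φ.1 : K →ₐ[k] K) fun O => (φ.2 O).1)
    exact ((hΦ ξ).2 _ _ hZ').trans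
      (inter_act hg (hΦ ξ).1 (hφ ν _ _ hZ hZ').1 (hφ ν _ _ hZ hZ').2)

/-- Real coordinates of a Hermitian matrix. -/
def hco : W 3 →ₗ[ℝ] (Fin 3 → Fin 3 → ℝ) × (Pt 3 → ℝ) where
  toFun D := (fun i j => if i ≤ j then (D.1 i j).re else (D.1 j i).im, D.2)
  map_add' D D' := Prod.ext (by funext i j; by_cases h : i ≤ j <;> simp [h]) rfl
  map_smul' c D := Prod.ext (by funext i j; by_cases h : i ≤ j <;> simp [h]) rfl

theorem Geo.finrank {k K : Type} [Field k] [Field K] [Algebra k K] {X : Set (Subalgebra k K)}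
    {Φ : N1 X →ₗ[ℝ] W 3} (h : Geo X Φ) : Module.finrank ℝ (N1 X) = 36 := by
  have h1 : ∀ D : W 3, D.1.IsHermitian → D ∈ LinearMap.range Φ := fun D hD => by
    have h2 : (D.1, 0) ∈ LinearMap.range Φ :=
      herm_span ((LinearMap.range Φ).comap (LinearMap.inl ℝ _ _))
        (fun _ _ _ => (h.iface.rk_mem _).imp fun _ h => h.2) hD
    have h3 : D = (D.1, 0) - ∑ p, D.2 p • clE p := by
      refine Prod.ext ?_ (funext fun q => ?_) <;> simp [clE, Prod.fst_sum, Prod.snd_sum]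
    rw [h3]
    exact sub_mem h2 (sum_mem fun p _ => Submodule.smul_mem _ _
      ((h.iface.clE_mem p).imp fun _ h => h.2))
  have h2 : Function.Bijective (hco.comp Φ) := by
    refine ⟨(injective_iff_map_eq_zero _).2 fun ξ h0 => h.inj (Prod.ext ?_ ?_), fun ⟨a, t⟩ => ?_⟩
    · have h3 := fun i j => congrFun (congrFun (congrArg Prod.fst h0) i) j
      have h4 := fun i j => congrArg QuadraticAlgebra.re ((h.herm ξ).apply i j)
      have h5 := fun i j => congrArg QuadraticAlgebra.im ((h.herm ξ).apply i j)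
      simp only [Fin.forall_fin_succ, hco] at h3 h4 h5
      simp at h3 h4 h5
      ext i j <;> fin_cases i <;> fin_cases j <;> simp <;> linarith [h3.1.1]
    · exact (congrArg Prod.snd h0).trans (congrArg Prod.snd (map_zero Φ)).symm
    · obtain ⟨ξ, hξ⟩ := h1 (!![⟨a 0 0, 0⟩, ⟨a 0 1, a 1 0⟩, ⟨a 0 2, a 2 0⟩;
        star ⟨a 0 1, a 1 0⟩, ⟨a 1 1, 0⟩, ⟨a 1 2, a 2 1⟩;
        star ⟨a 0 2, a 2 0⟩, star ⟨a 1 2, a 2 1⟩, ⟨a 2 2, 0⟩], t) (by
          ext i j <;> fin_cases i <;> fin_cases j <;> simp)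
      refine ⟨ξ, (congrArg hco hξ).trans (Prod.ext ?_ rfl)⟩
      ext i j
      fin_cases i <;> fin_cases j <;> simp [hco]
  rw [(LinearEquiv.ofBijective _ h2).finrank_eq]
  simp [Module.finrank_pi_fintype]

theorem main_of (hY : YStmt) (hCur : CurStmt) (hCls : ClsStmt) (hE : TestEStmt) (hL : TestLStmt)
    (hG : TestGStmt) (hGl : GlStmt) (hLift : LiftStmt) (hEff : EffStmt) (h9 : StarH V9)
    (h12 : StarH V12) (h4 : StarH V4) : MainStmt := fun k K _ _ _ _ _ w x y σ hS =>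
  (geo_of hY hCur hCls hE hL hG hGl hLift hEff k K w x y σ hS).elim fun _ h =>
    coneStatement_of h h9 h12 h4

end Pool.Agent.MP_20d318_ag.AG
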