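import Pool.Agent.MP_20d318_ag.Sch.Places
import Pool.Agent.MP_20d318_ag.AG.Lift
import Mathlib.Algebra.DualNumber
import Mathlib.FieldTheory.Relrank
import Mathlib.Tactic.Polynomial.Basic
import Pool.Agent.MP_20d318_ag.AG.Tools
import Pool.Agent.MP_20d318_ag.AG.Spec

-- ======== part 0: formerly Pool.Agent.MP_20d318_ag.Sch.Charts
section MrgPart0

/-!
The 24 charts of the resolution: they form a family of charts, their points are the points of the
quotient of the blow-up, and the model maps to the quotient of the product.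
-/

set_option autoImplicit false

open AlgebraicGeometry

namespace Pool.Agent.MP_20d318_ag.Sch

open MP_a703b5_ag AG

namespace Ch

variable {K : Type} [Field K] [Algebra ℂ K] {w : ℂ} {x y : Fin 3 → K} {σ : K ≃ₐ[ℂ] K}
  {O O' : Subalgebra ℂ K} {c c' : Fin 3 → Bool} {j j' : Fin 3}

/-- The homogeneous coordinate that is inverted on the chart. -/
def zc (y : Fin 3 → K) (c : Fin 3 → Bool) (i : Fin 3) : K := if c i then 1 else y i

/-- The charts of the blow-up. -/
def Bt (x y : Fin 3 → K) (c : Fin 3 → Bool) (j : Fin 3) : Subalgebra ℂ K :=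
  Algebra.adjoin ℂ (Set.range (cu y c) ∪ Set.range (cv x y c) ∪
    Set.range fun i => cv x y c i / cv x y c j)

lemma Bt_false (j : Fin 3) : Bt x y (fun _ => false) j = bch ℂ x y j := rfl

omit [Algebra ℂ K] in
lemma cv_eq (c : Fin 3 → Bool) (i : Fin 3) : cv x y c i = x i / zc y c i := by
  unfold cv zc; split_ifs <;> simp

lemma zc_ne (h : Gen ℂ x y) (c : Fin 3 → Bool) (i : Fin 3) : zc y c i ≠ 0 := by
  unfold zc; split_ifs
  exacts [one_ne_zero, h.y_ne i]

lemma Bt_le_iff : Bt x y c j ≤ O ↔ chart x y c ≤ O ∧ ∀ i, cv x y c i / cv x y c j ∈ O := by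
  refine ⟨fun h => ⟨AG.chart_le_iff.2 fun i => ⟨h (Algebra.subset_adjoin (Or.inl (Or.inl ⟨i, rfl⟩))),
    h (Algebra.subset_adjoin (Or.inl (Or.inr ⟨i, rfl⟩)))⟩,
    fun i => h (Algebra.subset_adjoin (Or.inr ⟨i, rfl⟩))⟩, fun h => Algebra.adjoin_le ?_⟩
  rintro _ ((⟨i, rfl⟩ | ⟨i, rfl⟩) | ⟨i, rfl⟩)
  exacts [h.1 (AG.cu_mem x y c i), h.1 (AG.cv_mem x y c i), h.2 i]

lemma chart_le_Bt : chart x y c ≤ Bt x y c j := (Bt_le_iff.1 le_rfl).1

lemma Bk_le_iff : Bk x y c j ≤ O ↔ ∀ i, cv x y c i / cv x y c j ∈ O ∧ cu y c i ∈ O := by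
  refine ⟨fun h i => ⟨h (Algebra.subset_adjoin (Or.inl ⟨i, rfl⟩)),
    h (Algebra.subset_adjoin (Or.inr ⟨i, rfl⟩))⟩, fun h => Algebra.adjoin_le ?_⟩
  rintro _ (⟨i, rfl⟩ | ⟨i, rfl⟩)
  exacts [(h i).1, (h i).2]

lemma Bk_le_Bt : Bk x y c j ≤ Bt x y c j :=
  Bk_le_iff.2 fun i => ⟨(Bt_le_iff.1 le_rfl).2 i, chart_le_Bt (AG.cu_mem x y c i)⟩

lemma w_ne (h : Setup w x y σ) : algebraMap ℂ K w ≠ 0 := fun e => by simpa [e] using h.hwK K

lemma σ_cu (h : Setup w x y σ) (c : Fin 3 → Bool) (i : Fin 3) : σ (cu y c i) = cu y c i := by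
  rw [YMod.sigma_cu h, map_one, one_mul]

lemma σ_ratio (h : Setup w x y σ) (c : Fin 3 → Bool) (i j : Fin 3) :
    σ (cv x y c i / cv x y c j) = cv x y c i / cv x y c j := by
  rw [map_div₀, YMod.sigma_cv h, YMod.sigma_cv h, mul_div_mul_left _ _ (w_ne h)]

lemma σ_zc (h : Setup w x y σ) (c : Fin 3 → Bool) (i : Fin 3) : σ (zc y c i) = zc y c i := by
  unfold zc; split_ifs
  exacts [map_one σ, h.σy i]

lemma σ_Bk (h : Setup w x y σ) {f : K} (hf : f ∈ Bk x y c j) : σ f = f :=
  mem_Fx.1 ((Bk_le_iff (O := (Fx σ).toSubalgebra)).2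
    (fun i => ⟨mem_Fx.2 (σ_ratio h c i j), mem_Fx.2 (σ_cu h c i)⟩) hf)

lemma σ_Bt (h : Setup w x y σ) : ∀ f ∈ Bt x y c j, σ f ∈ Bt x y c j := YMod.stab_of σ (by
  rintro _ ((⟨i, rfl⟩ | ⟨i, rfl⟩) | ⟨i, rfl⟩)
  exacts [⟨_, YMod.sigma_cu h c i⟩, ⟨_, YMod.sigma_cv h c i⟩,
    ⟨1, by rw [σ_ratio h, map_one, one_mul]⟩])

lemma cube_mem (h : Gen ℂ x y) : cv x y c j ^ 3 ∈ Bk x y c j := by
  have h1 := (Bk_le_iff.1 (le_refl (Bk x y c j)) j).2
  rw [h.cv_cube, gg]
  split_ifs
  exacts [sub_mem (pow_mem h1 2) (one_mem _), sub_mem h1 (pow_mem h1 3)]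

/-- The chart of the blow-up is generated by `1, Z, Z ^ 2` over the invariants. -/
lemma exists_rep (h : Gen ℂ x y) {f : K} (hf : f ∈ Bt x y c j) : ∃ a0 ∈ Bk x y c j,
    ∃ a1 ∈ Bk x y c j, ∃ a2 ∈ Bk x y c j, f = a0 + a1 * cv x y c j + a2 * cv x y c j ^ 2 := by
  have h0 := Bk_le_iff.1 (le_refl (Bk x y c j))
  have h3 := cube_mem (c := c) (j := j) h
  induction hf using Algebra.adjoin_induction with
  | mem a ha =>
    rcases ha with (⟨i, rfl⟩ | ⟨i, rfl⟩) | ⟨i, rfl⟩
    · exact ⟨_, (h0 i).2, 0, zero_mem _, 0, zero_mem _, by ring⟩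
    · exact ⟨0, zero_mem _, _, (h0 i).1, 0, zero_mem _, by
        rw [div_mul_cancel₀ _ (cv_ne h c j)]; ring⟩
    · exact ⟨_, (h0 i).1, 0, zero_mem _, 0, zero_mem _, by ring⟩
  | algebraMap r => exact ⟨_, Subalgebra.algebraMap_mem _ r, 0, zero_mem _, 0, zero_mem _, by ring⟩
  | add a b _ _ ha hb =>
    obtain ⟨a0, m0, a1, m1, a2, m2, rfl⟩ := ha
    obtain ⟨b0, n0, b1, n1, b2, n2, rfl⟩ := hb
    exact ⟨_, add_mem m0 n0, _, add_mem m1 n1, _, add_mem m2 n2, by ring⟩
  | mul a b _ _ ha hb =>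
    obtain ⟨a0, m0, a1, m1, a2, m2, rfl⟩ := ha
    obtain ⟨b0, n0, b1, n1, b2, n2, rfl⟩ := hb
    exact ⟨_, add_mem (mul_mem m0 n0) (mul_mem (add_mem (mul_mem m1 n2) (mul_mem m2 n1)) h3),
      _, add_mem (add_mem (mul_mem m0 n1) (mul_mem m1 n0)) (mul_mem (mul_mem m2 n2) h3),
      _, add_mem (add_mem (mul_mem m0 n2) (mul_mem m1 n1)) (mul_mem m2 n0), by ring⟩

/-- The invariants of the chart of the blow-up. -/
lemma mem_Bk (h : Setup w x y σ) {f : K} (hf : f ∈ Bt x y c j) (hσ : σ f = f) :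
    f ∈ Bk x y c j := by
  have : CharZero K := charZero_of_injective_algebraMap (algebraMap ℂ K).injective
  obtain ⟨a0, m0, a1, m1, a2, m2, e⟩ := exists_rep h.toGen hf
  have e1 := congrArg σ e
  simp only [map_add, map_mul, map_pow, hσ, σ_Bk h m0, σ_Bk h m1, σ_Bk h m2,
    YMod.sigma_cv h] at e1
  have e2 := congrArg σ e1
  simp only [map_add, map_mul, map_pow, hσ, σ_Bk h m0, σ_Bk h m1, σ_Bk h m2,
    YMod.sigma_cv h, AlgEquiv.commutes] at e2
  have hw := h.hwK K
  have e3 : (3 : K) * f = 3 * a0 := by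
    linear_combination e + e1 + e2 + (a1 * cv x y c j + a2 * cv x y c j ^ 2 *
      (algebraMap ℂ K w ^ 2 - algebraMap ℂ K w + 1)) * hw
  rwa [mul_left_cancel₀ three_ne_zero e3]

lemma Bq_eq (h : Setup w x y σ) (a : (Fin 3 → Bool) × Fin 3) :
    Bq x y σ a = (Bt x y a.1 a.2).comap (Fx σ).val :=
  le_antisymm (fun _ hf => Bk_le_Bt hf) fun f hf => mem_Bk h hf (mem_Fx.1 f.2)

/-! ### The sections -/

/-- The transition functions of the product. -/
lemma zc_div (h : Gen ℂ x y) (c c' : Fin 3 → Bool) (i : Fin 3) :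
    (zc y c i / zc y c' i = 1 ∧ cu y c i = cu y c' i) ∨
      (zc y c i / zc y c' i = cu y c' i ∧ cu y c i = (cu y c' i)⁻¹) := by
  have := h.y_ne i
  unfold zc cu
  cases c i <;> cases c' i <;> simp [this]

/-- The sections. -/
noncomputable def sec (x y : Fin 3 → K) (c : Fin 3 → Bool) (j : Fin 3) : K :=
  cv x y c j / x 0 * (∏ i, zc y c i) ^ 2

lemma sec_ne (h : Gen ℂ x y) : sec x y c j ≠ 0 :=
  mul_ne_zero (div_ne_zero (cv_ne h c j) (h.x_ne 0))
    (pow_ne_zero _ (Finset.prod_ne_zero_iff.2 fun i _ => zc_ne h c i))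

lemma σ_sec (h : Setup w x y σ) : σ (sec x y c j) = sec x y c j := by
  rw [sec, map_mul, map_div₀, YMod.sigma_cv h, h.σx, mul_div_mul_left _ _ (w_ne h), map_pow,
    map_prod]
  simp only [σ_zc h]

lemma sec_div (h : Gen ℂ x y) (i : Fin 3) : sec x y c j / sec x y c' j' =
    zc y c i / zc y c' i * (cv x y c' j / cv x y c' j' *
      ((∏ l ∈ Finset.univ.erase i, zc y c l / zc y c' l) *
        ∏ l ∈ Finset.univ.erase j, zc y c l / zc y c' l)) := by
  have e : ∀ m, ∏ l ∈ Finset.univ.erase m, zc y c l / zc y c' l =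
      (∏ l, zc y c l) / (∏ l, zc y c' l) / (zc y c m / zc y c' m) := fun m => by
    rw [eq_div_iff (div_ne_zero (zc_ne h c m) (zc_ne h c' m)),
      Finset.prod_erase_mul _ _ (Finset.mem_univ m), Finset.prod_div_distrib]
  have h1 : ∏ l, zc y c' l ≠ 0 := Finset.prod_ne_zero_iff.2 fun l _ => zc_ne h c' l
  have h2 := zc_ne h c
  have h3 := zc_ne h c'
  have h4 := h.x_ne
  rw [e, e, sec, sec, cv_eq, cv_eq, cv_eq]
  have := h2 i; have := h3 i; have := h2 j; have := h3 j; have := h3 j'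
  have := h4 0; have := h4 j; have := h4 j'
  field_simp

lemma r_mem (h : Gen ℂ x y) (i : Fin 3) : zc y c i / zc y c' i ∈ Bk x y c' j' := by
  rcases zc_div h c c' i with ⟨e, -⟩ | ⟨e, -⟩ <;> rw [e]
  exacts [one_mem _, (Bk_le_iff.1 le_rfl i).2]

lemma ratio_mem (h : Gen ℂ x y) : sec x y c j / sec x y c' j' ∈ Bk x y c' j' := by
  rw [sec_div h j]
  exact mul_mem (r_mem h j) (mul_mem (Bk_le_iff.1 le_rfl j).1
    (mul_mem (prod_mem fun l _ => r_mem h l) (prod_mem fun l _ => r_mem h l)))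

/-- The localization away from `ρ`. -/
def away (B : Subalgebra ℂ K) (ρ : K) (hρ : ρ ∈ B) : Subalgebra ℂ K where
  carrier := {g | ∃ N : ℕ, ρ ^ N * g ∈ B}
  mul_mem' := by
    rintro a b ⟨m, hm⟩ ⟨n, hn⟩
    exact ⟨m + n, by convert mul_mem hm hn using 1; ring⟩
  add_mem' := by
    rintro a b ⟨m, hm⟩ ⟨n, hn⟩
    exact ⟨m + n, by
      convert add_mem (mul_mem (pow_mem hρ n) hm) (mul_mem (pow_mem hρ m) hn) using 1; ring⟩
  algebraMap_mem' r := ⟨0, by simp⟩

lemma le_away {B : Subalgebra ℂ K} {ρ : K} (hρ : ρ ∈ B) : B ≤ away B ρ hρ :=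
  fun g hg => ⟨0, by simpa using hg⟩

lemma inv_mem_away {B : Subalgebra ℂ K} {ρ a b : K} (hρ : ρ ∈ B) (ha : a ≠ 0) (hb : b ∈ B)
    (e : ρ = a * b) : a⁻¹ ∈ away B ρ hρ :=
  ⟨1, by rwa [pow_one, e, mul_right_comm, mul_inv_cancel₀ ha, one_mul]⟩

lemma comp_mem (h : Gen ℂ x y) :
    Bk x y c j ≤ away (Bk x y c' j') (sec x y c j / sec x y c' j') (ratio_mem h) := by
  have hp : ∀ m, ∏ l ∈ Finset.univ.erase m, zc y c l / zc y c' l ∈ Bk x y c' j' :=
    fun m => prod_mem fun l _ => r_mem h l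
  have hB := Bk_le_iff.1 (le_refl (Bk x y c' j'))
  have h1 : ∀ i, (zc y c i / zc y c' i)⁻¹ ∈ away _ _ (ratio_mem (c := c) (j := j) (j' := j') h) :=
    fun i => inv_mem_away _ (div_ne_zero (zc_ne h c i) (zc_ne h c' i))
      (mul_mem (hB j).1 (mul_mem (hp i) (hp j))) (sec_div h i)
  have h2 : (cv x y c' j / cv x y c' j')⁻¹ ∈ away _ _ (ratio_mem (c := c) (j := j) (j' := j') h) :=
    inv_mem_away _ (div_ne_zero (cv_ne h c' j) (cv_ne h c' j'))
      (mul_mem (r_mem h j) (mul_mem (hp j) (hp j))) (by rw [sec_div h j]; ring)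
  refine Bk_le_iff.2 fun i => ⟨?_, ?_⟩
  · convert mul_mem (mul_mem (le_away _ (mul_mem (hB i).1 (r_mem (c := c) h j))) h2) (h1 i) using 1
    have := zc_ne h c i; have := zc_ne h c' i; have := zc_ne h c j; have := zc_ne h c' j
    have := zc_ne h c' j'; have := h.x_ne j; have := h.x_ne j'
    simp only [cv_eq]
    field_simp
  · rcases zc_div h c c' i with ⟨-, e⟩ | ⟨e, e'⟩
    · exact e ▸ le_away _ (hB i).2
    · rw [e', ← e]; exact h1 i

lemma exists_Bt_le (h : Gen ℂ x y) {V : Subalgebra ℂ K} (hV : IsVal V) :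
    ∃ c j, Bt x y c j ≤ V := by
  obtain ⟨c, hc⟩ := AG.exists_chart_le h hV
  obtain ⟨j, hj⟩ := YMod.exists_min hV _ (cv_ne h c)
  exact ⟨c, j, Bt_le_iff.2 ⟨hc, hj⟩⟩

/-! ### The points -/

lemma Bt_le_of (hg : Gen ℂ x y) (h : Bt x y c j ≤ O) (hu : ∀ i, c i ≠ c' i → IsU O (y i)) :
    Bt x y c' j ≤ O := by
  have h1 : ∀ i, IsU O (zc y c i / zc y c' i) := fun i => by
    have h2 := hu i
    unfold zc
    cases e : c i <;> cases e' : c' i <;> simp only [e, e', if_true, if_false, Bool.false_eq_true,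
      ne_eq, not_false_eq_true, forall_const, Bool.true_eq_false] at h2 ⊢
    · rw [div_self (hg.y_ne i)]; exact isU_one
    · exact h2.div isU_one
    · exact isU_one.div h2
    · exact isU_one.div isU_one
  refine Bt_le_iff.2 ⟨YMod.chart_le_of (Bt_le_iff.1 h).1 hu, fun i => ?_⟩
  convert (h1 j).div_mem (mul_mem ((Bt_le_iff.1 h).2 i) (h1 i).mem) using 1
  have := zc_ne hg c i; have := zc_ne hg c' i; have := zc_ne hg c j; have := zc_ne hg c' j
  have := hg.x_ne j
  simp only [cv_eq]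
  field_simp

lemma mem_blE_of (h : Setup w x y σ) (hO : O ∈ Pts (Bt x y c j)) : O ∈ blE x y σ := by
  have hg := h.toGen
  have hc : chart x y c ≤ O := chart_le_Bt.trans hO.2.1
  have hT : ∀ i, c i = true → y i ∈ O := fun i hi => by
    have := hc (AG.cu_mem x y c i)
    rwa [cu, if_pos hi] at this
  rcases isU_or_mx (hc (AG.cv_mem x y c j)) with hu | hu
  · have hA : O ∈ prodE ℂ x y := AG.mem_prodE.2 ⟨c, YMod.Pts_of_ctr hO hc fun O' hO' hd =>
      Bt_le_iff.2 ⟨hO'.2.1, fun i => (hd.2 _ (hO'.2.1 (AG.cv_mem x y c j)) hu).div_mem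
        (hO'.2.1 (AG.cv_mem x y c i))⟩⟩
    refine YMod.mem_of_A h hA fun p hp => hu.not_mx ?_
    have h3 := YMod.t_mx hg hp ((YMod.Pts_B0 hg hA hp).2.1 (YMod.t_mem j))
    unfold cv
    split_ifs with e
    · have := mx_mul_right h3 (hT j e)
      rwa [tc, div_mul_cancel₀ _ (hg.y_ne j)] at this
    · exact h3
  · have h2 : ∀ i, c i = true → IsU O (y i) := fun i hi => by
      have h3 := mx_mul_left ((Bt_le_iff.1 hO.2.1).2 i) hu
      rw [div_mul_cancel₀ _ (cv_ne hg c j), cv, if_pos hi] at h3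
      exact YMod.y_unit hg hO.1 h3 (hT i hi)
    refine YMod.mem_of_B (j := j) h (YMod.Pts_of_ctr hO
      (Bt_le_of (c' := fun _ => false) hg hO.2.1 fun i hi => h2 i (by simpa using hi))
      fun O' hO' hd => Bt_le_of (c := fun _ => false) hg hO'.2.1 fun i hi => ?_)
    simpa [sc] using (hd.2 _ (hO'.2.1 (sc_mem_bch x y j i)) (h2 i (by simpa using hi)).inv).inv

lemma mem_blE (h : Setup w x y σ) : O ∈ blE x y σ ↔ ∃ c j, O ∈ Pts (Bt x y c j) := by
  refine ⟨fun hO => ?_, fun ⟨_, _, hO⟩ => mem_blE_of h hO⟩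
  rcases (YMod.mem_iff h).1 hO with ⟨h1, h2⟩ | ⟨j, hj⟩
  · obtain ⟨c, hc⟩ := AG.mem_prodE.1 h1
    obtain ⟨j, hj⟩ := (YMod.inv_or_over h.toGen hc.1 hc.2.1).resolve_right fun ⟨p, hp⟩ => h2 p hp
    exact ⟨c, j, Pts_of_le hc chart_le_Bt (Bt_le_iff.2 ⟨hc.2.1, fun i =>
      hj.div_mem (hc.2.1 (AG.cv_mem x y c i))⟩)⟩
  · exact ⟨fun _ => false, j, hj⟩

/-- Every point of the quotient of an affine chart comes from a point of the chart. -/
lemma exists_up {B : Subalgebra ℂ K} (h3 : ∀ f, σ (σ (σ f)) = f) (hB : ∀ a ∈ B, σ a ∈ B)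
    {W : Subalgebra ℂ (Fx σ)} (hW : W ∈ Pts (B.comap (Fx σ).val)) :
    ∃ C ∈ Pts B, C.comap (Fx σ).val = W := by
  obtain ⟨V, hV, hd⟩ := Lift.exists_val_over (Fx σ).val hW.1
  have hle : ∀ c : Fx σ, c.1 ∈ B → c.1 ∈ V := fun c hc => hd.1 (hW.2.1 hc)
  obtain ⟨C, hC, hCV⟩ := exists_ctr hV.isLocalRing (R := B) fun b hb => by
    obtain ⟨e1, e2, e3, m1, m2, m3, e⟩ := Lift.exists_cubic' h3 hB hb
    exact hV.nrm b (Lift.isIntegral_cubic (R := V) ⟨_, hle e1 m1⟩ ⟨_, hle e2 m2⟩ ⟨_, hle e3 m3⟩ e)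
  have hq := Lift.qpt h3 hB hC
  exact ⟨C, hC, Pts_eq hq hW hW.2.1 hq.2.1 (hCV.comap _) hd⟩

end Ch

open Ch

theorem charts_stmt : ChartsStmt := by
  intro K _ _ w x y σ h
  have hg := h.toGen
  refine ⟨⟨Bq x y σ, fun a => ⟨sec x y a.1 a.2, mem_Fx.2 (σ_sec h)⟩,
    fun a e => sec_ne hg (congrArg Subtype.val e), fun a b => ratio_mem hg, fun a b g hg' => ?_,
    fun a => ?_, fun O hO => ?_, fun a g => ?_⟩, rfl⟩
  · exact comp_mem (c' := b.1) (j' := b.2) hg hg'
  · refine Subalgebra.fg_of_fg_map _ (Fx σ).val Subtype.val_injective ?_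
    rw [Bq, Subalgebra.map_comap_eq_self fun f hf => ⟨⟨f, mem_Fx.2 (σ_Bk h hf)⟩, rfl⟩]
    exact Subalgebra.fg_def.2 ⟨_, (Set.finite_range _).union (Set.finite_range _), rfl⟩
  · let W : Subalgebra ℂ (Fx σ) := { O.toSubring.toSubsemiring with algebraMap_mem' := hO }
    have hW : IsVal W := O.mem_or_inv_mem
    obtain ⟨V, hV, hd⟩ := Lift.exists_val_over (Fx σ).val hW.isLocalRing
    obtain ⟨c, j, hc⟩ := exists_Bt_le hg hV
    exact ⟨(c, j), fun f hf => (hW.eq_of_dom hd).ge (hc (Bk_le_Bt hf))⟩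
  · obtain ⟨u, hu, v, hv, h0, e⟩ := fracChart ℂ K _ x y a.1 hg g.1
    have h1 : v ∈ Bt x y a.1 a.2 := chart_le_Bt hv
    have h2 := mul_mem (σ_Bt h _ h1) (σ_Bt h _ (σ_Bt h _ h1))
    let n : Fx σ := ⟨v * (σ v * σ (σ v)), mem_Fx.2 (by simp only [map_mul, h.σ3]; ring)⟩
    rw [Bq_eq h]
    refine ⟨g * n, ?_, n, mul_mem h1 h2, fun e0 => ?_, rfl⟩
    · change g.1 * (v * (σ v * σ (σ v))) ∈ Bt x y a.1 a.2
      rw [e, ← mul_assoc, div_mul_cancel₀ _ h0]
      exact mul_mem (chart_le_Bt hu) h2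
    · simpa [n, h0] using congrArg Subtype.val e0

theorem pts_stmt : PtsStmt := by
  intro K _ _ w x y σ h
  ext W
  simp only [Set.mem_iUnion, Bq_eq h]
  constructor
  · rintro ⟨a, hW⟩
    obtain ⟨C, hC, rfl⟩ := exists_up h.σ3 (σ_Bt h) hW
    exact ⟨C, mem_blE_of h hC, rfl⟩
  · rintro ⟨O, hO, rfl⟩
    obtain ⟨c, j, hO⟩ := (mem_blE h).1 hO
    exact ⟨(c, j), Lift.qpt h.σ3 (σ_Bt h) hO⟩

theorem res_stmt : ResStmt := by
  intro K _ _ w x y σ h 𝒞 hB M
  refine ⟨K, inferInstance, inferInstance, x, y, w, σ,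
    (Fx σ).val.toRingHom.comp M.e.toRingHom, h.ind, h.eq, h.top, h.hw,
    fun i => by rw [h.σx, Algebra.smul_def], h.σy,
    fun c => congrArg Subtype.val (M.e_const c), fun f => ⟨?_, fun hf => ?_⟩, fun p => ?_⟩
  · rintro ⟨g, rfl⟩
    exact mem_Fx.1 (M.e g).2
  · exact ⟨M.e.symm ⟨f, mem_Fx.2 hf⟩, congrArg Subtype.val (M.e.apply_symm_apply _)⟩
  · obtain ⟨a, q, hq⟩ := M.cover p
    refine ⟨zc y a.1, fun i => by unfold zc; split_ifs <;> simp, fun f hf hσ => ?_⟩
    have h1 : f ∈ (chart x y a.1 : Subalgebra ℂ K) := by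
      refine Algebra.adjoin_le ?_ hf
      rintro g ⟨_, ⟨i, rfl⟩, hg⟩
      have h2 := AG.cu_mem (k := ℂ) x y a.1 i
      have h3 := h.y_ne i
      rcases hg with rfl | rfl | rfl
      · exact cv_eq (x := x) a.1 i ▸ AG.cv_mem x y a.1 i
      all_goals
        unfold cu at h2
        unfold zc
        split_ifs at h2 ⊢
        all_goals simp [h2, h3]
    obtain ⟨u, hu⟩ := Model.B_le_O hq (y := ⟨f, mem_Fx.2 hσ⟩)
      (by rw [hB]; exact mem_Bk h (chart_le_Bt h1) hσ)
    exact ⟨u, congrArg Subtype.val hu⟩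

end Pool.Agent.MP_20d318_ag.Sch

end MrgPart0

-- ======== part 1: formerly Pool.Agent.MP_20d318_ag.AG.StepN
section MrgPart1

-- ======== part 0: formerly Pool.Agent.MP_20d318_ag.AG.MWA
section MrgPart0

/-! The invariant derivation of the elliptic function field and the multiplier of a point. -/

set_option autoImplicit false
set_option linter.unusedSectionVars false

namespace Pool.Agent.MP_20d318_ag.AG.MW

open Pool.Agent.MP_79c67d_ag Pool.Agent.MP_20d318_ag.Lat E Polynomial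
open scoped IntermediateField

variable {k L : Type} [Field k] [CharZero k] [Field L] [CharZero L] [Algebra k L]

theorem exists_der (hH : HomStmt) {x y : L} (hg : Gen k (fun _ : Unit => x) (fun _ => y)) :
    ∃ D : Derivation k L L, D x = 2 * y ∧ D y = 3 * x ^ 2 := by
  have he : y ^ 2 = x ^ 3 + 1 := hg.eq ()
  obtain ⟨φ, h1, h2⟩ := hH k L (TrivSqZeroExt L L) Unit (fun _ => x) (fun _ => y) (fun _ => true)
    (fun _ => TrivSqZeroExt.inl y + TrivSqZeroExt.inr (3 * x ^ 2))
    (fun _ => TrivSqZeroExt.inl x + TrivSqZeroExt.inr (2 * y)) hg (fun _ => by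
      simp only [gg, if_true]
      ext
      · simp; linear_combination -he
      · simp; ring)
  have hu := cu_mem (k := k) (fun _ : Unit => x) (fun _ => y) (fun _ => true) ()
  have hv := cv_mem (k := k) (fun _ : Unit => x) (fun _ => y) (fun _ => true) ()
  have hF := frac_stmt k L Unit _ _ (fun _ => true) hg
  have hfst : ∀ a (ha : a ∈ chart (k := k) (fun _ : Unit => x) (fun _ => y) (fun _ => true)),
      (φ ⟨a, ha⟩).fst = a := by
    intro a ha
    induction ha using Algebra.adjoin_induction with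
    | mem z hz =>
      rcases hz with ⟨i, rfl⟩ | ⟨i, rfl⟩
      · exact (congrArg TrivSqZeroExt.fst (h2 i hv)).trans (by simp)
      · exact (congrArg TrivSqZeroExt.fst (h1 i hu)).trans (by simp)
    | algebraMap c =>
      exact (congrArg TrivSqZeroExt.fst (φ.commutes c)).trans
        (by simp [TrivSqZeroExt.algebraMap_eq_inl'])
    | add a b ha hb iha ihb =>
      exact (congrArg TrivSqZeroExt.fst (map_add φ ⟨a, ha⟩ ⟨b, hb⟩)).trans
        (by rw [TrivSqZeroExt.fst_add, iha, ihb])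
    | mul a b ha hb iha ihb =>
      exact (congrArg TrivSqZeroExt.fst (map_mul φ ⟨a, ha⟩ ⟨b, hb⟩)).trans
        (by rw [TrivSqZeroExt.fst_mul, iha, ihb])
  have h1' := h1 () hu
  have h2' := h2 () hv
  clear h1 h2
  generalize chart (k := k) (fun _ : Unit => x) (fun _ => y) (fun _ => true) = R at *
  have : IsFractionRing R L := IsFractionRing.of_field R L fun z => by
    obtain ⟨a, ha, b, hb, -, e⟩ := hF z
    exact ⟨⟨a, ha⟩, ⟨b, hb⟩, e⟩
  have hun : ∀ b : nonZeroDivisors R, IsUnit (φ b) := fun b => by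
    rw [TrivSqZeroExt.isUnit_iff_isUnit_fst, hfst b.1.1 b.1.2, isUnit_iff_ne_zero]
    exact fun h => nonZeroDivisors.ne_zero b.2 (Subtype.ext h)
  let Φ : L →ₐ[k] TrivSqZeroExt L L := IsLocalization.liftAlgHom hun
  have hΦ : ∀ a : R, Φ a = φ a := fun a => IsLocalization.lift_eq hun a
  have hΦ1 : ∀ f, (Φ f).fst = f := by
    intro f
    obtain ⟨a, ha, b, hb, hb0, rfl⟩ := hF f
    have e := congrArg (fun z => (Φ z).fst) (div_mul_cancel₀ a hb0)
    simp only [map_mul, TrivSqZeroExt.fst_mul] at e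
    rw [hΦ ⟨a, ha⟩, hΦ ⟨b, hb⟩, hfst, hfst] at e
    exact eq_div_of_mul_eq hb0 e
  refine ⟨Derivation.mk' ((TrivSqZeroExt.sndHom L L).restrictScalars k ∘ₗ Φ.toLinearMap)
    fun a b => ?_, ?_, ?_⟩
  · change (Φ (a * b)).snd = a * (Φ b).snd + b * (Φ a).snd
    rw [map_mul, TrivSqZeroExt.snd_mul, hΦ1, hΦ1]
    simp [mul_comm]
  · exact (congrArg TrivSqZeroExt.snd ((hΦ ⟨x, hv⟩).trans h2')).trans (by simp)
  · exact (congrArg TrivSqZeroExt.snd ((hΦ ⟨y, hu⟩).trans h1')).trans (by simp)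

section lam

variable (D : Derivation k L L)

theorem D_mul (a b : L) : D (a * b) = a * D b + b * D a := D.leibniz a b
theorem D_sq (a : L) : D (a ^ 2) = 2 * a * D a := by rw [pow_two, D_mul]; ring
theorem D_cube (a : L) : D (a ^ 3) = 3 * a ^ 2 * D a := by
  rw [pow_succ, D_mul, D_sq]; ring
theorem D_div (a b : L) : D (a / b) = b⁻¹ ^ 2 * (b * D a - a * D b) := D.leibniz_div a b

/-- The multiplier of the invariant differential. -/
noncomputable def lam (Q : E L) : L := D Q.X / (2 * Q.Y)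

theorem X_or_Y {Q : E L} (h : Q ≠ 0) : Q.X ≠ 0 ∨ Q.Y ≠ 0 := by
  by_contra hn
  rw [not_or, not_not, not_not] at hn
  have := eqn h
  simp [hn.1, hn.2] at this

theorem lam_spec (Q : E L) : D Q.X = 2 * lam D Q * Q.Y ∧ D Q.Y = 3 * lam D Q * Q.X ^ 2 := by
  by_cases h : Q = 0
  · simp [h]
  have e := congrArg D (eqn h)
  rw [D_sq, map_add, D_cube, D.map_one_eq_zero, add_zero] at e
  by_cases hy : Q.Y = 0
  · have hx := (X_or_Y h).resolve_right (not_not.2 hy)
    rw [hy] at e
    have : D Q.X = 0 := by simpa [hx] using e.symm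
    simp [lam, hy, this]
  · unfold lam
    constructor
    · field_simp
    · field_simp; linear_combination e

theorem lam_eq {Q : E L} (h : Q ≠ 0) {l : L} (h1 : D Q.X = 2 * l * Q.Y)
    (h2 : D Q.Y = 3 * l * Q.X ^ 2) : lam D Q = l := by
  obtain ⟨a1, a2⟩ := lam_spec D Q
  rcases X_or_Y h with h0 | h0
  · have : (3 * Q.X ^ 2) * lam D Q = (3 * Q.X ^ 2) * l := by linear_combination h2 - a2
    exact mul_left_cancel₀ (by simpa using h0) this
  · have : (2 * Q.Y) * lam D Q = (2 * Q.Y) * l := by linear_combination h1 - a1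
    exact mul_left_cancel₀ (by simpa using h0) this

theorem lam_zero : lam D 0 = 0 := by simp [lam]

theorem lam_neg (Q : E L) : lam D (-Q) = - lam D Q := by simp [lam, div_neg]

theorem lam_add (P Q : E L) : lam D (P + Q) = lam D P + lam D Q := by
  by_cases hP : P = 0
  · simp [hP, lam_zero]
  by_cases hQ : Q = 0
  · simp [hQ, lam_zero]
  by_cases h : P + Q = 0
  · obtain rfl := add_eq_zero_iff_eq_neg.1 h
    simp [lam_zero, lam_neg]
  obtain ⟨a1, a2⟩ := lam_spec D P
  obtain ⟨b1, b2⟩ := lam_spec D Q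
  have e1 := sl_mul1 hP hQ h
  have e2 := sl_mul2 hP hQ h
  have e3 := X_add hP hQ h
  have e4 := Y_add hP hQ h
  have hm : D (sl P Q) = lam D P * (P.X - (P + Q).X) + lam D Q * (Q.X - (P + Q).X) := by
    by_cases hx : P.X = Q.X
    · obtain rfl := (eq_or_neg hP hQ hx).resolve_right fun h1 => h (by simp [h1])
      have d2 := congrArg D e2
      simp only [D_mul, map_add, D_sq, a1, a2] at d2
      refine mul_left_cancel₀ (mul_ne_zero two_ne_zero (Y_ne_of_add_self hP h)) ?_
      rw [e3]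
      linear_combination d2 + 2 * lam D P * sl P P * e2
    · have d1 := congrArg D e1
      simp only [D_mul, map_sub, a1, a2, b1, b2] at d1
      refine mul_left_cancel₀ (sub_ne_zero.2 hx) ?_
      rw [e3]
      linear_combination d1 + (lam D P + lam D Q) * sl P Q * e1 - (lam D P - lam D Q) * e2
  have d3 := congrArg D e3
  have d4 := congrArg D e4
  simp only [D_mul, map_sub, map_add, map_neg, D_sq, a1, a2, b1, hm] at d3 d4
  generalize lam D P = a at *
  generalize lam D Q = b at *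
  generalize sl P Q = m at *
  refine lam_eq D h ?_ ?_
  · rw [d3, e4, e3]
    linear_combination (-2 * b) * e1
  · rw [d4, d3, e3]
    linear_combination ((b - 2 * a) * m) * e1 + (b + 2 * a) * e2

/-- The multiplier as an additive map. -/
noncomputable def lamH : E L →+ L := AddMonoidHom.mk' (lam D) (lam_add D)

theorem lam_zeta {w : k} (hw : w ^ 2 + w + 1 = 0) (Q : E L) :
    lam D (zeta (algebraMap k L w) Q) = algebraMap k L w * lam D Q := by
  rw [lam, lam, X_zeta (map_hw hw L), Y_zeta (map_hw hw L), D_mul, D.map_algebraMap]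
  ring

theorem lam_const (c : E k) : lam D (pmap (algebraMap k L) c) = 0 := by simp [lam]

theorem lam_sm {w : k} (hw : w ^ 2 + w + 1 = 0) (a : O) (Q : E L) :
    lam D (sm (algebraMap k L w) a Q) = (a.re + a.im * algebraMap k L w) * lam D Q := by
  change lamH D _ = _
  rw [sm_apply, map_add, map_zsmul, map_zsmul]
  change a.re • lam D Q + a.im • lam D _ = _
  rw [lam_zeta D hw, zsmul_eq_mul, zsmul_eq_mul]
  ring

end lam

/-- A derivation that preserves a smooth chart preserves the rings of the places over it. -/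
theorem D_reg_aux (D : Derivation k L L) (P : Place k L) {R : Subalgebra k L} {u v : L}
    (hR : R = Algebra.adjoin k {u, v}) (hF : Frac R) (hle : R ≤ plO P) (hDu : D u ∈ plO P)
    (hDv : D v ∈ plO P) {u0 v0 : k} (hu0 : u - algebraMap k L u0 ∈ mx (plO P)) {A h : L}
    (hA : A ∈ R) (hh : h ∈ R) (hU : IsU (plO P) A)
    (e : (v - algebraMap k L v0) * A = (u - algebraMap k L u0) * h) :
    ∀ f ∈ plO P, D f ∈ plO P := by
  have hV := (plO_isVal P).isLocalRing
  obtain ⟨O, hO, hd⟩ := exists_ctr hV hle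
  have hRO : R ≤ O := hO.2.1
  have hu : u ∈ R := hR ▸ Algebra.subset_adjoin (by simp)
  have hπ : u - algebraMap k L u0 ∈ O := sub_mem (hRO hu) (O.algebraMap_mem _)
  have hDR : ∀ a ∈ R, D a ∈ plO P := by
    intro a ha
    have hle' := hle
    rw [hR] at ha hle'
    induction ha using Algebra.adjoin_induction with
    | mem z hz =>
      rcases hz with rfl | rfl
      exacts [hDu, hDv]
    | algebraMap c => rw [D.map_algebraMap]; exact zero_mem _
    | add a b _ _ iha ihb => rw [map_add]; exact add_mem iha ihb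
    | mul a b ha hb iha ihb =>
      rw [D_mul]; exact add_mem (mul_mem (hle' ha) ihb) (mul_mem (hle' hb) iha)
  have hexp : ∀ a ∈ R, ∃ c : k, ∃ a' ∈ O, a = algebraMap k L c + (u - algebraMap k L u0) * a' := by
    intro a ha
    rw [hR] at ha
    induction ha using Algebra.adjoin_induction with
    | mem z hz =>
      rcases hz with rfl | rfl
      · exact ⟨u0, 1, O.one_mem, by ring⟩
      · refine ⟨v0, h / A, (hd.2 A (hRO hA) hU).div_mem (hRO hh), ?_⟩
        have := hU.1
        field_simp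
        linear_combination e
    | algebraMap c => exact ⟨c, 0, O.zero_mem, by ring⟩
    | add a b _ _ iha ihb =>
      obtain ⟨c, a', ha', rfl⟩ := iha
      obtain ⟨d, b', hb', rfl⟩ := ihb
      exact ⟨c + d, a' + b', add_mem ha' hb', by rw [map_add]; ring⟩
    | mul a b _ _ iha ihb =>
      obtain ⟨c, a', ha', rfl⟩ := iha
      obtain ⟨d, b', hb', rfl⟩ := ihb
      exact ⟨c * d, algebraMap k L c * b' + algebraMap k L d * a' + (u - algebraMap k L u0) * a' * b',
        add_mem (add_mem (mul_mem (O.algebraMap_mem c) hb') (mul_mem (O.algebraMap_mem d) ha'))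
          (mul_mem (mul_mem hπ ha') hb'), by rw [map_mul]; ring⟩
  generalize u - algebraMap k L u0 = π at hu0 hπ hexp
  have hdiv : ∀ f ∈ O, f ∈ mx (plO P) → ∃ f' ∈ O, f = π * f' := by
    intro f hf hm
    obtain ⟨a, ha, b, hb, hbu, rfl⟩ := hO.2.2 f hf
    obtain ⟨c, a', ha', e'⟩ := hexp a ha
    have h1 : a ∈ mx (plO P) := by
      have := mx_mul_right hm (hle hb)
      rwa [div_mul_cancel₀ _ hbu.1] at this
    have h2 : algebraMap k L c ∈ mx (plO P) := by
      have := mx_sub' hV h1 (mx_mul_right hu0 (hd.1 ha'))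
      rwa [e', add_sub_cancel_right] at this
    rw [const_mem_mx.1 h2, map_zero, zero_add] at e'
    exact ⟨a' / b, hbu.div_mem ha', by rw [e', mul_div_assoc]⟩
  have key : ∀ n : ℕ, ∀ a ∈ O, ∀ b ∈ O, b ≠ 0 → P.ord b < n → a / b ∈ plO P → a / b ∈ O := by
    intro n
    induction n with
    | zero =>
      intro a _ b hb hb0 hn _
      have := ((mem_plO' P).1 (hd.1 hb)).le hb0
      omega
    | succ n ih =>
      intro a ha b hb hb0 hn hab
      rcases isU_or_mx (hd.1 hb) with h1 | h1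
      · exact (hd.2 b hb h1).div_mem ha
      · have h2 : a ∈ mx (plO P) := by
          have := mx_mul_left hab h1
          rwa [div_mul_cancel₀ _ hb0] at this
        obtain ⟨a', ha', rfl⟩ := hdiv a ha h2
        obtain ⟨b', hb', rfl⟩ := hdiv b hb h1
        have hπ0 := left_ne_zero_of_mul hb0
        have hb0' := right_ne_zero_of_mul hb0
        rw [mul_div_mul_left _ _ hπ0] at hab ⊢
        refine ih a' ha' b' hb' hb0' ?_ hab
        rw [P.ord_mul hπ0 hb0'] at hn
        have := (P.ge1_iff.2 ((mem_mx_plO P).1 hu0)).le hπ0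
        omega
  intro f hf
  obtain ⟨a, ha, b, hb, hb0, rfl⟩ := hF f
  obtain ⟨a', ha', b', hb', hbu, e'⟩ :=
    hO.2.2 _ (key ((P.ord b).toNat + 1) a (hRO ha) b (hRO hb) hb0 (by omega) hf)
  rw [e', D_div]
  exact mul_mem (pow_mem (hbu.mono hd.1).2.2 2)
    (sub_mem (mul_mem (hle hb') (hDR _ ha')) (mul_mem (hle ha') (hDR _ hb')))

theorem isU_of_sub {V : Subalgebra k L} (hV : IsLocalRing V) {a : L} {c : k} (hc : c ≠ 0)
    (h : a - algebraMap k L c ∈ mx V) : IsU V a := by
  simpa using (isU_const hc).add_mx hV h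

variable [IsAlgClosed k] [IsFF k L]

theorem D_reg_chart (D : Derivation k L L) (P : Place k L) {R : Subalgebra k L} {u v : L}
    (b : Bool) (hR : R = Algebra.adjoin k {u, v}) (hF : Frac R) (hle : R ≤ plO P)
    (hDu : D u ∈ plO P) (hDv : D v ∈ plO P) (e : v ^ 3 = gg b u) : ∀ f ∈ plO P, D f ∈ plO P := by
  have hV := (plO_isVal P).isLocalRing
  have hu : u ∈ R := hR ▸ Algebra.subset_adjoin (by simp)
  have hv : v ∈ R := hR ▸ Algebra.subset_adjoin (by simp)
  have res : ∀ a ∈ plO P, ∃ c : k, a - algebraMap k L c ∈ mx (plO P) := fun a ha =>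
    (P.residue ((mem_plO' P).1 ha)).imp fun c hc => (mem_mx_plO P).2 (P.ge1_iff.1 hc)
  obtain ⟨u0, hu0⟩ := res u (hle hu)
  obtain ⟨v0, hv0⟩ := res v (hle hv)
  have cu := R.algebraMap_mem u0
  have cv := R.algebraMap_mem v0
  have hA : v ^ 2 + v * algebraMap k L v0 + algebraMap k L v0 ^ 2 ∈ R :=
    add_mem (add_mem (pow_mem hv 2) (mul_mem hv cv)) (pow_mem cv 2)
  obtain ⟨h, hh, h0, e1, e2, e3⟩ : ∃ h ∈ R, ∃ h0 : k,
      gg b u - algebraMap k L (gg b u0) = (u - algebraMap k L u0) * h ∧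
      h - algebraMap k L h0 ∈ mx (plO P) ∧ (gg b u0 = 0 → h0 ≠ 0) := by
    cases b with
    | true =>
      refine ⟨u + algebraMap k L u0, add_mem hu cu, 2 * u0, by simp [gg]; ring, ?_, ?_⟩
      · convert hu0 using 1
        rw [map_mul, map_ofNat]; ring
      · intro h1 h2
        have : u0 = 0 := by simpa using h2
        simp [gg, this] at h1
    | false =>
      refine ⟨1 - (u ^ 2 + u * algebraMap k L u0 + algebraMap k L u0 ^ 2),
        sub_mem (one_mem _) (add_mem (add_mem (pow_mem hu 2) (mul_mem hu cu)) (pow_mem cu 2)),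
        1 - 3 * u0 ^ 2, by simp [gg]; ring, ?_, ?_⟩
      · convert mx_mul_right hu0 (neg_mem (add_mem (hle hu) (mul_mem (natCast_mem _ 2) (hle cu))))
          using 1
        rw [map_sub, map_mul, map_pow, map_one, map_ofNat]; push_cast; ring
      · intro h1 h2
        have h3 : u0 - u0 ^ 3 = 0 := by simpa [gg] using h1
        have h4 : u0 = 0 := by linear_combination (3 / 2) * h3 - (u0 / 2) * h2
        simp [h4] at h2
  have e4 : v0 ^ 3 = gg b u0 := by
    rw [← sub_eq_zero, ← const_mem_mx (O := plO P)]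
    convert mx_sub' hV (mx_mul_right hu0 (hle hh)) (mx_mul_right hv0 (hle hA)) using 1
    rw [← e1, ← e, map_sub, map_pow]; ring
  have e5 : (v - algebraMap k L v0) * (v ^ 2 + v * algebraMap k L v0 + algebraMap k L v0 ^ 2) =
      (u - algebraMap k L u0) * h := by rw [← e1, ← e, ← e4, map_pow]; ring
  by_cases hz : v0 = 0
  · exact D_reg_aux D P (hR.trans (by rw [Set.pair_comm])) hF hle hDv hDu hv0 hh hA
      (isU_of_sub hV (e3 (by rw [← e4, hz]; ring)) e2) e5.symm
  · refine D_reg_aux D P hR hF hle hDu hDv hu0 hA hh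
      (isU_of_sub hV (c := 3 * v0 ^ 2) (by simpa using hz) ?_) e5
    convert mx_mul_right hv0 (add_mem (hle hv) (mul_mem (natCast_mem _ 2) (hle cv))) using 1
    rw [map_mul, map_pow, map_ofNat]; push_cast; ring

theorem D_reg {D : Derivation k L L} {x y : L} (hg : Gen k (fun _ : Unit => x) (fun _ => y))
    (hx : D x = 2 * y) (hy : D y = 3 * x ^ 2) (P : Place k L) : ∀ f ∈ plO P, D f ∈ plO P := by
  obtain ⟨c, hc⟩ := exists_chart_le hg (plO_isVal P)
  obtain ⟨h1, h2⟩ := chart_le_iff.1 hc ()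
  have hy0 : y ≠ 0 := hg.y_ne ()
  have he : y ^ 2 = x ^ 3 + 1 := hg.eq ()
  refine D_reg_chart D P (c ()) (u := cu (fun _ => y) c ()) (v := cv (fun _ => x) (fun _ => y) c ())
    ?_ (frac_stmt k L Unit _ _ c hg) hc ?_ ?_ (hg.cv_cube c ())
  · rw [chart_eq, Set.range_unique, Set.range_unique, Set.union_comm]; rfl
  · unfold cu cv at *
    split_ifs at *
    · rw [hy]; exact mul_mem (ofNat_mem _ 3) (pow_mem h2 2)
    · convert neg_mem (mul_mem (ofNat_mem _ 3) (pow_mem h2 2)) using 1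
      rw [D.leibniz_inv, hy, smul_eq_mul]; field_simp
  · unfold cu cv at *
    split_ifs at *
    · rw [hx]; exact mul_mem (ofNat_mem _ 2) h1
    · convert sub_mem (mul_mem (ofNat_mem _ 3) (pow_mem h1 2)) (one_mem _) using 1
      rw [D_div, hx, hy]; field_simp; linear_combination 3 * he

theorem lam_mem {D : Derivation k L L} (P : Place k L) (hD : ∀ f ∈ plO P, D f ∈ plO P) (Q : E L) :
    lam D Q ∈ plO P := by
  by_cases h : Q = 0
  · rw [h, lam_zero]; exact zero_mem _
  have hV := (plO_isVal P).isLocalRing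
  have hN := (plO_isVal P).nrm
  obtain ⟨a1, a2⟩ := lam_spec D Q
  have he := eqn h
  by_cases hY : Q.Y ∈ plO P
  · have hX : Q.X ∈ plO P := hN.of_pow (n := 3) (by norm_num) (by
      convert sub_mem (pow_mem hY 2) (one_mem _) using 1
      linear_combination -he)
    rcases isU_or_mx hY with h1 | h1
    · simpa [lam] using ((isU_intCast (n := 2) (by norm_num)).mul h1).div_mem (hD _ hX)
    · have h2 : IsU (plO P) Q.X := IsU.of_pow hX (n := 3) (by norm_num) (by
        convert isU_one.neg.add_mx hV (mx_pow h1 (n := 2) (by norm_num)) using 1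
        linear_combination -he)
      convert ((isU_intCast (n := 3) (by norm_num)).mul (h2.pow 2)).div_mem (hD _ hY) using 1
      have := h2.1
      rw [a2]; push_cast; field_simp
  · have h1 := (plO_isVal P).inv_mx hY
    have hy0 : Q.Y ≠ 0 := fun h0 => hY (h0 ▸ zero_mem _)
    have hT : Q.tt ∈ plO P := hN.of_pow (n := 3) (by norm_num) (by
      rw [tt_cube]; exact sub_mem h1.1 (pow_mem h1.1 3))
    have h2 : IsU (plO P) (-1 + 3 * Q.Y⁻¹ ^ 2) := isU_one.neg.add_mx hV
      (mx_mul_left (ofNat_mem _ 3) (mx_pow h1 (by norm_num)))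
    convert h2.div_mem (hD _ hT) using 1
    rw [eq_div_iff h2.1, tt, D_div, a1, a2]
    field_simp
    linear_combination (-3 * lam D Q) * he

theorem ker_const {D : Derivation k L L} {y : L} (hy : D y ≠ 0) {f : L} (hf : D f = 0) :
    ∃ c : k, algebraMap k L c = f := by
  refine exists_const_of_algebraic (by_contra fun ht => hy ?_)
  have := finDim_adjoin (K := k) ht
  have hk : ∀ a : k⟮f⟯, D a = 0 := by
    rintro ⟨a, ha⟩
    change D a = 0
    induction ha using IntermediateField.adjoin_induction with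
    | mem z hz => rw [Set.mem_singleton_iff.1 hz]; exact hf
    | algebraMap c => exact D.map_algebraMap c
    | add a b _ _ iha ihb => rw [map_add, iha, ihb, add_zero]
    | inv a _ iha => rw [D.leibniz_inv, iha, smul_zero]
    | mul a b _ _ iha ihb => rw [D_mul, iha, ihb]; ring
  let D' : Derivation k⟮f⟯ L L := Derivation.mk'
    { toFun := D
      map_add' := map_add D
      map_smul' := fun a z => by
        change D ((a : L) * z) = (a : L) * D z
        rw [D_mul, hk a]; ring } D.leibniz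
  have hs : IsSeparable k⟮f⟯ y := Algebra.IsSeparable.isSeparable _ y
  have e := D'.map_aeval (minpoly k⟮f⟯ y) y
  rw [minpoly.aeval, map_zero, smul_eq_mul] at e
  exact (mul_eq_zero.1 e.symm).resolve_left (hs.aeval_derivative_ne_zero (minpoly.aeval _ _))

end Pool.Agent.MP_20d318_ag.AG.MW

end MrgPart0

-- ======== part 1: formerly Pool.Agent.MP_20d318_ag.AG.MW
section MrgPart1

/-! The points of the elliptic curve over the function field of a power of the curve. -/

set_option autoImplicit false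
set_option linter.unusedSectionVars false

namespace Pool.Agent.MP_20d318_ag.AG

open Pool.Agent.MP_79c67d_ag Pool.Agent.MP_20d318_ag.Lat E Polynomial
open scoped IntermediateField

namespace MW

/-- A domain containing a cube root of unity, with a definite multiplicative quadratic form, is
the ring of Eisenstein integers. -/
theorem eisenstein {A : Type} [CommRing A] [IsDomain A] [CharZero A] (n : A → ℤ) (w : A)
    (hw : w ^ 2 + w + 1 = 0) (par : ∀ a b, n (a + b) + n (a - b) = 2 * n a + 2 * n b)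
    (mul : ∀ a b, n (a * b) = n a * n b) (zero : ∀ a, n a = 0 → a = 0)
    (nw : ∀ u v : ℤ, n (u + v * w) = u ^ 2 - u * v + v ^ 2) (a : A) :
    ∃ u v : ℤ, a = u + v * w := by
  have n0 : n 0 = 0 := by simpa using nw 0 0
  have n1 : n 1 = 1 := by simpa using nw 1 0
  have n2 : n w = 1 := by simpa using nw 0 1
  have n3 : n (1 + w) = 1 := by simpa using nw 1 1
  have tri : ∀ x y z, n (x + y + z) + n x + n y + n z = n (x + y) + n (x + z) + n (y + z) := by
    intro x y z
    have h1 := par (x + z) y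
    have h2 := par x (z - y)
    have h3 := par (x + y) z
    have h4 := par z y
    rw [show x + z + y = x + y + z by ring] at h1
    rw [show x + (z - y) = x + z - y by ring, show x - (z - y) = x + y - z by ring] at h2
    rw [add_comm z y] at h4
    omega
  let B : A →+ A →+ ℤ := AddMonoidHom.mk'
    (fun x => AddMonoidHom.mk' (fun y => n (x + y) - n x - n y) fun y z => by
      have := tri x y z
      rw [← add_assoc]; omega) fun x y => by
      ext z
      have := tri x y z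
      simp only [AddMonoidHom.mk'_apply, AddMonoidHom.add_apply]; omega
  have hB : ∀ x y, B x y = n (x + y) - n x - n y := fun _ _ => rfl
  have symm : ∀ x y, B x y = B y x := fun x y => by rw [hB, hB, add_comm]; ring
  have self : ∀ x, B x x = 2 * n x := fun x => by
    have := par x x
    rw [sub_self, n0] at this
    rw [hB]; omega
  have hom : ∀ c x y, B (c * x) (c * y) = n c * B x y := fun c x y => by
    rw [hB, hB, ← mul_add, mul, mul, mul]; ring
  have adj : ∀ c x y, B c 1 = 0 → B (c * x) y = - B x (c * y) := fun c x y h => by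
    have h1 := hom (c + 1) x y
    have h2 := hom c x y
    rw [hB] at h
    simp only [add_mul, one_mul, map_add, AddMonoidHom.add_apply] at h1
    rw [h2, show n (c + 1) = n c + 1 by omega] at h1
    linarith
  have b11 : B 1 1 = 2 := by rw [self, n1]; rfl
  have bww : B w w = 2 := by rw [self, n2]; rfl
  have b1w : B 1 w = -1 := by rw [hB, n1, n2, n3]; rfl
  have bw1 : B w 1 = -1 := by rw [symm, b1w]
  have orth : ∀ e, B e 1 = 0 → B e w = 0 → e = 0 := fun e h1 h2 => by
    have t1 : B (1 + w + w) 1 = 0 := by simp [b11, bw1]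
    have t2 : B (e * (1 + w + w)) 1 = 0 := by
      rw [mul_comm, adj _ _ _ t1, mul_one]; simp [h1, h2]
    have t3 := adj _ (e * (1 + w + w)) 1 t2
    have t4 : B (e * (1 + w + w) * (e * (1 + w + w))) 1 = B (e * (1 + w + w)) (e * (1 + w + w)) := by
      rw [mul_assoc, adj _ _ _ h1, adj _ _ _ t1, neg_neg, mul_one, mul_comm (1 + w + w) e]
    rw [mul_one, t4, self] at t3
    refine (mul_eq_zero.1 (zero (e * (1 + w + w)) (by omega))).resolve_right fun h => ?_
    have : (3 : A) = 0 := by linear_combination 4 * hw - (1 + w + w) * h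
    exact OfNat.ofNat_ne_zero 3 this
  have h3 := orth ((3 : ℤ) • a - (2 * B a 1 + B a w) • 1 - (B a 1 + 2 * B a w) • w)
    (by simp only [map_sub, map_zsmul, AddMonoidHom.sub_apply, AddMonoidHom.zsmul_apply, b11, bw1,
          smul_eq_mul]; ring)
    (by simp only [map_sub, map_zsmul, AddMonoidHom.sub_apply, AddMonoidHom.zsmul_apply, b1w, bww,
          smul_eq_mul]; ring)
  generalize B a 1 = t at h3
  generalize B a w = t' at h3
  simp only [zsmul_eq_mul, mul_one] at h3
  have h4 : (((3 : ℤ) : A) + (0 : ℤ) * w) * a = ((2 * t + t' : ℤ) : A) + (t + 2 * t' : ℤ) * w := by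
    rw [Int.cast_zero, zero_mul, add_zero]
    linear_combination h3
  have h5 := congrArg n h4
  rw [mul, nw, nw] at h5
  obtain ⟨m, hm⟩ : (3 : ℤ) ∣ t - t' :=
    Int.prime_three.dvd_of_dvd_pow (n := 2) ⟨n a - t * t', by linarith⟩
  refine ⟨t' + 2 * m, t' + m, mul_left_cancel₀ (OfNat.ofNat_ne_zero (R := A) 3) ?_⟩
  have : t = t' + 3 * m := by omega
  subst this
  push_cast at h3 ⊢
  linear_combination h3

variable {k L : Type} [Field k] [CharZero k] [Field L] [CharZero L] [Algebra k L]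

theorem exists_const {Q : E L} {a b : k} (ha : algebraMap k L a = Q.X)
    (hb : algebraMap k L b = Q.Y) : ∃ c : E k, Q = pmap (algebraMap k L) c := by
  by_cases h : Q = 0
  · exact ⟨0, by simp [h]⟩
  have e : b ^ 2 = a ^ 3 + 1 := (algebraMap k L).injective (by simp [ha, hb, eqn h])
  exact ⟨mk a b, by rw [pmap_mk _ e, ha, hb, mk_XY h]⟩

theorem D_comp {D : Derivation k L L} {x y : L} (hg : Gen k (fun _ : Unit => x) (fun _ => y))
    (φ : L →ₐ[k] L) (l : L) (hx : D (φ x) = l * φ (D x)) (hy : D (φ y) = l * φ (D y)) (f : L) :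
    D (φ f) = l * φ (D f) := by
  have hf : f ∈ IntermediateField.adjoin k
      (Set.range (fun _ : Unit => x) ∪ Set.range fun _ : Unit => y) := by rw [hg.top]; trivial
  induction hf using IntermediateField.adjoin_induction with
  | mem z hz =>
    rcases hz with ⟨_, rfl⟩ | ⟨_, rfl⟩
    exacts [hx, hy]
  | algebraMap c => simp
  | add a b _ _ iha ihb => simp only [map_add, iha, ihb, mul_add]
  | inv a _ iha =>
    rw [map_inv₀, D.leibniz_inv, D.leibniz_inv, iha]
    simp only [smul_eq_mul, map_mul, map_neg, map_pow, map_inv₀]; ring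
  | mul a b _ _ iha ihb => simp only [map_mul, D_mul, map_add, iha, ihb]; ring

theorem finrank_map (φ : L →ₐ[k] L) (f : L) : Module.finrank k⟮φ f⟯ L =
    Module.finrank k⟮f⟯ L * Module.finrank ((⊤ : IntermediateField k L).map φ) L := by
  have e : k⟮φ f⟯ = k⟮f⟯.map φ := by rw [IntermediateField.adjoin_map, Set.image_singleton]
  rw [e, ← IntermediateField.relfinrank_mul_finrank_top (IntermediateField.map_mono φ le_top),
    IntermediateField.relfinrank_map_map, IntermediateField.relfinrank_top_right]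

theorem exists_pmap {M : IntermediateField k L} {Q : E L} (hx : Q.X ∈ M) (hy : Q.Y ∈ M) :
    ∃ Q' : E M, pmap (algebraMap M L) Q' = Q :=
  (exists_const (k := M) (a := ⟨_, hx⟩) (b := ⟨_, hy⟩) rfl rfl).imp fun _ h => h.symm

theorem mem_of_algebraic (hF : Frac1Stmt) (hI : IndepStmt) (M : IntermediateField k L) {u v : L}
    (hu : Transcendental M u) (e : v ^ 3 = gg true u) {f : L}
    (hf : f ∈ IntermediateField.adjoin k ((M : Set L) ∪ {u, v})) (ha : IsAlgebraic M f) :
    f ∈ M := by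
  obtain ⟨A0, A1, A2, d, hd, h⟩ := hF k L M true u v hu e f hf
  let g : algebraicClosure M L := ⟨f, mem_algebraicClosure_iff.2 ha⟩
  have h0 := (hI (algebraicClosure M L) L true u v hu.algebraicClosure e
    (A0.map (algebraMap _ _) - C g * d.map (algebraMap _ _)) (A1.map (algebraMap _ _))
    (A2.map (algebraMap _ _)) (by
      simp only [map_sub, map_mul, aeval_map_algebraMap, aeval_C]
      change _ - f * _ + _ + _ = 0
      linear_combination -h)).1
  have h1 := congrArg (fun p => ((p.coeff d.natDegree : algebraicClosure M L) : L)) h0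
  simp only [coeff_sub, coeff_map, coeff_C_mul, coeff_zero] at h1
  have h2 : (A0.coeff d.natDegree : L) - f * (d.coeff d.natDegree : L) = 0 := h1
  have h3 : (d.coeff d.natDegree : L) ≠ 0 := fun h4 =>
    leadingCoeff_ne_zero.2 hd (Subtype.ext h4)
  rw [eq_div_of_mul_eq h3 (sub_eq_zero.1 h2).symm]
  exact div_mem (A0.coeff _).2 (d.coeff _).2

end MW

open MW

theorem mw1_stmt (hH : HomStmt) (hFH : FieldHomStmt) (hHt : HtStmt) (hFF : FFStmt) : MW1Stmt := by
  intro k L _ _ _ _ _ _ w x y hw hg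
  obtain ⟨hff, hz⟩ := hFF k L x y hg
  have H := hHt k L
  obtain ⟨D, hx, hy⟩ := exists_der hH hg
  have he : y ^ 2 = x ^ 3 + 1 := hg.eq ()
  have hDy : D y ≠ 0 := by rw [hy]; simpa using hg.x_ne ()
  have hc : ∀ Q, ∃ c : k, lam D Q = algebraMap k L c := fun Q =>
    const_of_regular fun P => (mem_plO' P).1 (lam_mem P (D_reg hg hx hy P) Q)
  have hker : ∀ Q, lam D Q = 0 → ∃ c : E k, Q = pmap (algebraMap k L) c := fun Q h => by
    obtain ⟨a1, a2⟩ := lam_spec D Q
    obtain ⟨a, ha⟩ := ker_const hDy (f := Q.X) (by simp [a1, h])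
    obtain ⟨b, hb⟩ := ker_const hDy (f := Q.Y) (by simp [a2, h])
    exact exists_const ha hb
  have hsub : ∀ P Q, lam D (P - Q) = lam D P - lam D Q := map_sub (lamH D)
  have hz1 : lam D (mk x y) = 1 := lam_eq D (mk_ne he) (by rw [X_mk he, Y_mk he, hx]; ring)
    (by rw [X_mk he, Y_mk he, hy]; ring)
  have hwd : ∀ P Q, lam D P = lam D Q → ht k P = ht k Q := fun P Q h => by
    obtain ⟨c, hc⟩ := hker (P - Q) (by rw [hsub, h, sub_self])
    rw [← H.const Q c, ← hc, add_sub_cancel]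
  have h0 : ∀ Q, ht k Q = 0 ↔ lam D Q = 0 := fun Q => by
    rw [H.zero]
    exact ⟨fun ⟨c, hc⟩ => hc ▸ lam_const D c, hker Q⟩
  have htr : ∀ Q, lam D Q ≠ 0 → Transcendental k Q.X ∧ Transcendental k Q.Y := fun Q h => by
    have hQ : Q ≠ 0 := fun e => h (e ▸ lam_zero D)
    obtain ⟨a1, a2⟩ := lam_spec D Q
    have e := eqn hQ
    refine ⟨transcendental_iff_ne.2 fun c hc => ?_, transcendental_iff_ne.2 fun c hc => ?_⟩
    · have h1 : Q.Y = 0 := by simpa [hc, h] using a1
      have h2 : Q.X = 0 := by simpa [h1, h] using a2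
      simp [h1, h2] at e
    · have h1 : Q.X = 0 := by simpa [hc, h] using a2
      have h2 : Q.Y = 0 := by simpa [h1, h] using a1
      simp [h1, h2] at e
  have hmul : ∀ P Q, ∃ R, lam D R = lam D P * lam D Q ∧ ht k R = ht k P * ht k Q := by
    intro P Q
    by_cases hP : lam D P = 0
    · exact ⟨0, by rw [hP, lam_zero, zero_mul], by
        rw [(h0 P).2 hP, (h0 0).2 (lam_zero D), zero_mul]⟩
    by_cases hQ : lam D Q = 0
    · exact ⟨0, by rw [hQ, lam_zero, mul_zero], by
        rw [(h0 Q).2 hQ, (h0 0).2 (lam_zero D), mul_zero]⟩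
    have hP0 : P ≠ 0 := fun e => hP (e ▸ lam_zero D)
    obtain ⟨φ, h1, h2⟩ := hFH k L L Unit _ _ (fun _ => P.X) (fun _ => P.Y) hg
      (algebraicIndependent_unique_type_iff.2 (htr P hP).2) fun _ => eqn hP0
    have h1' : φ x = P.X := h1 ()
    have h2' : φ y = P.Y := h2 ()
    obtain ⟨a1, a2⟩ := lam_spec D P
    have hD := D_comp hg φ (lam D P) (by rw [h1', a1, hx, map_mul, map_ofNat, h2']; ring)
      (by rw [h2', a2, hy, map_mul, map_ofNat, map_pow, h1']; ring)
    have hl : ∀ R, lam D (pmap (φ : L →+* L) R) = lam D P * lam D R := fun R => by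
      obtain ⟨c, hc⟩ := hc R
      have e : φ (lam D R) = lam D R := by rw [hc, φ.commutes]
      rw [← e]
      simp [lam, hD, map_ofNat, mul_div_assoc]
    have hd : ∀ R, lam D R ≠ 0 → ht k (pmap (φ : L →+* L) R) =
        ht k R * Module.finrank ((⊤ : IntermediateField k L).map φ) L := fun R hR => by
      have e1 := H.deg R (htr R hR).1
      have e2 := H.deg _ (htr (pmap (φ : L →+* L) R) (by rw [hl]; exact mul_ne_zero hP hR)).1
      rw [X_pmap, RingHom.coe_coe, finrank_map, Nat.cast_mul, ← e1, mul_assoc] at e2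
      exact mul_left_cancel₀ two_ne_zero e2
    have e3 := hd (mk x y) (by rw [hz1]; exact one_ne_zero)
    rw [pmap_mk _ he, RingHom.coe_coe, h1', h2', mk_XY hP0, hz, one_mul] at e3
    exact ⟨_, hl Q, by rw [hd Q hQ, e3, mul_comm]⟩
  let R : Subring L :=
    { (lamH D).range with
      one_mem' := ⟨_, hz1⟩
      mul_mem' := by
        rintro _ _ ⟨P, rfl⟩ ⟨Q, rfl⟩
        exact (hmul P Q).imp fun _ h => h.1 }
  have hs : ∀ a : R, ∃ Q, lam D Q = a := fun a => a.2
  choose s hs using hs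
  have hwR : algebraMap k L w ∈ R := ⟨zeta _ (mk x y), (lam_zeta D hw _).trans (by rw [hz1, mul_one])⟩
  intro Q
  obtain ⟨u, v, e⟩ := eisenstein (A := R) (fun a => ht k (s a)) ⟨_, hwR⟩
    (Subtype.ext (map_hw hw L))
    (fun a b => by
      rw [← H.par, hwd (s (a + b)) (s a + s b) (by rw [lam_add, hs, hs, hs]; rfl),
        hwd (s (a - b)) (s a - s b) (by rw [hsub, hs, hs, hs]; rfl)])
    (fun a b => by
      obtain ⟨T, h1, h2⟩ := hmul (s a) (s b)
      rw [← h2]
      exact hwd _ _ (by rw [h1, hs, hs, hs]; rfl))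
    (fun a h => Subtype.ext ((hs a).symm.trans ((h0 _).1 h)))
    (fun u v => by
      rw [hwd _ (sm (algebraMap k L w) ⟨u, v⟩ (mk x y)) (by
        rw [lam_sm D hw, hz1, hs, mul_one]; rfl), H.sm w hw, hz, mul_one])
    ⟨lam D Q, Q, rfl⟩
  obtain ⟨c, hc⟩ := hker (Q - sm (algebraMap k L w) ⟨u, v⟩ (mk x y)) (by
    rw [hsub, lam_sm D hw, hz1, mul_one, sub_eq_zero]; exact congrArg Subtype.val e)
  exact ⟨⟨u, v⟩, c, by rw [← hc, add_sub_cancel]⟩

theorem MW.step (h1 : MW1Stmt) (hF : Frac1Stmt) (hI : IndepStmt) {k K : Type} [Field k]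
    [CharZero k] [Field K] [CharZero K] [Algebra k K] {w : k} (hw : w ^ 2 + w + 1 = 0)
    (M : IntermediateField k K) {x y : K} (hy : Transcendental M y) (e : y ^ 2 = x ^ 3 + 1)
    {Q : E K} (hX : Q.X ∈ IntermediateField.adjoin k ((M : Set K) ∪ {y, x}))
    (hY : Q.Y ∈ IntermediateField.adjoin k ((M : Set K) ∪ {y, x})) :
    ∃ a : O, (Q - sm (algebraMap k K w) a (mk x y)).X ∈ M ∧
      (Q - sm (algebraMap k K w) a (mk x y)).Y ∈ M := by
  have halg := fun f => mem_of_algebraic hF hI M (v := x) (f := f) hy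
    (by simp only [gg, if_true]; linear_combination -e)
  have hxN : x ∈ IntermediateField.adjoin k ((M : Set K) ∪ {y, x}) :=
    IntermediateField.subset_adjoin _ _ (by simp)
  have hyN : y ∈ IntermediateField.adjoin k ((M : Set K) ∪ {y, x}) :=
    IntermediateField.subset_adjoin _ _ (by simp)
  let Ω := AlgebraicClosure K
  let k' := algebraicClosure M Ω
  have : IsAlgClosed k' := IsAlgClosure.isAlgClosed M
  let L := IntermediateField.adjoin k' ({algebraMap K Ω x, algebraMap K Ω y} : Set Ω)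
  let x' : L := ⟨algebraMap K Ω x, IntermediateField.subset_adjoin _ _ (by simp)⟩
  let y' : L := ⟨algebraMap K Ω y, IntermediateField.subset_adjoin _ _ (by simp)⟩
  have hsub : ∀ f ∈ IntermediateField.adjoin k ((M : Set K) ∪ {y, x}), algebraMap K Ω f ∈ L := by
    intro f hf
    induction hf using IntermediateField.adjoin_induction with
    | mem z hz =>
      rcases hz with hz | rfl | rfl
      · exact L.algebraMap_mem (algebraMap M k' ⟨z, hz⟩)
      · exact y'.2
      · exact x'.2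
    | algebraMap c => exact L.algebraMap_mem (algebraMap M k' (algebraMap k M c))
    | add a b _ _ iha ihb => rw [map_add]; exact add_mem iha ihb
    | inv a _ iha => rw [map_inv₀]; exact inv_mem iha
    | mul a b _ _ iha ihb => rw [map_mul]; exact mul_mem iha ihb
  generalize IntermediateField.adjoin k ((M : Set K) ∪ {y, x}) = N at *
  let ρ : N →+* L := ((algebraMap K Ω).comp (algebraMap N K)).codRestrict L fun f => hsub f f.2
  have hg : Gen k' (fun _ : Unit => x') (fun _ => y') := by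
    refine ⟨algebraicIndependent_unique_type_iff.2 ?_, fun _ => Subtype.ext ?_, ?_⟩
    · have h2 : Transcendental k' (algebraMap K Ω y) :=
        ((transcendental_algebraMap_iff (algebraMap K Ω).injective).2 hy).algebraicClosure
      exact (transcendental_algebraMap_iff (algebraMap L Ω).injective).1 h2
    · simpa [x', y'] using congrArg (algebraMap K Ω) e
    · apply IntermediateField.lift_injective L
      rw [IntermediateField.lift_adjoin, IntermediateField.lift_top, Set.range_unique,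
        Set.range_unique, Set.image_union, Set.image_singleton, Set.image_singleton]
      rfl
  obtain ⟨Q', rfl⟩ := exists_pmap hX hY
  have hw' : (algebraMap M k' (algebraMap k M w)) ^ 2 + algebraMap M k' (algebraMap k M w) + 1 = 0 :=
    map_hw (map_hw hw M) k'
  obtain ⟨a, c, hc⟩ := h1 k' L _ x' y' hw' hg (pmap ρ Q')
  have eN : (⟨y, hyN⟩ : N) ^ 2 = (⟨x, hxN⟩ : N) ^ 3 + 1 := Subtype.ext e
  have e1 : pmap ρ (Q' - sm (algebraMap k N w) a (mk ⟨x, hxN⟩ ⟨y, hyN⟩)) =
      pmap (algebraMap k' L) c := by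
    rw [map_sub, pmap_sm _ (map_hw hw N), pmap_mk _ eN, hc]
    exact add_sub_cancel_left _ _
  have e2 : pmap (algebraMap N K) Q' - sm (algebraMap k K w) a (mk x y) =
      pmap (algebraMap N K) (Q' - sm (algebraMap k N w) a (mk ⟨x, hxN⟩ ⟨y, hyN⟩)) := by
    rw [map_sub, pmap_sm _ (map_hw hw N), pmap_mk _ eN]; rfl
  have key : ∀ (f : N) (g : k'), ρ f = algebraMap k' L g → algebraMap N K f ∈ M := fun f g h => by
    refine halg f f.2 ((isAlgebraic_algebraMap_iff (algebraMap K Ω).injective).1 ?_)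
    have : algebraMap K Ω f = g := congrArg Subtype.val h
    rw [this]
    exact mem_algebraicClosure_iff.1 g.2
  refine ⟨a, ?_, ?_⟩
  · rw [e2, X_pmap]
    exact key _ c.X (by rw [← X_pmap, e1, X_pmap])
  · rw [e2, Y_pmap]
    exact key _ c.Y (by rw [← Y_pmap, e1, Y_pmap])

theorem mw3_stmt (h1 : MW1Stmt) (hF : Frac1Stmt) (hI : IndepStmt) : MW3Stmt := by
  intro k K _ _ _ _ _ _ n w x y hw hg Q
  have key : ∀ (s : Finset (Fin n)) (Q : E K), Q.X ∈ fld k x y s → Q.Y ∈ fld k x y s →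
      ∃ (l : Vec n) (c : E k), Q = lin (algebraMap k K w) l (zz x y) + pmap (algebraMap k K) c := by
    intro s
    induction s using Finset.induction_on with
    | empty =>
      intro Q hX hY
      rw [Finset.coe_empty, fld_empty, IntermediateField.mem_bot] at hX hY
      obtain ⟨a, ha⟩ := hX
      obtain ⟨b, hb⟩ := hY
      obtain ⟨c, hc⟩ := exists_const ha hb
      exact ⟨0, c, by simp [lin, sm_zero, hc]⟩
    | insert j s hj ih =>
      intro Q hX hY
      rw [Finset.coe_insert, fld_insert hg fun _ => true] at hX hY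
      obtain ⟨a, h2, h3⟩ := MW.step h1 hF hI hw (fld k x y s) (hg.trans_y (by simpa using hj))
        (hg.eq j) hX hY
      obtain ⟨l, c, hc⟩ := ih _ h2 h3
      refine ⟨l + Pi.single j a, c, ?_⟩
      rw [lin_add, lin_single, add_right_comm, ← hc]
      exact (sub_add_cancel _ _).symm
  refine key Finset.univ Q ?_ ?_ <;> rw [Finset.coe_univ, fld_univ hg] <;> trivial

end Pool.Agent.MP_20d318_ag.AG

end MrgPart1

-- ======== part 2: formerly Pool.Agent.MP_20d318_ag.AG.Step1
section MrgPart2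

/-! Module STEP1: one cubic Kummer step `v ^ 3 = gg b u`. -/

set_option autoImplicit false
set_option linter.style.haveILetI false

namespace Pool.Agent.MP_20d318_ag.AG

open Polynomial

namespace Step1

theorem hom_gg {C D : Type} [CommRing C] [CommRing D] (e : C →+* D) (b : Bool) (u : C) :
    e (gg b u) = gg b (e u) := by
  cases b <;> simp [gg]

theorem aeval_gg {R C : Type} [CommRing R] [CommRing C] [Algebra R C] (b : Bool) (u : C) :
    aeval u (gg b (X : R[X])) = gg b u := by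
  cases b <;> simp [gg]

/-- Evaluation of a triple. -/
def tri {P C : Type} [CommRing P] [CommRing C] (e : P →+* C) (v : C) (A : P × P × P) : C :=
  e A.1 + e A.2.1 * v + e A.2.2 * v ^ 2

/-- Product of triples. -/
def tmul {P : Type} [CommRing P] (g : P) (A B : P × P × P) : P × P × P :=
  (A.1 * B.1 + g * (A.2.1 * B.2.2 + A.2.2 * B.2.1),
    A.1 * B.2.1 + A.2.1 * B.1 + g * (A.2.2 * B.2.2),
    A.1 * B.2.2 + A.2.1 * B.2.1 + A.2.2 * B.1)

section

variable {P C : Type} [CommRing P] [CommRing C] (e : P →+* C) {v : C} {g : P}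

theorem tri_mul (h : v ^ 3 = e g) (A B : P × P × P) :
    tri e v (tmul g A B) = tri e v A * tri e v B := by
  simp only [tri, tmul, map_add, map_mul, ← h]; ring

theorem tri_add (A B : P × P × P) : tri e v (A + B) = tri e v A + tri e v B := by
  simp only [tri, Prod.fst_add, Prod.snd_add, map_add]; ring

theorem tri_sub (A B : P × P × P) : tri e v (A - B) = tri e v A - tri e v B := by
  simp only [tri, Prod.fst_sub, Prod.snd_sub, map_sub]; ring

theorem tri_const (a : P) : tri e v (a, 0, 0) = e a := by simp [tri]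

theorem tri_v : tri e v (0, 1, 0) = v := by simp [tri]

end

/-- The norm form. -/
def nf {P : Type} [CommRing P] (g A0 A1 A2 : P) : P :=
  A0 ^ 3 + A1 ^ 3 * g + A2 ^ 3 * g ^ 2 - 3 * A0 * A1 * A2 * g

theorem nf_eq {P C : Type} [CommRing P] [CommRing C] (e : P →+* C) {v : C} {g : P}
    (h : v ^ 3 = e g) (A0 A1 A2 : P) : e (nf g A0 A1 A2) = tri e v (A0, A1, A2) *
      tri e v (A0 ^ 2 - A1 * A2 * g, A2 ^ 2 * g - A0 * A1, A1 ^ 2 - A0 * A2) := by
  simp only [nf, tri, map_add, map_mul, map_sub, map_pow, map_ofNat, ← h]; ring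

section

variable {R : Type} [CommRing R] [IsDomain R] [CharZero R]

omit [IsDomain R] in
theorem gg_fac (b : Bool) : ∃ g1 : R[X], gg b (X : R[X]) = (X - C 1) * g1 ∧ ¬ (X - C 1) ∣ g1 := by
  cases b
  · refine ⟨-(X * (X + 1)), by simp [gg]; ring, ?_⟩
    rw [dvd_iff_isRoot]
    simp only [IsRoot.def, eval_neg, eval_mul, eval_X, eval_add, eval_one, neg_eq_zero]
    norm_num
  · refine ⟨X + 1, by simp [gg]; ring, ?_⟩
    rw [dvd_iff_isRoot]
    simp only [IsRoot.def, eval_X, eval_add, eval_one]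
    norm_num

theorem nf_dvd (b : Bool) {A0 A1 A2 : R[X]} (h : nf (gg b X) A0 A1 A2 = 0) :
    (X - C 1) ∣ A0 ∧ (X - C 1) ∣ A1 ∧ (X - C 1) ∣ A2 := by
  obtain ⟨g1, hg, hg1⟩ := gg_fac (R := R) b
  have hp : Prime (X - C 1 : R[X]) := prime_X_sub_C 1
  rw [hg, nf] at h
  generalize (X - C 1 : R[X]) = p at h hg1 hp
  have h0 : p ∣ A0 := hp.dvd_of_dvd_pow (n := 3)
    ⟨-(A1 ^ 3 * g1 + A2 ^ 3 * p * g1 ^ 2 - 3 * A0 * A1 * A2 * g1), by linear_combination h⟩
  obtain ⟨B0, rfl⟩ := h0
  have h' : p ^ 2 * B0 ^ 3 + A1 ^ 3 * g1 + A2 ^ 3 * p * g1 ^ 2 - 3 * p * B0 * A1 * A2 * g1 = 0 :=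
    mul_left_cancel₀ hp.ne_zero (by linear_combination h)
  have h1 : p ∣ A1 := hp.dvd_of_dvd_pow (n := 3) ((hp.dvd_or_dvd (b := g1)
    ⟨-(p * B0 ^ 3 + A2 ^ 3 * g1 ^ 2 - 3 * B0 * A1 * A2 * g1), by
      linear_combination h'⟩).resolve_right hg1)
  obtain ⟨B1, rfl⟩ := h1
  have h'' : p * B0 ^ 3 + p ^ 2 * B1 ^ 3 * g1 + A2 ^ 3 * g1 ^ 2 - 3 * p * B0 * B1 * A2 * g1 = 0 :=
    mul_left_cancel₀ hp.ne_zero (by linear_combination h')
  have h2 : p ∣ A2 := hp.dvd_of_dvd_pow (n := 3) ((hp.dvd_or_dvd (b := g1 ^ 2)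
    ⟨-(B0 ^ 3 + p * B1 ^ 3 * g1 - 3 * B0 * B1 * A2 * g1), by
      linear_combination h''⟩).resolve_right fun h3 => hg1 (hp.dvd_of_dvd_pow h3))
  exact ⟨dvd_mul_right _ _, dvd_mul_right _ _, h2⟩

theorem nf_pow_dvd (b : Bool) (n : ℕ) : ∀ A0 A1 A2 : R[X], nf (gg b X) A0 A1 A2 = 0 →
    (X - C 1) ^ n ∣ A0 ∧ (X - C 1) ^ n ∣ A1 ∧ (X - C 1) ^ n ∣ A2 := by
  induction n with
  | zero => simp
  | succ n ih =>
    intro A0 A1 A2 h
    obtain ⟨⟨B0, rfl⟩, ⟨B1, rfl⟩, ⟨B2, rfl⟩⟩ := nf_dvd b h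
    have hp : (X - C 1 : R[X]) ≠ 0 := X_sub_C_ne_zero 1
    have h' : nf (gg b X) B0 B1 B2 = 0 := mul_left_cancel₀ (pow_ne_zero 3 hp) (by
      rw [mul_zero, ← h]; simp only [nf]; ring)
    obtain ⟨h0, h1, h2⟩ := ih B0 B1 B2 h'
    rw [pow_succ']
    exact ⟨mul_dvd_mul_left _ h0, mul_dvd_mul_left _ h1, mul_dvd_mul_left _ h2⟩

omit [CharZero R] in
theorem eq_zero_of_pow_dvd {A : R[X]} (h : ∀ n : ℕ, (X - C 1) ^ n ∣ A) : A = 0 := by
  by_contra h0
  have := natDegree_le_of_dvd (h (A.natDegree + 1)) h0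
  rw [(monic_X_sub_C 1).natDegree_pow, natDegree_X_sub_C] at this
  omega

theorem nf_eq_zero (b : Bool) {A0 A1 A2 : R[X]} (h : nf (gg b X) A0 A1 A2 = 0) :
    A0 = 0 ∧ A1 = 0 ∧ A2 = 0 :=
  ⟨eq_zero_of_pow_dvd fun n => (nf_pow_dvd b n _ _ _ h).1,
    eq_zero_of_pow_dvd fun n => (nf_pow_dvd b n _ _ _ h).2.1,
    eq_zero_of_pow_dvd fun n => (nf_pow_dvd b n _ _ _ h).2.2⟩

theorem gg_dvd (b : Bool) {H J : R[X]} (h : H ^ 3 = J * gg b X) : gg b X ∣ H := by
  have hr : ∀ a : R, gg b a = 0 → H.eval a = 0 := fun a ha => by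
    have h1 := congrArg (evalRingHom a) h
    rw [map_mul, hom_gg, map_pow] at h1
    simp only [coe_evalRingHom, eval_X, ha, mul_zero] at h1
    exact pow_eq_zero_iff (by norm_num) |>.1 h1
  have h1 : H.eval 1 = 0 := hr 1 (by cases b <;> simp [gg])
  have h2 : H.eval (-1) = 0 := hr (-1) (by cases b <;> norm_num [gg])
  obtain ⟨H1, rfl⟩ := dvd_iff_isRoot.2 h1
  have h3 : H1.eval (-1) = 0 := by
    simp only [eval_mul, eval_sub, eval_X, eval_C, mul_eq_zero] at h2
    exact h2.resolve_left (by norm_num)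
  obtain ⟨H2, rfl⟩ := dvd_iff_isRoot.2 h3
  cases b
  · have h4 := hr 0 (by simp [gg])
    have h5 : H2.eval 0 = 0 := by simpa using h4
    obtain ⟨H3, rfl⟩ := dvd_iff_isRoot.2 h5
    exact ⟨-H3, by simp [gg]; ring⟩
  · exact ⟨H2, by simp [gg]; ring⟩

theorem gg_ne (b : Bool) : gg b (X : R[X]) ≠ 0 := fun h => by
  obtain ⟨g1, hg, hg1⟩ := gg_fac (R := R) b
  rw [h, eq_comm, mul_eq_zero] at hg
  rcases hg with hg | hg
  · exact X_sub_C_ne_zero 1 hg
  · exact hg1 (hg ▸ dvd_zero _)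

end

end Step1

open Step1

theorem indep_stmt : IndepStmt := by
  intro R C _ _ _ _ _ b u v hu hv A0 A1 A2 h
  have h1 := nf_eq (aeval u : R[X] →ₐ[R] C).toRingHom (v := v) (g := gg b X)
    (by simpa [aeval_gg] using hv) A0 A1 A2
  have h2 : tri (aeval u : R[X] →ₐ[R] C).toRingHom v (A0, A1, A2) = 0 := h
  rw [h2, zero_mul] at h1
  exact nf_eq_zero b ((injective_iff_map_eq_zero _).1 (transcendental_iff_injective.1 hu) _ h1)

namespace Step1

variable {k K : Type} [Field k] [Field K] [Algebra k K]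

theorem rep (V : Subalgebra k K) (b : Bool) (u v : K) (hv : v ^ 3 = gg b u) (f : K)
    (hf : f ∈ Algebra.adjoin k ((V : Set K) ∪ {u, v})) :
    ∃ A : V[X] × V[X] × V[X], f = tri (aeval u : V[X] →ₐ[V] K).toRingHom v A := by
  have hv' : v ^ 3 = (aeval u : V[X] →ₐ[V] K).toRingHom (gg b X) := by simpa [aeval_gg] using hv
  induction hf using Algebra.adjoin_induction with
  | mem x hx =>
    rcases hx with hx | rfl | rfl
    · exact ⟨(C ⟨x, hx⟩, 0, 0), by rw [tri_const]; simp⟩
    · exact ⟨(X, 0, 0), by rw [tri_const]; simp⟩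
    · exact ⟨(0, 1, 0), (tri_v _).symm⟩
  | algebraMap c => exact ⟨(C (algebraMap k V c), 0, 0), by rw [tri_const]; simp⟩
  | add x y _ _ hx hy =>
    obtain ⟨A, rfl⟩ := hx
    obtain ⟨B, rfl⟩ := hy
    exact ⟨A + B, (tri_add _ _ _).symm⟩
  | mul x y _ _ hx hy =>
    obtain ⟨A, rfl⟩ := hx
    obtain ⟨B, rfl⟩ := hy
    exact ⟨tmul _ A B, (tri_mul _ hv' _ _).symm⟩

theorem aeval_mem (V : Subalgebra k K) (u v : K) (A : V[X]) :
    aeval u A ∈ Algebra.adjoin k ((V : Set K) ∪ {u, v}) := by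
  rw [aeval_eq_sum_range]
  refine Subalgebra.sum_mem _ fun i _ => ?_
  rw [Algebra.smul_def]
  have hu : u ∈ Algebra.adjoin k ((V : Set K) ∪ {u, v}) :=
    Algebra.subset_adjoin (Or.inr (Or.inl rfl))
  exact Subalgebra.mul_mem _ (Algebra.subset_adjoin (Or.inl (A.coeff i).2))
    (Subalgebra.pow_mem _ hu _)

theorem tri_mem (V : Subalgebra k K) (u v : K) (A : V[X] × V[X] × V[X]) :
    tri (aeval u : V[X] →ₐ[V] K).toRingHom v A ∈ Algebra.adjoin k ((V : Set K) ∪ {u, v}) := by
  have hv : v ∈ Algebra.adjoin k ((V : Set K) ∪ {u, v}) :=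
    Algebra.subset_adjoin (Or.inr (Or.inr rfl))
  exact Subalgebra.add_mem _ (Subalgebra.add_mem _ (aeval_mem V u v _)
    (Subalgebra.mul_mem _ (aeval_mem V u v _) hv))
    (Subalgebra.mul_mem _ (aeval_mem V u v _) (Subalgebra.pow_mem _ hv _))

/-- The homomorphism, with its values on all triples. -/
theorem hom {C : Type} [CharZero k] [CommRing C] [Algebra k C] (V : Subalgebra k K) (b : Bool)
    (u v : K) (φ : V →ₐ[k] C) (u' v' : C) (hu : Transcendental V u) (hv : v ^ 3 = gg b u)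
    (hv' : v' ^ 3 = gg b u') : ∃ ψ : Algebra.adjoin k ((V : Set K) ∪ {u, v}) →ₐ[k] C,
      ∀ A h, ψ ⟨tri (aeval u : V[X] →ₐ[V] K).toRingHom v A, h⟩ =
        tri (eval₂RingHom φ.toRingHom u') v' A := by
  haveI : CharZero V := charZero_of_injective_algebraMap (algebraMap k V).injective
  set e := (aeval u : V[X] →ₐ[V] K).toRingHom with he
  set e' := eval₂RingHom φ.toRingHom u' with he'
  have h1 : v ^ 3 = e (gg b X) := by simpa [he, aeval_gg] using hv
  have h2 : v' ^ 3 = e' (gg b X) := by rw [hom_gg, hv']; simp [he']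
  choose t ht using fun f : Algebra.adjoin k ((V : Set K) ∪ {u, v}) => rep V b u v hv f.1 f.2
  have key : ∀ (f : Algebra.adjoin k ((V : Set K) ∪ {u, v})) A, (f : K) = tri e v A → t f = A := by
    intro f A hA
    have h3 : tri e v (t f - A) = 0 := by rw [tri_sub, ← hA, ← ht f, sub_self]
    obtain ⟨h4, h5, h6⟩ := indep_stmt V K b u v hu hv _ _ _ h3
    exact sub_eq_zero.1 (Prod.ext h4 (Prod.ext h5 h6))
  refine ⟨{ toFun := fun f => tri e' v' (t f)
            map_one' := by rw [key 1 (1, 0, 0) (by rw [tri_const]; simp), tri_const, map_one]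
            map_zero' := by rw [key 0 (0, 0, 0) (by rw [tri_const]; simp), tri_const, map_zero]
            map_mul' := fun f g => by
              rw [key (f * g) (tmul (gg b X) (t f) (t g))
                (by rw [tri_mul _ h1, ← ht f, ← ht g]; rfl), tri_mul _ h2]
            map_add' := fun f g => by
              rw [key (f + g) (t f + t g) (by rw [tri_add, ← ht f, ← ht g]; rfl), tri_add]
            commutes' := fun c => by
              rw [key _ (Polynomial.C (algebraMap k V c), 0, 0)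
                (by rw [tri_const]; simp [he]), tri_const]
              simp [he'] }, fun A h => ?_⟩
  change tri e' v' (t _) = _
  rw [key _ A rfl]

end Step1

theorem rep_stmt : RepStmt := by
  intro k K _ _ _ V b u v hv f hf
  obtain ⟨A, hA⟩ := rep V b u v hv f hf
  exact ⟨A.1, A.2.1, A.2.2, hA⟩

theorem hom1_stmt : Hom1Stmt := by
  intro k K C _ _ _ _ _ _ V b u v φ u' v' hu hv hv'
  obtain ⟨ψ, hψ⟩ := hom V b u v φ u' v' hu hv hv'
  refine ⟨ψ, fun a h => ?_, fun h => ?_, fun h => ?_⟩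
  · have := hψ (Polynomial.C a, 0, 0) (tri_mem _ _ _ _)
    simp only [tri_const] at this
    simpa using this
  · have := hψ (X, 0, 0) (tri_mem _ _ _ _)
    simp only [tri_const] at this
    simpa using this
  · have := hψ (0, 1, 0) (tri_mem _ _ _ _)
    simpa only [tri_v] using this

namespace Step1

variable {k K : Type} [Field k] [Field K] [Algebra k K]

theorem frac [CharZero k] (M : IntermediateField k K) (b : Bool) (u v : K)
    (hu : Transcendental M u) (hv : v ^ 3 = gg b u) (f : K)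
    (hf : f ∈ IntermediateField.adjoin k ((M : Set K) ∪ {u, v})) :
    ∃ (A : M[X] × M[X] × M[X]) (d : M[X]), d ≠ 0 ∧
      f * aeval u d = tri (aeval u : M[X] →ₐ[M] K).toRingHom v A := by
  haveI : CharZero M := charZero_of_injective_algebraMap (algebraMap k M).injective
  set e := (aeval u : M[X] →ₐ[M] K).toRingHom with he
  have hv' : v ^ 3 = e (gg b X) := by simpa [he, aeval_gg] using hv
  have hee : ∀ d : M[X], aeval u d = e d := fun _ => rfl
  induction hf using IntermediateField.adjoin_induction with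
  | mem x hx =>
    rcases hx with hx | rfl | rfl
    · exact ⟨(C ⟨x, hx⟩, 0, 0), 1, one_ne_zero, by rw [tri_const]; simp [he]⟩
    · exact ⟨(X, 0, 0), 1, one_ne_zero, by rw [tri_const]; simp [he]⟩
    · exact ⟨(0, 1, 0), 1, one_ne_zero, by rw [tri_v]; simp⟩
  | algebraMap c =>
    exact ⟨(C (algebraMap k M c), 0, 0), 1, one_ne_zero, by rw [tri_const]; simp [he]⟩
  | add x y _ _ hx hy =>
    obtain ⟨A, d, hd, hA⟩ := hx
    obtain ⟨B, d', hd', hB⟩ := hy
    refine ⟨tmul (gg b X) (d', 0, 0) A + tmul (gg b X) (d, 0, 0) B, d * d', mul_ne_zero hd hd', ?_⟩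
    rw [tri_add, tri_mul _ hv', tri_mul _ hv', tri_const, tri_const, ← hA, ← hB, map_mul, hee, hee]
    ring
  | inv x _ hx =>
    obtain ⟨⟨A0, A1, A2⟩, d, hd, hA⟩ := hx
    by_cases hx0 : x = 0
    · exact ⟨(0, 0, 0), 1, one_ne_zero, by rw [tri_const]; simp [hx0]⟩
    refine ⟨tmul (gg b X) (d, 0, 0) (A0 ^ 2 - A1 * A2 * gg b X, A2 ^ 2 * gg b X - A0 * A1,
      A1 ^ 2 - A0 * A2), nf (gg b X) A0 A1 A2, fun h0 => ?_, ?_⟩
    · obtain ⟨rfl, rfl, rfl⟩ := nf_eq_zero b h0
      rw [tri_const, map_zero, mul_eq_zero] at hA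
      exact hd ((injective_iff_map_eq_zero _).1 (transcendental_iff_injective.1 hu) _
        (hA.resolve_left hx0))
    · rw [hee, nf_eq e hv', ← hA, tri_mul _ hv', tri_const, hee, ← mul_assoc, ← mul_assoc,
        inv_mul_cancel₀ hx0, one_mul]
  | mul x y _ _ hx hy =>
    obtain ⟨A, d, hd, hA⟩ := hx
    obtain ⟨B, d', hd', hB⟩ := hy
    refine ⟨tmul (gg b X) A B, d * d', mul_ne_zero hd hd', ?_⟩
    rw [tri_mul _ hv', ← hA, ← hB, map_mul]
    ring

/-- Conjugates of integral elements are integral. -/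
theorem conj_int (S T : Subalgebra k K) (hST : S ≤ T) (τ : T →ₐ[k] K)
    (hτ : ∀ s : S, τ ⟨s, hST s.2⟩ ∈ S) (D : T) (hD : (D : K) ≠ 0) (hτD : τ D = D) (x : K)
    (hx : x * D ∈ T) (hint : IsIntegral S x) : IsIntegral S (τ ⟨x * D, hx⟩ / D) := by
  obtain ⟨P, hP, h0⟩ := hint
  let ι : S →+* T := (Subalgebra.inclusion hST).toRingHom
  let τS : S →+* S := (τ.toRingHom.comp ι).codRestrict S hτ
  have h1 : eval₂ (algebraMap T K) x (P.map ι) = 0 := by rw [eval₂_map]; exact h0
  have h2 := scaleRoots_eval₂_eq_zero (algebraMap T K) (s := D) h1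
  have h3 : eval (⟨x * D, hx⟩ : T) ((P.map ι).scaleRoots D) = 0 := by
    apply Subtype.val_injective
    have h4 := eval₂_hom (p := (P.map ι).scaleRoots D) (algebraMap T K) ⟨x * D, hx⟩
    rw [mul_comm] at h2
    exact h4.symm.trans h2
  have h4 := eval₂_hom (p := (P.map ι).scaleRoots D) τ.toRingHom ⟨x * D, hx⟩
  rw [h3, map_zero] at h4
  have h5 := scaleRoots_eval₂_mul (p := P.map ι) τ.toRingHom (τ ⟨x * D, hx⟩ / D) D
  have h6 : τ.toRingHom D = D := hτD
  rw [h6, mul_div_cancel₀ _ hD] at h5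
  have h7 : eval₂ τ.toRingHom (τ ⟨x * D, hx⟩ / D) (P.map ι) = 0 :=
    (mul_eq_zero.1 (h5.symm.trans h4)).resolve_left (pow_ne_zero _ hD)
  refine ⟨P.map τS, hP.map _, ?_⟩
  rw [eval₂_map] at h7 ⊢
  exact h7

/-- Clearing denominators. -/
theorem clear (M : IntermediateField k K) (V : Subalgebra k K)
    (hfr : ∀ f ∈ M, ∃ a ∈ V, ∃ d ∈ V, d ≠ 0 ∧ f = a / d) (u : K) (A : M[X]) :
    ∃ (c : V) (A' : V[X]), c ≠ 0 ∧ (c : K) * aeval u A = aeval u A' := by
  induction A using Polynomial.induction_on' with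
  | add p q hp hq =>
    obtain ⟨c, p', hc, hp⟩ := hp
    obtain ⟨d, q', hd, hq⟩ := hq
    refine ⟨c * d, C d * p' + C c * q', mul_ne_zero hc hd, ?_⟩
    simp only [map_add, map_mul, aeval_C, ← hp, ← hq, MulMemClass.coe_mul]
    change _ = (d : K) * _ + (c : K) * _
    ring
  | monomial n a =>
    obtain ⟨x, hx, d, hd, hd0, ha⟩ := hfr a a.2
    refine ⟨⟨d, hd⟩, monomial n ⟨x, hx⟩, fun h => hd0 (congrArg Subtype.val h), ?_⟩
    rw [aeval_monomial, aeval_monomial]
    change d * ((a : K) * _) = x * _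
    rw [ha]
    field_simp

end Step1

theorem frac1_stmt : Frac1Stmt := by
  intro k K _ _ _ _ M b u v hu hv f hf
  obtain ⟨A, d, hd, hA⟩ := frac M b u v hu hv f hf
  exact ⟨A.1, A.2.1, A.2.2, d, hd, hA⟩

theorem nrm1_stmt : Nrm1Stmt := by
  intro k K _ _ _ _ w M V b u v hw hVM hfr hnV hu hv f hf hint
  haveI : CharZero V := charZero_of_injective_algebraMap (algebraMap k V).injective
  haveI : CharZero K := charZero_of_injective_algebraMap (algebraMap k K).injective
  set S := Algebra.adjoin k ((V : Set K) ∪ {u, v}) with hS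
  set T := Algebra.adjoin k ((M.toSubalgebra : Set K) ∪ {u, v}) with hT
  have hST : S ≤ T := Algebra.adjoin_mono (Set.union_subset_union_left _ hVM)
  have hvS : v ∈ S := Algebra.subset_adjoin (Or.inr (Or.inr rfl))
  have huS : u ∈ S := Algebra.subset_adjoin (Or.inr (Or.inl rfl))
  -- the ring `V` is integrally closed
  letI : Algebra V M := (Subalgebra.inclusion hVM).toRingHom.toAlgebra
  haveI : IsScalarTower V M K := IsScalarTower.of_algebraMap_eq fun _ => rfl
  haveI : FaithfulSMul V M :=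
    (faithfulSMul_iff_algebraMap_injective V M).2 (Subalgebra.inclusion_injective hVM)
  haveI : IsFractionRing V M := IsFractionRing.of_field V M fun z => by
    obtain ⟨a, ha, d, hd, -, h⟩ := hfr z z.2
    exact ⟨⟨a, ha⟩, ⟨d, hd⟩, Subtype.ext h⟩
  haveI : IsIntegrallyClosed V := (isIntegrallyClosed_iff M).2 fun {x} hx =>
    ⟨⟨x, hnV x x.2 (hx.algebraMap (B := K))⟩, rfl⟩
  have huV : Transcendental V u := hu.restrictScalars (R := V) (FaithfulSMul.algebraMap_injective V M)
  have hinj : Function.Injective (aeval u : V[X] →ₐ[V] K) := transcendental_iff_injective.1 huV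
  have hinjM : Function.Injective (aeval u : M[X] →ₐ[M] K) := transcendental_iff_injective.1 hu
  -- the polynomial ring acts through `u`
  letI : Algebra V[X] K := (aeval u : V[X] →ₐ[V] K).toRingHom.toAlgebra
  have halg : ∀ A : V[X], algebraMap V[X] K A = aeval u A := fun _ => rfl
  letI : Algebra V[X] S := ((aeval u : V[X] →ₐ[V] K).toRingHom.codRestrict S
    (aeval_mem V u v)).toAlgebra
  haveI : IsScalarTower V[X] S K := IsScalarTower.of_algebraMap_eq fun _ => rfl
  have hvint : IsIntegral V[X] v := IsIntegral.of_pow (n := 3) (by norm_num) (by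
    rw [hv, ← aeval_gg (R := V), ← halg]; exact isIntegral_algebraMap)
  haveI : Algebra.IsIntegral V[X] S := ⟨fun s => by
    refine IsIntegral.tower_bot (B := K) Subtype.val_injective ?_
    obtain ⟨A, hA⟩ := rep V b u v hv s.1 s.2
    change IsIntegral V[X] (s : K)
    rw [hA]
    exact (isIntegral_algebraMap.add (isIntegral_algebraMap.mul hvint)).add
      (isIntegral_algebraMap.mul (hvint.pow 2))⟩
  have hIC : ∀ (r : K) (A B : M[X]), B ≠ 0 → r * aeval u B = aeval u A → IsIntegral S r →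
      ∃ H : V[X], r = aeval u H := by
    intro r A B hB hr hri
    obtain ⟨c, A', hc, hA'⟩ := clear M V hfr u A
    obtain ⟨d, B', hd, hB'⟩ := clear M V hfr u B
    have hB0 : aeval u B ≠ 0 := fun h => hB ((injective_iff_map_eq_zero _).1 hinjM _ h)
    have hc0 : (c : K) ≠ 0 := fun h => hc (Subtype.ext h)
    have hd0 : (d : K) ≠ 0 := fun h => hd (Subtype.ext h)
    let F := FractionRing V[X]
    let j : F →ₐ[V[X]] K := IsFractionRing.liftAlgHom (g := Algebra.ofId V[X] K) hinj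
    have hj : j (algebraMap V[X] F (C d * A') / algebraMap V[X] F (C c * B')) = r := by
      rw [map_div₀, j.commutes, j.commutes, halg, halg, map_mul, map_mul, ← hA', ← hB', aeval_C,
        aeval_C, ← hr]
      change (d : K) * _ / ((c : K) * _) = _
      field_simp
    have h1 : IsIntegral V[X] r := isIntegral_trans r hri
    rw [← hj, isIntegral_algHom_iff j j.toRingHom.injective] at h1
    obtain ⟨H, hH⟩ := (isIntegrallyClosed_iff F).1 inferInstance h1
    exact ⟨H, by rw [← hj, ← hH, j.commutes, halg]⟩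
  -- the conjugates
  obtain ⟨⟨A0, A1, A2⟩, d, hd, hA⟩ := frac M b u v hu hv f hf
  have hD0 : aeval u d ≠ 0 := fun h => hd ((injective_iff_map_eq_zero _).1 hinjM _ h)
  have hconj : ∀ z : k, z ^ 3 = 1 → IsIntegral S ((aeval u A0 + aeval u A1 * (algebraMap k K z * v)
      + aeval u A2 * (algebraMap k K z * v) ^ 2) / aeval u d) := by
    intro z hz
    obtain ⟨τ, hτ⟩ := hom M.toSubalgebra b u v M.toSubalgebra.val u (algebraMap k K z * v) hu hv
      (by rw [mul_pow, ← map_pow, hz, map_one, one_mul, hv])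
    have hmem : ∀ {a b : K}, a = b → b ∈ S → a ∈ S := fun e h => e ▸ h
    have hτS : ∀ s : S, τ ⟨s, hST s.2⟩ ∈ S := by
      rintro ⟨s, hs⟩
      induction hs using Algebra.adjoin_induction with
      | mem x hx =>
        rcases hx with hx | rfl | rfl
        · have := hτ (C ⟨x, hVM hx⟩, 0, 0) (tri_mem _ _ _ _)
          simp only [tri_const] at this
          have h2 : τ ⟨x, hST (Algebra.subset_adjoin (Or.inl hx))⟩ = x := by
            simp at this
            exact this
          exact hmem h2 (Algebra.subset_adjoin (Or.inl hx))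
        · have := hτ (X, 0, 0) (tri_mem _ _ _ _)
          simp only [tri_const] at this
          have h2 : τ ⟨x, hST huS⟩ = x := by simpa using this
          exact hmem h2 huS
        · have := hτ (0, 1, 0) (tri_mem _ _ _ _)
          simp only [tri_v] at this
          exact hmem this (S.mul_mem (S.algebraMap_mem z) hvS)
      | algebraMap c => exact hmem (τ.commutes c) (S.algebraMap_mem c)
      | add x y hx hy ihx ihy =>
        exact hmem (map_add τ ⟨x, hST hx⟩ ⟨y, hST hy⟩) (S.add_mem ihx ihy)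
      | mul x y hx hy ihx ihy =>
        exact hmem (map_mul τ ⟨x, hST hx⟩ ⟨y, hST hy⟩) (S.mul_mem ihx ihy)
    have hDT : aeval u d ∈ T := aeval_mem M.toSubalgebra u v d
    have hτD : τ ⟨aeval u d, hDT⟩ = aeval u d := by
      have := hτ (d, 0, 0) (tri_mem _ _ _ _)
      simp only [tri_const] at this
      exact this
    have hfT : f * aeval u d ∈ T := hA ▸ tri_mem M.toSubalgebra u v (A0, A1, A2)
    have h1 := conj_int S T hST τ hτS ⟨_, hDT⟩ hD0 hτD f hfT hint
    have h2 : τ ⟨f * aeval u d, hfT⟩ = aeval u A0 + aeval u A1 * (algebraMap k K z * v)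
        + aeval u A2 * (algebraMap k K z * v) ^ 2 :=
      (congrArg τ (Subtype.ext hA)).trans (hτ (A0, A1, A2) (tri_mem _ _ _ _))
    rwa [h2] at h1
  have hw3 : w ^ 3 = 1 := by linear_combination (w - 1) * hw
  have hwK : algebraMap k K w ^ 2 + algebraMap k K w + 1 = 0 := by
    simpa using congrArg (algebraMap k K) hw
  have hf0 := hconj 1 (one_pow 3)
  have hf1 := hconj w hw3
  have hf2 := hconj (w ^ 2) (by rw [← pow_mul, mul_comm, pow_mul, hw3, one_pow])
  rw [map_one] at hf0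
  rw [map_pow] at hf2
  have hcS : ∀ c : k, IsIntegral S (algebraMap k K c) := fun c =>
    isIntegral_algebraMap (x := (⟨_, S.algebraMap_mem c⟩ : S))
  have hvI : IsIntegral S v := isIntegral_algebraMap (x := (⟨v, hvS⟩ : S))
  have h3 : algebraMap k K 3⁻¹ = 3⁻¹ := by rw [map_inv₀, map_ofNat]
  generalize hω : algebraMap k K w = ω at hf1 hf2 hwK
  have hωI : IsIntegral S ω := hω ▸ hcS w
  have h3I : IsIntegral S (3⁻¹ : K) := h3 ▸ hcS _
  have hcast : ∀ {a b : K}, IsIntegral S a → b = a → IsIntegral S b := fun h e => e ▸ h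
  have ha0 : IsIntegral S (aeval u A0 / aeval u d) := by
    refine hcast (h3I.mul ((hf0.add hf1).add hf2)) ?_
    field_simp
    linear_combination (-(aeval u A1 * v) - aeval u A2 * v ^ 2 * (ω ^ 2 - ω + 1)) * hwK
  have ha1 : IsIntegral S (aeval u A1 / aeval u d * v) := by
    refine hcast (h3I.mul ((hf0.add ((hωI.pow 2).mul hf1)).add (hωI.mul hf2))) ?_
    field_simp
    linear_combination (-(aeval u A0) - 2 * aeval u A1 * v * (ω - 1)
      - aeval u A2 * v ^ 2 * (ω ^ 3 - ω + 1)) * hwK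
  have ha2 : IsIntegral S (aeval u A2 / aeval u d * v ^ 2) := by
    refine hcast (h3I.mul ((hf0.add (hωI.mul hf1)).add ((hωI.pow 2).mul hf2))) ?_
    field_simp
    linear_combination (-(aeval u A0) - aeval u A1 * v * (ω ^ 2 - ω + 1)
      - aeval u A2 * v ^ 2 * (ω - 1) * (ω ^ 3 + 2)) * hwK
  have hgM : aeval u (gg b (X : M[X])) = v ^ 3 := by rw [aeval_gg, hv]
  have hgV : aeval u (gg b (X : V[X])) = v ^ 3 := by rw [aeval_gg, hv]
  have hv0 : v ^ 3 ≠ 0 := fun h =>
    gg_ne (R := V) b ((injective_iff_map_eq_zero _).1 hinj _ (hgV.trans h))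
  have hfin : ∀ A : M[X], IsIntegral S (aeval u A / aeval u d * v ^ 3) →
      IsIntegral S ((aeval u A / aeval u d) ^ 3 * v ^ 6) → aeval u A / aeval u d ∈ S := by
    intro A h1 h2
    obtain ⟨H, hH⟩ := hIC _ (A * gg b X) d hd (by rw [map_mul, hgM]; field_simp) h1
    obtain ⟨J, hJ⟩ := hIC _ (A ^ 3 * gg b X ^ 2) (d ^ 3) (pow_ne_zero _ hd)
      (by rw [map_mul, map_pow, map_pow, map_pow, hgM]; field_simp) h2
    obtain ⟨H', hH'⟩ := gg_dvd b (H := H) (J := J) (hinj (by
      rw [map_pow, map_mul, ← hH, ← hJ, hgV]; ring))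
    rw [hH', map_mul, hgV, mul_comm] at hH
    rw [mul_left_cancel₀ hv0 hH]
    exact aeval_mem V u v H'
  have hm0 : aeval u A0 / aeval u d ∈ S := by
    obtain ⟨H, hH⟩ := hIC _ A0 d hd (div_mul_cancel₀ _ hD0) ha0
    rw [hH]
    exact aeval_mem V u v H
  have hm1 : aeval u A1 / aeval u d ∈ S :=
    hfin A1 (hcast (ha1.mul (hvI.pow 2)) (by ring)) (hcast ((ha1.pow 3).mul (hvI.pow 3)) (by ring))
  have hm2 : aeval u A2 / aeval u d ∈ S :=
    hfin A2 (hcast (ha2.mul hvI) (by ring)) (hcast (ha2.pow 3) (by ring))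
  have hfe : f = aeval u A0 / aeval u d + aeval u A1 / aeval u d * v
      + aeval u A2 / aeval u d * v ^ 2 := by
    have h1 : f * aeval u d = aeval u A0 + aeval u A1 * v + aeval u A2 * v ^ 2 := hA
    field_simp
    linear_combination h1
  rw [hfe]
  exact S.add_mem (S.add_mem hm0 (S.mul_mem hm1 hvS)) (S.mul_mem hm2 (S.pow_mem hvS 2))

end Pool.Agent.MP_20d318_ag.AG

end MrgPart2

-- ======== part 3: formerly Pool.Agent.MP_20d318_ag.AG.StepN
section MrgPart3

/-! Module STEPN: the product of the curves, by induction on the number of factors. -/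

set_option autoImplicit false
set_option linter.style.haveILetI false

namespace Pool.Agent.MP_20d318_ag.AG

open Pool.Agent.MP_79c67d_ag Polynomial

theorem hom_stmt : HomStmt := Sch.homN

theorem fieldHom_stmt : FieldHomStmt := Sch.fieldHom

theorem nrm_stmt : NrmStmt := by
  intro k K ι _ _ _ _ _ w x y c hw h
  have key : ∀ s : Set ι, s.Finite → ∀ f ∈ fld k x y s, IsIntegral (chartOn k x y c s) f →
      f ∈ chartOn k x y c s := by
    intro s hs
    induction s, hs using Set.Finite.induction_on with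
    | empty =>
      intro f hf _
      rw [fld_empty] at hf
      obtain ⟨a, rfl⟩ := IntermediateField.mem_bot.1 hf
      exact Subalgebra.algebraMap_mem _ a
    | @insert j s hj _ ih =>
      rw [fld_insert h c, chartOn_insert]
      exact nrm1_stmt k K w (fld k x y s) (chartOn k x y c s) (c j) _ _ hw (chartOn_le_fld c s)
        (frac_on h c s) ih (h.trans c hj) (h.cv_cube c j)
  have := key Set.univ Set.finite_univ
  rw [chartOn_univ, fld_univ h] at this
  exact fun f hf => this f trivial hf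

namespace StepN

variable {k K : Type} [Field k] [Field K] [Algebra k K]

theorem isU_inf {O : Subalgebra k K} {M : IntermediateField k K} {a : K} :
    IsU (O ⊓ M.toSubalgebra) a ↔ IsU O a ∧ a ∈ M :=
  ⟨fun h => ⟨⟨h.1, h.2.1.1, h.2.2.1⟩, h.2.1.2⟩,
    fun h => ⟨h.1.1, ⟨h.1.2.1, h.2⟩, h.1.2.2, M.inv_mem h.2⟩⟩

theorem mx_inf {O : Subalgebra k K} {M : IntermediateField k K} {a : K} :
    a ∈ mx (O ⊓ M.toSubalgebra) ↔ a ∈ mx O ∧ a ∈ M :=
  ⟨fun h => ⟨⟨h.1.1, fun h' => h.2 (isU_inf.2 ⟨h', h.1.2⟩)⟩, h.1.2⟩,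
    fun h => ⟨⟨h.1.1, h.2⟩, fun h' => h.1.2 (isU_inf.1 h').1⟩⟩

theorem local_inf {O : Subalgebra k K} (hO : IsLocalRing O) (M : IntermediateField k K) :
    IsLocalRing (O ⊓ M.toSubalgebra : Subalgebra k K) :=
  isLocalRing_of fun _ ha _ hb => mx_inf.2 ⟨mx_add hO (mx_inf.1 ha).1 (mx_inf.1 hb).1,
    M.add_mem (mx_inf.1 ha).2 (mx_inf.1 hb).2⟩

theorem aeval_mx {V W : Subalgebra k K} (hW : IsLocalRing W) {u : K} (hu : u ∈ W) {A : V[X]}
    (hA : ∀ n, (A.coeff n : K) ∈ mx W) : aeval u A ∈ mx W := by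
  rw [aeval_eq_sum_range]
  exact mx_sum hW fun i _ => by
    rw [Algebra.smul_def]; exact mx_mul_right (hA i) (W.pow_mem hu i)

theorem tri_mx {V W : Subalgebra k K} (hW : IsLocalRing W) {u v : K} (hu : u ∈ W) (hv : v ∈ W)
    {A0 A1 A2 : V[X]} (h0 : ∀ n, (A0.coeff n : K) ∈ mx W) (h1 : ∀ n, (A1.coeff n : K) ∈ mx W)
    (h2 : ∀ n, (A2.coeff n : K) ∈ mx W) :
    aeval u A0 + aeval u A1 * v + aeval u A2 * v ^ 2 ∈ mx W :=
  mx_add hW (mx_add hW (aeval_mx hW hu h0) (mx_mul_right (aeval_mx hW hu h1) hv))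
    (mx_mul_right (aeval_mx hW hu h2) (W.pow_mem hv 2))

theorem trans_of_le {V : Subalgebra k K} {M : IntermediateField k K} (hVM : V ≤ M.toSubalgebra)
    {u : K} (hu : Transcendental M u) : Transcendental V u := by
  letI : Algebra V M := (Subalgebra.inclusion hVM).toRingHom.toAlgebra
  haveI : IsScalarTower V M K := IsScalarTower.of_algebraMap_eq fun _ => rfl
  exact hu.restrictScalars (Subalgebra.inclusion_injective hVM)

/-- One step of the restriction of points. -/
theorem restr1 [CharZero k] {V O : Subalgebra k K} {M : IntermediateField k K}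
    (hVM : V ≤ M.toSubalgebra) {b : Bool} {u v : K} (hu : Transcendental M u)
    (hv : v ^ 3 = gg b u) (hO : O ∈ Pts (Algebra.adjoin k ((V : Set K) ∪ {u, v}))) :
    O ⊓ M.toSubalgebra ∈ Pts V := by
  haveI : CharZero M := charZero_of_injective_algebraMap (algebraMap k M).injective
  letI : Algebra V M := (Subalgebra.inclusion hVM).toRingHom.toAlgebra
  haveI : IsScalarTower V M K := IsScalarTower.of_algebraMap_eq fun _ => rfl
  have hVO : V ≤ O := fun a ha => hO.2.1 (Algebra.subset_adjoin (Or.inl ha))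
  have huO : u ∈ O := hO.2.1 (Algebra.subset_adjoin (Or.inr (Or.inl rfl)))
  have hvO : v ∈ O := hO.2.1 (Algebra.subset_adjoin (Or.inr (Or.inr rfl)))
  refine ⟨local_inf hO.1 M, le_inf hVO hVM, fun f hf => ?_⟩
  obtain ⟨a, ha, d, hd, hdU, e⟩ := hO.2.2 f hf.1
  obtain ⟨A0, A1, A2, rfl⟩ := rep_stmt k K V b u v hv a ha
  obtain ⟨B0, B1, B2, rfl⟩ := rep_stmt k K V b u v hv d hd
  have e' := (eq_div_iff hdU.1).1 e
  let f' : M := ⟨f, hf.2⟩
  let T : V[X] → V[X] → M[X] := fun A B =>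
    C f' * B.map (algebraMap V M) - A.map (algebraMap V M)
  have hT : ∀ A B, aeval u (T A B) = f * aeval u B - aeval u A := fun A B => by
    simp only [T, map_sub, map_mul, aeval_C, aeval_map_algebraMap]; rfl
  obtain ⟨t0, t1, t2⟩ := indep_stmt M K b u v hu hv (T A0 B0) (T A1 B1) (T A2 B2)
    (by rw [hT, hT, hT]; linear_combination e')
  have fin : ∀ A B : V[X], T A B = 0 → ∀ n, (B.coeff n : K) ∉ mx O →
      ∃ a ∈ V, ∃ b ∈ V, IsU (O ⊓ M.toSubalgebra) b ∧ f = a / b := fun A B hAB n hn => by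
    have hU := isU_of_not_mx (hVO (B.coeff n).2) hn
    refine ⟨A.coeff n, (A.coeff n).2, B.coeff n, (B.coeff n).2,
      isU_inf.2 ⟨hU, hVM (B.coeff n).2⟩, (eq_div_iff hU.1).2 ?_⟩
    have h1 := congrArg (fun Q : M[X] => ((Q.coeff n : M) : K)) hAB
    simp only [T, coeff_sub, coeff_C_mul, coeff_map, coeff_zero] at h1
    exact sub_eq_zero.1 h1
  by_contra hn
  exact hdU.not_mx (tri_mx hO.1 huO hvO (fun n => by_contra fun h => hn (fin _ _ t0 n h))
    (fun n => by_contra fun h => hn (fin _ _ t1 n h))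
    fun n => by_contra fun h => hn (fin _ _ t2 n h))

theorem restr_aux [CharZero k] {ι : Type} {x y : ι → K} (h : Gen k x y) (c : ι → Bool) (s : Set ι)
    (t : Set ι) (ht : t.Finite) : ∀ O ∈ Pts (chartOn k x y c (s ∪ t)),
      O ⊓ (fld k x y s).toSubalgebra ∈ Pts (chartOn k x y c s) := by
  induction t, ht using Set.Finite.induction_on with
  | empty =>
    intro O hO
    rw [Set.union_empty] at hO
    have : O ≤ (fld k x y s).toSubalgebra := fun f hf => by
      obtain ⟨a, ha, d, hd, -, rfl⟩ := hO.2.2 f hf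
      exact (fld k x y s).div_mem (chartOn_le_fld c s ha) (chartOn_le_fld c s hd)
    rwa [inf_eq_left.2 this]
  | @insert j t _ _ ih =>
    intro O hO
    by_cases hj : j ∈ s ∪ t
    · rw [Set.union_insert, Set.insert_eq_of_mem hj] at hO
      exact ih O hO
    · rw [Set.union_insert, chartOn_insert] at hO
      have h1 := ih _ (restr1 (chartOn_le_fld c (s ∪ t)) (h.trans c hj) (h.cv_cube c j) hO)
      have h2 : (fld k x y s).toSubalgebra ≤ (fld k x y (s ∪ t)).toSubalgebra :=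
        fld_mono Set.subset_union_left
      rwa [inf_assoc, inf_eq_right.2 h2] at h1

end StepN

theorem restr_stmt : RestrStmt := by
  intro k K ι _ _ _ _ _ x y c s h O hO
  refine StepN.restr_aux h c s Set.univ Set.finite_univ O ?_
  rwa [Set.union_univ, chartOn_univ]

namespace StepN

variable {k K : Type} [Field k] [Field K] [Algebra k K]

/-- The generic point of the fibre over the closed point of `V`. -/
theorem exists_gauss [CharZero k] {V : Subalgebra k K} (hV : IsLocalRing V) {b : Bool} {u v : K}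
    (hu : Transcendental V u) (hv : v ^ 3 = gg b u) :
    ∃ G ∈ Pts (Algebra.adjoin k ((V : Set K) ∪ {u, v})), mx V ⊆ mx G ∧ IsU G u ∧
      ∀ a ∈ Algebra.adjoin k ((V : Set K) ∪ {u, v}), a ∈ mx G → ∃ A0 A1 A2 : V[X],
        (∀ n, (A0.coeff n : K) ∈ mx V) ∧ (∀ n, (A1.coeff n : K) ∈ mx V) ∧
        (∀ n, (A2.coeff n : K) ∈ mx V) ∧ a = aeval u A0 + aeval u A1 * v + aeval u A2 * v ^ 2 := by
  let κ := IsLocalRing.ResidueField V
  haveI : CharZero κ := charZero_of_injective_algebraMap (algebraMap k κ).injective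
  let Ω := AlgebraicClosure (RatFunc κ)
  let u' : Ω := algebraMap (RatFunc κ) Ω RatFunc.X
  have hu' : Transcendental κ u' :=
    (transcendental_algebraMap_iff (algebraMap (RatFunc κ) Ω).injective).2
      RatFunc.transcendental_X
  obtain ⟨v', hv'⟩ := IsAlgClosed.exists_pow_nat_eq (gg b u') (by norm_num : 0 < 3)
  let φ : V →ₐ[k] Ω := (IsScalarTower.toAlgHom k κ Ω).comp (resid V)
  obtain ⟨ψ, hψ⟩ := Step1.hom V b u v φ u' v' hu hv hv'
  obtain ⟨G, hG, ρ, hρ, hev⟩ := exists_ext ψ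
  have hmx : ∀ a (ha : a ∈ Algebra.adjoin k ((V : Set K) ∪ {u, v})), a ∈ mx G ↔ ψ ⟨a, ha⟩ = 0 :=
    fun a ha => by rw [← hρ.eq_zero_iff (hG.2.1 ha), hev a ha, evO_of_mem ψ ha]
  have hres : ∀ a : V, resid V a = 0 ↔ (a : K) ∈ mx V := fun a => by
    rw [← (resid_loc (O := V)).eq_zero_iff a.2, evO_coe]
  have he : ∀ A : V[X], eval₂RingHom φ.toRingHom u' A =
      aeval u' (A.map (resid V).toRingHom) := fun A => by
    rw [aeval_def, eval₂_map]; rfl
  refine ⟨G, hG, fun a ha => ?_, ?_, fun a ha hm => ?_⟩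
  · have h0 := hψ (C ⟨a, ha.1⟩, 0, 0) (Step1.tri_mem _ _ _ _)
    have h1 : Step1.tri (aeval u : V[X] →ₐ[V] K).toRingHom v (C (⟨a, ha.1⟩ : V), 0, 0) = a := by
      rw [Step1.tri_const]; simp
    rw [← h1, hmx _ (Step1.tri_mem _ _ _ _), h0, Step1.tri_const, he, map_C]
    have : (resid V).toRingHom ⟨a, ha.1⟩ = 0 := (hres ⟨a, ha.1⟩).2 ha
    rw [this]; simp
  · have h0 := hψ (X, 0, 0) (Step1.tri_mem _ _ _ _)
    have h1 : Step1.tri (aeval u : V[X] →ₐ[V] K).toRingHom v (X, 0, 0) = u := by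
      rw [Step1.tri_const]; simp
    refine isU_of_not_mx (hG.2.1 (Algebra.subset_adjoin (Or.inr (Or.inl rfl)))) fun hm => ?_
    rw [← h1, hmx _ (Step1.tri_mem _ _ _ _), h0, Step1.tri_const, he, map_X, aeval_X] at hm
    exact hu' (hm ▸ isAlgebraic_zero)
  · obtain ⟨A, rfl⟩ := Step1.rep V b u v hv a ha
    rw [hmx _ ha, hψ A ha, Step1.tri, he, he, he] at hm
    obtain ⟨t0, t1, t2⟩ := indep_stmt κ Ω b u' v' hu' hv' _ _ _ hm
    have fin : ∀ B : V[X], B.map (resid V).toRingHom = 0 → ∀ n, (B.coeff n : K) ∈ mx V :=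
      fun B hB n => (hres _).1 (by simpa using congrArg (fun Q : κ[X] => Q.coeff n) hB)
    exact ⟨A.1, A.2.1, A.2.2, fin _ t0, fin _ t1, fin _ t2, rfl⟩

/-- The ring of a place is a maximal proper subring, also inside a subfield. -/
theorem le_of_not_mem (P : Place k K) {M : IntermediateField k K} {G : Subalgebra k K}
    (h1 : plO P ⊓ M.toSubalgebra ≤ G) {g : K} (hg : g ∈ G) (hgM : g ∈ M) (hgP : g ∉ plO P)
    {f : K} (hf : f ∈ M) : f ∈ G := by
  by_cases hf0 : f = 0
  · exact hf0 ▸ G.zero_mem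
  have hg0 : g ≠ 0 := fun e => hgP (e ▸ Subalgebra.zero_mem _)
  have ho : P.ord g < 0 := not_le.1 fun h => hgP (FF.v_le_one_of_ord h)
  have h2 : f / g ^ (P.ord f).natAbs ∈ plO P := FF.v_le_one_of_ord (by
    rw [FF.ord_div P hf0 (pow_ne_zero _ hg0), FF.ord_pow]
    have h3 : -P.ord f ≤ ((P.ord f).natAbs : ℤ) := by omega
    nlinarith [Int.natCast_nonneg (P.ord f).natAbs])
  have h3 := G.mul_mem (h1 ⟨h2, M.div_mem hf (pow_mem hgM _)⟩) (G.pow_mem hg (P.ord f).natAbs)
  rwa [div_mul_cancel₀ _ (pow_ne_zero _ hg0)] at h3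

variable [CharZero k] {ι : Type} [Finite ι] {x y : ι → K}

/-- A place that is a point of the product and is nontrivial on the partial product is the
generic extension of its restriction. -/
theorem eq_gauss (h : Gen k x y) {P : Place k K} {c : ι → Bool}
    (hP : plO P ∈ Pts (chart x y c : Subalgebra k K)) {s : Set ι} (j : ι) {V G : Subalgebra k K}
    (hV : V = plO P ⊓ (fld k x y s).toSubalgebra) (hπ : ∃ f ∈ fld k x y s, f ∉ plO P)
    (hG : G ∈ Pts (Algebra.adjoin k ((V : Set K) ∪ {cu y c j, cv x y c j}))) (h1 : mx V ⊆ mx G)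
    (h2 : ∀ a ∈ Algebra.adjoin k ((V : Set K) ∪ {cu y c j, cv x y c j}), a ∈ mx G →
      ∃ A0 A1 A2 : V[X], (∀ n, (A0.coeff n : K) ∈ mx V) ∧ (∀ n, (A1.coeff n : K) ∈ mx V) ∧
        (∀ n, (A2.coeff n : K) ∈ mx V) ∧ a = aeval (cu y c j) A0 +
          aeval (cu y c j) A1 * cv x y c j + aeval (cu y c j) A2 * cv x y c j ^ 2) :
    plO P ⊓ (fld k x y (insert j s)).toSubalgebra = G := by
  have hR := restr_stmt k K ι x y c (insert j s) h _ hP
  have hcP : chartOn k x y c s ≤ plO P :=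
    (chartOn_mono c (Set.subset_univ s)).trans ((chartOn_univ c).le.trans hP.2.1)
  have hcV : chartOn k x y c s ≤ V := hV ▸ le_inf hcP (chartOn_le_fld c s)
  have hle : chartOn k x y c (insert j s) ≤
      Algebra.adjoin k ((V : Set K) ∪ {cu y c j, cv x y c j}) := by
    rw [chartOn_insert]; exact Algebra.adjoin_mono (Set.union_subset_union_left _ hcV)
  have hmV : ∀ a ∈ mx V, a ∈ mx (plO P) := fun a ha => (mx_inf.1 (hV ▸ ha)).1
  have hL : plO P ⊓ (fld k x y (insert j s)).toSubalgebra ≤ G := fun f hf => by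
    obtain ⟨a, ha, d, hd, hdU, rfl⟩ := hR.2.2 f hf
    refine (isU_of_not_mx (hG.2.1 (hle hd)) fun hm => ?_).div_mem (hG.2.1 (hle ha))
    obtain ⟨A0, A1, A2, t0, t1, t2, rfl⟩ := h2 d (hle hd) hm
    exact (isU_inf.1 hdU).1.not_mx (tri_mx hP.1 (hP.2.1 (cu_mem x y c j)) (hP.2.1 (cv_mem x y c j))
      (fun n => hmV _ (t0 n)) (fun n => hmV _ (t1 n)) fun n => hmV _ (t2 n))
  have hA : Algebra.adjoin k ((V : Set K) ∪ {cu y c j, cv x y c j}) ≤
      (fld k x y (insert j s)).toSubalgebra := Algebra.adjoin_le (by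
    rintro a (ha | rfl | rfl)
    · exact fld_mono (Set.subset_insert j s) (hV ▸ ha : a ∈ plO P ⊓ (fld k x y s).toSubalgebra).2
    · exact cu_mem_fld c (Set.mem_insert j s)
    · exact cv_mem_fld c (Set.mem_insert j s))
  refine le_antisymm hL fun g hg => ?_
  have hgM : g ∈ fld k x y (insert j s) := by
    obtain ⟨a, ha, d, hd, -, rfl⟩ := hG.2.2 g hg
    exact (fld k x y (insert j s)).div_mem (hA ha) (hA hd)
  refine ⟨by_contra fun hgP => ?_, hgM⟩
  obtain ⟨f, hf, hfP⟩ := hπ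
  have hf0 : f ≠ 0 := fun e => hfP (e ▸ Subalgebra.zero_mem _)
  have h3 : f⁻¹ ∈ mx G :=
    h1 (hV ▸ mx_inf.2 ⟨(plO_isVal P).inv_mx hfP, (fld k x y s).inv_mem hf⟩)
  exact h3.2 ⟨inv_ne_zero hf0, h3.1, by
    rw [inv_inv]; exact le_of_not_mem P hL hg hgM hgP (fld_mono (Set.subset_insert j s) hf)⟩

/-- The chart at the new index can be taken to be the finite one. -/
theorem exists_true (h : Gen k x y) {P : Place k K} (hP : plO P ∈ prodE k x y) {s : Set ι} {j : ι}
    (hj : j ∉ s) (hπ : ∃ f ∈ fld k x y s, f ∉ plO P) :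
    ∃ c : ι → Bool, c j = true ∧ plO P ∈ Pts (chart x y c : Subalgebra k K) := by
  classical
  obtain ⟨c, hc⟩ := mem_prodE.1 hP
  by_cases e : c j = true
  · exact ⟨c, e, hc⟩
  obtain ⟨G, hG, h1, hU, h2⟩ := exists_gauss (local_inf hc.1 (fld k x y s))
    (trans_of_le inf_le_right (h.trans c hj)) (h.cv_cube c j)
  rw [← eq_gauss h hc j rfl hπ hG h1 h2] at hU
  have hy : y j ∈ plO P := by simpa [cu, e] using (isU_inf.1 hU).1.2.2
  have hx : x j ∈ plO P := by
    have h3 := hc.2.1 (cv_mem x y c j)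
    simp only [cv, e] at h3
    simpa [h.y_ne j] using mul_mem h3 hy
  refine ⟨Function.update c j true, by simp, Pts_chart h hP (chart_le_iff.2 fun i => ?_)⟩
  by_cases hi : i = j
  · subst hi
    simpa [cu, cv] using ⟨hy, hx⟩
  · simpa [cu, cv, Function.update_of_ne hi] using chart_le_iff.1 hc.2.1 i

theorem uniq1 (h : Gen k x y) {P P' : Place k K} (hP : plO P ∈ prodE k x y)
    (hP' : plO P' ∈ prodE k x y) {s : Set ι} {j : ι} (hj : j ∉ s)
    (he : plO P ⊓ (fld k x y s).toSubalgebra = plO P' ⊓ (fld k x y s).toSubalgebra)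
    (hπ : ∃ f ∈ fld k x y s, f ∉ plO P) :
    plO P ⊓ (fld k x y (insert j s)).toSubalgebra =
      plO P' ⊓ (fld k x y (insert j s)).toSubalgebra := by
  have hπ' : ∃ f ∈ fld k x y s, f ∉ plO P' := by
    obtain ⟨f, hf, hfP⟩ := hπ
    exact ⟨f, hf, fun h' => hfP (he.ge ⟨h', hf⟩).1⟩
  obtain ⟨c, e, hc⟩ := exists_true h hP hj hπ
  obtain ⟨c', e', hc'⟩ := exists_true h hP' hj hπ'
  obtain ⟨G, hG, h1, -, h2⟩ := exists_gauss (local_inf hc.1 (fld k x y s))
    (trans_of_le inf_le_right (h.trans c hj)) (h.cv_cube c j)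
  have eu : cu y c j = cu y c' j := by simp [cu, e, e']
  have ev : cv x y c j = cv x y c' j := by simp [cv, e, e']
  rw [eq_gauss h hc j rfl hπ hG h1 h2]
  rw [eu, ev] at hG h2
  exact (eq_gauss h hc' j he hπ' hG h1 h2).symm

end StepN

theorem uniq_stmt : UniqStmt := by
  intro k K ι _ _ _ _ _ x y s P P' h hP hP' he hπ
  have key : ∀ t : Set ι, t.Finite → plO P ⊓ (fld k x y (s ∪ t)).toSubalgebra =
      plO P' ⊓ (fld k x y (s ∪ t)).toSubalgebra := by
    intro t ht
    induction t, ht using Set.Finite.induction_on with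
    | empty =>
      rw [Set.union_empty]
      ext f
      exact ⟨fun hf => ⟨(he f hf.2).1 hf.1, hf.2⟩, fun hf => ⟨(he f hf.2).2 hf.1, hf.2⟩⟩
    | @insert j t _ _ ih =>
      by_cases hj : j ∈ s ∪ t
      · rwa [Set.union_insert, Set.insert_eq_of_mem hj]
      · rw [Set.union_insert]
        obtain ⟨f, hf, hfP⟩ := hπ
        exact StepN.uniq1 h hP hP' hj ih ⟨f, fld_mono Set.subset_union_left hf, hfP⟩
  have := key Set.univ Set.finite_univ
  rw [Set.union_univ, fld_univ h] at this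
  exact plO_inj fun f hf => (this.le ⟨hf, trivial⟩).1

end Pool.Agent.MP_20d318_ag.AG

end MrgPart3

-- marker of a merged file
example : 731051 + 622250 = 731051 + 622250 := rfl

end MrgPart1

-- marker of a merged file
example : 731051 + 622250 = 731051 + 622250 := rfl
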