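import Mathlib.LinearAlgebra.DirectSum.Finite
import Mathlib.RingTheory.Polynomial.DegreeLT
import Mathlib.Tactic.Polynomial.Basic
import Pool.Agent.MP_20d318_ag.AG.Tools

/-! The see-saw argument for prime divisors of a product of elliptic curves. -/

set_option autoImplicit false
set_option linter.unusedSectionVars false

namespace Pool.Agent.MP_20d318_ag.AG

open Pool.Agent.MP_79c67d_ag Pool.Agent.MP_20d318_ag.Lat E Polynomial
open WeierstrassCurve.Affine WeierstrassCurve.Affine.CoordinateRing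

namespace See

section hor

variable {M : Type} [Field M]

theorem fin_quot (W : WeierstrassCurve.Affine M) {I : Ideal W.CoordinateRing} (hI : I ≠ ⊥) :
    Module.Finite M (W.CoordinateRing ⧸ I) :=
  Module.Finite.equiv (Ideal.quotientEquivDirectSum M (CoordinateRing.basis W) hI).symm

theorem max_of_prime (W : WeierstrassCurve.Affine M) {I : Ideal W.CoordinateRing} (hI : I ≠ ⊥)
    (hp : I.IsPrime) : I.IsMaximal := by
  have := fin_quot W hI
  exact Ideal.Quotient.maximal_of_isField I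
    (isField_of_isIntegral_of_isField' (R := M) (Field.toIsField M))

theorem small_elt (W : WeierstrassCurve.Affine M) {m : Ideal W.CoordinateRing} (hm : m ≠ ⊥) :
    ∃ f ∈ m, f ≠ 0 ∧ Module.finrank M (W.CoordinateRing ⧸ Ideal.span {f}) ≤
      Module.finrank M (W.CoordinateRing ⧸ m) + 1 := by
  have := fin_quot W hm
  obtain ⟨d, hd⟩ : ∃ d, d = Module.finrank M (W.CoordinateRing ⧸ m) := ⟨_, rfl⟩
  rw [← hd]
  let L : (degreeLT M ((d + 1) / 2 + 1) × degreeLT M (d / 2)) →ₗ[M] W.CoordinateRing :=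
    { toFun := fun z => z.1.1 • (1 : W.CoordinateRing) + z.2.1 • mk W X
      map_add' := fun z z' => by simp only [Prod.fst_add, Prod.snd_add, Submodule.coe_add, add_smul]; ring
      map_smul' := fun c z => by
        simp only [Prod.smul_fst, Prod.smul_snd, Submodule.coe_smul, RingHom.id_apply, smul_add,
          smul_assoc] }
  have hk : LinearMap.ker ((Ideal.Quotient.mkₐ M m).toLinearMap ∘ₗ L) ≠ ⊥ := by
    apply LinearMap.ker_ne_bot_of_finrank_lt
    rw [Module.finrank_prod, ← hd, (degreeLTEquiv M _).finrank_eq, (degreeLTEquiv M _).finrank_eq,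
      Module.finrank_fin_fun, Module.finrank_fin_fun]
    omega
  obtain ⟨⟨p, q⟩, hz, hz0⟩ := Submodule.exists_mem_ne_zero_of_ne_bot hk
  have hf0 : L (p, q) ≠ 0 := fun h => hz0 (by
    obtain ⟨h1, h2⟩ := smul_basis_eq_zero h
    exact Prod.ext (Subtype.ext h1) (Subtype.ext h2))
  refine ⟨L (p, q), Ideal.Quotient.eq_zero_iff_mem.1 hz, hf0, ?_⟩
  rw [finrank_quotient_span_eq_natDegree_norm (CoordinateRing.basis W) hf0,
    natDegree_le_iff_degree_le]
  refine (degree_norm_smul_basis p.1 q.1).trans_le (max_le ?_ ?_)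
  · have h1 := mem_degreeLT.1 p.2
    rcases eq_or_ne p.1 0 with h | h
    · simp [h]
    · rw [degree_eq_natDegree h] at h1 ⊢
      have h2 : p.1.natDegree < (d + 1) / 2 + 1 := by exact_mod_cast h1
      have h3 : 2 * p.1.natDegree ≤ d + 1 := by omega
      rw [nsmul_eq_mul]
      exact_mod_cast h3
  · have h1 := mem_degreeLT.1 q.2
    rcases eq_or_ne q.1 0 with h | h
    · simp [h]
    · rw [degree_eq_natDegree h] at h1 ⊢
      have h2 : q.1.natDegree < d / 2 := by exact_mod_cast h1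
      have h3 : 2 * q.1.natDegree + 3 ≤ d + 1 := by omega
      rw [nsmul_eq_mul]
      exact_mod_cast h3

theorem hor_ideal (W : WeierstrassCurve.Affine M) {m : Ideal W.CoordinateRing} (hm : m ≠ ⊥)
    (hp : m.IsPrime) : ∃ f ∈ m, f ≠ 0 ∧ ∀ n : Ideal W.CoordinateRing, n.IsPrime → f ∈ n →
      n = m ∨ ∀ z, ∃ c : M, z - algebraMap M _ c ∈ n := by
  obtain ⟨f, hf, hf0, hle⟩ := small_elt W hm
  refine ⟨f, hf, hf0, fun n hn hfn => (em (n = m)).imp_right fun hne z => ?_⟩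
  have hn0 : n ≠ ⊥ := fun h => hf0 (by simpa [h] using hfn)
  have := fin_quot W hm
  have := fin_quot W hn0
  have := fin_quot W (I := Ideal.span {f}) (by simpa using hf0)
  have h1 : Ideal.span {f} ≤ m := by simpa using hf
  have h2 : Ideal.span {f} ≤ n := by simpa using hfn
  obtain ⟨u, hu, v, hv, huv⟩ := Submodule.mem_sup.1
    (((max_of_prime W hm hp).coprime_of_ne (max_of_prime W hn0 hn) (Ne.symm hne)).ge
      (Submodule.mem_top (x := 1)))
  have hs : Function.Surjective (LinearMap.prod (Ideal.Quotient.factorₐ M h1).toLinearMap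
      (Ideal.Quotient.factorₐ M h2).toLinearMap) := by
    rintro ⟨a, b⟩
    obtain ⟨a, rfl⟩ := Ideal.Quotient.mk_surjective a
    obtain ⟨b, rfl⟩ := Ideal.Quotient.mk_surjective b
    refine ⟨Ideal.Quotient.mk _ (a * v + b * u), Prod.ext ?_ ?_⟩
    · refine Ideal.Quotient.eq.2 ?_
      rw [show a * v + b * u - a = (b - a) * u by linear_combination a * huv]
      exact m.mul_mem_left _ hu
    · refine Ideal.Quotient.eq.2 ?_
      rw [show a * v + b * u - b = (a - b) * v by linear_combination b * huv]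
      exact n.mul_mem_left _ hv
  have h3 := LinearMap.finrank_le_finrank_of_surjective hs
  rw [Module.finrank_prod] at h3
  have : Nontrivial (W.CoordinateRing ⧸ n) := Ideal.Quotient.nontrivial_iff.2 hn.ne_top
  have h4 : Module.finrank M (W.CoordinateRing ⧸ n) = 1 :=
    le_antisymm (by omega) Module.finrank_pos
  obtain ⟨c, hc⟩ := (finrank_eq_one_iff_of_nonzero' (1 : W.CoordinateRing ⧸ n) one_ne_zero).1 h4
    (Ideal.Quotient.mk n z)
  refine ⟨c, Ideal.Quotient.eq.1 ?_⟩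
  rw [← hc, ← Algebra.algebraMap_eq_smul_one]
  rfl

end hor

variable {k K : Type} [Field k] [Field K] [Algebra k K]

theorem Pts_ext {R O₁ O₂ : Subalgebra k K} (h1 : O₁ ∈ Pts R) (h2 : O₂ ∈ Pts R)
    (h : ∀ b ∈ R, b ∈ mx O₁ ↔ b ∈ mx O₂) : O₁ = O₂ := by
  refine le_antisymm (fun f hf => ?_) fun f hf => ?_
  · obtain ⟨a, ha, b, hb, hu, rfl⟩ := h1.2.2 f hf
    exact (isU_of_not_mx (h2.2.1 hb) fun h' => hu.not_mx ((h b hb).2 h')).div_mem (h2.2.1 ha)
  · obtain ⟨a, ha, b, hb, hu, rfl⟩ := h2.2.2 f hf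
    exact (isU_of_not_mx (h1.2.1 hb) fun h' => hu.not_mx ((h b hb).1 h')).div_mem (h1.2.1 ha)

/-- The prime ideal of a ring mapping to a local ring. -/
def pm {A : Type} [CommRing A] (θ : A →+* K) (O : Subalgebra k K) (hO : IsLocalRing O)
    (h : ∀ a, θ a ∈ O) : Ideal A where
  carrier := {a | θ a ∈ mx O}
  add_mem' ha hb := by simpa using mx_add hO ha hb
  zero_mem' := by simpa using zero_mem_mx
  smul_mem' c a ha := by simpa using mx_mul_left (h c) ha

theorem pm_prime {A : Type} [CommRing A] (θ : A →+* K) (O : Subalgebra k K) (hO : IsLocalRing O)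
    (h : ∀ a, θ a ∈ O) : (pm θ O hO h).IsPrime :=
  ⟨(Ideal.ne_top_iff_one _).2 fun h1 => one_not_mem_mx (O := O) (by simpa [pm] using h1),
    fun {a b} hab => mx_or_of_mul (h a) (h b) (by simpa [pm] using hab)⟩

end See

theorem hor_stmt : HorStmt := by
  intro k K _ _ _ _ M x y hy he O hO ⟨g, hg, hg0⟩
  have hx : Transcendental M x := fun h => hy (IsAlgebraic.of_pow (n := 2) two_pos
    (he ▸ (h.pow 3).add isAlgebraic_one))
  let θ : (Wc M).CoordinateRing →+* K := AdjoinRoot.lift (aeval x : M[X] →ₐ[M] K).toRingHom y (by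
    simp [WeierstrassCurve.Affine.polynomial, Wc, he, eval₂_pow])
  have hC : ∀ p : M[X], θ (mk (Wc M) (C p)) = aeval x p := fun p => AdjoinRoot.lift_of _
  have hY : θ (mk (Wc M) X) = y := AdjoinRoot.lift_root _
  have hc : ∀ c : M, θ (algebraMap M _ c) = c := fun c => by
    rw [IsScalarTower.algebraMap_apply M M[X]]
    exact (hC _).trans (aeval_C x c)
  have hb : ∀ p q : M[X], θ (p • 1 + q • mk (Wc M) X) = aeval x p + aeval x q * y := fun p q => by
    rw [smul, smul, map_add, map_mul, map_mul, hC, hC, hY, map_one, mul_one]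
  have hinj : ∀ a, θ a = 0 → a = 0 := fun a ha => by
    obtain ⟨p, q, rfl⟩ := exists_smul_basis_eq a
    rw [hb] at ha
    have h1 : Algebra.norm M[X] (p • (1 : (Wc M).CoordinateRing) + q • mk (Wc M) X) = 0 := by
      refine (transcendental_iff.1 hx) _ ?_
      rw [norm_smul_basis]
      simp only [Wc, map_zero, zero_mul, add_zero, mul_zero, sub_zero, map_one, map_sub, map_mul,
        map_pow, map_add, aeval_X]
      linear_combination (aeval x p - aeval x q * y) * ha + aeval x q ^ 2 * he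
    have := Module.Finite.of_basis (CoordinateRing.basis (Wc M))
    exact Algebra.norm_eq_zero_iff.1 h1
  obtain ⟨R, hR⟩ : ∃ R, R = Algebra.adjoin k ((M : Set K) ∪ {y, x}) := ⟨_, rfl⟩
  have hM : ∀ c : M, (c : K) ∈ R := fun c => hR ▸ Algebra.subset_adjoin (Or.inl c.2)
  have hxR : x ∈ R := hR ▸ Algebra.subset_adjoin (Or.inr (Or.inr rfl))
  have hyR : y ∈ R := hR ▸ Algebra.subset_adjoin (Or.inr (Or.inl rfl))
  have hp : ∀ p : M[X], aeval x p ∈ R := fun p => by
    rw [aeval_eq_sum_range]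
    exact sum_mem fun i _ => by
      rw [Algebra.smul_def]; exact mul_mem (hM _) (pow_mem hxR i)
  have h1 : ∀ a, θ a ∈ R := fun a => by
    obtain ⟨p, q, rfl⟩ := exists_smul_basis_eq a
    rw [hb]; exact add_mem (hp p) (mul_mem (hp q) hyR)
  have h2 : ∀ f ∈ R, ∃ a, θ a = f := fun f hf => by
    rw [hR] at hf
    induction hf using Algebra.adjoin_induction with
    | mem a ha =>
      rcases ha with ha | rfl | rfl
      · exact ⟨_, hc ⟨a, ha⟩⟩
      · exact ⟨_, hY⟩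
      · exact ⟨_, (hC X).trans (aeval_X _)⟩
    | algebraMap c => exact ⟨_, hc (algebraMap k M c)⟩
    | add a b _ _ ha hb =>
      obtain ⟨a, rfl⟩ := ha
      obtain ⟨b, rfl⟩ := hb
      exact ⟨a + b, map_add _ _ _⟩
    | mul a b _ _ ha hb =>
      obtain ⟨a, rfl⟩ := ha
      obtain ⟨b, rfl⟩ := hb
      exact ⟨a * b, map_mul _ _ _⟩
  rw [← hR] at hO ⊢
  have hm : See.pm θ O hO.1 (fun a => hO.2.1 (h1 a)) ≠ ⊥ := fun h => by
    obtain ⟨a, ha, b, hb, hu, rfl⟩ := hO.2.2 g hg.1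
    obtain ⟨a, rfl⟩ := h2 a ha
    have h3 : a ∈ See.pm θ O hO.1 fun a => hO.2.1 (h1 a) := by
      have := mx_mul_right hg hu.2.1
      rwa [div_mul_cancel₀ _ hu.1] at this
    rw [h, Ideal.mem_bot] at h3
    simp [h3] at hg0
  obtain ⟨f, hf, hf0, hn⟩ := See.hor_ideal (Wc M) hm (See.pm_prime _ _ _ _)
  refine ⟨θ f, h1 f, fun h => hf0 (hinj f h), hf, fun O' hO' hf' => ?_⟩
  refine (hn _ (See.pm_prime θ O' hO'.1 fun a => hO'.2.1 (h1 a)) hf').imp (fun h => ?_) fun h => ?_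
  · refine See.Pts_ext hO' hO fun b hb => ?_
    obtain ⟨b, rfl⟩ := h2 b hb
    exact SetLike.ext_iff.1 h b
  · obtain ⟨a, ha⟩ := h (mk (Wc M) (C X))
    obtain ⟨b, hb⟩ := h (mk (Wc M) X)
    have ha' : x - a ∈ mx O' := by
      have : θ _ ∈ mx O' := ha
      rwa [map_sub, hC, hc, aeval_X] at this
    have hb' : y - b ∈ mx O' := by
      have : θ _ ∈ mx O' := hb
      rwa [map_sub, hY, hc] at this
    refine ⟨a, a.2, b, b.2, by_contra fun hne => ?_, ha', hb'⟩
    have ha1 := hO'.2.1 (hM a)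
    have hx1 := hO'.2.1 hxR
    have h3 : ((b ^ 2 - (a ^ 3 + 1) : M) : K) ∈ mx O' := by
      have := mx_sub' hO'.1 (mx_mul_right ha' (add_mem (add_mem (pow_mem hx1 2) (mul_mem hx1 ha1))
        (pow_mem ha1 2))) (mx_mul_right hb' (add_mem (hO'.2.1 hyR) (hO'.2.1 (hM b))))
      have e : ((b ^ 2 - (a ^ 3 + 1) : M) : K) =
          (x - a) * (x ^ 2 + x * a + a ^ 2) - (y - b) * (y + b) := by
        push_cast; linear_combination he
      exact e ▸ this
    refine h3.2 ⟨by push_cast; exact sub_ne_zero.2 hne, h3.1, ?_⟩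
    exact hO'.2.1 (hM (b ^ 2 - (a ^ 3 + 1))⁻¹)

namespace See

variable {k K ι : Type} [Field k] [CharZero k] [Field K] [CharZero K] [Algebra k K] [Finite ι]
  {x y : ι → K} {O O₁ O₂ : Subalgebra k K}

theorem key {D : Type} [DecidableEq D] (T : Submodule ℚ (D → ℚ)) {ψ : D → ℚ} (hψ : ψ ∈ T)
    (hfin : {P | ψ P ≠ 0}.Finite) {P : D} (hP : ψ P ≠ 0)
    (h : ∀ P', P' ≠ P → ψ P' ≠ 0 → Pi.single P' 1 ∈ T) : Pi.single P 1 ∈ T := by
  have e : (Pi.single P 1 : D → ℚ) =
      (ψ P)⁻¹ • (ψ - ∑ P' ∈ hfin.toFinset.erase P, ψ P' • (Pi.single P' 1 : D → ℚ)) := by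
    funext Q
    simp only [Pi.smul_apply, Pi.sub_apply, Finset.sum_apply, Pi.single_apply, smul_eq_mul, mul_ite,
      mul_one, mul_zero, Finset.sum_ite_eq, Finset.mem_erase, Set.Finite.mem_toFinset,
      Set.mem_ofPred_eq]
    by_cases h1 : Q = P
    · simp [h1, hP]
    · by_cases h2 : ψ Q = 0 <;> simp [h1, h2]
  rw [e]
  refine T.smul_mem _ (T.sub_mem hψ (T.sum_mem fun P' hP' => T.smul_mem _ ?_))
  rw [Finset.mem_erase, Set.Finite.mem_toFinset] at hP'
  exact h P' hP'.1 hP'.2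

theorem fin_supp (hF : FracStmt) (hP : PoleStmt) (h : Gen k x y) (f : K) :
    {P : {P : Place k K // plO P ∈ prodE k x y} | P.1.ord f ≠ 0}.Finite := by
  refine ((Set.finite_iUnion fun c : ι → Bool => hP k K _ (chart_gen_finite x y c)
    (hF k K ι x y c h) f).preimage Subtype.val_injective.injOn).subset fun P hP => ?_
  obtain ⟨c, hc⟩ := mem_prodE.1 P.2
  exact Set.mem_iUnion.2 ⟨c, hc, hP⟩

theorem mx_inf {N : IntermediateField k K} {g : K} :
    g ∈ mx (O ⊓ N.toSubalgebra) ↔ g ∈ mx O ∧ g ∈ N :=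
  ⟨fun h => ⟨⟨h.1.1, fun hu => h.2 ⟨hu.1, h.1, hu.2.2, (N.inv_mem h.1.2 : g⁻¹ ∈ N)⟩⟩, h.1.2⟩,
    fun h => ⟨⟨h.1.1, h.2⟩, fun hu => h.1.2 (hu.mono inf_le_left)⟩⟩

theorem eq_zero_of_mx {N : IntermediateField k K} (h : N.toSubalgebra ≤ O) {g : K} (hg : g ∈ N)
    (hm : g ∈ mx O) : g = 0 :=
  by_contra fun h0 => hm.2 ⟨h0, hm.1, h (show g⁻¹ ∈ N from inv_mem hg)⟩

theorem rat_eq {M : IntermediateField k K} {u v u0 v0 : K} (hu : u0 ∈ M) (hv : v0 ∈ M)
    (h1 : O₁ ∈ Pts (Algebra.adjoin k ((M : Set K) ∪ {u, v})))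
    (h2 : O₂ ∈ Pts (Algebra.adjoin k ((M : Set K) ∪ {u, v})))
    (a1 : u - u0 ∈ mx O₁) (b1 : v - v0 ∈ mx O₁) (a2 : u - u0 ∈ mx O₂) (b2 : v - v0 ∈ mx O₂) :
    O₁ = O₂ := by
  have hM : M.toSubalgebra ≤ Algebra.adjoin k ((M : Set K) ∪ {u, v}) := fun a ha =>
    Algebra.subset_adjoin (Or.inl ha)
  have h3 : ∀ b ∈ Algebra.adjoin k ((M : Set K) ∪ {u, v}),
      ∃ m ∈ M, b - m ∈ mx O₁ ∧ b - m ∈ mx O₂ := fun b hb => by
    induction hb using Algebra.adjoin_induction with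
    | mem a ha =>
      rcases ha with ha | rfl | rfl
      · exact ⟨a, ha, by simpa using ⟨zero_mem_mx, zero_mem_mx⟩⟩
      · exact ⟨u0, hu, a1, a2⟩
      · exact ⟨v0, hv, b1, b2⟩
    | algebraMap c => exact ⟨_, M.algebraMap_mem c, by simpa using ⟨zero_mem_mx, zero_mem_mx⟩⟩
    | add a b _ _ ha hb =>
      obtain ⟨m, hm, c1, c2⟩ := ha
      obtain ⟨n, hn, d1, d2⟩ := hb
      rw [show a + b = a + b from rfl]
      refine ⟨m + n, add_mem hm hn, ?_⟩
      rw [add_sub_add_comm]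
      exact ⟨mx_add h1.1 c1 d1, mx_add h2.1 c2 d2⟩
    | mul a b ha' _ ha hb =>
      obtain ⟨m, hm, c1, c2⟩ := ha
      obtain ⟨n, hn, d1, d2⟩ := hb
      refine ⟨m * n, mul_mem hm hn, ?_⟩
      rw [show a * b - m * n = a * (b - n) + (a - m) * n by ring]
      exact ⟨mx_add h1.1 (mx_mul_left (h1.2.1 ha') d1) (mx_mul_right c1 (h1.2.1 (hM hn))),
        mx_add h2.1 (mx_mul_left (h2.2.1 ha') d2) (mx_mul_right c2 (h2.2.1 (hM hn)))⟩
  refine Pts_ext h1 h2 fun b hb => ?_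
  obtain ⟨m, hm, c1, c2⟩ := h3 b hb
  refine ⟨fun h => ?_, fun h => ?_⟩
  · have := eq_zero_of_mx (hM.trans h1.2.1) hm (by simpa using mx_sub' h1.1 h c1)
    simpa [this] using c2
  · have := eq_zero_of_mx (hM.trans h2.2.1) hm (by simpa using mx_sub' h2.1 h c2)
    simpa [this] using c1

theorem lev_pts (hR : RestrStmt) (h : Gen k x y) {P : Place k K} (hP : plO P ∈ prodE k x y)
    {s : Set ι} (hs : (fld k x y s).toSubalgebra ≤ plO P) (j : ι) (b : Bool)
    (hu : cu y (fun _ => b) j ∈ plO P) (hv : cv x y (fun _ => b) j ∈ plO P) :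
    plO P ⊓ (fld k x y (insert j s)).toSubalgebra ∈ Pts (Algebra.adjoin k
      ((fld k x y s : Set K) ∪ {cu y (fun _ => b) j, cv x y (fun _ => b) j})) := by
  classical
  obtain ⟨c, hc⟩ := exists_chart_le h (plO_isVal P)
  have e1 : cu y (Function.update c j b) j = cu y (fun _ => b) j := by simp [cu]
  have e2 : cv x y (Function.update c j b) j = cv x y (fun _ => b) j := by simp [cv]
  have h1 : chart x y (Function.update c j b) ≤ plO P := chart_le_iff.2 fun i => by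
    by_cases e : i = j
    · subst e; rw [e1, e2]; exact ⟨hu, hv⟩
    · simpa [cu, cv, e] using chart_le_iff.1 hc i
  refine Pts_of_le (hR k K ι x y _ (insert j s) h _ (Pts_chart h hP h1)) ?_ (Algebra.adjoin_le ?_)
  · rw [chartOn_insert, e1, e2]
    exact Algebra.adjoin_mono (Set.union_subset_union_left _ (chartOn_le_fld _ s))
  · rintro a (ha | rfl | rfl)
    · exact ⟨hs ha, fld_mono (Set.subset_insert j s) ha⟩
    · exact ⟨hu, cu_mem_fld _ (Set.mem_insert j s)⟩
    · exact ⟨hv, cv_mem_fld _ (Set.mem_insert j s)⟩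

theorem uniq (hU : UniqStmt) (h : Gen k x y) {P P' : Place k K} (hP : plO P ∈ prodE k x y)
    (hP' : plO P' ∈ prodE k x y) {s : Set ι} (hs : ¬ (fld k x y s).toSubalgebra ≤ plO P)
    (e : plO P ⊓ (fld k x y s).toSubalgebra = plO P' ⊓ (fld k x y s).toSubalgebra) : P = P' :=
  hU k K ι x y s P P' h hP hP' (fun f hf => ⟨fun h1 => (e.le ⟨h1, hf⟩).1, fun h1 => (e.ge ⟨h1, hf⟩).1⟩)
    (by simpa [SetLike.le_def] using hs)

theorem add_mem_fld {N : IntermediateField k K} {P Q : E K} (hP : P.X ∈ N ∧ P.Y ∈ N)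
    (hQ : Q.X ∈ N ∧ Q.Y ∈ N) : (P + Q).Y ∈ N := by
  by_cases h1 : P = 0
  · simpa [h1] using hQ.2
  by_cases h2 : Q = 0
  · simpa [h2] using hP.2
  by_cases h3 : P + Q = 0
  · simp [h3]
  have h4 : sl P Q ∈ N := by
    unfold sl; split_ifs
    · exact div_mem (mul_mem (ofNat_mem N 3) (pow_mem hP.1 2)) (mul_mem (ofNat_mem N 2) hP.2)
    · exact div_mem (sub_mem hP.2 hQ.2) (sub_mem hP.1 hQ.1)
  rw [Y_add h1 h2 h3, X_add h1 h2 h3]
  exact neg_mem (add_mem (mul_mem h4 (sub_mem (sub_mem (sub_mem (pow_mem h4 2) hP.1) hQ.1) hP.1))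
    hP.2)

instance loc (P : Place k K) : IsLocalRing (plO P) := (plO_isVal P).isLocalRing

instance cz (P : Place k K) : CharZero (IsLocalRing.ResidueField (plO P)) :=
  charZero_of_injective_algebraMap (algebraMap k _).injective

/-- The reduction of a point at a place. -/
noncomputable def rs (P : Place k K) (Q : E K) : E (IsLocalRing.ResidueField (plO P)) :=
  res (plO P) (resid (plO P)) Q

theorem rs_sub (hR : RedStmt) (P : Place k K) (Q Q' : E K) : rs P (Q - Q') = rs P Q - rs P Q' := by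
  rw [sub_eq_add_neg, sub_eq_add_neg, rs, hR k K _ _ _ (plO_isVal P) resid_loc, res_neg]; rfl

theorem rs_eq_zero (P : Place k K) (Q : E K) :
    rs P Q = 0 ↔ Q.ss ∈ mx (plO P) ∧ (Q = 0 ∨ Q.Y ≠ 0) := by
  simpa [rs] using res_eq_fx resid_loc ((plO_isVal P).reg Q) 0

theorem tt_mx {P : Place k K} {Q : E K} (h : rs P Q = 0) : Q.tt ∈ mx (plO P) :=
  (((plO_isVal P).reg Q).resolve_left ((res_eq_zero _).1 h)).1

theorem lev_eq (hU : UniqStmt) (hR : RestrStmt) (h : Gen k x y) {P P' : Place k K}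
    (hP : plO P ∈ prodE k x y) (hP' : plO P' ∈ prodE k x y) {s : Set ι} {j : ι}
    (h1 : (fld k x y s).toSubalgebra ≤ plO P) (h1' : (fld k x y s).toSubalgebra ≤ plO P')
    (h2 : ¬ (fld k x y (insert j s)).toSubalgebra ≤ plO P) {Q : E K}
    (hQ : Q.X ∈ fld k x y s ∧ Q.Y ∈ fld k x y s) (e : rs P (zz x y j) = rs P Q)
    (e' : rs P' (zz x y j) = rs P' Q) : P = P' := by
  have hj := Set.mem_insert j s
  have hs : fld k x y s ≤ fld k x y (insert j s) := fld_mono (Set.subset_insert j s)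
  refine uniq hU h hP hP' h2 ?_
  by_cases h0 : Q = 0
  · have H : ∀ P : Place k K, rs P (zz x y j) = rs P Q →
        sc y j ∈ mx (plO P) ∧ tc x y j ∈ mx (plO P) := fun P e => by
      rw [h0, rs, rs, res_zero] at e
      exact ⟨h.zz_ss j ▸ ((rs_eq_zero P _).1 e).1, h.zz_tt j ▸ tt_mx e⟩
    obtain ⟨a1, a2⟩ := H P e
    obtain ⟨b1, b2⟩ := H P' e'
    have m1 : sc y j ∈ fld k x y (insert j s) := cu_mem_fld (fun _ => false) hj
    have m2 : tc x y j ∈ fld k x y (insert j s) := cv_mem_fld (fun _ => false) hj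
    refine rat_eq (zero_mem _) (zero_mem _) (lev_pts hR h hP h1 j false a1.1 a2.1)
      (lev_pts hR h hP' h1' j false b1.1 b2.1) ?_ ?_ ?_ ?_ <;> rw [sub_zero]
    exacts [mx_inf.2 ⟨a1, m1⟩, mx_inf.2 ⟨a2, m2⟩, mx_inf.2 ⟨b1, m1⟩, mx_inf.2 ⟨b2, m2⟩]
  · have H : ∀ P : Place k K, (fld k x y s).toSubalgebra ≤ plO P → rs P (zz x y j) = rs P Q →
        y j ∈ plO P ∧ x j ∈ plO P ∧ y j - Q.Y ∈ mx (plO P) ∧ x j - Q.X ∈ mx (plO P) := by
      intro P h1 e
      obtain ⟨c1, c2, c3⟩ := res_of (resid (plO P)) ⟨h0, h1 hQ.1, h1 hQ.2⟩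
      have h3 : zz x y j ≠ 0 ∧ (zz x y j).X ∈ plO P ∧ (zz x y j).Y ∈ plO P :=
        by_contra fun hn => c1 (e.symm.trans ((res_eq_zero _).2 hn))
      obtain ⟨-, d2, d3⟩ := res_of (resid (plO P)) h3
      rw [h.zz_X, h.zz_Y] at *
      refine ⟨h3.2.2, h3.2.1, ?_, ?_⟩
      · rw [← resid_loc.eq_zero_iff (sub_mem h3.2.2 (h1 hQ.2)), evO_sub _ h3.2.2 (h1 hQ.2), ← d3, ← c3]
        exact sub_eq_zero.2 (congrArg E.Y e)
      · rw [← resid_loc.eq_zero_iff (sub_mem h3.2.1 (h1 hQ.1)), evO_sub _ h3.2.1 (h1 hQ.1), ← d2, ← c2]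
        exact sub_eq_zero.2 (congrArg E.X e)
    obtain ⟨a1, a2, a3, a4⟩ := H P h1 e
    obtain ⟨b1, b2, b3, b4⟩ := H P' h1' e'
    have m1 := sub_mem (y_mem_fld (k := k) (x := x) (y := y) hj) (hs hQ.2)
    have m2 := sub_mem (x_mem_fld (k := k) (x := x) (y := y) hj) (hs hQ.1)
    exact rat_eq hQ.2 hQ.1 (lev_pts hR h hP h1 j true a1 a2) (lev_pts hR h hP' h1' j true b1 b2)
      (mx_inf.2 ⟨a3, m1⟩) (mx_inf.2 ⟨a4, m2⟩) (mx_inf.2 ⟨b3, m1⟩) (mx_inf.2 ⟨b4, m2⟩)

end See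

open Classical in
theorem see_stmt (hH : HorStmt) (hU : UniqStmt) (hR : RestrStmt) (hF : FracStmt) (hP : PoleStmt)
    (hRed : RedStmt) : SeeStmt := by
  intro k K ι _ _ _ _ _ _ x y h T hT1 hT2
  have main : ∀ s : Set ι, ∀ P : {P : Place k K // plO P ∈ prodE k x y},
      ¬ (fld k x y s).toSubalgebra ≤ plO P.1 → Pi.single P 1 ∈ T := by
    intro s
    induction s, Set.toFinite s using Set.Finite.induction_on with
    | empty => exact fun P hn => absurd (by rw [fld_empty]; exact bot_le) hn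
    | @insert j s hj _ ih =>
    have hj' := Set.mem_insert j s
    have hs : fld k x y s ≤ fld k x y (insert j s) := fld_mono (Set.subset_insert j s)
    have rat : ∀ P : {P : Place k K // plO P ∈ prodE k x y},
        (fld k x y s).toSubalgebra ≤ plO P.1 → ¬ (fld k x y (insert j s)).toSubalgebra ≤ plO P.1 →
        ∀ Q : E K, Q.X ∈ fld k x y s ∧ Q.Y ∈ fld k x y s →
          See.rs P.1 (zz x y j) = See.rs P.1 Q → Pi.single P 1 ∈ T := by
      intro P h1 h2 Q hQ e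
      have hne : zz x y j - Q ≠ 0 := fun h0 => h.trans_y hj (by
        rw [← h.zz_Y j, sub_eq_zero.1 h0]
        exact isAlgebraic_algebraMap (⟨_, hQ.2⟩ : fld k x y s))
      have hY : (zz x y j - Q).Y ∈ fld k x y (insert j s) := by
        rw [sub_eq_add_neg]
        refine See.add_mem_fld ?_ ?_
        · rw [h.zz_X, h.zz_Y]; exact ⟨x_mem_fld hj', y_mem_fld hj'⟩
        · rw [X_neg, Y_neg]; exact ⟨hs hQ.1, neg_mem (hs hQ.2)⟩
      have hr := fun P : Place k K => See.rs_sub hRed P (zz x y j) Q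
      generalize zz x y j - Q = Z at *
      have e0 : See.rs P.1 Z = 0 := by rw [hr, e, sub_self]
      obtain ⟨a1, a2⟩ := (See.rs_eq_zero _ _).1 e0
      have hY0 := a2.resolve_left hne
      have ht : Z.tt ≠ 0 := fun h0 => by
        have h3 := Z.tt_cube
        rw [h0] at h3
        have h4 : Z.ss ^ 2 = 1 := mul_left_cancel₀ (show Z.ss ≠ 0 from inv_ne_zero hY0)
          (by linear_combination h3)
        have h5 := mx_pow a1 two_ne_zero
        rw [h4] at h5
        exact one_not_mem_mx h5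
      refine See.key T (hT2 Z hY0) ((See.fin_supp hF hP h Z.tt).subset fun P' hP' => ?_) ?_ ?_
      · intro h0
        refine hP' ?_
        unfold ec; split_ifs <;> simp [h0]
      · rw [ec, if_pos (by simpa using a1)]
        exact_mod_cast ((FF.v_lt_one_iff _ ht).1 ((mem_mx_plO _).1 (See.tt_mx e0))).ne'
      · intro P' hne' hP'
        have b1 : Z.ss ∈ mx (plO P'.1) := by_contra fun hn => hP' (by
          rw [ec, if_neg (by simpa using hn)]; simp)
        refine ih P' fun h3 => hne' (Subtype.ext (See.lev_eq hU hR h P.2 P'.2 h1 h3 h2 hQ e ?_).symm)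
        rw [← sub_eq_zero, ← hr]
        exact (See.rs_eq_zero _ _).2 ⟨b1, a2⟩
    have rat0 : ∀ P : {P : Place k K // plO P ∈ prodE k x y},
        (fld k x y s).toSubalgebra ≤ plO P.1 → y j ∉ plO P.1 → Pi.single P 1 ∈ T := fun P h1 h2 =>
      rat P h1 (fun h3 => h2 (h3 (y_mem_fld hj'))) 0 (by simp) (by
        rw [See.rs, See.rs, res_zero, res_eq_zero, h.zz_Y]
        exact fun h3 => h2 h3.2.2)
    have hx : ∀ P : Place k K, y j ∈ plO P → x j ∈ plO P := fun P h1 =>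
      (plO_isVal P).nrm.of_pow (n := 3) (by norm_num) (by
        rw [show x j ^ 3 = y j ^ 2 - 1 by linear_combination - h.eq j]
        exact sub_mem (pow_mem h1 2) (one_mem _))
    intro P h2
    by_cases h1 : ¬ (fld k x y s).toSubalgebra ≤ plO P.1
    · exact ih P h1
    rw [not_not] at h1
    by_cases hy : y j ∉ plO P.1
    · exact rat0 P h1 hy
    rw [not_not] at hy
    obtain ⟨g, hg, hg'⟩ := SetLike.not_le_iff_exists.1 h2
    obtain ⟨f, hf, hf0, hfm, hfo⟩ := hH k K (fld k x y s) (x j) (y j) (h.trans_y hj) (h.eq j) _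
      (See.lev_pts hR h P.2 h1 j true hy (hx _ hy))
      ⟨g⁻¹, See.mx_inf.2 ⟨(plO_isVal _).inv_mx hg', inv_mem (show g ∈ fld k x y _ from hg)⟩,
        inv_ne_zero fun h0 => hg' (h0 ▸ zero_mem _)⟩
    obtain ⟨a1, a2⟩ := See.mx_inf.1 hfm
    refine See.key T (hT1 f hf0) ((See.fin_supp hF hP h f).subset fun P' hP' => by simpa using hP')
      ?_ fun P' hne hP' => ?_
    · exact_mod_cast ((FF.v_lt_one_iff _ hf0).1 ((mem_mx_plO _).1 a1)).ne'
    have hnu : ¬ IsU (plO P'.1) f := fun hu => hP' (by simp [((isU_plO' _).1 hu).2])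
    have h2' : ¬ (fld k x y (insert j s)).toSubalgebra ≤ plO P'.1 := fun h3 =>
      hnu ⟨hf0, h3 a2, h3 (show f⁻¹ ∈ fld k x y _ from inv_mem a2)⟩
    by_cases h1' : ¬ (fld k x y s).toSubalgebra ≤ plO P'.1
    · exact ih P' h1'
    rw [not_not] at h1'
    by_cases hy' : y j ∉ plO P'.1
    · exact rat0 P' h1' hy'
    rw [not_not] at hy'
    have h4 := See.lev_pts hR h P'.2 h1' j true hy' (hx _ hy')
    rcases hfo _ h4 (See.mx_inf.2 ⟨⟨(h4.2.1 hf).1, hnu⟩, a2⟩) with e | ⟨a, ha, b, hb, e, c1, c2⟩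
    · exact absurd (Subtype.ext (See.uniq hU h P'.2 P.2 h2' e)) hne
    · refine rat P' h1' h2' (E.mk a b) (by rw [X_mk e, Y_mk e]; exact ⟨ha, hb⟩) ?_
      obtain ⟨d1, d2, d3⟩ := res_of (resid (plO P'.1)) (Q := zz x y j)
        ⟨h.zz_ne j, by rw [h.zz_X]; exact hx _ hy', by rwa [h.zz_Y]⟩
      obtain ⟨e1, e2, e3⟩ := res_of (resid (plO P'.1)) (Q := E.mk a b)
        ⟨mk_ne e, by rw [X_mk e]; exact h1' ha, by rw [Y_mk e]; exact h1' hb⟩
      refine ext' d1 e1 (d2.trans (Eq.trans ?_ e2.symm)) (d3.trans (Eq.trans ?_ e3.symm))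
      · rw [h.zz_X, X_mk e, ← sub_eq_zero, ← evO_sub _ (hx _ hy') (h1' ha),
          resid_loc.eq_zero_iff (sub_mem (hx _ hy') (h1' ha))]
        exact (See.mx_inf.1 c1).1
      · rw [h.zz_Y, Y_mk e, ← sub_eq_zero, ← evO_sub _ hy' (h1' hb),
          resid_loc.eq_zero_iff (sub_mem hy' (h1' hb))]
        exact (See.mx_inf.1 c2).1
  refine fun P => main Set.univ P fun h1 => plO_ne_top P.1 (top_le_iff.1 ?_)
  rwa [fld_univ h] at h1

end Pool.Agent.MP_20d318_ag.AG
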